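import Pool.Agent.P.MP_1ec91f_co.Lower

/-!
Block extensions that keep the inertia, and heights of rational numbers.
-/

open Finset Matrix Module

set_option linter.unusedSectionVars false

namespace Pool.Agent.P.MP_1ec91f_co

variable {V Y : Type} [Fintype V] [DecidableEq V] [Fintype Y] [DecidableEq Y] {k : ℕ}

/-- The support relation of a matrix. -/
def Sup (M : Matrix V V ℝ) (s t : V) : Prop := s ≠ t ∧ M s t ≠ 0

/-- At most one positive eigenvalue, kernel of dimension at least `k`, connected support. -/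
structure Gd (k : ℕ) (M : Matrix V V ℝ) : Prop where
  symm : Mᵀ = M
  npos : ∃ a : V → ℝ, ∀ x, a ⬝ᵥ x = 0 → x ⬝ᵥ M *ᵥ x ≤ 0
  ker : k ≤ finrank ℝ (LinearMap.ker M.mulVecLin)
  conn : ∀ u v, Relation.ReflTransGen (Sup M) u v

/-- The block extension. -/
def bext (M : Matrix V V ℝ) (E : Matrix Y V ℝ) (R C : Matrix Y Y ℝ) :
    Matrix (V ⊕ Y) (V ⊕ Y) ℝ := fromBlocks (M - Eᵀ * R * E) Eᵀ E (-C)

variable {M : Matrix V V ℝ} {E : Matrix Y V ℝ} {R C : Matrix Y Y ℝ}

lemma bext_ll (u v : V) : bext M E R C (.inl u) (.inl v) = M u v - (Eᵀ * R * E) u v := rfl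

lemma bext_lr (u : V) (y : Y) : bext M E R C (.inl u) (.inr y) = E y u := rfl

lemma bext_rl (u : V) (y : Y) : bext M E R C (.inr y) (.inl u) = E y u := rfl

lemma bext_rr (y y' : Y) : bext M E R C (.inr y) (.inr y') = -C y y' := rfl

lemma conj_diag (r : Y → ℝ) (u v : V) :
    (Eᵀ * diagonal r * E) u v = ∑ y, E y u * r y * E y v := by
  simp [Matrix.mul_apply, diagonal_apply]

omit [DecidableEq V] in
lemma Gd.sym (h : Gd k M) (u v : V) : M u v = M v u := by
  conv_lhs => rw [← h.symm]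
  rfl

theorem Gd.bext (h : Gd k M) (hR : Rᵀ = R) (hC : Cᵀ = C) (hCR : C * R = 1)
    (hpsd : ∀ y, 0 ≤ y ⬝ᵥ C *ᵥ y) (hE : ∀ y, ∃ u, E y u ≠ 0)
    (hs : ∀ y y', y ≠ y' → R y y' ≠ 0 → C y y' ≠ 0) : Gd k (bext M E R C) := by
  have hmul : ∀ (x : V → ℝ) (y : Y → ℝ), (Pool.Agent.P.MP_1ec91f_co.bext M E R C) *ᵥ Sum.elim x y
      = Sum.elim (M *ᵥ x + Eᵀ *ᵥ (y - R *ᵥ (E *ᵥ x))) (-(C *ᵥ (y - R *ᵥ (E *ᵥ x)))) := by
    intro x y
    rw [Pool.Agent.P.MP_1ec91f_co.bext, fromBlocks_mulVec]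
    congr 1
    · simp only [Sum.elim_comp_inl, Sum.elim_comp_inr, sub_mulVec, mulVec_sub, ← mulVec_mulVec]
      abel
    · simp only [Sum.elim_comp_inl, Sum.elim_comp_inr, neg_mulVec, mulVec_sub]
      rw [mulVec_mulVec (M := C) (N := R), hCR, one_mulVec]
      abel
  refine ⟨?_, ?_, ?_, ?_⟩
  · simp only [Pool.Agent.P.MP_1ec91f_co.bext, fromBlocks_transpose, transpose_sub, transpose_mul,
      transpose_transpose, transpose_neg, h.symm, hR, hC, Matrix.mul_assoc]
  · obtain ⟨a, ha⟩ := h.npos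
    refine ⟨Sum.elim a 0, fun z hz => ?_⟩
    rw [← Sum.elim_comp_inl_inr z] at hz ⊢
    set x := z ∘ Sum.inl
    set y := z ∘ Sum.inr
    rw [sumElim_dotProduct_sumElim, zero_dotProduct, add_zero] at hz
    rw [hmul, sumElim_dotProduct_sumElim]
    set w := y - R *ᵥ (E *ᵥ x) with hw
    have e1 : x ⬝ᵥ Eᵀ *ᵥ w = (R *ᵥ (E *ᵥ x)) ⬝ᵥ C *ᵥ w := by
      rw [dotProduct_mulVec, vecMul_transpose, dotProduct_mulVec _ C, ← hC, vecMul_transpose,
        mulVec_mulVec (M := C) (N := R), hCR, one_mulVec]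
    have e2 : y = w + R *ᵥ (E *ᵥ x) := by rw [hw]; abel
    rw [dotProduct_add, e1, dotProduct_neg, e2, add_dotProduct]
    linarith [ha x hz, hpsd w]
  · refine h.ker.trans ?_
    let L : (V → ℝ) →ₗ[ℝ] (V ⊕ Y → ℝ) :=
      { toFun := fun x => Sum.elim x (R *ᵥ (E *ᵥ x))
        map_add' := fun x x' => by
          ext (u | y) <;> simp [mulVec_add]
        map_smul' := fun t x => by
          ext (u | y) <;> simp [mulVec_smul] }
    have hmem : ∀ x : LinearMap.ker M.mulVecLin, (L ∘ₗ (LinearMap.ker M.mulVecLin).subtype) x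
        ∈ LinearMap.ker (Pool.Agent.P.MP_1ec91f_co.bext M E R C).mulVecLin := by
      intro x
      have hx : M *ᵥ x.1 = 0 := x.2
      change (Pool.Agent.P.MP_1ec91f_co.bext M E R C) *ᵥ Sum.elim x.1 (R *ᵥ (E *ᵥ x.1)) = 0
      rw [hmul, hx]
      ext (u | y) <;> simp
    refine LinearMap.finrank_le_finrank_of_injective (f := LinearMap.codRestrict _ _ hmem) ?_
    intro x x' hx
    ext u
    exact congrFun (congrArg Subtype.val hx) (Sum.inl u)
  · set M' := Pool.Agent.P.MP_1ec91f_co.bext M E R C with hM'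
    have h1 : ∀ y u, E y u ≠ 0 → Sup M' (.inl u) (.inr y) ∧ Sup M' (.inr y) (.inl u) :=
      fun y u hyu => ⟨⟨by simp, by simpa [hM', Pool.Agent.P.MP_1ec91f_co.bext] using hyu⟩,
        ⟨by simp, by simpa [hM', Pool.Agent.P.MP_1ec91f_co.bext] using hyu⟩⟩
    have h2 : ∀ s t, Sup M s t → Relation.ReflTransGen (Sup M') (.inl s) (.inl t) := by
      rintro s t ⟨hst, hM⟩
      by_cases h0 : (Eᵀ * R * E) s t = 0
      · exact Relation.ReflTransGen.single
          ⟨by simpa using hst, by simpa [hM', Pool.Agent.P.MP_1ec91f_co.bext, h0] using hM⟩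
      rw [Matrix.mul_apply] at h0
      obtain ⟨y', -, h3⟩ := exists_ne_zero_of_sum_ne_zero h0
      have h4 := left_ne_zero_of_mul h3
      rw [Matrix.mul_apply] at h4
      obtain ⟨y, -, h5⟩ := exists_ne_zero_of_sum_ne_zero h4
      have h6 : Relation.ReflTransGen (Sup M') (.inr y) (.inr y') := by
        by_cases e : y = y'
        · rw [e]
        · exact Relation.ReflTransGen.single ⟨by simpa using e, by
            simpa [hM', Pool.Agent.P.MP_1ec91f_co.bext] using hs y y' e (right_ne_zero_of_mul h5)⟩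
      exact ((Relation.ReflTransGen.single (h1 y s (left_ne_zero_of_mul h5)).1).trans h6).tail
        (h1 y' t (right_ne_zero_of_mul h3)).2
    have h3 : ∀ u v, Relation.ReflTransGen (Sup M') (.inl u) (.inl v) := by
      intro u v
      induction h.conn u v with
      | refl => exact Relation.ReflTransGen.refl
      | tail _ hr ih => exact ih.trans (h2 _ _ hr)
    rintro (u | y) (v | y')
    · exact h3 u v
    · obtain ⟨v, hv⟩ := hE y'
      exact (h3 u v).tail (h1 _ _ hv).1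
    · obtain ⟨u, hu⟩ := hE y
      exact Relation.ReflTransGen.head (h1 _ _ hu).2 (h3 u v)
    · obtain ⟨u, hu⟩ := hE y
      obtain ⟨v, hv⟩ := hE y'
      exact (Relation.ReflTransGen.head (h1 _ _ hu).2 (h3 u v)).tail (h1 _ _ hv).1

/-- Extension by pairwise non-adjacent vertices with positive pivots. -/
theorem Gd.bext_diag (h : Gd k M) {c : Y → ℝ} (hc : ∀ y, 0 < c y) (hE : ∀ y, ∃ u, E y u ≠ 0) :
    Gd k (Pool.Agent.P.MP_1ec91f_co.bext M E (diagonal fun y => (c y)⁻¹) (diagonal c)) := by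
  refine h.bext (diagonal_transpose _) (diagonal_transpose _) ?_ (fun y => ?_) hE
    fun y y' e h1 => (h1 (diagonal_apply_ne _ e)).elim
  · rw [diagonal_mul_diagonal, ← diagonal_one]
    congr 1
    ext y
    exact mul_inv_cancel₀ (hc y).ne'
  · simp only [dotProduct, mulVec_diagonal]
    exact sum_nonneg fun i _ => by nlinarith [mul_nonneg (hc i).le (mul_self_nonneg (y i))]

omit [DecidableEq V] in
theorem Gd.smul (h : Gd k M) {ε : ℝ} (hε : 0 < ε) : Gd k (ε • M) := by
  refine ⟨by rw [transpose_smul, h.symm], ?_, h.ker.trans (Submodule.finrank_mono ?_), ?_⟩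
  · obtain ⟨a, ha⟩ := h.npos
    refine ⟨a, fun x hx => ?_⟩
    rw [smul_mulVec, dotProduct_smul]
    exact mul_nonpos_of_nonneg_of_nonpos hε.le (ha x hx)
  · intro x hx
    have hx' : M *ᵥ x = 0 := hx
    change (ε • M) *ᵥ x = 0
    rw [smul_mulVec, hx', smul_zero]
  · intro u v
    induction h.conn u v with
    | refl => exact Relation.ReflTransGen.refl
    | tail _ hr ih => exact ih.tail ⟨hr.1, mul_ne_zero hε.ne' hr.2⟩

/-- Lowering one diagonal entry costs at most one dimension. -/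
theorem Gd.lower (h : Gd (k + 1) M) (w : V) {δ : ℝ} (hδ : 0 ≤ δ) :
    Gd k (M - diagonal (Pi.single w δ)) := by
  have hd : ∀ x : V → ℝ, diagonal (Pi.single w δ) *ᵥ x = Pi.single w (δ * x w) := fun x => by
    ext u
    rw [mulVec_diagonal]
    by_cases e : u = w
    · simp [e]
    · simp [e]
  refine ⟨by rw [transpose_sub, h.symm, diagonal_transpose], ?_, ?_, ?_⟩
  · obtain ⟨a, ha⟩ := h.npos
    refine ⟨a, fun x hx => ?_⟩
    rw [sub_mulVec, dotProduct_sub, hd, dotProduct_single]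
    nlinarith [ha x hx, mul_nonneg hδ (mul_self_nonneg (x w))]
  · let K := LinearMap.ker M.mulVecLin
    let f : K →ₗ[ℝ] ℝ := (LinearMap.proj w) ∘ₗ K.subtype
    have h1 := f.finrank_range_add_finrank_ker
    have h2 : finrank ℝ (LinearMap.range f) ≤ 1 := by
      simpa using (LinearMap.range f).finrank_le
    have hmem : ∀ x : LinearMap.ker f, (K.subtype ∘ₗ (LinearMap.ker f).subtype) x
        ∈ LinearMap.ker (M - diagonal (Pi.single w δ)).mulVecLin := by
      intro x
      have hx : M *ᵥ x.1.1 = 0 := x.1.2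
      have hw : x.1.1 w = 0 := x.2
      change (M - diagonal (Pi.single w δ)) *ᵥ x.1.1 = 0
      rw [sub_mulVec, hx, hd, hw]
      simp
    have h3 := LinearMap.finrank_le_finrank_of_injective (f := LinearMap.codRestrict _ _ hmem)
      fun x x' hx => by
        have h5 := congrArg Subtype.val hx
        exact Subtype.ext (Subtype.ext h5)
    have h4 : k + 1 ≤ finrank ℝ K := h.ker
    omega
  · intro u v
    induction h.conn u v with
    | refl => exact Relation.ReflTransGen.refl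
    | tail _ hr ih => exact ih.tail ⟨hr.1, by simpa [diagonal_apply_ne _ hr.1] using hr.2⟩

theorem Good.gd {κ : Type} [Fintype κ] {M : V → V → ℝ} (h : Good κ univ M) :
    Gd (Fintype.card κ) (Matrix.of M) := by
  refine ⟨by ext u v; exact h.symm v u, ?_, ?_, fun u v => ?_⟩
  · obtain ⟨a, ha⟩ := h.npos
    exact ⟨a, fun x hx => ha x hx⟩
  · obtain ⟨L, l1, l2⟩ := h.ker
    have hmem : ∀ c, L c ∈ LinearMap.ker (Matrix.of M).mulVecLin := fun c => by
      ext v
      exact l2 c v (mem_univ _)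
    have hinj : Function.Injective (L.codRestrict _ hmem) := by
      rw [injective_iff_map_eq_zero]
      exact fun c hc => l1 c fun v _ => congrFun (congrArg Subtype.val hc) v
    simpa using LinearMap.finrank_le_finrank_of_injective hinj
  · induction h.conn u (mem_univ _) v (mem_univ _) with
    | refl => exact Relation.ReflTransGen.refl
    | tail _ hr ih => exact ih.tail ⟨hr.2.2.1, hr.2.2.2⟩

/-- Rational numbers with numerator and denominator at most `2 ^ B`. -/
def Ht (B : ℕ) (x : ℝ) : Prop := ∃ p q : ℤ, 0 < q ∧ q ≤ 2 ^ B ∧ |p| ≤ 2 ^ B ∧ x = p / q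

variable {A B : ℕ} {x y : ℝ}

lemma Ht.mono (h : Ht A x) (hAB : A ≤ B) : Ht B x := by
  obtain ⟨p, q, h1, h2, h3, h4⟩ := h
  have : (2 : ℤ) ^ A ≤ 2 ^ B := pow_le_pow_right₀ (by norm_num) hAB
  exact ⟨p, q, h1, h2.trans this, h3.trans this, h4⟩

lemma Ht.nat {n : ℕ} (h : n ≤ 2 ^ B) : Ht B n :=
  ⟨n, 1, one_pos, one_le_pow₀ (by norm_num), by rw [Nat.abs_cast]; exact_mod_cast h, by simp⟩

lemma Ht.zero : Ht B 0 := by simpa using Ht.nat (n := 0) (B := B) (Nat.zero_le _)

lemma Ht.neg (h : Ht A x) : Ht A (-x) := by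
  obtain ⟨p, q, h1, h2, h3, h4⟩ := h
  exact ⟨-p, q, h1, h2, by rwa [abs_neg], by rw [h4]; push_cast; ring⟩

lemma Ht.mul (h : Ht A x) (h' : Ht B y) : Ht (A + B) (x * y) := by
  obtain ⟨p, q, h1, h2, h3, h4⟩ := h
  obtain ⟨p', q', h1', h2', h3', h4'⟩ := h'
  refine ⟨p * p', q * q', mul_pos h1 h1', ?_, ?_, by rw [h4, h4']; push_cast; ring⟩
  · rw [pow_add]
    exact mul_le_mul h2 h2' h1'.le (by positivity)
  · rw [pow_add, abs_mul]
    exact mul_le_mul h3 h3' (abs_nonneg _) (by positivity)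

lemma Ht.add (h : Ht A x) (h' : Ht B y) : Ht (A + B + 1) (x + y) := by
  obtain ⟨p, q, h1, h2, h3, h4⟩ := h
  obtain ⟨p', q', h1', h2', h3', h4'⟩ := h'
  have e1 : q * q' ≤ 2 ^ A * 2 ^ B := mul_le_mul h2 h2' h1'.le (by positivity)
  have e2 : |p| * q' ≤ 2 ^ A * 2 ^ B := mul_le_mul h3 h2' h1'.le (by positivity)
  have e3 : q * |p'| ≤ 2 ^ A * 2 ^ B := mul_le_mul h2 h3' (abs_nonneg _) (by positivity)
  have e4 : (0 : ℤ) < 2 ^ A * 2 ^ B := by positivity
  refine ⟨p * q' + q * p', q * q', mul_pos h1 h1', ?_, ?_, ?_⟩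
  · rw [pow_succ, pow_add]
    linarith
  · rw [pow_succ, pow_add]
    have := abs_add_le (p * q') (q * p')
    rw [abs_mul, abs_mul, abs_of_pos h1, abs_of_pos h1'] at this
    linarith
  · have : (q : ℝ) ≠ 0 := by exact_mod_cast h1.ne'
    have : (q' : ℝ) ≠ 0 := by exact_mod_cast h1'.ne'
    rw [h4, h4']
    push_cast
    field_simp

lemma Ht.sub (h : Ht A x) (h' : Ht B y) : Ht (A + B + 1) (x - y) := by
  rw [sub_eq_add_neg]
  exact h.add h'.neg

lemma Ht.inv (h : Ht A x) : Ht A x⁻¹ := by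
  obtain ⟨p, q, h1, h2, h3, h4⟩ := h
  rcases lt_trichotomy p 0 with hp | rfl | hp
  · refine ⟨-q, -p, by omega, by rwa [← abs_of_neg hp], by rwa [abs_neg, abs_of_pos h1], ?_⟩
    rw [h4]
    push_cast
    rw [neg_div_neg_eq, inv_div]
  · simpa [h4] using Ht.zero
  · exact ⟨q, p, hp, by rwa [← abs_of_pos hp], by rwa [abs_of_pos h1], by rw [h4, inv_div]⟩

lemma Ht.div (h : Ht A x) (h' : Ht B y) : Ht (A + B) (x / y) := by
  rw [div_eq_mul_inv]
  exact h.mul h'.inv

lemma Ht.abs_le (h : Ht A x) : |x| ≤ 2 ^ A := by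
  obtain ⟨p, q, h1, h2, h3, h4⟩ := h
  have e1 : (1 : ℝ) ≤ q := by exact_mod_cast h1
  have e2 : |(p : ℝ)| ≤ 2 ^ A := by exact_mod_cast h3
  rw [h4, abs_div, abs_of_pos (by linarith : (0 : ℝ) < q)]
  exact (div_le_self (abs_nonneg _) e1).trans e2

lemma Ht.one_le (h : Ht A x) (hx : 0 < x) : 1 ≤ 2 ^ A * x := by
  have := (le_abs_self _).trans h.inv.abs_le
  rwa [inv_le_iff_one_le_mul₀ hx] at this

lemma Ht.double (h : Ht A x) (h0 : 0 < x) (h1 : 2 * x ≤ 1) : Ht A (2 * x) := by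
  obtain ⟨p, q, e1, e2, -, e4⟩ := h
  have e5 : (0 : ℝ) < q := by exact_mod_cast e1
  have e6 : (0 : ℝ) < p := by
    rw [e4] at h0
    exact (div_pos_iff_of_pos_right e5).1 h0
  have e7 : (2 * p : ℝ) ≤ q := by
    rw [e4, ← mul_div_assoc, div_le_one e5] at h1
    exact h1
  have e8 : 0 < p := by exact_mod_cast e6
  have e9 : 2 * p ≤ q := by exact_mod_cast e7
  exact ⟨2 * p, q, e1, e2, by rw [abs_of_pos (by omega)]; omega, by rw [e4]; push_cast; ring⟩

lemma Ht.sum {ι : Type} (s : Finset ι) {f : ι → ℝ} (h : ∀ i ∈ s, Ht B (f i)) :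
    Ht (s.card * (B + 1)) (∑ i ∈ s, f i) := by
  classical
  induction s using Finset.induction_on with
  | empty => simpa using Ht.zero
  | insert i s hi ih =>
    rw [sum_insert hi, card_insert_of_notMem hi]
    exact ((h i (mem_insert_self _ _)).add
      (ih fun j hj => h j (mem_insert_of_mem hj))).mono (by nlinarith)

end Pool.Agent.P.MP_1ec91f_co
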