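import Pool.Agent.P.MP_1ec91f_co.AdjEdge

/-!
Replacing weighted cliques of size `2 ^ s` by networks of degree four with rational weights.
-/

open Finset Matrix Module

set_option linter.unusedSectionVars false

namespace Pool.Agent.P.MP_1ec91f_co

variable {V I J T A : Type} [Fintype V] [DecidableEq V] [Fintype I] [DecidableEq I]
  [Fintype J] [DecidableEq J] [Fintype T] [DecidableEq T] [Fintype A] [DecidableEq A]

/-- Disjoint cliques with two halves: weight `a` across and `b` inside the halves. -/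
def bW (T : Type) (a b : I → ℝ) : Matrix (I × Bool × T) (I × Bool × T) ℝ := Matrix.of fun x y =>
  if x.1 = y.1 then (if x.2.1 = y.2.1 then b x.1 else a x.1) else 0

/-- The incidence matrix of a map. -/
def inc (r : A → V) : Matrix A V ℝ := Matrix.of fun x u => if r x = u then 1 else 0

lemma conj_inc (r : A → V) (R : Matrix A A ℝ) (u v : V) : ((inc r)ᵀ * R * inc r) u v
    = ∑ x, ∑ y, if r x = u ∧ r y = v then R x y else 0 := by
  simp only [Matrix.mul_apply, sum_mul, transpose_apply, inc, of_apply]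
  rw [sum_comm]
  exact sum_congr rfl fun x _ => sum_congr rfl fun y _ => by
    by_cases h1 : r x = u <;> by_cases h2 : r y = v <;> simp [h1, h2]

lemma conj_inc_inj {r : A → V} (hr : Function.Injective r) (R : Matrix A A ℝ) (x y : A) :
    ((inc r)ᵀ * R * inc r) (r x) (r y) = R x y := by
  simp [conj_inc, hr.eq_iff, ite_and]

lemma inc_comp {A' : Type} [Fintype A'] (r : A → V) (p : A' → A) :
    inc (r ∘ p) = inc p * inc r := by
  ext x u
  rw [Matrix.mul_apply, sum_eq_single (p x) (fun y _ hy => by simp [inc, hy.symm]) (by simp)]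
  simp [inc]

lemma ht_conj {B : ℕ} {r : A → V} {R : Matrix A A ℝ} {v : V} (h : cnt r v ≤ 4)
    (hR : ∀ x y, Ht B (R x y)) : Ht (16 * B + 20) (((inc r)ᵀ * R * inc r) v v) := by
  let s := univ.filter fun x => r x = v
  have h1 : s.card ≤ 4 := by
    have : (s.card : ℝ) = cnt r v := by simp [cnt, s]
    exact_mod_cast this.le.trans h
  have h2 : ((inc r)ᵀ * R * inc r) v v = ∑ x ∈ s, ∑ y ∈ s, R x y := by
    simp only [conj_inc, s, sum_filter, ite_and]
    exact sum_congr rfl fun x _ => by split_ifs <;> simp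
  rw [h2]
  exact (Ht.sum (B := 4 * (B + 1)) s fun x _ =>
    (Ht.sum s fun y _ => hR x y).mono (by gcongr)).mono (by nlinarith)

lemma bW_symm (a b : I → ℝ) : (bW T a b)ᵀ = bW T a b := by
  ext x y
  simp only [bW, transpose_apply, of_apply, eq_comm (a := y.1), eq_comm (a := y.2.1)]
  split_ifs with h <;> simp [h]

lemma bW_mul (a b a' b' : I → ℝ) : bW T a b * bW T a' b'
    = bW T (fun i => Fintype.card T * (a i * b' i + b i * a' i))
      (fun i => Fintype.card T * (b i * b' i + a i * a' i)) := by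
  ext ⟨i, e, z⟩ ⟨i', e', z'⟩
  simp only [bW, Matrix.mul_apply, of_apply, Fintype.sum_prod_type]
  rw [sum_eq_single i (fun j _ hj => by simp [hj.symm]) (by simp)]
  by_cases h : i = i'
  · cases e <;> cases e' <;> simp [h] <;> ring
  · simp [h]

lemma bW_row (a b : I → ℝ) (x : I × Bool × T) :
    ∑ y, bW T a b x y = Fintype.card T * (a x.1 + b x.1) := by
  obtain ⟨i, e, z⟩ := x
  simp only [bW, of_apply, Fintype.sum_prod_type]
  rw [sum_eq_single i (fun j _ hj => by simp [hj.symm]) (by simp)]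
  cases e <;> simp <;> ring

lemma psd_of_dom {W : Matrix A A ℝ} {d : A → ℝ} (hs : Wᵀ = W) (h0 : ∀ x y, 0 ≤ W x y)
    (hd : ∀ x, ∑ y, W x y ≤ d x) (z : A → ℝ) : 0 ≤ z ⬝ᵥ (diagonal d - W) *ᵥ z := by
  have hs' : ∀ x y, W y x = W x y := fun x y => congrFun (congrFun hs x) y
  have h1 : 2 * (z ⬝ᵥ W *ᵥ z) ≤ ∑ x, ∑ y, W x y * z x ^ 2 + ∑ x, ∑ y, W y x * z y ^ 2 := by
    simp only [dotProduct, mulVec, mul_sum, ← sum_add_distrib]
    refine sum_le_sum fun x _ => sum_le_sum fun y _ => ?_
    rw [hs' x y]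
    nlinarith [mul_nonneg (h0 x y) (sq_nonneg (z x - z y))]
  rw [sum_comm (f := fun x y => W y x * z y ^ 2)] at h1
  have h2 : ∑ x, ∑ y, W x y * z x ^ 2 ≤ z ⬝ᵥ diagonal d *ᵥ z := by
    simp only [dotProduct, mulVec_diagonal, ← sum_mul]
    exact sum_le_sum fun x _ => by nlinarith [mul_le_mul_of_nonneg_right (hd x) (sq_nonneg (z x))]
  rw [sub_mulVec, dotProduct_sub]
  linarith

/-- The three pairings of the four quarters. -/
def quart : Fin 3 × I × Bool × Bool × T ≃ (I × Fin 3 × Bool) × Bool × T where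
  toFun p := ((p.2.1, p.1, ![p.2.2.1, p.2.2.2.1, xor p.2.2.1 p.2.2.2.1] p.1),
    ![p.2.2.2.1, p.2.2.1, p.2.2.1] p.1, p.2.2.2.2)
  invFun y := (y.1.2.1, y.1.1, ![y.1.2.2, y.2.1, y.2.1] y.1.2.1,
    ![y.2.1, y.1.2.2, xor y.2.1 y.1.2.2] y.1.2.1, y.2.2)
  left_inv := by
    rintro ⟨t, i, h, g, z⟩
    fin_cases t <;> cases h <;> cases g <;> rfl
  right_inv := by
    rintro ⟨⟨i, t, c⟩, e, z⟩
    fin_cases t <;> cases c <;> cases e <;> rfl

/-- The parent of a new vertex. -/
def par (y : (I × Fin 3 × Bool) × Bool × T) : I × Bool × Bool × T := (quart.symm y).2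

lemma conj_par (a b : I → ℝ) :
    (inc (par (I := I) (T := T)))ᵀ
      * bW T (fun i : I × Fin 3 × Bool => if i.2.1 = 0 then b i.1 else a i.1) (fun i => b i.1 / 3)
      * inc (par (I := I) (T := T)) = bW (Bool × T) a b := by
  ext ⟨i, h, g, z⟩ ⟨i', h', g', z'⟩
  rw [conj_inc]
  simp only [← quart.sum_comp, par, Equiv.symm_apply_apply]
  rw [Fintype.sum_prod_type]
  simp only [Fintype.sum_prod_type (α₁ := Fin 3), ite_and, sum_ite_irrel, sum_ite_eq', mem_univ,
    if_true, sum_const_zero]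
  by_cases e : i = i'
  · cases h <;> cases g <;> cases h' <;> cases g' <;>
      simp [bW, quart, Fin.sum_univ_three, e]
    all_goals ring
  · simp [bW, quart, e]

lemma cnt_par (r : I × Bool × Bool × T → V) (v : V) : cnt (r ∘ par) v = 3 * cnt r v := by
  simp only [cnt, ← quart.sum_comp, par, Function.comp_apply, Equiv.symm_apply_apply]
  rw [Fintype.sum_prod_type]
  simp

/-- A state of the clique reduction. -/
structure Cl (k B : ℕ) (M : Matrix V V ℝ) (tl hd : J → V) (w : J → ℝ) (r : I × Bool × T → V)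
    (a b : I → ℝ) : Prop where
  gd : Gd k M
  ne : ∀ j, tl j ≠ hd j
  inj : Function.Injective r
  off : ∀ u v, u ≠ v → M u v = eM tl hd w u v + ((inc r)ᵀ * bW T a b * inc r) u v
  deg : ∀ v, cnt tl v + cnt hd v + 3 * cnt r v ≤ 4
  ht : ∀ v, Ht B (M v v)
  wpos : ∀ j, 0 < w j
  wht : ∀ j, Ht B (w j)
  apos : ∀ i, 0 < a i
  aht : ∀ i, Ht B (a i)
  bpos : ∀ i, 0 < b i
  bht : ∀ i, Ht B (b i)

/-- Inverting `K + W` on two halves of size `h`. -/
lemma sweep {a b h : ℝ} {B : ℕ} (ha : 0 < a) (hb : 0 < b) (hh : 0 < h) (h1 : Ht B a)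
    (h2 : Ht (B + 2) b) (h3 : Ht B h) (hB : 3 ≤ B) : ∃ K a' b' : ℝ, 0 < K ∧ 0 < a' ∧ 0 < b' ∧
      K⁻¹ * a - a' * K - h * (a' * b + b' * a) = 0 ∧
      K⁻¹ * b - b' * K - h * (b' * b + a' * a) = 0 ∧
      h * (a' + b') ≤ K⁻¹ ∧ Ht (5 * B) K ∧ Ht (32 * B) a' ∧ Ht (32 * B) b' := by
  obtain ⟨K, hK⟩ : ∃ K, K = 2 * h * (a * a) / b := ⟨_, rfl⟩
  have k0 : 0 < K := by rw [hK]; positivity
  have k1 : b * K = 2 * h * (a * a) := by rw [hK]; field_simp
  have p0 : 0 < K + (a + b) * h := by positivity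
  have q0 : 0 < K + (b - a) * h := by
    refine pos_of_mul_pos_left (b := b) ?_ hb.le
    nlinarith [mul_pos hh (mul_pos ha ha), mul_nonneg hh.le (sq_nonneg (a - b)),
      mul_pos hh (mul_pos hb hb)]
  have t2 : Ht 1 2 := by simpa using Ht.nat (n := 2) (B := 1) (by norm_num)
  have tK : Ht (5 * B) K := by
    rw [hK]
    exact (((t2.mul h3).mul (h1.mul h1)).div h2).mono (by omega)
  have tP : Ht (10 * B) (K + (a + b) * h) := (tK.add ((h1.add h2).mul h3)).mono (by omega)
  have tQ : Ht (10 * B) (K + (b - a) * h) := (tK.add ((h2.sub h1).mul h3)).mono (by omega)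
  have e1 : h * (a * a + b * b) = b * K - (a * a - b * b) * h := by rw [k1]; ring
  generalize hP : K + (a + b) * h = P at p0 tP
  generalize hQ : K + (b - a) * h = Q at q0 tQ
  refine ⟨K, a / (P * Q), h * (a * a + b * b) / (K * (P * Q)), k0, by positivity,
    by positivity, ?_, ?_, ?_, tK, (h1.div (tP.mul tQ)).mono (by omega),
    ((h3.mul ((h1.mul h1).add (h2.mul h2))).div (tK.mul (tP.mul tQ))).mono (by omega)⟩
  · rw [e1]
    field_simp
    rw [← hP, ← hQ]
    ring
  · rw [e1]
    field_simp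
    rw [← hP, ← hQ]
    ring
  · have : h * (a / (P * Q) + h * (a * a + b * b) / (K * (P * Q))) = K⁻¹ - P⁻¹ := by
      rw [e1]
      field_simp
      rw [← hP, ← hQ]
      ring
    rw [this]
    linarith [inv_pos.2 p0]

variable {k B : ℕ} {M : Matrix V V ℝ} {tl hd : J → V} {w : J → ℝ} {a b : I → ℝ}

theorem Cl.round [Nonempty T] {r : I × Bool × Bool × T → V} (h : Cl k B M tl hd w r a b)
    (hB : 3 ≤ B) (hT : Fintype.card T ≤ 2 ^ B) :
    ∃ (M' : Matrix (V ⊕ (I × Fin 3 × Bool) × Bool × T) (V ⊕ (I × Fin 3 × Bool) × Bool × T) ℝ)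
      (a' b' : I × Fin 3 × Bool → ℝ), Cl k (128 * B) M'
        (Sum.elim (fun j => .inl (tl j)) fun y => .inl (r (par y)))
        (Sum.elim (fun j => .inl (hd j)) .inr) (Sum.elim w fun _ => 1) .inr a' b' := by
  let a₀ : I × Fin 3 × Bool → ℝ := fun i => if i.2.1 = 0 then b i.1 else a i.1
  let b₀ : I × Fin 3 × Bool → ℝ := fun i => b i.1 / 3
  have t3 : Ht 2 3 := by simpa using Ht.nat (n := 3) (B := 2) (by norm_num)
  have a1 : ∀ i, 0 < a₀ i := fun i => by
    simp only [a₀]
    split_ifs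
    exacts [h.bpos _, h.apos _]
  have a2 : ∀ i, Ht B (a₀ i) := fun i => by
    simp only [a₀]
    split_ifs
    exacts [h.bht _, h.aht _]
  have b1 : ∀ i, 0 < b₀ i := fun i => div_pos (h.bpos _) (by norm_num)
  have b2 : ∀ i, Ht (B + 2) (b₀ i) := fun i => (h.bht _).div t3
  choose K a' b' s1 s2 s3 s4 s5 s6 s7 s8 s9 using fun i => sweep (a1 i) (b1 i)
    (by exact_mod_cast Fintype.card_pos : (0 : ℝ) < Fintype.card T) (a2 i) (b2 i) (Ht.nat hT) hB
  let R := diagonal (fun y : (I × Fin 3 × Bool) × Bool × T => K y.1) + bW T a₀ b₀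
  let C := diagonal (fun y : (I × Fin 3 × Bool) × Bool × T => (K y.1)⁻¹) - bW T a' b'
  have g := h.gd.bext (E := inc (r ∘ par)) (R := R) (C := C)
    (by rw [transpose_add, diagonal_transpose, bW_symm])
    (by rw [transpose_sub, diagonal_transpose, bW_symm]) (by
      rw [Matrix.sub_mul, Matrix.mul_add, Matrix.mul_add, bW_mul, diagonal_mul_diagonal]
      ext ⟨i, e, z⟩ ⟨i', e', z'⟩
      simp only [Matrix.sub_apply, Matrix.add_apply, diagonal_mul, mul_diagonal,
        inv_mul_cancel₀ (s1 _).ne', diagonal_one, bW, of_apply]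
      split_ifs with e1 e2
      · subst e1
        linarith [s5 i]
      · subst e1
        linarith [s4 i]
      · simp)
    (psd_of_dom (bW_symm _ _) (fun x y => by
      simp only [bW, of_apply]
      split_ifs
      exacts [(s3 _).le, (s2 _).le, le_rfl]) fun x => by rw [bW_row]; exact s6 _)
    (fun y => ⟨r (par y), by simp [inc]⟩) fun y y' e h1 => by
      simp only [R, C, Matrix.add_apply, Matrix.sub_apply, diagonal_apply_ne _ e, bW, of_apply,
        zero_add, zero_sub] at h1 ⊢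
      split_ifs at h1 ⊢
      exacts [neg_ne_zero.2 (s3 _).ne', neg_ne_zero.2 (s2 _).ne', (h1 rfl).elim]
  refine ⟨_, a', b', g, ?_, Sum.inr_injective, ?_, ?_, ?_, ?_, ?_, s2,
    fun i => (s8 i).mono (by omega), s3, fun i => (s9 i).mono (by omega)⟩
  · rintro (j | y)
    · simpa using h.ne j
    · simp
  · rintro (u | y) (v | y') huv
    · have e : u ≠ v := fun e => huv (by rw [e])
      have e1 : (inc (r ∘ par))ᵀ * bW T a₀ b₀ * inc (r ∘ par)
          = (inc r)ᵀ * bW (Bool × T) a b * inc r := by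
        rw [inc_comp, ← conj_par, transpose_mul]
        simp only [Matrix.mul_assoc]
        rfl
      rw [bext_ll, h.off u v e, Matrix.mul_add, Matrix.add_mul, e1, Matrix.add_apply, conj_diag,
        sum_eq_zero fun y _ => by
          by_cases e2 : r (par y) = u
          · simp [inc, e2, e]
          · simp [inc, e2]]
      simp [eM, conj_inc, Fintype.sum_sum_type]
    · rw [bext_lr, eM, Fintype.sum_sum_type, sum_eq_single y' (fun i _ hi => by simp [hi])
        (by simp), conj_inc]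
      simp [inc]
    · rw [bext_rl, eM, Fintype.sum_sum_type, sum_eq_single y (fun i _ hi => by simp [hi])
        (by simp), conj_inc]
      simp [inc]
    · have e : y ≠ y' := fun e => huv (by rw [e])
      rw [bext_rr, conj_inc_inj Sum.inr_injective]
      simp [C, eM, Fintype.sum_sum_type, e]
  · rintro (v | y)
    · have e1 := h.deg v
      rw [← cnt_par] at e1
      simp only [cnt, Function.comp_apply] at e1
      simp only [cnt, Fintype.sum_sum_type, Sum.elim_inl, Sum.elim_inr, Sum.inl.injEq,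
        reduceCtorEq, if_false, sum_const_zero]
      linarith
    · simp only [cnt, Fintype.sum_sum_type]
      simp
      norm_num
  · rintro (v | y)
    · rw [bext_ll]
      refine ((h.ht v).sub (ht_conj (B := 6 * B + 3) ?_ fun x y => ?_)).mono (by omega)
      · rw [cnt_par]
        linarith [h.deg v, cnt_nonneg tl v, cnt_nonneg hd v]
      · refine (Ht.add (A := 5 * B) (B := B + 2) ?_ ?_).mono (by omega)
        · rw [diagonal_apply]
          split_ifs
          exacts [s7 _, Ht.zero]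
        · simp only [bW, of_apply]
          split_ifs
          exacts [b2 _, (a2 _).mono (by omega), Ht.zero]
    · rw [bext_rr]
      simp only [C, Matrix.sub_apply, diagonal_apply_eq, bW, of_apply, if_true]
      exact ((s7 _).inv.sub (s9 _)).neg.mono (by omega)
  · rintro (j | y)
    · exact h.wpos j
    · exact one_pos
  · rintro (j | y)
    · exact (h.wht j).mono (by omega)
    · simpa using Ht.nat (n := 1) (B := 128 * B) Nat.one_le_two_pow

lemma Cl.reindex {T' : Type} [Fintype T'] [DecidableEq T'] {r : I × Bool × T → V}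
    (h : Cl k B M tl hd w r a b) (e : T' ≃ T) :
    Cl k B M tl hd w (r ∘ (Equiv.refl I).prodCongr ((Equiv.refl Bool).prodCongr e)) a b := by
  set φ := (Equiv.refl I).prodCongr ((Equiv.refl Bool).prodCongr e)
  refine ⟨h.gd, h.ne, h.inj.comp φ.injective, fun u v huv => ?_, fun v => ?_, h.ht, h.wpos,
    h.wht, h.apos, h.aht, h.bpos, h.bht⟩
  · rw [h.off u v huv, conj_inc, conj_inc]
    simp only [← φ.sum_comp]
    rfl
  · have := h.deg v
    simp only [cnt] at this ⊢
    rwa [← φ.sum_comp] at this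

lemma cnt_elim (f : J → V) (g : I → V) (v : V) : cnt (Sum.elim f g) v = cnt f v + cnt g v := by
  rw [cnt, Fintype.sum_sum_type]
  rfl

lemma eM_elim (tl' hd' : I → V) (ε : ℝ) (u v : V) :
    eM (Sum.elim tl tl') (Sum.elim hd hd') (fun j => ε * Sum.elim w a j) u v
      = ε * (eM tl hd w u v + eM tl' hd' a u v) := by
  simp only [eM, mul_assoc, ← mul_sum]
  rw [Fintype.sum_sum_type]
  rfl

theorem Cl.ed {r : I × Bool × Unit → V} (h : Cl k B M tl hd w r a b) :
    Ed k (2 * B + 2) (2 * B + 2) (2 * B + 2) (((2 : ℝ) ^ (B + 2))⁻¹ • M) 0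
      (Sum.elim tl fun i => r (i, false, ())) (Sum.elim hd fun i => r (i, true, ()))
      (fun j => ((2 : ℝ) ^ (B + 2))⁻¹ * Sum.elim w a j) := by
  set ε : ℝ := ((2 : ℝ) ^ (B + 2))⁻¹ with hε
  have e0 : 0 < ε := by positivity
  have e1 : Ht (B + 2) ε := by simpa using (Ht.nat (n := 2 ^ (B + 2)) le_rfl).inv
  have e2 : ∀ x, Ht B x → |ε * x| ≤ 1 / 4 := fun x hx => by
    have : ε * 2 ^ B = 1 / 4 := by
      rw [hε]
      field_simp
      ring
    rw [abs_mul, abs_of_pos e0, ← this]
    exact mul_le_mul_of_nonneg_left hx.abs_le e0.le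
  have e3 : ∀ x, Ht B x → Ht (2 * B + 2) (ε * x) := fun x hx => (e1.mul hx).mono (by omega)
  have w0 : ∀ j, 0 < Sum.elim w a j := by
    rintro (j | i)
    exacts [h.wpos j, h.apos i]
  have w1 : ∀ j, Ht B (Sum.elim w a j) := by
    rintro (j | i)
    exacts [h.wht j, h.aht i]
  have d1 : ∀ v, cnt (Sum.elim tl fun i => r (i, false, ())) v
      + cnt (Sum.elim hd fun i => r (i, true, ())) v ≤ 4 := fun v => by
    have h1 := h.deg v
    have h2 := cnt_nonneg r v
    have h3 : cnt r v = cnt (fun i => r (i, true, ())) v + cnt (fun i => r (i, false, ())) v := by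
      simp only [cnt, Fintype.sum_prod_type, Fintype.sum_bool, Fintype.sum_unique,
        sum_add_distrib]
    rw [cnt_elim, cnt_elim]
    linarith
  refine ⟨h.gd.smul e0, ?_, fun u v huv => ?_, by simp, fun v => by simpa using d1 v,
    fun v => ?_, fun v => ?_, fun v => e3 _ (h.ht v), fun j => mul_pos e0 (w0 j),
    fun j => ?_, fun j => ?_, fun j => e3 _ (w1 j)⟩
  · rintro (j | i)
    · exact h.ne j
    · simpa using h.inj.ne (by simp)
  · rw [Matrix.smul_apply, h.off u v huv, conj_inc, smul_eq_mul, eM_elim, Matrix.zero_apply,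
      zero_add]
    congr 2
    rw [Fintype.sum_prod_type]
    refine sum_congr rfl fun i _ => ?_
    have h1 : ∀ x, ¬ (r x = u ∧ r x = v) := fun x hx => huv (hx.1.symm.trans hx.2)
    have h2 : ∀ x : Bool × Unit, ∑ y, (if r (i, x) = u ∧ r y = v then bW Unit a b (i, x) y else 0)
        = ∑ y, if r (i, x) = u ∧ r (i, y) = v then bW Unit a b (i, x) (i, y) else 0 := fun x => by
      rw [Fintype.sum_prod_type, sum_eq_single i (fun j _ hj => by simp [bW, hj.symm]) (by simp)]
    simp only [h2]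
    simp [Fintype.sum_prod_type, bW, h1, mul_add, add_comm, and_comm]
  · have := (abs_le.1 (e2 _ (h.ht v))).1
    have := d1 v
    have := cnt_nonneg (Sum.elim tl fun i => r (i, false, ())) v
    rw [Matrix.smul_apply, smul_eq_mul]
    linarith
  · have := (abs_le.1 (e2 _ (h.ht v))).2
    rw [Matrix.smul_apply, smul_eq_mul]
    linarith
  · linarith [(abs_le.1 (e2 _ (w1 j))).2]
  · have := (e3 _ (w1 j)).one_le (mul_pos e0 (w0 j))
    linarith

theorem Ed.adj {F : Matrix V V ℝ} {B n : ℕ} (hB : 3 ≤ B)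
    (h : Ed (k + 1) (2 * B + 2) (2 * B + 2) (2 * B + 2) M F tl hd w)
    (hn : Fintype.card V * (2 ^ 33 * B ^ 5) ≤ n) :
    ∃ (V' : Type) (_ : Fintype V') (M' : Matrix V' V' ℝ), Fintype.card V' = n ∧ Adj k M' := by
  have h1 : Fintype.card J ≤ Fintype.card V * 4 := by
    have a1 : ∑ v, cnt tl v = Fintype.card J := by
      simp only [cnt]
      rw [sum_comm]
      simp
    have a2 : ∑ v, cnt tl v ≤ Fintype.card V * 4 := by
      refine (sum_le_card_nsmul _ _ 4 fun v _ => ?_).trans (by simp)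
      have : 0 ≤ ∑ u, F v u := sum_nonneg fun u _ => by rcases h.unit v u with e | e <;> simp [e]
      linarith [h.deg v, cnt_nonneg hd v]
    exact_mod_cast a1.ge.trans a2
  obtain ⟨V', i1, i2, M', h2, h3⟩ := Ed.un (by omega) _ _ _ _ _ _ _ _ h
  have h4 : Nonempty V' := by
    have := h3.gd.ker.trans (Submodule.finrank_le _)
    rw [finrank_fintype_fun_eq_card] at this
    exact Fintype.card_pos_iff.1 (by omega)
  refine h3.adj (Classical.arbitrary _) (le_trans ?_ hn)
  have h5 : Fintype.card V' ≤ Fintype.card V * (13 * B) := by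
    rw [h2]
    calc _ ≤ Fintype.card V + (2 * B + 2 + 1) * (Fintype.card V * 4) := by gcongr
      _ = Fintype.card V * (8 * B + 13) := by ring
      _ ≤ _ := by gcongr; omega
  have h6 : 5 * (2 * B + 2 + (2 * B + 2 + 1) * (12 * (2 * B + 2) + 5)) + 27 ≤ 513 * B ^ 2 := by
    nlinarith
  calc _ ≤ Fintype.card V * (13 * B) * (B ^ 4 + 2401 * (513 * B ^ 2) ^ 2) := by
        gcongr
        exact Nat.one_le_pow _ _ (by omega)
    _ = Fintype.card V * (8214294010 * B ^ 5) := by ring
    _ ≤ _ := by gcongr; norm_num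

theorem Cl.adj {n : ℕ} (j : ℕ) : ∀ (V I J T : Type) [Fintype V] [DecidableEq V] [Fintype I]
    [DecidableEq I] [Fintype J] [DecidableEq J] [Fintype T] [DecidableEq T] (B : ℕ)
    (M : Matrix V V ℝ) (tl hd : J → V) (w : J → ℝ) (r : I × Bool × T → V) (a b : I → ℝ),
    Cl (k + 1) B M tl hd w r a b → Fintype.card T = 2 ^ j → 3 ≤ B → j ≤ B →
    4 ^ j * Fintype.card V * (2 ^ 33 * (128 ^ j * B) ^ 5) ≤ n →
    ∃ (V' : Type) (_ : Fintype V') (M' : Matrix V' V' ℝ), Fintype.card V' = n ∧ Adj k M' := by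
  induction j with
  | zero =>
    intro V I J T _ _ _ _ _ _ _ _ B M tl hd w r a b h hT hB _ hn
    exact (h.reindex (Fintype.equivOfCardEq (α := Unit) (by simpa using hT.symm))).ed.adj hB
      (by simpa using hn)
  | succ j ih =>
    intro V I J T _ _ _ _ _ _ _ _ B M tl hd w r a b h hT hB hj hn
    have h1 := h.reindex (Fintype.equivOfCardEq (α := Bool × Fin (2 ^ j))
      (by simp [hT, pow_succ, mul_comm]))
    obtain ⟨M', a', b', h2⟩ := h1.round hB
      (by simpa using Nat.pow_le_pow_right two_pos (by omega : j ≤ B))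
    refine ih _ _ _ _ _ _ _ _ _ _ _ _ h2 (by simp) (by omega) (by omega) (le_trans ?_ hn)
    have h3 := Fintype.card_le_of_injective _ h1.inj
    rw [Fintype.card_sum, ← Fintype.card_congr quart, Fintype.card_prod, Fintype.card_fin]
    calc _ ≤ 4 ^ j * (Fintype.card V + 3 * Fintype.card V)
          * (2 ^ 33 * (128 ^ j * (128 * B)) ^ 5) := by gcongr
      _ = _ := by ring

end Pool.Agent.P.MP_1ec91f_co
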