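import Pool.Agent.P.MP_1ec91f_co.AdjTree

/-!
Replacing weighted edges by paths of unit edges.
-/

open Finset Matrix Module

set_option linter.unusedSectionVars false

namespace Pool.Agent.P.MP_1ec91f_co

variable {V I : Type} [Fintype V] [DecidableEq V] [Fintype I] [DecidableEq I]

/-- The number of preimages. -/
def cnt (f : I → V) (v : V) : ℝ := ∑ i, if f i = v then 1 else 0

/-- The matrix of a family of weighted edges. -/
def eM (tl hd : I → V) (b : I → ℝ) (u v : V) : ℝ :=
  ∑ i, b i * ((if tl i = u ∧ hd i = v then 1 else 0) + if hd i = u ∧ tl i = v then 1 else 0)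

lemma cnt_nonneg (f : I → V) (v : V) : 0 ≤ cnt f v := sum_nonneg fun i _ => by positivity

/-- A state of the edge reduction. -/
structure Ed (k B W l : ℕ) (M F : Matrix V V ℝ) (tl hd : I → V) (b : I → ℝ) : Prop where
  gd : Gd k M
  ne : ∀ i, tl i ≠ hd i
  off : ∀ u v, u ≠ v → M u v = F u v + eM tl hd b u v
  unit : ∀ u v, F u v = 0 ∨ F u v = 1
  deg : ∀ v, ∑ u, F v u + cnt tl v + cnt hd v ≤ 4
  lo : ∀ v, -M v v + cnt tl v + 2 * cnt hd v ≤ 9
  hi : ∀ v, M v v ≤ 1
  ht : ∀ v, Ht W (M v v)
  bpos : ∀ i, 0 < b i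
  ble : ∀ i, b i ≤ 1 / 2
  bge : ∀ i, 1 ≤ 4 * 2 ^ l * b i
  bht : ∀ i, Ht B (b i)

variable {k B W l : ℕ} {M F : Matrix V V ℝ} {tl hd : I → V} {b c : I → ℝ}

/-- Subdividing all weighted edges. -/
theorem Ed.step (h : Ed k B W l M F tl hd b) (c1 : ∀ i, 1 ≤ c i) (c2 : ∀ i, c i * b i ^ 2 ≤ 1)
    (c3 : ∀ i, Ht B (c i)) : ∃ M' : Matrix (V ⊕ I) (V ⊕ I) ℝ, Gd k M' ∧
      (∀ u v, u ≠ v → M' (.inl u) (.inl v) = F u v) ∧
      (∀ u i, M' (.inl u) (.inr i)
        = (if tl i = u then 1 else 0) + c i * b i * if hd i = u then 1 else 0) ∧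
      (∀ i j, M' (.inr i) (.inr j) = if i = j then -c i else 0) ∧
      (∀ v, -M' (.inl v) (.inl v) + cnt hd v ≤ 9 ∧ M' (.inl v) (.inl v) ≤ 1) ∧
      ∀ v, Ht (W + (12 * B + 5)) (M' v v) := by
  let E : Matrix I V ℝ := Matrix.of fun i u =>
    (if tl i = u then 1 else 0) + c i * b i * if hd i = u then 1 else 0
  have c0 : ∀ i, 0 < c i := fun i => by linarith [c1 i]
  have g := h.gd.bext_diag (E := E) c0 fun i => ⟨tl i, by simp [E, (h.ne i).symm]⟩
  have e1 : ∀ v i, E i v * (c i)⁻¹ * E i v
      = if tl i = v then (c i)⁻¹ else if hd i = v then c i * b i ^ 2 else 0 := by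
    intro v i
    have := (c0 i).ne'
    by_cases a1 : tl i = v
    · have a2 : hd i ≠ v := fun e => h.ne i (a1.trans e.symm)
      simp [E, a1, a2]
    · by_cases a2 : hd i = v
      · simp only [E, of_apply, a1, a2, if_true, if_false]
        field_simp
        ring
      · simp [E, a1, a2]
  refine ⟨_, g, fun u v huv => ?_, fun u i => rfl, fun i j => ?_, fun v => ?_, ?_⟩
  · rw [bext_ll, conj_diag, h.off u v huv, eM, add_sub_assoc, ← sum_sub_distrib,
      sum_eq_zero, add_zero]
    intro i _
    have := (c0 i).ne'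
    by_cases a1 : tl i = u <;> by_cases a2 : tl i = v <;> by_cases a3 : hd i = u <;>
      by_cases a4 : hd i = v <;>
      first
        | exact (huv (a1.symm.trans a2)).elim
        | exact (huv (a3.symm.trans a4)).elim
        | exact (h.ne i (a1.trans a3.symm)).elim
        | exact (h.ne i (a2.trans a4.symm)).elim
        | (simp only [E, of_apply, a1, a2, a3, a4, huv, huv.symm, if_true, if_false, and_self,
            and_true, and_false]; field_simp; ring)
  · rw [bext_rr, diagonal_apply]
    split_ifs <;> simp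
  · rw [bext_ll, conj_diag]
    simp only [e1]
    have a1 : ∑ i, (if tl i = v then (c i)⁻¹ else if hd i = v then c i * b i ^ 2 else 0)
        ≤ cnt tl v + cnt hd v := by
      rw [cnt, cnt, ← sum_add_distrib]
      refine sum_le_sum fun i _ => ?_
      have := inv_le_one_of_one_le₀ (c1 i)
      have := c2 i
      split_ifs <;> linarith
    have a2 : 0 ≤ ∑ i, (if tl i = v then (c i)⁻¹ else if hd i = v then c i * b i ^ 2 else 0) := by
      refine sum_nonneg fun i _ => ?_
      have := c0 i
      split_ifs <;> positivity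
    constructor <;> linarith [h.lo v, h.hi v]
  · rintro (v | i)
    · rw [bext_ll, conj_diag]
      simp only [e1]
      let s := univ.filter fun i => tl i = v ∨ hd i = v
      have a1 : (s.card : ℝ) ≤ cnt tl v + cnt hd v := by
        rw [cnt, cnt, ← sum_add_distrib, card_filter]
        push_cast
        refine sum_le_sum fun i _ => ?_
        split_ifs <;> first | tauto | norm_num
      have a2 : 0 ≤ ∑ u, F v u := sum_nonneg fun u _ => by
        rcases h.unit v u with e | e <;> simp [e]
      have a3 : s.card ≤ 4 := by exact_mod_cast (by linarith [h.deg v] : (s.card : ℝ) ≤ 4)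
      rw [← sum_subset (subset_univ s) fun i _ hi => by
        have : tl i ≠ v ∧ hd i ≠ v := by simpa [s] using hi
        simp [this.1, this.2]]
      refine ((h.ht v).sub (Ht.sum (B := 3 * B) s fun i _ => ?_)).mono (by nlinarith)
      split_ifs
      · exact (c3 i).inv.mono (by omega)
      · rw [pow_two]
        exact ((c3 i).mul ((h.bht i).mul (h.bht i))).mono (by omega)
      · exact Ht.zero
    · rw [bext_rr, diagonal_apply_eq]
      exact (c3 i).neg.mono (by omega)

theorem Ed.round (h : Ed k B W (l + 1) M F tl hd b) (hB : 1 ≤ B) :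
    ∃ (M' F' : Matrix (V ⊕ I) (V ⊕ I) ℝ) (b' : I → ℝ),
      Ed k B (W + (12 * B + 5)) l M' F' (fun i => .inl (hd i)) .inr b' := by
  let c : I → ℝ := fun i => if b i < 1 / 4 then 2 else 1
  have hc : ∀ i, (b i < 1 / 4 ∧ c i = 2) ∨ (1 / 4 ≤ b i ∧ c i = 1) := fun i => by
    by_cases a : b i < 1 / 4
    · exact Or.inl ⟨a, if_pos a⟩
    · exact Or.inr ⟨not_lt.1 a, if_neg a⟩
  obtain ⟨M', g, m1, m2, m3, m4, m5⟩ := h.step (c := c)
    (fun i => by rcases hc i with a | a <;> linarith [a.2])
    (fun i => by rcases hc i with a | a <;> rw [a.2] <;> nlinarith [h.bpos i, h.ble i])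
    (fun i => by
      have : 2 ≤ 2 ^ B := by simpa using Nat.pow_le_pow_right two_pos hB
      rcases hc i with a | a <;> rw [a.2]
      · simpa using Ht.nat this
      · simpa using Ht.nat (n := 1) (B := B) (by omega))
  let T : Matrix I V ℝ := Matrix.of fun i u => if tl i = u then 1 else 0
  refine ⟨M', fromBlocks F Tᵀ T 0, fun i => c i * b i, g, by simp, ?_, ?_, ?_, ?_, ?_, m5,
    fun i => ?_, fun i => ?_, fun i => ?_, fun i => ?_⟩
  · rintro (u | i) (v | j) huv
    · simpa [eM] using m1 u v fun e => huv (by rw [e])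
    · rw [m2, eM, sum_eq_single j (fun i _ hi => by simp [hi]) (by simp)]
      simp [T]
    · rw [g.sym, m2, eM, sum_eq_single i (fun j _ hj => by simp [hj]) (by simp)]
      simp [T]
    · have : i ≠ j := fun e => huv (by rw [e])
      simp [m3, eM, this]
  · rintro (u | i) (v | j)
    · exact h.unit u v
    · simp [T, em']
    · simp [T, em']
    · simp
  · rintro (v | i)
    · have := h.deg v
      simp only [cnt] at this
      simpa [Fintype.sum_sum_type, cnt, T] using this
    · simp [Fintype.sum_sum_type, cnt, T]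
      norm_num
  · rintro (v | i)
    · simpa [cnt] using (m4 v).1
    · simp only [m3, cnt]
      rcases hc i with a | a <;> simp [a.2] <;> norm_num
  · rintro (v | i)
    · exact (m4 v).2
    · rcases hc i with a | a <;> simp [m3, a.2] <;> norm_num
  · rcases hc i with a | a <;> rw [a.2] <;> linarith [h.bpos i]
  · rcases hc i with a | a <;> rw [a.2] <;> linarith [h.ble i, a.1]
  · have := h.bge i
    have h2 : (1 : ℝ) ≤ 2 ^ l := one_le_pow₀ (by norm_num)
    rw [pow_succ] at this
    rcases hc i with a | a <;> rw [a.2] <;> nlinarith [a.1]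
  · rcases hc i with a | a <;> rw [a.2]
    · exact (h.bht i).double (h.bpos i) (by linarith [a.1])
    · simpa using h.bht i

theorem Ed.last (h : Ed k B W 0 M F tl hd b) :
    ∃ M' : Matrix (V ⊕ I) (V ⊕ I) ℝ, Un k (W + (12 * B + 5)) M' := by
  have hb : ∀ i, (b i)⁻¹ * b i = 1 := fun i => inv_mul_cancel₀ (h.bpos i).ne'
  have h1 : ∀ i, 1 ≤ (b i)⁻¹ := fun i => one_le_inv₀ (h.bpos i) |>.2 (by linarith [h.ble i])
  have h2 : ∀ i, (b i)⁻¹ ≤ 4 := fun i => by
    rw [inv_le_iff_one_le_mul₀ (h.bpos i)]
    simpa using h.bge i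
  obtain ⟨M', g, m1, m2, m3, m4, m5⟩ := h.step (c := fun i => (b i)⁻¹) h1
    (fun i => by rw [pow_two, ← mul_assoc, hb]; linarith [h.ble i]) fun i => (h.bht i).inv
  simp only [hb, one_mul] at m2
  have m6 : ∀ u i, M' (.inl u) (.inr i) = 0 ∨ M' (.inl u) (.inr i) = 1 := fun u i => by
    rw [m2]
    split_ifs with a1 a2
    · exact (h.ne i (a1.trans a2.symm)).elim
    all_goals simp
  refine ⟨M', g, ?_, ?_, ?_, ?_, m5⟩
  · rintro (u | i) (v | j) huv
    · rw [m1 u v fun e => huv (by rw [e])]
      exact h.unit u v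
    · exact m6 u j
    · rw [g.sym]
      exact m6 v i
    · have : i ≠ j := fun e => huv (by rw [e])
      simp [m3, this]
  · rintro (v | i)
    · have a1 := h.deg v
      have a2 : 0 ≤ F v v := by rcases h.unit v v with e | e <;> simp [e]
      rw [Fintype.sum_sum_type]
      simp only [m2, sum_add_distrib]
      rw [← add_sum_erase _ _ (mem_univ v)] at a1 ⊢
      rw [sum_congr rfl fun u hu => m1 v u (ne_of_mem_erase hu).symm]
      simp only [cnt] at a1
      linarith
    · rw [Fintype.sum_sum_type]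
      simp only [g.sym (.inr i) (.inl _), m2, m3, sum_add_distrib]
      simp
      norm_num
  · rintro (v | i)
    · linarith [(m4 v).1, cnt_nonneg hd v]
    · simp only [m3, if_true]
      linarith [h2 i]
  · rintro (v | i)
    · exact (m4 v).2
    · simp only [m3, if_true]
      linarith [h1 i]

theorem Ed.un (hB : 1 ≤ B) (l : ℕ) : ∀ (V : Type) [Fintype V] [DecidableEq V] (W : ℕ)
    (M F : Matrix V V ℝ) (tl hd : I → V) (b : I → ℝ), Ed k B W l M F tl hd b →
    ∃ (V' : Type) (_ : Fintype V') (_ : DecidableEq V') (M' : Matrix V' V' ℝ),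
      Fintype.card V' = Fintype.card V + (l + 1) * Fintype.card I ∧
      Un k (W + (l + 1) * (12 * B + 5)) M' := by
  induction l with
  | zero =>
    intro V _ _ W M F tl hd b h
    obtain ⟨M', h1⟩ := h.last
    exact ⟨V ⊕ I, inferInstance, inferInstance, M', by simp, by simpa using h1⟩
  | succ l ih =>
    intro V _ _ W M F tl hd b h
    obtain ⟨M', F', b', h1⟩ := h.round hB
    obtain ⟨V', i1, i2, M'', h2, h3⟩ := ih _ _ _ _ _ _ _ h1
    refine ⟨V', i1, i2, M'', by rw [h2, Fintype.card_sum]; ring, ?_⟩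
    convert h3 using 1
    ring

end Pool.Agent.P.MP_1ec91f_co
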