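import Pool.Agent.P.MP_1ec91f_co.AdjClique

/-!
The lower bound for the adjacency matrix: the initial state and the choice of parameters.
-/

open Finset Matrix Module

set_option linter.unusedSectionVars false

namespace Pool.Agent.P.MP_1ec91f_co

section Init

variable {F T : Type} [Field F] [Fintype F] [DecidableEq F] [Fintype T] [DecidableEq T] {m : ℕ}

/-- Coordinates adapted to the lines in direction `mom m t`. -/
def ln (t : F) (x : Fin m → F) (s : F) : Fin (m + 1) → F :=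
  (Fin.cons 0 x : Fin (m + 1) → F) + s • mom m t

lemma ln_inj {t s s' : F} {x x' : Fin m → F} : ln t x s = ln t x' s' ↔ x = x' ∧ s = s' := by
  refine ⟨fun h => ?_, fun h => by rw [h.1, h.2]⟩
  have h1 : s = s' := by simpa [ln, mom] using congrFun h 0
  rw [ln, ln, h1, add_left_inj] at h
  exact ⟨Fin.cons_right_injective (α := fun _ => F) 0 h, h1⟩

lemma ln_surj (t : F) (y : Fin (m + 1) → F) : ∃ x s, ln t x s = y := by
  refine ⟨Fin.tail (y - y 0 • mom m t), y 0, ?_⟩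
  have h : (y - y 0 • mom m t) 0 = 0 := by simp [mom]
  rw [ln, ← h, Fin.cons_self_tail, sub_add_cancel]

lemma Av_ln (t s s' : F) (x x' : Fin m → F) : Av F (mom m t) (ln t x s) (ln t x' s')
    = if x = x' then (Fintype.card F : ℝ)⁻¹ else 0 := by
  have h : ∀ c : F, ln t x' s' = ln t x s + c • mom m t ↔ x = x' ∧ c = s' - s := fun c => by
    rw [ln, ln, add_assoc, ← add_smul, ← ln, ← ln, ln_inj, eq_comm (a := x), eq_sub_iff_add_eq',
      eq_comm (a := s')]
  simp only [Av, h]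
  split_ifs with e <;> simp [e]

/-- The cliques of the flag network. -/
def flagR (e : Bool × T ≃ F) : ((Fin (m + 1) → F) ⊕ F × (Fin m → F)) × Bool × T →
    ((Fin (m + 1) → F) × F) ⊕ ((Fin (m + 1) → F) × F)
  | (.inl x, z) => .inl (x, e z)
  | (.inr p, z) => .inr (ln p.1 p.2 (e z), p.1)

theorem flag_cl (e : Bool × T ≃ F) {s k : ℕ} (hs : Fintype.card F = 2 ^ s)
    (hm : m < Fintype.card F)
    (h : Gd k (Matrix.of (flagM (mom (F := F) m) ((Fintype.card F + m : ℝ)⁻¹)))) :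
    Cl k (s + 4) (Matrix.of (flagM (mom (F := F) m) ((Fintype.card F + m : ℝ)⁻¹))) .inl .inr
      (fun _ => 1) (flagR e)
      (Sum.elim (fun _ => (Fintype.card F + m : ℝ)⁻¹) fun _ => (Fintype.card F : ℝ)⁻¹)
      (Sum.elim (fun _ => (Fintype.card F + m : ℝ)⁻¹) fun _ => (Fintype.card F : ℝ)⁻¹) := by
  have q0 : (0 : ℝ) < Fintype.card F := by exact_mod_cast Fintype.card_pos
  have t1 : Ht (s + 1) (Fintype.card F + m : ℝ)⁻¹ := by
    simpa using (Ht.nat (n := Fintype.card F + m) (B := s + 1) (by rw [pow_succ]; omega)).inv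
  have t2 : Ht s (Fintype.card F : ℝ)⁻¹ := (Ht.nat hs.le).inv
  have t3 : Ht 1 2 := by simpa using Ht.nat (n := 2) (B := 1) (by norm_num)
  have t4 : Ht 2 (3 / 2) := ⟨3, 2, by norm_num, by norm_num, by norm_num, by norm_num⟩
  have hinj : Function.Injective (flagR (m := m) e) := by
    rintro ⟨x | ⟨t, x⟩, z⟩ ⟨x' | ⟨t', x'⟩, z'⟩ h1 <;>
      simp only [flagR, Sum.inl.injEq, Sum.inr.injEq, Prod.mk.injEq, reduceCtorEq] at h1
    · rw [h1.1, e.injective h1.2]
    · obtain ⟨h1, rfl⟩ := h1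
      rw [(ln_inj.1 h1).1, e.injective (ln_inj.1 h1).2]
  have hsurj : Function.Surjective (flagR (m := m) e) := by
    rintro (⟨x, t⟩ | ⟨y, t⟩)
    · exact ⟨(.inl x, e.symm t), by simp [flagR]⟩
    · obtain ⟨x, c, rfl⟩ := ln_surj t y
      exact ⟨(.inr (t, x), e.symm c), by simp [flagR]⟩
  have p0 : ∀ i : (Fin (m + 1) → F) ⊕ F × (Fin m → F),
      0 < Sum.elim (fun _ => (Fintype.card F + m : ℝ)⁻¹) (fun _ => (Fintype.card F : ℝ)⁻¹) i := by
    rintro (i | i) <;> simp only [Sum.elim_inl, Sum.elim_inr] <;> positivity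
  have p1 : ∀ i : (Fin (m + 1) → F) ⊕ F × (Fin m → F), Ht (s + 4)
      (Sum.elim (fun _ => (Fintype.card F + m : ℝ)⁻¹) (fun _ => (Fintype.card F : ℝ)⁻¹) i) := by
    rintro (i | i)
    exacts [t1.mono (by omega), t2.mono (by omega)]
  refine ⟨h, by simp, hinj, fun u v huv => ?_, fun v => ?_, fun v => ?_, fun _ => one_pos,
    fun _ => by simpa using Ht.nat (n := 1) (B := s + 4) Nat.one_le_two_pow, p0, p1, p0, p1⟩
  · obtain ⟨x, rfl⟩ := hsurj u
    obtain ⟨y, rfl⟩ := hsurj v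
    rw [conj_inc_inj hinj]
    rcases x with ⟨x | ⟨t, x⟩, z⟩ <;> rcases y with ⟨x' | ⟨t', x'⟩, z'⟩ <;>
      simp only [flagR, ne_eq, Sum.inl.injEq, Sum.inr.injEq] at huv <;>
      simp only [flagR, flagM, bW, of_apply, eM, ite_self]
    · simp [huv]
    · simp [ite_and, eq_comm]
    · simp [ite_and, eq_comm]
    · rw [if_neg huv]
      by_cases e1 : t = t'
      · subst e1
        simp [Av_ln]
      · simp [e1]
  · obtain ⟨x, rfl⟩ := hsurj v
    have : cnt (flagR (m := m) e) (flagR e x) = 1 := by simp [cnt, hinj.eq_iff]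
    rw [this]
    rcases flagR e x with p | p <;> simp [cnt] <;> norm_num
  · obtain ⟨x, rfl⟩ := hsurj v
    rcases x with ⟨x | ⟨t, x⟩, z⟩ <;> simp only [flagR, flagM, of_apply, if_true, Av_ln]
    exacts [(t1.sub t4).mono (by omega), (t2.sub t3).mono (by omega)]

end Init

theorem adj_graph {s m n : ℕ} (hm : 2 ≤ m) (hmq : m < 2 ^ s) (hn : (2 ^ s) ^ (m + 88) ≤ n) :
    ∃ (G : SimpleGraph (Fin n)) (_ : DecidableRel G.Adj), G.Connected ∧ G.maxDegree ≤ 100 ∧
      ((G.adjMatrix ℝ).charpoly.roots.sort (· ≥ ·)).getD 1 0 = 11 ∧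
      (2 ^ s).choose m ≤ 2 * (G.adjMatrix ℝ).charpoly.roots.count
        (((G.adjMatrix ℝ).charpoly.roots.sort (· ≥ ·)).getD 1 0) := by
  classical
  obtain ⟨j, rfl⟩ : ∃ j, s = j + 1 := ⟨s - 1, by
    rcases s with _ | s
    · omega
    · rfl⟩
  let F := GaloisField 2 (j + 1)
  let _ : Fintype F := Fintype.ofFinite F
  have hc : Fintype.card F = 2 ^ (j + 1) := by
    rw [← Nat.card_eq_fintype_card]
    exact GaloisField.card 2 (j + 1) (by omega)
  choose g hg using fun S : {S : Finset F // S.card = m} => mom_fun S.1 S.2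
  have h1 := (flag_good (mom_spans (F := F) (m := m)) (by omega) g hg).gd
  rw [Fintype.card_finset_len, hc] at h1
  have h2 : m + 1 ≤ (2 ^ (j + 1)).choose m := by
    have := Nat.choose_le_choose m (show m + 1 ≤ 2 ^ (j + 1) from hmq)
    rwa [Nat.choose_succ_self_right] at this
  obtain ⟨k, hk⟩ : ∃ k, (2 ^ (j + 1)).choose m = k + 1 :=
    ⟨_, (Nat.succ_pred_eq_of_pos (by omega)).symm⟩
  rw [hk, ← hc] at h1
  have h3 := flag_cl (Fintype.equivOfCardEq (α := Bool × Fin (2 ^ j))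
    (by simp [hc, pow_succ, mul_comm])) hc (by omega) h1
  refine (Cl.adj (n := n) j _ _ _ _ _ _ _ _ _ _ _ _ h3 (by simp) (by omega)
    (by omega) (le_trans ?_ hn)).elim fun V' h4 => ?_
  swap
  · obtain ⟨i, M', h4, h5⟩ := h4
    obtain ⟨G, i', g1, g2, g3, g4⟩ := h5.graph h4 (by omega)
    exact ⟨G, i', g1, g2, g3, by omega⟩
  · simp only [Fintype.card_sum, Fintype.card_prod, Fintype.card_fun, Fintype.card_fin, hc]
    have a0 : 2 ≤ 2 ^ (j + 1) := by omega
    have a1 : 4 ^ j ≤ (2 ^ (j + 1)) ^ 2 := by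
      rw [← pow_mul, mul_comm, pow_mul]
      exact Nat.pow_le_pow_right (by norm_num) (by omega)
    have a2 : 128 ^ j ≤ (2 ^ (j + 1)) ^ 7 := by
      rw [← pow_mul, mul_comm, pow_mul]
      exact Nat.pow_le_pow_right (by norm_num) (by omega)
    have a3 : j + 1 + 4 ≤ (2 ^ (j + 1)) ^ 3 := by
      have := Nat.lt_two_pow_self (n := j + 1)
      nlinarith [Nat.pow_le_pow_left a0 2]
    generalize 2 ^ (j + 1) = q at a0 a1 a2 a3 ⊢
    calc _ ≤ q ^ 2 * (q ^ (m + 1) * q + q ^ (m + 1) * q) * (2 ^ 33 * (q ^ 7 * q ^ 3) ^ 5) := by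
          gcongr
      _ = 2 ^ 34 * q ^ (m + 54) := by ring
      _ ≤ q ^ 34 * q ^ (m + 54) := by gcongr
      _ = _ := by ring

theorem choose_pow {m n : ℕ} (hm : 1 ≤ m) (hn : (4 * m) ^ (m + 88) ≤ n) :
    ∃ s : ℕ, m < 2 ^ s ∧ (2 ^ s) ^ (m + 88) ≤ n ∧
      2 * n ≤ (4 * m) ^ (m + 89) * (2 ^ s) ^ 88 * (2 ^ s).choose m := by
  classical
  have hex : ∃ s, n < (2 ^ (s + 1)) ^ (m + 88) :=
    ⟨n, ((Nat.lt_two_pow_self (n := n)).trans_le (Nat.pow_le_pow_right two_pos (by omega))).trans_le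
      (Nat.le_self_pow (by omega) _)⟩
  have h1 := Nat.find_spec hex
  set s := Nat.find hex with hs
  have h2 : 4 * m < 2 ^ (s + 1) := lt_of_pow_lt_pow_left₀ _ (by positivity) (hn.trans_lt h1)
  rw [pow_succ] at h2
  have h3 : s ≠ 0 := fun h => by
    rw [h] at h2
    omega
  have h4 := Nat.find_min hex (m := s - 1) (by omega)
  rw [show s - 1 + 1 = s by omega, not_lt] at h4
  refine ⟨s, by omega, h4, ?_⟩
  rw [pow_succ 2 s] at h1
  generalize 2 ^ s = q at *
  have h6 : q ^ m ≤ (2 * m) ^ m * q.choose m := by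
    have h7 := Nat.pow_sub_le_descFactorial q m
    rw [Nat.descFactorial_eq_factorial_mul_choose] at h7
    calc q ^ m ≤ (2 * (q + 1 - m)) ^ m := by gcongr; omega
      _ = 2 ^ m * (q + 1 - m) ^ m := mul_pow _ _ _
      _ ≤ 2 ^ m * (m ^ m * q.choose m) := by
        gcongr
        exact h7.trans (Nat.mul_le_mul_right _ (Nat.factorial_le_pow m))
      _ = _ := by rw [mul_pow, mul_assoc]
  calc 2 * n ≤ 2 * (q * 2) ^ (m + 88) := by omega
    _ = 2 ^ (m + 89) * q ^ 88 * q ^ m := by ring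
    _ ≤ 2 ^ (m + 89) * q ^ 88 * ((2 * m) ^ (m + 89) * q.choose m) := by
      gcongr
      exact h6.trans (by gcongr <;> omega)
    _ = _ := by
      rw [show 4 * m = 2 * (2 * m) by ring, mul_pow 2 (2 * m)]
      ring

theorem choose_param' : ∃ N : ℕ, ∀ n : ℕ, N ≤ n → ∃ m s : ℕ, 2 ≤ m ∧ m < 2 ^ s ∧
    (2 ^ s) ^ (m + 88) ≤ n ∧
    2 * (n * Real.exp (-20 * √(Real.log n * Real.log (Real.log n)))) ≤ (2 ^ s).choose m := by
  have e1 : ∀ᶠ L : ℝ in Filter.atTop, 64 ≤ L ∧ 8100 * Real.log L ≤ L := by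
    refine (Filter.eventually_ge_atTop 64).and ?_
    filter_upwards [Real.isLittleO_log_id_atTop.def (c := 1 / 8100) (by norm_num),
      Filter.eventually_ge_atTop 0] with L h1 h2
    have := le_abs_self (Real.log L)
    simp only [Real.norm_eq_abs, id, abs_of_nonneg h2] at h1
    linarith
  obtain ⟨N, hN⟩ := Filter.eventually_atTop.1
    (((Real.tendsto_log_atTop.comp tendsto_natCast_atTop_atTop).eventually e1).and
      (Filter.eventually_ge_atTop 1))
  refine ⟨N, fun n hn => ?_⟩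
  obtain ⟨⟨h1, h2⟩, h3⟩ := hN n hn
  simp only [Function.comp] at h1 h2
  have hn0 : (0 : ℝ) < n := by exact_mod_cast h3
  set L := Real.log n with hL
  have hl : 1 ≤ Real.log L := by
    rw [Real.le_log_iff_exp_le (by linarith)]
    linarith [Real.exp_one_lt_d9]
  set l := Real.log L with hl'
  set u := √(L / l) with hu
  have hu2 : u * u = L / l := Real.mul_self_sqrt (by positivity)
  have hu3 : u * u * l = L := by rw [hu2]; field_simp
  have hu8 : 90 ≤ u := by
    apply Real.le_sqrt_of_sq_le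
    rw [le_div_iff₀ (by linarith)]
    linarith
  have hs : √(L * l) = u * l := by
    rw [Real.sqrt_eq_iff_mul_self_eq (by positivity) (by positivity), ← hu3]
    ring
  let m := ⌈10 * u⌉₊
  have m1 : 10 * u ≤ m := Nat.le_ceil _
  have m2 : (m : ℝ) < 10 * u + 1 := Nat.ceil_lt_add_one (by linarith)
  have m3 : 2 ≤ m := by exact_mod_cast (show (2 : ℝ) ≤ m by linarith)
  have k1 : ((4 * m) ^ (m + 89) : ℝ) ≤ Real.exp (11 * (u * l)) := by
    have a1 : (4 * m : ℝ) ≤ Real.exp l := by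
      rw [hl', Real.exp_log (by linarith)]
      nlinarith
    calc ((4 * m) ^ (m + 89) : ℝ) ≤ Real.exp l ^ (m + 89) := by gcongr
      _ = Real.exp ((m + 89 : ℕ) * l) := by rw [Real.exp_nat_mul]
      _ ≤ _ := by
        apply Real.exp_le_exp.2
        push_cast
        nlinarith
  have k2 : (4 * m) ^ (m + 88) ≤ n := by
    have : Real.exp (11 * (u * l)) ≤ n := by
      rw [← Real.exp_log hn0, ← hL, ← hu3]
      apply Real.exp_le_exp.2
      nlinarith [mul_nonneg (sub_nonneg.2 hu8) (show 0 ≤ u * l by positivity)]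
    have a1 : (4 * m) ^ (m + 89) ≤ n := by exact_mod_cast k1.trans this
    exact (Nat.pow_le_pow_right (by omega) (by omega)).trans a1
  obtain ⟨s, q1, q2, q3⟩ := choose_pow (by omega) k2
  refine ⟨m, s, m3, q1, q2, ?_⟩
  generalize 2 ^ s = q at *
  have hq0 : (1 : ℝ) ≤ q := by exact_mod_cast (show 1 ≤ q by omega)
  have k3 : (q : ℝ) ^ 88 ≤ Real.exp (9 * (u * l)) := by
    rw [← Real.log_le_iff_le_exp (by positivity), Real.log_pow]
    have a1 : ((q : ℝ)) ^ m ≤ n := by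
      have : q ^ m ≤ q ^ (m + 88) := Nat.pow_le_pow_right (by omega) (by omega)
      exact_mod_cast (show q ^ m ≤ n by omega)
    have a2 := Real.log_le_log (by positivity) a1
    rw [Real.log_pow, ← hL, ← hu3] at a2
    have a3 := Real.log_nonneg hq0
    have a4 : u * (10 * Real.log q) ≤ u * (u * l) := by nlinarith
    have a5 := le_of_mul_le_mul_left a4 (by linarith)
    push_cast
    linarith
  have k4 : (2 * n : ℝ) ≤ (4 * m) ^ (m + 89) * q ^ 88 * q.choose m := by exact_mod_cast q3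
  have k5 : (2 * n : ℝ) ≤ Real.exp (20 * (u * l)) * q.choose m := by
    refine k4.trans ?_
    rw [show 20 * (u * l) = 11 * (u * l) + 9 * (u * l) by ring, Real.exp_add]
    gcongr
  rw [hs, neg_mul, Real.exp_neg, ← mul_assoc, ← div_eq_mul_inv, div_le_iff₀ (Real.exp_pos _),
    mul_comm _ (Real.exp _)]
  exact k5

theorem adj_lower : ∃ N : ℕ, ∀ n : ℕ, N ≤ n →
    ∃ (G : SimpleGraph (Fin n)) (_ : DecidableRel G.Adj), G.Connected ∧ G.maxDegree ≤ 100 ∧
      ((G.adjMatrix ℝ).charpoly.roots.sort (· ≥ ·)).getD 1 0 = 11 ∧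
      n * Real.exp (-20 * √(Real.log n * Real.log (Real.log n)))
        ≤ ((G.adjMatrix ℝ).charpoly.roots.count
          (((G.adjMatrix ℝ).charpoly.roots.sort (· ≥ ·)).getD 1 0) : ℕ) := by
  obtain ⟨N, hN⟩ := choose_param'
  refine ⟨N, fun n hn => ?_⟩
  obtain ⟨m, s, h1, h2, h3, h4⟩ := hN n hn
  obtain ⟨G, i, g1, g2, g3, g4⟩ := adj_graph h1 h2 h3
  refine ⟨G, i, g1, g2, g3, ?_⟩
  have g5 : (((2 ^ s).choose m : ℕ) : ℝ) ≤ 2 * ((G.adjMatrix ℝ).charpoly.roots.count
      (((G.adjMatrix ℝ).charpoly.roots.sort (· ≥ ·)).getD 1 0) : ℕ) := by exact_mod_cast g4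
  linarith

end Pool.Agent.P.MP_1ec91f_co
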