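import Pool.Agent.P.MP_1ec91f_co.AdjBase

/-!
Pendant trees: every rational potential is realised exactly by a small tree.
-/

open Finset Matrix Module

set_option linter.unusedSectionVars false

namespace Pool.Agent.P.MP_1ec91f_co

/-- `Tr S n d`: `S` is the total response of `d` pendant trees with `n` vertices in total. -/
inductive Tr : ℝ → ℕ → ℕ → Prop
  | nil : Tr 0 0 0
  | cons {S S' : ℝ} {n d n' d' : ℕ} : Tr S n d → Tr S' n' d' → d' ≤ 99 → S' < 11 →
      Tr (S + (11 - S')⁻¹) (n + n' + 1) (d + 1)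

lemma Tr.inv {S : ℝ} {n d : ℕ} (h : Tr S n d) : (S = 0 ∧ n = 0 ∧ d = 0) ∨
    ∃ S₁ n₁ d₁ S' n' d', Tr S₁ n₁ d₁ ∧ Tr S' n' d' ∧ d' ≤ 99 ∧ S' < 11 ∧
      S = S₁ + (11 - S')⁻¹ ∧ n = n₁ + n' + 1 ∧ d = d₁ + 1 := by
  cases h with
  | nil => exact Or.inl ⟨rfl, rfl, rfl⟩
  | cons h1 h2 h3 h4 => exact Or.inr ⟨_, _, _, _, _, _, h1, h2, h3, h4, rfl, rfl, rfl⟩

lemma Tr.leaves (j : ℕ) : Tr (j / 11) j j := by
  induction j with
  | zero => simpa using Tr.nil
  | succ j ih =>
    convert ih.cons Tr.nil (by norm_num) (by norm_num) using 1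
    push_cast
    ring

lemma Tr.halves {S : ℝ} {n d : ℕ} (h : Tr S n d) (j : ℕ) :
    Tr (S + j / 2) (n + 100 * j) (d + j) := by
  induction j with
  | zero => simpa using h
  | succ j ih =>
    convert ih.cons (Tr.leaves 99) le_rfl (by norm_num) using 1
    · push_cast
      ring
    · ring
    · ring

lemma Tr.path (l : ℕ) : ∃ x d, 0 ≤ x ∧ x ≤ 1 ∧ d ≤ 1 ∧ Tr x l d := by
  induction l with
  | zero => exact ⟨0, 0, le_rfl, zero_le_one, zero_le_one, Tr.nil⟩
  | succ l ih =>
    obtain ⟨x, d, h1, h2, h3, h4⟩ := ih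
    refine ⟨(11 - x)⁻¹, 1, inv_nonneg.2 (by linarith), inv_le_one_of_one_le₀ (by linarith),
      le_rfl, ?_⟩
    simpa using Tr.nil.cons h4 (by omega) (by linarith)

/-- Realisable with a spine of `t` steps. -/
def Rl (S : ℝ) (t : ℕ) : Prop := ∃ n d, Tr S n d ∧ n ≤ 2401 * t ∧ d ≤ 25

lemma Rl.mono {S : ℝ} {t t' : ℕ} (h : Rl S t) (ht : t ≤ t') : Rl S t' := by
  obtain ⟨n, d, h1, h2, h3⟩ := h
  exact ⟨n, d, h1, by omega, h3⟩

lemma Rl.spine {q u : ℤ} {j t : ℕ} (hq : 0 < q) (hu : 0 < u) (hj : j ≤ 24)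
    (h : Rl (((11 * u - 2 * q : ℤ) : ℝ) / u) t) : Rl (((j * q + u : ℤ) : ℝ) / (2 * q)) (t + 1) := by
  obtain ⟨n, d, h1, h2, h3⟩ := h
  have hq' : (0 : ℝ) < q := by exact_mod_cast hq
  have hu' : (0 : ℝ) < u := by exact_mod_cast hu
  have h4 : ((11 * u - 2 * q : ℤ) : ℝ) / u < 11 := by
    rw [div_lt_iff₀ hu']
    push_cast
    linarith
  refine ⟨_, _, ?_, (by omega : 0 + n + 1 + 100 * j ≤ _), (by omega : 0 + 1 + j ≤ 25)⟩
  convert (Tr.nil.cons h1 (by omega) h4).halves j using 1
  push_cast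
  field_simp
  ring

/-- One phase of the Euclidean algorithm. -/
lemma Rl.phase {Q : ℤ} {T : ℕ}
    (hT : ∀ p q : ℤ, 0 < q → 7 * q ≤ 6 * Q → q ≤ p → p ≤ 12 * q → Rl (p / q) T) (i : ℕ) :
    ∀ (q e : ℤ) (j : ℕ), 0 < q → j ≤ 24 → -4 * q ≤ 5 * e → 5 * e < q →
      3 * q ≤ 3 * Q + max e 0 → 2 * Q < |e| * 4 ^ i →
      Rl (((j * q + (q + e) : ℤ) : ℝ) / (2 * q)) (T + i + 2) := by
  induction i with
  | zero =>
    intro q e j hq hj h1 h2 h3 h4
    exfalso
    rw [pow_zero, mul_one] at h4
    rcases le_total e 0 with h | h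
    · rw [max_eq_right h] at h3
      rw [abs_of_nonpos h] at h4
      omega
    · rw [max_eq_left h] at h3
      rw [abs_of_nonneg h] at h4
      omega
  | succ i ih =>
    intro q e j hq hj h1 h2 h3 h4
    have hu : 0 < q + e := by omega
    have hu' : ((q + e : ℤ) : ℝ) ≠ 0 := by exact_mod_cast hu.ne'
    by_cases c1 : 7 * (q + e) ≤ 6 * Q
    · exact (Rl.spine hq hu hj (hT _ _ hu c1 (by omega) (by omega))).mono (by omega)
    by_cases c2 : 20 * e < q + e
    · have h5 : 3 * (q + e) ≤ 3 * Q + max (4 * e) 0 := by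
        rcases le_total e 0 with h | h
        · rw [max_eq_right h] at h3
          rw [max_eq_right (by omega)]
          omega
        · rw [max_eq_left h] at h3
          rw [max_eq_left (by omega)]
          omega
      have h6 : -4 * (q + e) ≤ 5 * (4 * e) := by
        by_contra h
        rw [max_eq_right (by omega)] at h3
        omega
      have h7 := ih (q + e) (4 * e) 17 hu (by norm_num) h6 (by omega) h5 (by
        rw [abs_mul, pow_succ] at *
        norm_num
        linarith)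
      refine Rl.spine (t := T + i + 2) hq hu hj ?_
      convert h7 using 1
      rw [div_eq_div_iff hu' (mul_ne_zero two_ne_zero hu')]
      push_cast
      ring
    · have he : 0 < 4 * e := by omega
      rw [max_eq_left (by omega)] at h3
      have h5 := Rl.spine (j := 18) hu he (by norm_num)
        (hT _ _ he (by omega) (by omega) (by omega))
      refine (Rl.spine (t := T + 1) hq hu hj ?_).mono (by omega)
      convert h5 using 1
      rw [div_eq_div_iff hu' (mul_ne_zero two_ne_zero hu')]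
      push_cast
      ring

lemma Rl.euclid (k : ℕ) : ∀ p q : ℤ, 0 < q → 6 ^ k * q ≤ 7 ^ k → q ≤ p → p ≤ 12 * q →
    Rl (p / q) ((k + 2) ^ 2) := by
  have key : ∀ p q : ℤ, 0 < q → q ≤ p → p ≤ 12 * q → ∃ (j : ℕ) (e : ℤ), j ≤ 23 ∧
      -4 * q ≤ 5 * e ∧ 5 * e < q ∧ (p : ℝ) / q = ((j * q + (q + e) : ℤ) : ℝ) / (2 * q) ∧
      (e = 0 → Rl (p / q) 1) := by
    intro p q hq h1 h2
    have hq' : (q : ℝ) ≠ 0 := by exact_mod_cast hq.ne'
    have h3 := Int.emod_nonneg (10 * p + 4 * q) (show 5 * q ≠ 0 by omega)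
    have h4 := Int.emod_lt_of_pos (10 * p + 4 * q) (show 0 < 5 * q by omega)
    have h5 := Int.mul_ediv_add_emod (10 * p + 4 * q) (5 * q)
    set a := (10 * p + 4 * q) / (5 * q)
    have h6 : 1 ≤ a := by nlinarith
    have h7 : a ≤ 24 := by nlinarith
    obtain ⟨j, hj⟩ : ∃ j : ℕ, a = j + 1 := ⟨(a - 1).toNat, by omega⟩
    have h8 : (p : ℝ) / q = ((j * q + (q + (2 * p - a * q)) : ℤ) : ℝ) / (2 * q) := by
      rw [hj]
      push_cast
      field_simp
      ring
    refine ⟨j, 2 * p - a * q, by omega, by nlinarith, by nlinarith, h8, fun he => ?_⟩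
    refine ⟨_, _, ?_, (by omega : 0 + 100 * (j + 1) ≤ _), (by omega : 0 + (j + 1) ≤ 25)⟩
    convert Tr.nil.halves (j + 1) using 1
    rw [h8, he]
    push_cast
    field_simp
    ring
  induction k with
  | zero =>
    intro p q hq h0 h1 h2
    obtain ⟨j, e, -, h3, h4, -, h5⟩ := key p q hq h1 h2
    exact (h5 (by omega)).mono (by norm_num)
  | succ k ih =>
    intro p q hq h0 h1 h2
    obtain ⟨j, e, h3, h4, h5, h6, h7⟩ := key p q hq h1 h2
    by_cases he : e = 0
    · exact (h7 he).mono (Nat.one_le_iff_ne_zero.2 (by positivity))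
    have h8 : (7 : ℤ) ^ (k + 1) ≤ 6 ^ (k + 1) * 4 ^ (k + 1) := by
      rw [← mul_pow]
      exact pow_le_pow_left₀ (by norm_num) (by norm_num) _
    have h9 : q ≤ 4 ^ (k + 1) := le_of_mul_le_mul_left (h0.trans h8) (by positivity)
    have h10 := Rl.phase (Q := q) (T := (k + 2) ^ 2) (fun p' q' a1 a2 a3 a4 => ih p' q' a1 (by
        rw [pow_succ, pow_succ] at h0
        have : (0 : ℤ) < 6 ^ k := by positivity
        nlinarith) a3 a4) (k + 2) q e j hq (by omega) h4 h5 (by simp) (by
      have a1 : 1 ≤ |e| := Int.one_le_abs he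
      have a2 : (0 : ℤ) < 4 ^ (k + 1) := by positivity
      rw [pow_succ]
      nlinarith)
    rw [h6]
    exact h10.mono (by nlinarith)

lemma Ht.rl {W : ℕ} {S : ℝ} (h : Ht W S) (h1 : 1 ≤ S) (h2 : S ≤ 12) : Rl S ((5 * W + 2) ^ 2) := by
  obtain ⟨p, q, e1, e2, -, rfl⟩ := h
  have e5 : (0 : ℝ) < q := by exact_mod_cast e1
  rw [le_div_iff₀ e5, one_mul] at h1
  rw [div_le_iff₀ e5] at h2
  refine Rl.euclid _ p q e1 ?_ (by exact_mod_cast h1) (by exact_mod_cast h2)
  calc (6 : ℤ) ^ (5 * W) * q ≤ 6 ^ (5 * W) * 2 ^ W := by gcongr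
    _ = (6 ^ 5 * 2) ^ W := by rw [mul_pow, pow_mul]
    _ ≤ (7 ^ 5) ^ W := pow_le_pow_left₀ (by norm_num) (by norm_num) _
    _ = _ := by rw [pow_mul]

variable {k : ℕ}

/-- The matrix `A_G - 11` of a graph of maximum degree at most `100`. -/
structure Adj {V : Type} [Fintype V] (k : ℕ) (M : Matrix V V ℝ) : Prop where
  gd : Gd k M
  unit : ∀ u v, u ≠ v → M u v = 0 ∨ M u v = 1
  diag : ∀ v, M v v = -11
  deg : ∀ v, ∑ u, M v u - M v v ≤ 100

theorem attach (N : ℕ) : ∀ (V : Type) [Fintype V] [DecidableEq V] (M : Matrix V V ℝ)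
    (n d : V → ℕ), ∑ v, n v = N → Gd k M → (∀ u v, u ≠ v → M u v = 0 ∨ M u v = 1) →
    (∀ v, Tr (11 + M v v) (n v) (d v)) → (∀ v, ∑ u, M v u - M v v + d v ≤ 100) →
    ∃ (V' : Type) (_ : Fintype V') (M' : Matrix V' V' ℝ),
      Fintype.card V' = Fintype.card V + N ∧ Adj k M' := by
  induction N with
  | zero =>
    intro V _ _ M n d hn h1 h2 h3 h4
    refine ⟨V, inferInstance, M, rfl, h1, h2, fun v => ?_, fun v => ?_⟩
    · have h5 : n v = 0 := sum_eq_zero_iff.1 hn v (mem_univ _)
      rcases (h3 v).inv with h6 | ⟨_, _, _, _, _, _, -, -, -, -, -, h6, -⟩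
      · linarith [h6.1]
      · omega
    · have : (0 : ℝ) ≤ d v := Nat.cast_nonneg _
      linarith [h4 v]
  | succ N ih =>
    intro V _ _ M n d hn h1 h2 h3 h4
    obtain ⟨w, -, hw⟩ := exists_ne_zero_of_sum_ne_zero (by omega : ∑ v, n v ≠ 0)
    obtain ⟨S₁, n₁, d₁, S', n', d', t1, t2, t3, t4, t5, t6, t7⟩ :=
      (h3 w).inv.resolve_left fun h => hw h.2.1
    let E : Matrix Unit V ℝ := Matrix.of fun _ u => if u = w then 1 else 0
    have g := h1.bext_diag (E := E) (c := fun _ => 11 - S') (fun _ => by linarith)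
      fun _ => ⟨w, by simp [E]⟩
    set M' := bext M E (diagonal fun _ => (11 - S')⁻¹) (diagonal fun _ => 11 - S') with hM'
    have e1 : ∀ u v, M' (.inl u) (.inl v)
        = M u v - if u = w ∧ v = w then (11 - S')⁻¹ else 0 := fun u v => by
      rw [hM', bext_ll, conj_diag]
      by_cases a : u = w <;> by_cases b : v = w <;> simp [E, a, b]
    have e2 : ∀ u y, M' (.inl u) (.inr y) = if u = w then 1 else 0 := fun u y => rfl
    have e3 : ∀ u y, M' (.inr y) (.inl u) = if u = w then 1 else 0 := fun u y => rfl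
    have e4 : ∀ y y', M' (.inr y) (.inr y') = -(11 - S') := fun y y' => by
      simp [hM', bext_rr]
    refine Exists.imp (fun V' => Exists.imp fun i => Exists.imp fun M'' =>
      And.imp_left fun c1 => ?_) (ih (V ⊕ Unit) M' (Sum.elim (Function.update n w n₁) fun _ => n')
      (Sum.elim (Function.update d w d₁) fun _ => d') ?_ g ?_ ?_ ?_)
    · rw [c1, Fintype.card_sum, Fintype.card_unit, add_assoc, add_comm 1]
    · rw [Fintype.sum_sum_type]
      simp only [Sum.elim_inl, Sum.elim_inr, sum_update_of_mem (mem_univ w), sum_const,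
        card_univ, Fintype.card_unit, one_smul]
      rw [← add_sum_erase _ _ (mem_univ w), ← sdiff_singleton_eq_erase] at hn
      omega
    · rintro (u | y) (v | y') huv
      · have : ¬ (u = w ∧ v = w) := fun h => huv (by rw [h.1, h.2])
        rw [e1, if_neg this, sub_zero]
        exact h2 u v fun e => huv (by rw [e])
      · rw [e2]
        split_ifs <;> simp
      · rw [e3]
        split_ifs <;> simp
      · exact (huv rfl).elim
    · rintro (u | y)
      · rw [e1]
        by_cases a : u = w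
        · subst a
          simp only [and_self, if_true, Sum.elim_inl, Function.update_self]
          convert t1 using 1
          linarith
        · simpa [a] using h3 u
      · rw [e4]
        simpa using t2
    · rintro (u | y)
      · have := h4 u
        rw [Fintype.sum_sum_type]
        simp only [e1, e2, sum_sub_distrib]
        by_cases a : u = w
        · subst a
          rw [t7] at this
          simp at this ⊢
          linarith
        · simpa [a] using this
      · have : (d' : ℝ) ≤ 99 := by exact_mod_cast t3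
        rw [Fintype.sum_sum_type]
        simp [e3, e4]
        linarith

variable {V : Type} [Fintype V] [DecidableEq V] {M : Matrix V V ℝ}

/-- Unit weights, degree at most four, bounded rational diagonal. -/
structure Un (k W : ℕ) (M : Matrix V V ℝ) : Prop where
  gd : Gd k M
  unit : ∀ u v, u ≠ v → M u v = 0 ∨ M u v = 1
  deg : ∀ v, ∑ u, M v u - M v v ≤ 4
  lo : ∀ v, -9 ≤ M v v
  hi : ∀ v, M v v ≤ 1
  ht : ∀ v, Ht W (M v v)

theorem Un.adj {W n : ℕ} (h : Un (k + 1) W M) (w : V)
    (hn : Fintype.card V * (1 + 2401 * (5 * W + 27) ^ 2) ≤ n) :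
    ∃ (V' : Type) (_ : Fintype V') (M' : Matrix V' V' ℝ), Fintype.card V' = n ∧ Adj k M' := by
  have h11 : Ht 4 11 := by simpa using Ht.nat (n := 11) (B := 4) (by norm_num)
  choose a d t1 t2 t3 using fun v => (h11.add (h.ht v)).rl (by linarith [h.lo v])
    (by linarith [h.hi v])
  have h1 : ∑ v, a v ≤ Fintype.card V * (2401 * (5 * W + 27) ^ 2) := by
    refine (sum_le_card_nsmul _ _ _ fun v _ => t2 v).trans (le_of_eq ?_)
    rw [card_univ, smul_eq_mul]
    ring
  have h2 : ∑ v ∈ univ \ {w}, a v ≤ ∑ v, a v := sum_le_sum_of_subset sdiff_subset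
  obtain ⟨x, d', p1, p2, p3, p4⟩ := Tr.path (n - Fintype.card V - ∑ v ∈ univ \ {w}, a v)
  have g := h.gd.lower w (δ := 11 + M w w - x) (by linarith [h.lo w])
  have e1 : ∀ u v, u ≠ v → (M - diagonal (Pi.single w (11 + M w w - x))) u v = M u v :=
    fun u v huv => by simp [diagonal_apply_ne _ huv]
  obtain ⟨V', i, M', c1, c2⟩ := attach _ V _
    (Function.update a w (n - Fintype.card V - ∑ v ∈ univ \ {w}, a v)) (Function.update d w d')
    rfl g (fun u v huv => by rw [e1 u v huv]; exact h.unit u v huv) (fun v => by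
      by_cases e : v = w
      · subst e
        simp only [Function.update_self, Matrix.sub_apply, diagonal_apply_eq, Pi.single_eq_same]
        convert p4 using 1
        ring
      · simpa [e] using t1 v) (fun v => by
      have h3 := h.deg v
      have h4 : Function.update d w d' v ≤ 25 := by
        by_cases e : v = w
        · subst e
          simpa using p3.trans (by norm_num)
        · simpa [e] using t3 v
      have h5 : ((Function.update d w d' v : ℕ) : ℝ) ≤ 25 := by exact_mod_cast h4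
      rw [← add_sum_erase _ _ (mem_univ v)] at h3 ⊢
      rw [sum_congr rfl fun u hu => e1 v u (ne_of_mem_erase hu).symm]
      linarith)
  refine ⟨V', i, M', ?_, c2⟩
  rw [c1, sum_update_of_mem (mem_univ w)]
  rw [mul_add, mul_one] at hn
  omega

lemma second_eq {A : Matrix V V ℝ} (hA : A.IsHermitian) (l : ℝ) (j : Fin (Fintype.card V))
    (hj : (j : ℕ) = 1) {a : V → ℝ}
    (ha : ∀ x, a ⬝ᵥ x = 0 → 0 ≤ BF (l • (1 : Matrix V V ℝ) - A) x x)
    (h2 : 2 ≤ finrank ℝ (LinearMap.ker (l • (1 : Matrix V V ℝ) - A).mulVecLin)) :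
    hA.eigenvalues₀ j = l := by
  refine le_antisymm ?_ ?_
  · by_contra hc
    push Not at hc
    obtain ⟨U, h1, h2, h3⟩ := exists_diag hA
    let e : Fin (Fintype.card V) ≃ V := Fintype.equivOfCardEq (Fintype.card_fin _)
    let j₀ : Fin (Fintype.card V) := ⟨0, by have := j.2; omega⟩
    have hne : e j₀ ≠ e j := fun h => by
      have := congrArg Fin.val (e.injective h)
      simp [j₀, hj] at this
    have hform := shift_eq h2 h3 l
    have hcol : ∀ i, Uᵀ *ᵥ (U *ᵥ Pi.single i 1) = Pi.single i 1 := fun i => by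
      rw [mulVec_mulVec, h1, one_mulVec]
    have hneg : ∀ i : Fin (Fintype.card V), i ≤ j → BF (l • (1 : Matrix V V ℝ) - A)
        (U *ᵥ Pi.single (e i) 1) (U *ᵥ Pi.single (e i) 1) < 0 := by
      intro i hi
      rw [hform, BF_diag, hcol, sum_eq_single (e i) (fun b _ hb => by simp [hb]) (by simp)]
      have : hA.eigenvalues (e i) = hA.eigenvalues₀ i := by
        simp [Matrix.IsHermitian.eigenvalues, e]
      have h4 := hA.eigenvalues₀_antitone hi
      simp only [Pi.single_eq_same, this]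
      linarith
    refine two_neg (a := a) (fun x y => ?_) ha
      (hneg j₀ (Fin.le_def.2 (Nat.zero_le _))) (hneg j le_rfl) ?_
    · have : A.IsSymm := by simpa using hA
      unfold BF
      rw [dotProduct_mulVec, ← mulVec_transpose, dotProduct_comm, transpose_sub, transpose_smul,
        transpose_one, this.eq]
    · rw [hform]
      unfold BF
      rw [← mulVec_mulVec, ← mulVec_mulVec, dotProduct_mulVec, ← mulVec_transpose, hcol, hcol]
      simp [hne]
  · by_contra hc
    push Not at hc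
    rw [finrank_ker_shift hA l] at h2
    obtain ⟨i, hi, i', hi', hne⟩ := one_lt_card.1 (by omega :
      1 < (univ.filter fun i => hA.eigenvalues₀ i = l).card)
    have key : ∀ i, hA.eigenvalues₀ i = l → (i : ℕ) = 0 := by
      intro i hi
      by_contra h
      have := hA.eigenvalues₀_antitone (show j ≤ i from Fin.le_def.2 (by omega))
      linarith
    exact hne (Fin.ext (by rw [key i (mem_filter.1 hi).2, key i' (mem_filter.1 hi').2]))

omit [DecidableEq V] in
theorem Adj.graph (h : Adj k M) {n : ℕ} (hn : Fintype.card V = n) (hk : 2 ≤ k) :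
    ∃ (G : SimpleGraph (Fin n)) (_ : DecidableRel G.Adj), G.Connected ∧ G.maxDegree ≤ 100 ∧
      ((G.adjMatrix ℝ).charpoly.roots.sort (· ≥ ·)).getD 1 0 = 11 ∧
      k ≤ (G.adjMatrix ℝ).charpoly.roots.count
        (((G.adjMatrix ℝ).charpoly.roots.sort (· ≥ ·)).getD 1 0) := by
  classical
  let e : Fin n ≃ V := (Fintype.equivFinOfCardEq hn).symm
  let G : SimpleGraph (Fin n) :=
    { Adj := fun i j => i ≠ j ∧ M (e i) (e j) ≠ 0
      symm := ⟨fun i j hij => ⟨hij.1.symm, by rw [h.gd.sym]; exact hij.2⟩⟩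
      loopless := ⟨fun i hi => hi.1 rfl⟩ }
  have hA : ∀ i j, G.adjMatrix ℝ i j = M (e i) (e j) + if i = j then 11 else 0 := by
    intro i j
    by_cases hij : i = j
    · subst hij
      simp [h.diag]
    · rcases h.unit _ _ (e.injective.ne hij) with h1 | h1 <;>
        simp [hij, SimpleGraph.adjMatrix_apply, G, h1]
  have hN : ∀ x : V → ℝ, ((11 : ℝ) • (1 : Matrix (Fin n) (Fin n) ℝ) - G.adjMatrix ℝ) *ᵥ (x ∘ e)
      = -((M *ᵥ x) ∘ e) := by
    intro x
    ext i
    simp only [mulVec, dotProduct, Matrix.sub_apply, Matrix.smul_apply, one_apply, hA,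
      Pi.neg_apply, Function.comp_apply, ← e.sum_comp, ← sum_neg_distrib]
    exact sum_congr rfl fun j _ => by split_ifs <;> simp
  have hM : (G.adjMatrix ℝ).IsHermitian := G.isHermitian_adjMatrix ℝ
  have hrank : k ≤ finrank ℝ (LinearMap.ker
      ((11 : ℝ) • (1 : Matrix (Fin n) (Fin n) ℝ) - G.adjMatrix ℝ).mulVecLin) := by
    refine h.gd.ker.trans ?_
    have hmem : ∀ x : LinearMap.ker M.mulVecLin,
        (LinearMap.funLeft ℝ ℝ e ∘ₗ (LinearMap.ker M.mulVecLin).subtype) x ∈ LinearMap.ker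
          ((11 : ℝ) • (1 : Matrix (Fin n) (Fin n) ℝ) - G.adjMatrix ℝ).mulVecLin := by
      intro x
      have hx : M *ᵥ x.1 = 0 := x.2
      change _ *ᵥ (x.1 ∘ e) = 0
      rw [hN, hx]
      simp
    refine LinearMap.finrank_le_finrank_of_injective (f := LinearMap.codRestrict _ _ hmem) ?_
    intro x x' hx
    ext u
    simpa using congrFun (congrArg Subtype.val hx) (e.symm u)
  have hj : 1 < Fintype.card (Fin n) := by
    have := Submodule.finrank_le (LinearMap.ker
      ((11 : ℝ) • (1 : Matrix (Fin n) (Fin n) ℝ) - G.adjMatrix ℝ).mulVecLin)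
    rw [finrank_fintype_fun_eq_card] at this
    omega
  obtain ⟨a, ha⟩ := h.gd.npos
  have h3 := second_eq hM 11 ⟨1, hj⟩ rfl (a := a ∘ e) (fun x hx => by
    obtain ⟨x, rfl⟩ : ∃ x' : V → ℝ, x = x' ∘ e := ⟨x ∘ e.symm, by ext i; simp⟩
    rw [comp_equiv_dotProduct_comp_equiv] at hx
    rw [BF, hN, dotProduct_neg, comp_equiv_dotProduct_comp_equiv]
    linarith [ha x hx]) (hk.trans hrank)
  refine ⟨G, inferInstance, ?_, ?_, ?_, ?_⟩
  · have : Nonempty (Fin n) := Fintype.card_pos_iff.1 (by omega)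
    refine ⟨fun i j => ?_⟩
    have key : ∀ u v, Relation.ReflTransGen (Sup M) u v → G.Reachable (e.symm u) (e.symm v) := by
      intro u v huv
      induction huv with
      | refl => exact SimpleGraph.Reachable.refl _
      | tail _ hr ih =>
        exact ih.trans (SimpleGraph.Adj.reachable ⟨e.symm.injective.ne hr.1, by simpa using hr.2⟩)
    simpa using key _ _ (h.gd.conn (e i) (e j))
  · refine G.maxDegree_le_of_forall_degree_le 100 fun i => ?_
    have h4 := h.deg (e i)
    have h5 : (G.degree i : ℝ) = ∑ j, G.adjMatrix ℝ i j := by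
      have := G.adjMatrix_mulVec_const_apply (α := ℝ) (a := 1) (v := i)
      simpa [mulVec, dotProduct] using this.symm
    rw [← e.sum_comp, h.diag] at h4
    simp only [hA, sum_add_distrib, sum_ite_eq, mem_univ, if_true] at h5
    exact_mod_cast (by linarith : (G.degree i : ℝ) ≤ 100)
  · have h1 := hM.sort_roots_charpoly_eq_eigenvalues₀
    simp only [RCLike.re_to_real, Multiset.map_id'] at h1
    rw [h1, List.getD_eq_getElem _ _ (by simpa using hj), List.getElem_ofFn]
    exact h3
  · rw [count_second hM ⟨1, hj⟩ rfl, h3, ← finrank_ker_shift hM]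
    exact hrank

end Pool.Agent.P.MP_1ec91f_co
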