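import Pool.Agent.P.MP_1ec91f_co.CubEdge

/-!
Replacing weighted cliques of size `2 ^ s` by networks of degree three with rational weights.
-/

open Finset Matrix Module

set_option linter.unusedSectionVars false

namespace Pool.Agent.P.MP_1ec91f_co

variable {V Y I J T A A₂ : Type} [Fintype V] [DecidableEq V] [Fintype Y] [DecidableEq Y]
  [Fintype I] [DecidableEq I] [Fintype J] [DecidableEq J] [Fintype T] [DecidableEq T]
  [Fintype A] [DecidableEq A] [Fintype A₂] [DecidableEq A₂] {k : ℕ} {M : Matrix V V ℝ}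

lemma conn_of_inv {R C : Matrix Y Y ℝ} (hC : Cᵀ = C) (hCR : C * R = 1) {y y' : Y}
    (h : R y y' ≠ 0) : Relation.ReflTransGen (Sup C) y y' := by
  classical
  by_contra hc
  let z : Y → ℝ := fun x => if Relation.ReflTransGen (Sup C) y x then R x y' else 0
  have h1 : ∀ x x', Relation.ReflTransGen (Sup C) y x → ¬ Relation.ReflTransGen (Sup C) y x' →
      C x x' = 0 := fun x x' hx hx' => by
    by_contra e
    exact hx' (hx.tail ⟨fun e' => hx' (e' ▸ hx), e⟩)
  have h2 : C *ᵥ z = 0 := by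
    ext x
    by_cases hx : Relation.ReflTransGen (Sup C) y x
    · have : (C * R) x y' = 0 := by
        rw [hCR, one_apply_ne fun e : x = y' => hc (e ▸ hx)]
      rw [Pi.zero_apply, ← this, Matrix.mul_apply]
      refine sum_congr rfl fun x' _ => ?_
      simp only [z]
      split_ifs with e
      · rfl
      · simp [h1 x x' hx e]
    · refine sum_eq_zero fun x' _ => ?_
      simp only [z]
      split_ifs with e
      · rw [← hC, transpose_apply, h1 x' x e hx, zero_mul]
      · simp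
  have h3 : z = 0 := by
    rw [← one_mulVec z, ← mul_eq_one_comm.1 hCR, ← mulVec_mulVec, h2, mulVec_zero]
  exact h (by simpa [z, Relation.ReflTransGen.refl] using congrFun h3 y)

theorem Gd.bext' (h : Gd k M) {E : Matrix Y V ℝ} {R C : Matrix Y Y ℝ} (hR : Rᵀ = R) (hC : Cᵀ = C)
    (hCR : C * R = 1) (hpsd : ∀ y, 0 ≤ y ⬝ᵥ C *ᵥ y) (hE : ∀ y, ∃ u, E y u ≠ 0) :
    Gd k (Pool.Agent.P.MP_1ec91f_co.bext M E R C) := by
  have hmul : ∀ (x : V → ℝ) (y : Y → ℝ), (Pool.Agent.P.MP_1ec91f_co.bext M E R C) *ᵥ Sum.elim x y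
      = Sum.elim (M *ᵥ x + Eᵀ *ᵥ (y - R *ᵥ (E *ᵥ x))) (-(C *ᵥ (y - R *ᵥ (E *ᵥ x)))) := by
    intro x y
    rw [Pool.Agent.P.MP_1ec91f_co.bext, fromBlocks_mulVec]
    congr 1
    · simp only [Sum.elim_comp_inl, Sum.elim_comp_inr, sub_mulVec, mulVec_sub, ← mulVec_mulVec]
      abel
    · simp only [Sum.elim_comp_inl, Sum.elim_comp_inr, neg_mulVec, mulVec_sub]
      rw [mulVec_mulVec (M := C) (N := R), hCR, one_mulVec]
      abel
  refine ⟨?_, ?_, ?_, ?_⟩
  · simp only [Pool.Agent.P.MP_1ec91f_co.bext, fromBlocks_transpose, transpose_sub, transpose_mul,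
      transpose_transpose, transpose_neg, h.symm, hR, hC, Matrix.mul_assoc]
  · obtain ⟨a, ha⟩ := h.npos
    refine ⟨Sum.elim a 0, fun z hz => ?_⟩
    rw [← Sum.elim_comp_inl_inr z] at hz ⊢
    set x := z ∘ Sum.inl
    set y := z ∘ Sum.inr
    rw [sumElim_dotProduct_sumElim, zero_dotProduct, add_zero] at hz
    rw [hmul, sumElim_dotProduct_sumElim]
    set w := y - R *ᵥ (E *ᵥ x) with hw
    have e1 : x ⬝ᵥ Eᵀ *ᵥ w = (R *ᵥ (E *ᵥ x)) ⬝ᵥ C *ᵥ w := by
      rw [dotProduct_mulVec, vecMul_transpose, dotProduct_mulVec _ C, ← hC, vecMul_transpose,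
        mulVec_mulVec (M := C) (N := R), hCR, one_mulVec]
    have e2 : y = w + R *ᵥ (E *ᵥ x) := by rw [hw]; abel
    rw [dotProduct_add, e1, dotProduct_neg, e2, add_dotProduct]
    linarith [ha x hz, hpsd w]
  · refine h.ker.trans ?_
    let L : (V → ℝ) →ₗ[ℝ] (V ⊕ Y → ℝ) :=
      { toFun := fun x => Sum.elim x (R *ᵥ (E *ᵥ x))
        map_add' := fun x x' => by
          ext (u | y) <;> simp [mulVec_add]
        map_smul' := fun t x => by
          ext (u | y) <;> simp [mulVec_smul] }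
    have hmem : ∀ x : LinearMap.ker M.mulVecLin, (L ∘ₗ (LinearMap.ker M.mulVecLin).subtype) x
        ∈ LinearMap.ker (Pool.Agent.P.MP_1ec91f_co.bext M E R C).mulVecLin := by
      intro x
      have hx : M *ᵥ x.1 = 0 := x.2
      change (Pool.Agent.P.MP_1ec91f_co.bext M E R C) *ᵥ Sum.elim x.1 (R *ᵥ (E *ᵥ x.1)) = 0
      rw [hmul, hx]
      ext (u | y) <;> simp
    refine LinearMap.finrank_le_finrank_of_injective (f := LinearMap.codRestrict _ _ hmem) ?_
    intro x x' hx
    ext u
    exact congrFun (congrArg Subtype.val hx) (Sum.inl u)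
  · set M' := Pool.Agent.P.MP_1ec91f_co.bext M E R C with hM'
    have h1 : ∀ y u, E y u ≠ 0 → Sup M' (.inl u) (.inr y) ∧ Sup M' (.inr y) (.inl u) :=
      fun y u hyu => ⟨⟨by simp, hyu⟩, ⟨by simp, hyu⟩⟩
    have h2 : ∀ s t, Sup M s t → Relation.ReflTransGen (Sup M') (.inl s) (.inl t) := by
      rintro s t ⟨hst, hM⟩
      by_cases h0 : (Eᵀ * R * E) s t = 0
      · exact Relation.ReflTransGen.single
          ⟨by simpa using hst, by rwa [hM', bext_ll, h0, sub_zero]⟩
      rw [Matrix.mul_apply] at h0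
      obtain ⟨y', -, h3⟩ := exists_ne_zero_of_sum_ne_zero h0
      have h4 := left_ne_zero_of_mul h3
      rw [Matrix.mul_apply] at h4
      obtain ⟨y, -, h5⟩ := exists_ne_zero_of_sum_ne_zero h4
      have h6 : Relation.ReflTransGen (Sup M') (.inr y) (.inr y') := by
        have h7 := conn_of_inv hC hCR (right_ne_zero_of_mul h5)
        clear h5 h4 h3
        induction h7 with
        | refl => exact Relation.ReflTransGen.refl
        | tail _ hr ih => exact ih.tail ⟨by simpa using hr.1, neg_ne_zero.2 hr.2⟩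
      exact ((Relation.ReflTransGen.single (h1 y s (left_ne_zero_of_mul h5)).1).trans h6).tail
        (h1 y' t (right_ne_zero_of_mul h3)).2
    have h3 : ∀ u v, Relation.ReflTransGen (Sup M') (.inl u) (.inl v) := by
      intro u v
      induction h.conn u v with
      | refl => exact Relation.ReflTransGen.refl
      | tail _ hr ih => exact ih.trans (h2 _ _ hr)
    rintro (u | y) (v | y')
    · exact h3 u v
    · obtain ⟨v, hv⟩ := hE y'
      exact (h3 u v).tail (h1 _ _ hv).1
    · obtain ⟨u, hu⟩ := hE y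
      exact Relation.ReflTransGen.head (h1 _ _ hu).2 (h3 u v)
    · obtain ⟨u, hu⟩ := hE y
      obtain ⟨v, hv⟩ := hE y'
      exact (Relation.ReflTransGen.head (h1 _ _ hu).2 (h3 u v)).tail (h1 _ _ hv).1

/-- Disjoint cliques with four quarters: weight `a` across the halves, `c` across the quarters
of a half and `b` inside the quarters. -/
def bQ (T : Type) (a c b : I → ℝ) : Matrix (I × Bool × Bool × T) (I × Bool × Bool × T) ℝ :=
  Matrix.of fun x y => if x.1 = y.1 then (if x.2.1 = y.2.1 then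
    (if x.2.2.1 = y.2.2.1 then b x.1 else c x.1) else a x.1) else 0

lemma bQ_symm (a c b : I → ℝ) : (bQ T a c b)ᵀ = bQ T a c b := by
  ext x y
  simp only [bQ, transpose_apply, of_apply, eq_comm (a := y.1), eq_comm (a := y.2.1),
    eq_comm (a := y.2.2.1)]
  split_ifs with h <;> simp [h]

lemma bQ_mul (a c b a' c' b' : I → ℝ) : bQ T a c b * bQ T a' c' b'
    = bQ T (fun i => Fintype.card T * (a i * (b' i + c' i) + (b i + c i) * a' i))
      (fun i => Fintype.card T * (2 * a i * a' i + c i * b' i + b i * c' i))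
      (fun i => Fintype.card T * (2 * a i * a' i + c i * c' i + b i * b' i)) := by
  ext ⟨i, e, g, z⟩ ⟨i', e', g', z'⟩
  simp only [bQ, Matrix.mul_apply, of_apply, Fintype.sum_prod_type]
  rw [sum_eq_single i (fun j _ hj => by simp [hj.symm]) (by simp)]
  by_cases h : i = i'
  · cases e <;> cases e' <;> cases g <;> cases g' <;> simp [h] <;> ring
  · simp [h]

lemma bQ_row (a c b : I → ℝ) (x : I × Bool × Bool × T) :
    ∑ y, bQ T a c b x y = Fintype.card T * (2 * a x.1 + c x.1 + b x.1) := by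
  obtain ⟨i, e, g, z⟩ := x
  simp only [bQ, of_apply, Fintype.sum_prod_type]
  rw [sum_eq_single i (fun j _ hj => by simp [hj.symm]) (by simp)]
  cases e <;> cases g <;> simp <;> ring

/-- A state with two families of slots. -/
structure G2 (k D H : ℕ) (μ : ℝ) (M : Matrix V V ℝ) (tl hd : J → V) (w : J → ℝ) (r : A → V)
    (W : Matrix A A ℝ) (r₂ : A₂ → V) (W₂ : Matrix A₂ A₂ ℝ) : Prop where
  gd : Gd k M
  ne : ∀ j, tl j ≠ hd j
  off : ∀ u v, u ≠ v →
    M u v = eM tl hd w u v + ((inc r)ᵀ * W * inc r) u v + ((inc r₂)ᵀ * W₂ * inc r₂) u v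
  deg : ∀ v, cnt tl v + cnt hd v + μ * cnt r v + cnt r₂ v ≤ 3
  ht : ∀ v, Ht D (M v v)
  wpos : ∀ j, 0 < w j
  wht : ∀ j, Ht H (w j)

variable {D H B : ℕ} {tl hd : J → V} {w : J → ℝ}

theorem G2.sweep {r : A → V} {W W' : Matrix A A ℝ} {r₂ : A₂ → V} {W₂ : Matrix A₂ A₂ ℝ}
    {K : A → ℝ} (h : G2 k D H 1 M tl hd w r W r₂ W₂) (s1 : Wᵀ = W) (s2 : W'ᵀ = W')
    (h1 : (diagonal (fun x => (K x)⁻¹) - W') * (diagonal K + W) = 1) (h2 : ∀ x y, 0 ≤ W' x y)
    (h3 : ∀ x, ∑ y, W' x y ≤ (K x)⁻¹) (t1 : ∀ x, Ht B (K x)) (t2 : ∀ x y, Ht B (W x y))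
    (t3 : ∀ x, Ht B (W' x x)) : ∃ M' : Matrix (V ⊕ A) (V ⊕ A) ℝ, G2 k (D + 32 * B + 37) H 2 M'
      (Sum.elim (fun j => .inl (tl j)) fun y => .inl (r y))
      (Sum.elim (fun j => .inl (hd j)) .inr) (Sum.elim w fun _ => 1) .inr W'
      (fun x => .inl (r₂ x)) W₂ := by
  have g := h.gd.bext' (E := inc r) (by rw [transpose_add, diagonal_transpose, s1])
    (by rw [transpose_sub, diagonal_transpose, s2]) h1 (psd_of_dom s2 h2 h3)
    fun y => ⟨r y, by simp [inc]⟩
  refine ⟨_, g, ?_, ?_, ?_, ?_, ?_, ?_⟩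
  · rintro (j | y)
    · simpa using h.ne j
    · simp
  · rintro (u | y) (v | y') huv
    · have e : u ≠ v := fun e => huv (by rw [e])
      rw [bext_ll, h.off u v e, Matrix.mul_add, Matrix.add_mul, Matrix.add_apply, conj_diag,
        sum_eq_zero fun y _ => by
          by_cases e2 : r y = u
          · simp [inc, e2, e]
          · simp [inc, e2]]
      simp [eM, conj_inc, Fintype.sum_sum_type]
      ring
    · rw [bext_lr, eM, Fintype.sum_sum_type, sum_eq_single y' (fun i _ hi => by simp [hi])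
        (by simp), conj_inc, conj_inc]
      simp [inc]
    · rw [bext_rl, eM, Fintype.sum_sum_type, sum_eq_single y (fun i _ hi => by simp [hi])
        (by simp), conj_inc, conj_inc]
      simp [inc]
    · have e : y ≠ y' := fun e => huv (by rw [e])
      rw [bext_rr, conj_inc_inj Sum.inr_injective, conj_inc]
      simp [eM, Fintype.sum_sum_type, e]
  · rintro (v | y)
    · have e1 := h.deg v
      simp only [cnt] at e1
      simp only [cnt, Fintype.sum_sum_type, Sum.elim_inl, Sum.elim_inr, Sum.inl.injEq,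
        reduceCtorEq, if_false, sum_const_zero]
      linarith
    · simp only [cnt, Fintype.sum_sum_type]
      simp
      norm_num
  · rintro (v | y)
    · rw [bext_ll]
      refine ((h.ht v).sub (ht_conj (B := 2 * B + 1) ?_ fun x y => ?_)).mono (by omega)
      · linarith [h.deg v, cnt_nonneg tl v, cnt_nonneg hd v, cnt_nonneg r₂ v]
      · refine (Ht.add (A := B) ?_ (t2 x y)).mono (by omega)
        rw [diagonal_apply]
        split_ifs
        exacts [t1 _, Ht.zero]
    · rw [bext_rr, Matrix.sub_apply, diagonal_apply_eq]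
      exact ((t1 _).inv.sub (t3 _)).neg.mono (by omega)
  · rintro (j | y)
    · exact h.wpos j
    · exact one_pos
  · rintro (j | y)
    · exact h.wht j
    · simpa using Ht.nat (n := 1) (B := H) Nat.one_le_two_pow

/-- Inverting `K + W` on four quarters of size `h`, killing the middle weight. -/
lemma sweep2 {a b h : ℝ} (ha : 0 < a) (hb : 0 < b) (hh : 0 < h) (h1 : Ht H a) (h2 : Ht H b)
    (h3 : Ht H h) (hH : 40 ≤ H) : ∃ K η a' b' : ℝ, 0 < K ∧ η < b ∧ 0 < a' ∧ 0 < b' ∧
      K⁻¹ * a - a' * K - h * (a' * (b / 2 + η) + (b' + 0) * a) = 0 ∧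
      K⁻¹ * η - 0 * K - h * (2 * a' * a + 0 * (b / 2) + b' * η) = 0 ∧
      K⁻¹ * (b / 2) - b' * K - h * (2 * a' * a + 0 * η + b' * (b / 2)) = 0 ∧
      h * (2 * a' + 0 + b') ≤ K⁻¹ ∧ Ht (50 * H) K ∧ Ht (50 * H) η ∧ Ht (50 * H) (b - η) ∧
      Ht (50 * H) a' ∧ Ht (50 * H) b' := by
  obtain ⟨E, hE⟩ : ∃ E, E = 8 * (a * a) * h / b + h * b := ⟨_, rfl⟩
  have e0 : 0 < E := by rw [hE]; positivity
  have e1 : b * E = 8 * (a * a) * h + h * b * b := by rw [hE]; field_simp
  have e2 : 2 * a * h < E := by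
    refine lt_of_mul_lt_mul_left ?_ hb.le
    nlinarith [mul_pos hh (mul_pos ha ha), mul_nonneg hh.le (sq_nonneg (a - b))]
  obtain ⟨η, hη⟩ : ∃ η, η = 2 * (a * a) * h / E := ⟨_, rfl⟩
  have n0 : 0 < η := by rw [hη]; positivity
  have n1 : η ≤ b / 4 := by
    rw [hη, div_le_iff₀ e0]
    nlinarith [mul_pos hh (mul_pos hb hb)]
  obtain ⟨K, hK⟩ : ∃ K, K = E - h * (b / 2 + η) := ⟨_, rfl⟩
  have k0 : 0 < K := by
    have : 0 < 8 * (a * a) * h / b := by positivity
    nlinarith [mul_le_mul_of_nonneg_left n1 hh.le, mul_pos hh hb]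
  obtain ⟨P, hP⟩ : ∃ P, P = E * E - 4 * (a * a) * (h * h) := ⟨_, rfl⟩
  have p0 : 0 < P := by nlinarith [mul_pos ha hh]
  have t2 : Ht 1 2 := by simpa using Ht.nat (n := 2) (B := 1) (by norm_num)
  have t4 : Ht 2 4 := by simpa using Ht.nat (n := 4) (B := 2) (by norm_num)
  have t8 : Ht 3 8 := by simpa using Ht.nat (n := 8) (B := 3) (by norm_num)
  have tE : Ht (6 * H + 4) E := by
    rw [hE]
    exact ((((t8.mul (h1.mul h1)).mul h3).div h2).add (h3.mul h2)).mono (by omega)
  have tη : Ht (9 * H + 5) η := by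
    rw [hη]
    exact (((t2.mul (h1.mul h1)).mul h3).div tE).mono (by omega)
  have tK : Ht (17 * H + 12) K := by
    rw [hK]
    exact (tE.sub (h3.mul ((h2.div t2).add tη))).mono (by omega)
  have tP : Ht (16 * H + 11) P := by
    rw [hP]
    exact ((tE.mul tE).sub ((t4.mul (h1.mul h1)).mul (h3.mul h3))).mono (by omega)
  have hb2 : b / 2 = (E - K) / h - η := by
    rw [hK]
    field_simp
    ring
  have q0 : 0 < b / 2 - η := by linarith
  refine ⟨K, η, a / P, (b / 2 - η) * E / (K * P), k0, by linarith, by positivity, by positivity,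
    ?_, ?_, ?_, ?_, tK.mono (by omega), tη.mono (by omega), (h2.sub tη).mono (by omega),
    (h1.div tP).mono (by omega),
    ((((h2.div t2).sub tη).mul tE).div (tK.mul tP)).mono (by omega)⟩
  · rw [hb2, hη]
    field_simp
    rw [hP]
    ring
  · rw [hb2, hη]
    field_simp
    rw [hP]
    ring
  · rw [hb2, hη]
    field_simp
    rw [hP]
    ring
  · have : h * (2 * (a / P) + 0 + (b / 2 - η) * E / (K * P)) = K⁻¹ - (E - 2 * a * h) / P := by
      rw [hb2, hη]
      field_simp
      rw [hP]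
      ring
    rw [this]
    linarith [div_pos (sub_pos.2 e2) p0]

/-- A state of the clique reduction. -/
structure Cl3 (k H : ℕ) (M : Matrix V V ℝ) (tl hd : J → V) (w : J → ℝ) (r : I × Bool × T → V)
    (a b : I → ℝ) : Prop where
  gd : Gd k M
  ne : ∀ j, tl j ≠ hd j
  inj : Function.Injective r
  off : ∀ u v, u ≠ v → M u v = eM tl hd w u v + ((inc r)ᵀ * bW T a b * inc r) u v
  deg : ∀ v, cnt tl v + cnt hd v + 2 * cnt r v ≤ 3
  ht : ∀ v, Ht (40 * H) (M v v)
  wpos : ∀ j, 0 < w j
  wht : ∀ j, Ht H (w j)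
  apos : ∀ i, 0 < a i
  aht : ∀ i, Ht H (a i)
  bpos : ∀ i, 0 < b i
  bht : ∀ i, Ht H (b i)

variable {a b : I → ℝ}

/-- Where the new cliques are attached. -/
def att (r : I × Bool × Bool × T → V) (y : (I × Fin 3 × Bool) × Bool × T) :
    V ⊕ I × Bool × Bool × T := if (quart.symm y).1 = 0 then .inl (r (par y)) else .inr (par y)

lemma cnt_att (r : I × Bool × Bool × T → V) (v : V ⊕ I × Bool × Bool × T) :
    cnt (att r) v = 2 * cnt .inr v + cnt (fun x => .inl (r x)) v := by
  simp only [cnt, ← quart.sum_comp, att, par, Equiv.symm_apply_apply]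
  rw [Fintype.sum_prod_type, Fin.sum_univ_three]
  simp only [if_true, show (1 : Fin 3) ≠ 0 by decide, show (2 : Fin 3) ≠ 0 by decide, if_false]
  ring

lemma conj_att (r : I × Bool × Bool × T → V) (c β a' b' : I → ℝ) (u v : V ⊕ I × Bool × Bool × T) :
    ((inc (att r))ᵀ * bW T (fun i : I × Fin 3 × Bool => if i.2.1 = 0 then c i.1 else a' i.1)
      (fun i => if i.2.1 = 0 then β i.1 else b' i.1 / 2) * inc (att r)) u v
    = ((inc (V := V ⊕ I × Bool × Bool × T) .inr)ᵀ * bQ T a' 0 b'
        * inc (V := V ⊕ I × Bool × Bool × T) .inr) u v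
      + ((inc (V := V ⊕ I × Bool × Bool × T) fun x => .inl (r x))ᵀ * bQ T 0 c β
        * inc (V := V ⊕ I × Bool × Bool × T) fun x => .inl (r x)) u v := by
  set W := bW T (fun i : I × Fin 3 × Bool => if i.2.1 = 0 then c i.1 else a' i.1)
    (fun i => if i.2.1 = 0 then β i.1 else b' i.1 / 2) with hW
  have f0 : ∀ t t' x y, t' ≠ t → W (quart (t, x)) (quart (t', y)) = 0 := fun t t' x y e => by
    simp [hW, bW, quart, e.symm]
  have f1 : ∀ x y, W (quart (0, x)) (quart (0, y)) = bQ T 0 c β x y := by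
    rintro ⟨i, h, g, z⟩ ⟨i', h', g', z'⟩
    by_cases e : i = i' <;> cases h <;> cases h' <;> simp [hW, bW, bQ, quart, e]
  have f2 : ∀ x y, W (quart (1, x)) (quart (1, y)) + W (quart (2, x)) (quart (2, y))
      = bQ T a' 0 b' x y := by
    rintro ⟨i, h, g, z⟩ ⟨i', h', g', z'⟩
    by_cases e : i = i' <;> cases h <;> cases h' <;> cases g <;> cases g' <;>
      simp [hW, bW, bQ, quart, e]
  have f3 : ∀ t x, ∑ y, (if att r (quart (t, x)) = u ∧ att r y = v then W (quart (t, x)) y else 0)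
      = ∑ y, if att r (quart (t, x)) = u ∧ att r (quart (t, y)) = v
        then W (quart (t, x)) (quart (t, y)) else 0 := fun t x => by
    rw [← quart.sum_comp, Fintype.sum_prod_type,
      sum_eq_single t (fun t' _ e => by simp [f0 _ _ _ _ e]) (by simp)]
  rw [conj_inc, conj_inc, conj_inc, ← quart.sum_comp, Fintype.sum_prod_type, Fin.sum_univ_three]
  simp only [f3, f1, ← f2]
  simp only [att, par, Equiv.symm_apply_apply, if_true, show (1 : Fin 3) ≠ 0 by decide,
    show (2 : Fin 3) ≠ 0 by decide, if_false, ← sum_add_distrib]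
  exact sum_congr rfl fun x _ => sum_congr rfl fun y _ => by split_ifs <;> ring

set_option synthInstance.maxSize 1024 in
theorem Cl3.round [Nonempty T] {r : I × Bool × Bool × T → V} (h : Cl3 k H M tl hd w r a b)
    (hH : 40 ≤ H) (hT : Fintype.card T ≤ 2 ^ H) :
    ∃ (V' J' : Type) (_ : Fintype V') (_ : DecidableEq V') (_ : Fintype J') (_ : DecidableEq J')
      (M' : Matrix V' V' ℝ) (tl' hd' : J' → V') (w' : J' → ℝ)
      (r' : (I × Fin 3 × Bool) × Bool × T → V') (a' b' : I × Fin 3 × Bool → ℝ),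
      Fintype.card V' ≤ 6 * Fintype.card V ∧ Cl3 k (2048 * H) M' tl' hd' w' r' a' b' := by
  have c0 : (0 : ℝ) < Fintype.card T := by exact_mod_cast Fintype.card_pos
  have t2 : Ht 1 2 := by simpa using Ht.nat (n := 2) (B := 1) (by norm_num)
  choose K η a' b' s1 s2 s3 s4 s5 s6 s7 s8 s9 s10 s11 s12 s13 using fun i =>
    sweep2 (h.apos i) (h.bpos i) c0 (h.aht i) (h.bht i) (Ht.nat hT) hH
  have g1 : G2 k (40 * H) H 1 M tl hd w r (bQ T a η fun i => b i / 2) r
      (bQ T 0 (fun i => b i - η i) fun i => b i / 2) := by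
    refine ⟨h.gd, h.ne, fun u v huv => ?_, fun v => by linarith [h.deg v], h.ht, h.wpos, h.wht⟩
    have : bW (Bool × T) a b = bQ T a η (fun i => b i / 2)
        + bQ T 0 (fun i => b i - η i) fun i => b i / 2 := by
      ext x y
      simp only [bW, bQ, of_apply, Matrix.add_apply, Pi.zero_apply]
      split_ifs <;> ring
    rw [h.off u v huv, this, Matrix.mul_add, Matrix.add_mul, Matrix.add_apply, add_assoc]
  obtain ⟨M1, g2⟩ := g1.sweep (B := 50 * H) (W' := bQ T a' 0 b') (K := fun x => K x.1)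
    (bQ_symm _ _ _) (bQ_symm _ _ _) (by
      rw [Matrix.sub_mul, Matrix.mul_add, Matrix.mul_add, bQ_mul, diagonal_mul_diagonal]
      ext ⟨i, e, g, z⟩ ⟨i', e', g', z'⟩
      simp only [Matrix.sub_apply, Matrix.add_apply, diagonal_mul, mul_diagonal,
        inv_mul_cancel₀ (s1 _).ne', diagonal_one, bQ, of_apply, Pi.zero_apply]
      split_ifs with e1 e2 e3
      · subst e1
        linarith [s7 i]
      · subst e1
        linarith [s6 i]
      · subst e1
        linarith [s5 i]
      · simp)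
    (fun x y => by
      simp only [bQ, of_apply, Pi.zero_apply]
      split_ifs
      exacts [(s4 _).le, le_rfl, (s3 _).le, le_rfl])
    (fun x => by rw [bQ_row]; exact s8 _) (fun x => s9 _) (fun x y => by
      simp only [bQ, of_apply]
      split_ifs
      exacts [((h.bht _).div t2).mono (by omega), s10 _, (h.aht _).mono (by omega), Ht.zero])
    fun x => by simpa [bQ] using s13 x.1
  let a₀ : I × Fin 3 × Bool → ℝ := fun i => if i.2.1 = 0 then b i.1 - η i.1 else a' i.1
  let b₀ : I × Fin 3 × Bool → ℝ := fun i => if i.2.1 = 0 then b i.1 / 2 else b' i.1 / 2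
  have a1 : ∀ i, 0 < a₀ i := fun i => by
    simp only [a₀]
    split_ifs
    exacts [sub_pos.2 (s2 _), s3 _]
  have a2 : ∀ i, Ht (50 * H) (a₀ i) := fun i => by
    simp only [a₀]
    split_ifs
    exacts [s11 _, s12 _]
  have b1 : ∀ i, 0 < b₀ i := fun i => by
    simp only [b₀]
    split_ifs
    exacts [half_pos (h.bpos _), half_pos (s4 _)]
  have b2 : ∀ i, Ht (50 * H + 2) (b₀ i) := fun i => by
    simp only [b₀]
    split_ifs
    exacts [((h.bht _).div t2).mono (by omega), ((s13 _).div t2).mono (by omega)]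
  have g3 : G2 k (40 * H + 32 * (50 * H) + 37) H 1 M1 _ _ _ (att r) (bW T a₀ b₀)
      (Empty.elim : Empty → _) 0 :=
    ⟨g2.gd, g2.ne, fun u v huv => by
      have := conj_att r (fun i => b i - η i) (fun i => b i / 2) a' b' u v
      rw [g2.off u v huv, add_assoc, ← this]
      simp [a₀, b₀], fun v => by
      have := g2.deg v
      rw [cnt_att]
      simp only [cnt, univ_eq_empty, sum_empty] at this ⊢
      linarith, g2.ht, g2.wpos, g2.wht⟩
  choose K' a'' b'' u1 u2 u3 u4 u5 u6 u7 u8 u9 using fun i => sweep (a1 i) (b1 i) c0 (a2 i) (b2 i)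
    ((Ht.nat hT).mono (by omega)) (by omega)
  obtain ⟨M2, g4⟩ := g3.sweep (B := 1600 * H) (W' := bW T a'' b'') (K := fun x => K' x.1)
    (bW_symm _ _) (bW_symm _ _) (by
      rw [Matrix.sub_mul, Matrix.mul_add, Matrix.mul_add, bW_mul, diagonal_mul_diagonal]
      ext ⟨i, e, z⟩ ⟨i', e', z'⟩
      simp only [Matrix.sub_apply, Matrix.add_apply, diagonal_mul, mul_diagonal,
        inv_mul_cancel₀ (u1 _).ne', diagonal_one, bW, of_apply]
      split_ifs with e1 e2
      · subst e1
        linarith [u5 i]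
      · subst e1
        linarith [u4 i]
      · simp)
    (fun x y => by
      simp only [bW, of_apply]
      split_ifs
      exacts [(u3 _).le, (u2 _).le, le_rfl])
    (fun x => by rw [bW_row]; exact u6 _) (fun x => (u7 _).mono (by omega)) (fun x y => by
      simp only [bW, of_apply]
      split_ifs
      exacts [(b2 _).mono (by omega), (a2 _).mono (by omega), Ht.zero])
    fun x => by simpa [bW] using (u9 x.1).mono (by omega)
  refine ⟨_, _, _, _, inferInstance, Classical.decEq _, M2, _, _, _, _, a'', b'', ?_, g4.gd, g4.ne,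
    Sum.inr_injective, fun u v huv => by simpa using g4.off u v huv,
    fun v => (le_add_of_nonneg_right (cnt_nonneg _ v)).trans (g4.deg v),
    fun v => (g4.ht v).mono (by omega), g4.wpos, fun j => (g4.wht j).mono (by omega), u2,
    fun i => (u8 i).mono (by omega), u3, fun i => (u9 i).mono (by omega)⟩
  have h3 := Fintype.card_le_of_injective _ h.inj
  rw [Fintype.card_sum, Fintype.card_sum, ← Fintype.card_congr quart, Fintype.card_prod (Fin 3),
    Fintype.card_fin]
  omega

lemma Cl3.reindex {T' : Type} [Fintype T'] [DecidableEq T'] {r : I × Bool × T → V}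
    (h : Cl3 k H M tl hd w r a b) (e : T' ≃ T) :
    Cl3 k H M tl hd w (r ∘ (Equiv.refl I).prodCongr ((Equiv.refl Bool).prodCongr e)) a b := by
  set φ := (Equiv.refl I).prodCongr ((Equiv.refl Bool).prodCongr e)
  refine ⟨h.gd, h.ne, h.inj.comp φ.injective, fun u v huv => ?_, fun v => ?_, h.ht, h.wpos,
    h.wht, h.apos, h.aht, h.bpos, h.bht⟩
  · rw [h.off u v huv, conj_inc, conj_inc]
    simp only [← φ.sum_comp]
    rfl
  · have := h.deg v
    simp only [cnt] at this ⊢
    rwa [← φ.sum_comp] at this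

theorem Cl3.wt [Nonempty I] {r : I × Bool × Unit → V} (h : Cl3 k H M tl hd w r a b) :
    Wt k (80 * H + 7) (((2 : ℝ) ^ (40 * H + 7))⁻¹ • M)
      (Sum.elim tl fun i => r (i, false, ())) (Sum.elim hd fun i => r (i, true, ()))
      (fun j => ((2 : ℝ) ^ (40 * H + 7))⁻¹ * Sum.elim w a j) := by
  set ε : ℝ := ((2 : ℝ) ^ (40 * H + 7))⁻¹ with hε
  have e0 : 0 < ε := by positivity
  have e1 : Ht (40 * H + 7) ε := by simpa using (Ht.nat (n := 2 ^ (40 * H + 7)) le_rfl).inv
  have e2 : ∀ x, Ht (40 * H) x → |ε * x| ≤ 1 / 128 := fun x hx => by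
    have : ε * 2 ^ (40 * H) = 1 / 128 := by
      rw [hε]
      field_simp
      ring
    rw [abs_mul, abs_of_pos e0, ← this]
    exact mul_le_mul_of_nonneg_left hx.abs_le e0.le
  have e3 : ∀ x, Ht (40 * H) x → Ht (80 * H + 7) (ε * x) := fun x hx =>
    (e1.mul hx).mono (by omega)
  have w0 : ∀ j, 0 < Sum.elim w a j := by
    rintro (j | i)
    exacts [h.wpos j, h.apos i]
  have w1 : ∀ j, Ht (40 * H) (Sum.elim w a j) := by
    rintro (j | i)
    exacts [(h.wht j).mono (by omega), (h.aht i).mono (by omega)]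
  have d1 : ∀ v, cnt (Sum.elim tl fun i => r (i, false, ())) v
      + cnt (Sum.elim hd fun i => r (i, true, ())) v + cnt r v ≤ 3 := fun v => by
    have h1 := h.deg v
    have h3 : cnt r v = cnt (fun i => r (i, true, ())) v + cnt (fun i => r (i, false, ())) v := by
      simp only [cnt, Fintype.sum_prod_type, Fintype.sum_bool, Fintype.sum_unique,
        sum_add_distrib]
    rw [cnt_elim, cnt_elim]
    linarith
  refine ⟨h.gd.smul e0, ?_, fun u v huv => ?_, fun v => by linarith [d1 v, cnt_nonneg r v], ?_,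
    fun v => e3 _ (h.ht v), fun v => e2 _ (h.ht v), fun j => mul_pos e0 (w0 j),
    fun j => (le_abs_self _).trans (e2 _ (w1 j)), fun j => e3 _ (w1 j)⟩
  · rintro (j | i)
    · exact h.ne j
    · simpa using h.inj.ne (by simp)
  · rw [Matrix.smul_apply, h.off u v huv, conj_inc, smul_eq_mul, eM_elim]
    congr 2
    rw [Fintype.sum_prod_type]
    refine sum_congr rfl fun i _ => ?_
    have h1 : ∀ x, ¬ (r x = u ∧ r x = v) := fun x hx => huv (hx.1.symm.trans hx.2)
    have h2 : ∀ x : Bool × Unit, ∑ y, (if r (i, x) = u ∧ r y = v then bW Unit a b (i, x) y else 0)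
        = ∑ y, if r (i, x) = u ∧ r (i, y) = v then bW Unit a b (i, x) (i, y) else 0 := fun x => by
      rw [Fintype.sum_prod_type, sum_eq_single i (fun j _ hj => by simp [bW, hj.symm]) (by simp)]
    simp only [h2]
    simp [Fintype.sum_prod_type, bW, h1, mul_add, add_comm, and_comm]
  · let x : I × Bool × Unit := Classical.arbitrary _
    have : cnt r (r x) = 1 := by simp [cnt, h.inj.eq_iff]
    exact ⟨r x, by linarith [d1 (r x)]⟩

theorem Cl3.adj {n : ℕ} (j : ℕ) : ∀ (V I J T : Type) [Fintype V] [DecidableEq V] [Fintype I]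
    [DecidableEq I] [Nonempty I] [Fintype J] [DecidableEq J] [Fintype T] [DecidableEq T] (H : ℕ)
    (M : Matrix V V ℝ) (tl hd : J → V) (w : J → ℝ) (r : I × Bool × T → V) (a b : I → ℝ),
    Cl3 (k + 1) H M tl hd w r a b → Fintype.card T = 2 ^ j → 40 ≤ H → j ≤ H →
    6 ^ j * Fintype.card V * (2 ^ 51 * (81 * (2048 ^ j * H)) ^ 3) ≤ n →
    ∃ (V' : Type) (_ : Fintype V') (M' : Matrix V' V' ℝ) (σ' : V' → Bool),
      Fintype.card V' = n ∧ Ad3 k M' σ' := by
  induction j with
  | zero =>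
    intro V I J T _ _ _ _ _ _ _ _ _ H M tl hd w r a b h hT hH _ hn
    refine (h.reindex (Fintype.equivOfCardEq (α := Unit) (by simpa using hT.symm))).wt.adj
      (by omega) (le_trans ?_ hn)
    rw [pow_zero, pow_zero, one_mul, one_mul]
    gcongr
    omega
  | succ j ih =>
    intro V I J T _ _ _ _ _ _ _ _ _ H M tl hd w r a b h hT hH hj hn
    have h1 := h.reindex (Fintype.equivOfCardEq (α := Bool × Fin (2 ^ j))
      (by simp [hT, pow_succ, mul_comm]))
    obtain ⟨V', J', _, _, _, _, M', tl', hd', w', r', a', b', h3, h2⟩ := h1.round hH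
      (by simpa using Nat.pow_le_pow_right two_pos (by omega : j ≤ H))
    refine ih _ _ _ _ _ _ _ _ _ _ _ _ h2 (by simp) (by omega) (by omega) (le_trans ?_ hn)
    calc _ ≤ 6 ^ j * (6 * Fintype.card V) * (2 ^ 51 * (81 * (2048 ^ j * (2048 * H))) ^ 3) := by
          gcongr
      _ = _ := by ring

end Pool.Agent.P.MP_1ec91f_co
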