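import Pool.Agent.P.MP_1ec91f_co.CubGraph

/-!
Replacing a matching of weighted edges by paths of unit edges in a bipartite graph of degree three.
-/

open Finset Matrix Module

set_option linter.unusedSectionVars false

namespace Pool.Agent.P.MP_1ec91f_co

variable {V I : Type} [Fintype V] [DecidableEq V] [Fintype I] [DecidableEq I]

/-- A state of the edge reduction: the weighted edges form a matching. -/
structure Mt (k N : ℕ) (M F : Matrix V V ℝ) (σ : V → Bool) (tl hd : I → V) (b : I → ℝ)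
    (st sh : Bool) (P : ℝ → ℝ → ℝ → Prop) : Prop where
  gd : Gd k M
  ne : ∀ i j, tl i ≠ hd j
  itl : Function.Injective tl
  ihd : Function.Injective hd
  off : ∀ u v, u ≠ v → M u v = F u v + eM tl hd b u v
  unit : ∀ u v, F u v = 0 ∨ (F u v = 1 ∧ σ u ≠ σ v)
  done : ∀ v, (∀ i, tl i ≠ v) → (∀ i, hd i ≠ v) →
    ∃ n d, Tb (σ v) (lam (σ v) + M v v) n d ∧ n ≤ N ∧ ∑ u, F v u + d ≤ 3
  pad : ∃ w, (∀ i, tl i ≠ w) ∧ (∀ i, hd i ≠ w) ∧ σ w = true ∧ -5 ≤ M w w ∧ ∑ u, F w u ≤ 2
  dt : ∀ i, ∑ u, F (tl i) u ≤ 1 ∧ σ (tl i) = st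
  dh : ∀ i, ∑ u, F (hd i) u ≤ 1 ∧ σ (hd i) = sh
  p : ∀ i, P (M (tl i) (tl i)) (M (hd i) (hd i)) (b i)

variable {k N : ℕ} {M F : Matrix V V ℝ} {σ : V → Bool} {tl hd : I → V} {b c : I → ℝ}
  {st sh : Bool} {P P' : ℝ → ℝ → ℝ → Prop}

theorem Mt.step (h : Mt k N M F σ tl hd b st sh P) (c0 : ∀ i, 0 < c i) :
    ∃ M' : Matrix (V ⊕ I) (V ⊕ I) ℝ, Gd k M' ∧
      (∀ u v, u ≠ v → M' (.inl u) (.inl v) = F u v) ∧
      (∀ u i, M' (.inl u) (.inr i)
        = (if tl i = u then 1 else 0) + c i * b i * if hd i = u then 1 else 0) ∧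
      (∀ i j, M' (.inr i) (.inr j) = if i = j then -c i else 0) ∧
      (∀ v, (∀ i, tl i ≠ v) → (∀ i, hd i ≠ v) → M' (.inl v) (.inl v) = M v v) ∧
      (∀ i, M' (.inl (tl i)) (.inl (tl i)) = M (tl i) (tl i) - (c i)⁻¹) ∧
      ∀ i, M' (.inl (hd i)) (.inl (hd i)) = M (hd i) (hd i) - c i * b i ^ 2 := by
  let E : Matrix I V ℝ := Matrix.of fun i u =>
    (if tl i = u then 1 else 0) + c i * b i * if hd i = u then 1 else 0
  have g := h.gd.bext_diag (E := E) c0 fun i => ⟨tl i, by simp [E, (h.ne i i).symm]⟩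
  refine ⟨_, g, fun u v huv => ?_, fun u i => rfl, fun i j => ?_, fun v h1 h2 => ?_,
    fun i => ?_, fun i => ?_⟩
  · rw [bext_ll, conj_diag, h.off u v huv, eM, add_sub_assoc, ← sum_sub_distrib,
      sum_eq_zero, add_zero]
    intro i _
    have := (c0 i).ne'
    by_cases a1 : tl i = u <;> by_cases a2 : tl i = v <;> by_cases a3 : hd i = u <;>
      by_cases a4 : hd i = v <;>
      first
        | exact (huv (a1.symm.trans a2)).elim
        | exact (huv (a3.symm.trans a4)).elim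
        | exact (h.ne i i (a1.trans a3.symm)).elim
        | exact (h.ne i i (a2.trans a4.symm)).elim
        | (simp only [E, of_apply, a1, a2, a3, a4, huv, huv.symm, if_true, if_false, and_self,
            and_true, and_false]; field_simp; ring)
  · rw [bext_rr, diagonal_apply]
    split_ifs <;> simp
  · simp [bext_ll, conj_diag, E, h1, h2]
  · rw [bext_ll, conj_diag, sum_eq_single i (fun j _ hj => by
      simp [E, h.itl.ne hj, (h.ne i j).symm]) (by simp)]
    simp [E, (h.ne i i).symm]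
  · rw [bext_ll, conj_diag, sum_eq_single i (fun j _ hj => by
      simp [E, h.ihd.ne hj, h.ne j i]) (by simp)]
    have := (c0 i).ne'
    simp only [E, of_apply, h.ne i i, if_true, if_false]
    field_simp
    ring

theorem Mt.round (h : Mt k N M F σ tl hd b st sh P) (hP : ∀ x y β, P x y β → ∃ c, 0 < c ∧
    One st N (lam st + x - c⁻¹) ∧ P' (y - c * β ^ 2) (-c) (c * β)) :
    ∃ (M' F' : Matrix (V ⊕ I) (V ⊕ I) ℝ) (σ' : V ⊕ I → Bool) (b' : I → ℝ),
      Mt k N M' F' σ' (fun i => .inl (hd i)) .inr b' sh (!st) P' := by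
  choose c c0 c1 c2 using fun i => hP _ _ _ (h.p i)
  obtain ⟨M', g, m1, m2, m3, m4, m5, m6⟩ := h.step c0
  have e1 : ∀ v, ∑ u, fromBlocks F (inc tl)ᵀ (inc tl) 0 (.inl v) u = ∑ u, F v u + cnt tl v :=
    fun v => by simp [Fintype.sum_sum_type, cnt, inc]
  refine ⟨M', fromBlocks F (inc tl)ᵀ (inc tl) 0, Sum.elim σ fun _ => !st, fun i => c i * b i, g,
    by simp, Sum.inl_injective.comp h.ihd, Sum.inr_injective, ?_, ?_, ?_, ?_, fun i => ?_,
    fun i => ?_, fun i => ?_⟩
  · rintro (u | i) (v | j) huv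
    · simpa [eM] using m1 u v fun e => huv (by rw [e])
    · rw [m2, eM, sum_eq_single j (fun i _ hi => by simp [hi]) (by simp)]
      simp [inc]
    · rw [g.sym, m2, eM, sum_eq_single i (fun j _ hj => by simp [hj]) (by simp)]
      simp [inc]
    · have : i ≠ j := fun e => huv (by rw [e])
      simp [m3, eM, this]
  · rintro (u | i) (v | j)
    · exact h.unit u v
    · by_cases a : tl j = u
      · simp [inc, ← a, (h.dt j).2]
      · simp [inc, a]
    · by_cases a : tl i = v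
      · simp [inc, ← a, (h.dt i).2]
      · simp [inc, a]
    · simp
  · rintro (v | i) h1 h2
    · rw [e1]
      by_cases a : ∃ i, tl i = v
      · obtain ⟨i, rfl⟩ := a
        obtain ⟨n, d, a1, a2, a3⟩ := c1 i
        have a4 : (d : ℝ) ≤ 1 := by exact_mod_cast a3
        have a5 : cnt tl (tl i) = 1 := by simp [cnt, h.itl.eq_iff]
        refine ⟨n, d, ?_, a2, by linarith [(h.dt i).1]⟩
        rw [m5, Sum.elim_inl, (h.dt i).2, ← add_sub_assoc]
        exact a1
      · push Not at a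
        have a' : ∀ i, hd i ≠ v := fun i e => h1 i (by rw [e])
        rw [m4 v a a']
        simpa [cnt, a] using h.done v a a'
    · exact (h2 i rfl).elim
  · obtain ⟨w, w1, w2, w3, w4, w5⟩ := h.pad
    exact ⟨.inl w, by simpa using w2, by simp, w3, by rwa [m4 w w1 w2],
      by simpa [e1, cnt, w1] using w5⟩
  · simpa [e1, cnt, h.ne] using h.dh i
  · simp [Fintype.sum_sum_type, inc]
  · simpa [m6, m3] using c2 i

theorem Mt.last (h : Mt k N M F σ tl hd b st st P) (hP : ∀ x y β, P x y β → 0 < β ∧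
    One st N (lam st + x - β) ∧ One st N (lam st + y - β) ∧ One (!st) N (lam (!st) - β⁻¹)) :
    ∃ (M' : Matrix (V ⊕ I) (V ⊕ I) ℝ) (σ' : V ⊕ I → Bool), Un3 k N M' σ' := by
  have b0 : ∀ i, 0 < b i := fun i => (hP _ _ _ (h.p i)).1
  have hb : ∀ i, (b i)⁻¹ * b i = 1 := fun i => inv_mul_cancel₀ (b0 i).ne'
  obtain ⟨M', g, m1, m2, m3, m4, m5, m6⟩ := h.step (c := fun i => (b i)⁻¹)
    fun i => inv_pos.2 (b0 i)
  simp only [hb, one_mul, inv_inv, pow_two, ← mul_assoc] at m2 m5 m6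
  have m7 : ∀ u i, M' (.inl u) (.inr i) = 0 ∨ (M' (.inl u) (.inr i) = 1 ∧ σ u = st) :=
    fun u i => by
      rw [m2]
      split_ifs with a1 a2 a2
      · exact (h.ne i i (a1.trans a2.symm)).elim
      · simp [← a1, (h.dt i).2]
      · simp [← a2, (h.dh i).2]
      · simp
  have e1 : ∀ v, ∑ u, M' (.inl v) u - M' (.inl v) (.inl v) = ∑ u, F v u + cnt tl v + cnt hd v := by
    intro v
    have a2 : F v v = 0 := (h.unit v v).resolve_right fun e => e.2 rfl
    rw [Fintype.sum_sum_type]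
    simp only [m2, sum_add_distrib, cnt]
    rw [← add_sum_erase _ _ (mem_univ v), ← add_sum_erase _ (F v) (mem_univ v),
      sum_congr rfl fun u hu => m1 v u (ne_of_mem_erase hu).symm, a2]
    ring
  refine ⟨M', Sum.elim σ fun _ => !st, g, ?_, ?_, ?_⟩
  · rintro (u | i) (v | j) huv
    · rw [m1 u v fun e => huv (by rw [e])]
      exact h.unit u v
    · exact (m7 u j).imp id (And.imp_right fun e => by simp [e])
    · rw [g.sym]
      exact (m7 v i).imp id (And.imp_right fun e => by simp [e])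
    · have : i ≠ j := fun e => huv (by rw [e])
      simp [m3, this]
  · rintro (v | i)
    · rw [e1]
      by_cases a : ∃ i, tl i = v
      · obtain ⟨i, rfl⟩ := a
        obtain ⟨n, d, a1, a2, a3⟩ := (hP _ _ _ (h.p i)).2.1
        have a4 : (d : ℝ) ≤ 1 := by exact_mod_cast a3
        have a5 : cnt tl (tl i) = 1 := by simp [cnt, h.itl.eq_iff]
        have a6 : cnt hd (tl i) = 0 := by simp [cnt, (h.ne _ _).symm]
        refine ⟨n, d, ?_, a2, by linarith [(h.dt i).1]⟩
        rw [m5, Sum.elim_inl, (h.dt i).2, ← add_sub_assoc]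
        exact a1
      push Not at a
      by_cases a' : ∃ i, hd i = v
      · obtain ⟨i, rfl⟩ := a'
        obtain ⟨n, d, a1, a2, a3⟩ := (hP _ _ _ (h.p i)).2.2.1
        have a4 : (d : ℝ) ≤ 1 := by exact_mod_cast a3
        have a5 : cnt hd (hd i) = 1 := by simp [cnt, h.ihd.eq_iff]
        have a6 : cnt tl (hd i) = 0 := by simp [cnt, h.ne]
        refine ⟨n, d, ?_, a2, by linarith [(h.dh i).1]⟩
        rw [m6, Sum.elim_inl, (h.dh i).2, ← add_sub_assoc]
        exact a1
      · push Not at a'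
        rw [m4 v a a']
        simpa [cnt, a, a'] using h.done v a a'
    · obtain ⟨n, d, a1, a2, a3⟩ := (hP _ _ _ (h.p i)).2.2.2
      have a4 : (d : ℝ) ≤ 1 := by exact_mod_cast a3
      refine ⟨n, d, by simpa [m3, sub_eq_add_neg] using a1, a2, ?_⟩
      rw [Fintype.sum_sum_type]
      simp only [g.sym (.inr i) (.inl _), m2, m3, sum_add_distrib]
      simp
      linarith
  · obtain ⟨w, w1, w2, w3, w4, w5⟩ := h.pad
    exact ⟨.inl w, w3, by rwa [m4 w w1 w2], by rw [e1]; simpa [cnt, w1, w2] using w5⟩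

/-- The numerical invariants along one cycle. -/
def Pr (l H : ℕ) (x₁ x₂ y₁ y₂ f : ℝ) (x y β : ℝ) : Prop :=
  x₁ ≤ x ∧ x ≤ x₂ ∧ y₁ ≤ y ∧ y ≤ y₂ ∧ Ht (9 * H) x ∧ Ht (2 * H) y ∧
    ∃ γ, β = f * γ ∧ 0 < γ ∧ γ ≤ 1 / 35 ∧ 1 ≤ 35 * γ * (9 / 8) ^ l ∧ Ht H γ

lemma ht_q (p q : ℕ) (hp : p ≤ 128) (hq : q ≤ 128) : Ht 7 ((p : ℝ) / q) := by
  rcases Nat.eq_zero_or_pos q with rfl | h
  · simpa using Ht.zero
  · exact ⟨p, q, by exact_mod_cast h, by exact_mod_cast hq,
      by rw [Nat.abs_cast]; exact_mod_cast hp, by simp⟩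

variable {l H : ℕ}

lemma Pr.next {x₁ x₂ y₁ y₂ f x y β c : ℝ} {σ : Bool} (h : Pr l H x₁ x₂ y₁ y₂ f x y β)
    (hH : 20 ≤ H) (hf : Ht 7 f) (hc : Ht (2 * H) c) :
    Ht (12 * H) (lam σ + x - c⁻¹) ∧ Ht (9 * H) (y - c * β ^ 2) := by
  obtain ⟨-, -, -, -, h1, h2, γ, rfl, -, -, -, h3⟩ := h
  have t : Ht 7 (lam σ) := by
    cases σ
    · simpa [lam] using ht_q 1 1 (by norm_num) (by norm_num)
    · simpa [lam] using ht_q 7 1 (by norm_num) (by norm_num)
  rw [pow_two]
  exact ⟨((t.add h1).sub hc.inv).mono (by omega),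
    (h2.sub (hc.mul ((hf.mul h3).mul (hf.mul h3)))).mono (by omega)⟩

theorem Mt.cycle (h : Mt k N M F σ tl hd b false false
    (Pr (l + 1) H (-11 / 25) (-3 / 8) (-43 / 100) (-3 / 8) 1)) (hH : 20 ≤ H)
    (hN : 2 ^ 18 * (12 * (H + 7)) ^ 2 ≤ N) :
    ∃ (M' F' : Matrix ((((V ⊕ I) ⊕ I) ⊕ I) ⊕ I) ((((V ⊕ I) ⊕ I) ⊕ I) ⊕ I) ℝ) (σ' : _ → Bool)
      (tl' hd' : I → _) (b' : I → ℝ), Mt k N M' F' σ' tl' hd' b' false false
        (Pr l (H + 7) (-11 / 25) (-3 / 8) (-43 / 100) (-3 / 8) 1) := by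
  have hN' : 2 ^ 18 * (12 * H) ^ 2 ≤ N := le_trans (by gcongr; omega) hN
  have t1 : Ht 7 1 := by simpa using ht_q 1 1 (by norm_num) (by norm_num)
  have t83 : Ht 7 (8 / 3) := by simpa using ht_q 8 3 (by norm_num) (by norm_num)
  have t38 : Ht 7 (3 / 8) := by simpa using ht_q 3 8 (by norm_num) (by norm_num)
  have t649 : Ht 7 (64 / 9) := by simpa using ht_q 64 9 (by norm_num) (by norm_num)
  obtain ⟨M1, F1, σ1, b1, h1⟩ := h.round
    (P' := Pr (l + 1) H (-11 / 25) (-3 / 8) (-8 / 3) (-8 / 3) (8 / 3)) fun x y β p => by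
      obtain ⟨a1, a2⟩ := p.next (σ := false) hH t1 (t83.mono (by omega))
      obtain ⟨x1, x2, y1, y2, -, -, γ, rfl, g1, g2, g3, g4⟩ := p
      refine ⟨8 / 3, by norm_num, a1.oneB ?_ ?_ (by omega) hN', by nlinarith, by nlinarith,
        by norm_num, by norm_num, a2, t83.neg.mono (by omega), γ, by ring, g1, g2, g3, g4⟩ <;>
      · simp only [lam]
        norm_num
        linarith
  obtain ⟨M2, F2, σ2, b2, h2⟩ := h1.round
    (P' := Pr l (H + 7) (-27 / 10) (-8 / 3) (-3) (-8 / 3) (64 / 9)) fun x y β p => by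
      have key : ∃ c, 8 / 3 ≤ c ∧ c ≤ 3 ∧ Ht (2 * H) c ∧ ∃ γ, c * β = 64 / 9 * γ ∧ 0 < γ ∧
          γ ≤ 1 / 35 ∧ 1 ≤ 35 * γ * (9 / 8) ^ l ∧ Ht (H + 7) γ := by
        obtain ⟨-, -, -, -, -, -, γ, rfl, g1, g2, g3, g4⟩ := p
        by_cases c : 9 / 8 * γ ≤ 1 / 35
        · refine ⟨3, by norm_num, le_rfl, Ht.mono (A := 7) ?_ (by omega), 9 / 8 * γ, by ring,
            by positivity, c, by rw [pow_succ] at g3; linarith, (Ht.mul (A := 7) ?_ g4).mono
            (by omega)⟩
          · simpa using ht_q 3 1 (by norm_num) (by norm_num)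
          · simpa using ht_q 9 8 (by norm_num) (by norm_num)
        · refine ⟨8 / 105 / γ, ?_, ?_, (Ht.div (A := 7) ?_ g4).mono (by omega), 1 / 35,
            by field_simp; norm_num, by norm_num, le_rfl, ?_, Ht.mono (A := 7) ?_ (by omega)⟩
          · rw [le_div_iff₀ g1]
            linarith
          · rw [div_le_iff₀ g1]
            linarith
          · simpa using ht_q 8 105 (by norm_num) (by norm_num)
          · simpa using one_le_pow₀ (by norm_num : (1 : ℝ) ≤ 9 / 8)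
          · simpa using ht_q 1 35 (by norm_num) (by norm_num)
      obtain ⟨c, c1, c2, c3, γ', c4⟩ := key
      obtain ⟨a1, a2⟩ := p.next (σ := false) hH t83 c3
      obtain ⟨x1, x2, y1, y2, -, -, γ, rfl, g1, g2, g3, g4⟩ := p
      have c5 : c⁻¹ ≤ 3 / 8 := by
        rw [inv_le_iff_one_le_mul₀ (by linarith)]
        linarith
      have c6 : 1 / 3 ≤ c⁻¹ := by
        rw [le_inv_comm₀ (by norm_num) (by linarith)]
        linarith
      have c7 : c * (8 / 3 * γ) ^ 2 ≤ 3 * (8 / 3 * (1 / 35)) ^ 2 := by gcongr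
      have c8 : 0 ≤ c * (8 / 3 * γ) ^ 2 := by positivity
      refine ⟨c, by linarith, a1.oneB ?_ ?_ (by omega) hN', by linarith, by linarith,
        by linarith, by linarith, a2.mono (by omega), c3.neg.mono (by omega), γ', c4⟩ <;>
      · simp only [lam]
        linarith
  obtain ⟨M3, F3, σ3, b3, h3⟩ := h2.round
    (P' := Pr l (H + 7) (-61 / 20) (-8 / 3) (-3 / 8) (-3 / 8) (8 / 3)) fun x y β p => by
      obtain ⟨a1, a2⟩ := p.next (σ := true) (by omega) t649 (t38.mono (by omega))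
      obtain ⟨x1, x2, y1, y2, -, -, γ, rfl, g1, g2, g3, g4⟩ := p
      obtain ⟨n, a3, a4⟩ := a1.oneA (by simp only [lam]; norm_num; linarith)
        (by simp only [lam]; norm_num; linarith) (by omega) hN
      exact ⟨3 / 8, by norm_num, ⟨n, 1, a3, a4, le_rfl⟩, by nlinarith, by nlinarith,
        by norm_num, by norm_num, a2, t38.neg.mono (by omega), γ, by ring, g1, g2, g3, g4⟩
  obtain ⟨M4, F4, σ4, b4, h4⟩ := h3.round
    (P' := Pr l (H + 7) (-11 / 25) (-3 / 8) (-43 / 100) (-3 / 8) 1) fun x y β p => by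
      obtain ⟨a1, a2⟩ := p.next (σ := true) (by omega) t83 (t38.mono (by omega))
      obtain ⟨x1, x2, y1, y2, -, -, γ, rfl, g1, g2, g3, g4⟩ := p
      obtain ⟨n, a3, a4⟩ := a1.oneA (by simp only [lam]; norm_num; linarith)
        (by simp only [lam]; norm_num; linarith) (by omega) hN
      exact ⟨3 / 8, by norm_num, ⟨n, 1, a3, a4, le_rfl⟩, by nlinarith, by nlinarith,
        by norm_num, by norm_num, a2, t38.neg.mono (by omega), γ, by ring, g1, g2, g3, g4⟩
  exact ⟨M4, F4, σ4, _, _, b4, h4⟩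

theorem Mt.close (h : Mt k N M F σ tl hd b false false
    (Pr 0 H (-11 / 25) (-3 / 8) (-43 / 100) (-3 / 8) 1)) (hH : 20 ≤ H)
    (hN : 2 ^ 18 * (12 * H) ^ 2 ≤ N) :
    ∃ (M' : Matrix (((V ⊕ I) ⊕ I) ⊕ I) (((V ⊕ I) ⊕ I) ⊕ I) ℝ) (σ' : _ → Bool), Un3 k N M' σ' := by
  have t1 : Ht 7 1 := by simpa using ht_q 1 1 (by norm_num) (by norm_num)
  have t2 : Ht 7 (35 / 6) := by simpa using ht_q 35 6 (by norm_num) (by norm_num)
  have t3 : Ht 7 6 := by simpa using ht_q 6 1 (by norm_num) (by norm_num)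
  obtain ⟨M1, F1, σ1, b1, h1⟩ := h.round
    (P' := Pr 0 H (-11 / 25) (-3 / 8) (-35 / 6) (-35 / 6) (35 / 6)) fun x y β p => by
      obtain ⟨a1, a2⟩ := p.next (σ := false) hH t1 (t2.mono (by omega))
      obtain ⟨x1, x2, y1, y2, -, -, γ, rfl, g1, g2, g3, g4⟩ := p
      refine ⟨35 / 6, by norm_num, a1.oneB ?_ ?_ (by omega) hN, by nlinarith, by nlinarith,
        by norm_num, by norm_num, a2, t2.neg.mono (by omega), γ, by ring, g1, g2, g3, g4⟩ <;>
      · simp only [lam]
        norm_num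
        linarith
  obtain ⟨M2, F2, σ2, b2, h2⟩ := h1.round
    (P' := fun x y β => x = -6 ∧ y = -6 ∧ β = 1) fun x y β p => by
      obtain ⟨a1, -⟩ := p.next (σ := false) hH t2 (t3.mono (by omega))
      obtain ⟨x1, x2, y1, y2, -, -, γ, rfl, g1, g2, g3, g4⟩ := p
      obtain rfl : γ = 1 / 35 := by
        rw [pow_zero] at g3
        linarith
      refine ⟨6, by norm_num, a1.oneB ?_ ?_ (by omega) hN, by linarith, rfl, by norm_num⟩ <;>
      · simp only [lam]
        norm_num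
        linarith
  refine h2.last ?_
  rintro x y β ⟨rfl, rfl, rfl⟩
  refine ⟨one_pos, ?_, ?_, ?_⟩ <;> convert One.zero _ N using 1 <;> norm_num [lam]

theorem Mt.un (l : ℕ) : ∀ (V : Type) [Fintype V] [DecidableEq V] (H : ℕ) (M F : Matrix V V ℝ)
    (σ : V → Bool) (tl hd : I → V) (b : I → ℝ), Mt k N M F σ tl hd b false false
      (Pr l H (-11 / 25) (-3 / 8) (-43 / 100) (-3 / 8) 1) → 20 ≤ H →
    2 ^ 18 * (12 * (H + 7 * l)) ^ 2 ≤ N →
    ∃ (V' : Type) (_ : Fintype V') (_ : DecidableEq V') (M' : Matrix V' V' ℝ) (σ' : V' → Bool),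
      Fintype.card V' = Fintype.card V + (4 * l + 3) * Fintype.card I ∧ Un3 k N M' σ' := by
  induction l with
  | zero =>
    intro V _ _ H M F σ tl hd b h hH hN
    obtain ⟨M', σ', h1⟩ := h.close hH hN
    exact ⟨_, inferInstance, inferInstance, M', σ', by simp only [Fintype.card_sum]; ring, h1⟩
  | succ l ih =>
    intro V _ _ H M F σ tl hd b h hH hN
    obtain ⟨M', F', σ', tl', hd', b', h1⟩ := h.cycle hH (le_trans (by gcongr; omega) hN)
    obtain ⟨V', i1, i2, M'', σ'', h2, h3⟩ := ih _ _ _ _ _ _ _ _ h1 (by omega)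
      (le_trans (le_of_eq (by ring)) hN)
    exact ⟨V', i1, i2, M'', σ'', by rw [h2]; simp only [Fintype.card_sum]; ring, h3⟩

/-- A weighted graph of maximum degree three with small rational weights. -/
structure Wt (k B : ℕ) (M : Matrix V V ℝ) (tl hd : I → V) (b : I → ℝ) : Prop where
  gd : Gd k M
  ne : ∀ i, tl i ≠ hd i
  off : ∀ u v, u ≠ v → M u v = eM tl hd b u v
  deg : ∀ v, cnt tl v + cnt hd v ≤ 3
  pad : ∃ v, cnt tl v + cnt hd v ≤ 2
  ht : ∀ v, Ht B (M v v)
  abs : ∀ v, |M v v| ≤ 1 / 128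
  bpos : ∀ i, 0 < b i
  ble : ∀ i, b i ≤ 1 / 128
  bht : ∀ i, Ht B (b i)

lemma Tb.nsmul {σ : Bool} {S : ℝ} {n : ℕ} (h : Tb σ S n 1) (j : ℕ) : Tb σ (j * S) (j * n) j := by
  induction j with
  | zero => simpa using Tb.nil σ
  | succ j ih =>
    convert ih.add h using 1
    · push_cast
      ring
    · ring

theorem Wt.mt {B : ℕ} (h : Wt k B M tl hd b) (hB : 1 ≤ B)
    (hN : 3 * (2 ^ 18 * (12 * (5 * B + 19)) ^ 2) ≤ N) :
    ∃ (M' F' : Matrix (V ⊕ I × Bool) (V ⊕ I × Bool) ℝ) (σ' : _ → Bool) (b' : I → ℝ),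
      Mt k N M' F' σ' (fun i => .inr (i, false)) (fun i => .inr (i, true)) b' false false
        (Pr (6 * (5 * B + 19)) (5 * B + 19) (-11 / 25) (-3 / 8) (-43 / 100) (-3 / 8) 1) := by
  obtain ⟨a, ha⟩ : ∃ a : V → ℝ, ∀ v, a v = (7 + M v v) / 3 := ⟨_, fun _ => rfl⟩
  have a1 : ∀ v, 233 / 100 ≤ a v ∧ a v ≤ 234 / 100 := fun v => by
    have := abs_le.1 (h.abs v)
    rw [ha]
    constructor <;> linarith [this.1, this.2]
  have a2 : ∀ v, Ht (B + 6) (a v) := fun v => by
    have t7 : Ht 3 7 := by simpa using Ht.nat (n := 7) (B := 3) (by norm_num)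
    have t3 : Ht 2 3 := by simpa using Ht.nat (n := 3) (B := 2) (by norm_num)
    rw [ha]
    exact ((t7.add (h.ht v)).div t3).mono (by omega)
  obtain ⟨D, hD⟩ : ∃ D : I → ℝ, ∀ i, D i = a (tl i) * a (hd i) - b i * b i := ⟨_, fun _ => rfl⟩
  have d1 : ∀ i, 5 ≤ D i := fun i => by
    rw [hD]
    nlinarith [a1 (tl i), a1 (hd i), h.bpos i, h.ble i]
  have d0 : ∀ i, 0 < D i := fun i => by linarith [d1 i]
  have d2 : ∀ i, Ht (4 * B + 13) (D i) := fun i => by
    rw [hD]
    exact (((a2 _).mul (a2 _)).sub ((h.bht i).mul (h.bht i))).mono (by omega)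
  let r : I × Bool → V := fun y => cond y.2 (hd y.1) (tl y.1)
  let o : I × Bool → V := fun y => cond y.2 (tl y.1) (hd y.1)
  let R : Matrix (I × Bool) (I × Bool) ℝ := Matrix.of fun y y' =>
    if y.1 = y'.1 then (if y.2 = y'.2 then a (r y) else b y.1) else 0
  let W : Matrix (I × Bool) (I × Bool) ℝ := Matrix.of fun y y' =>
    if y.1 = y'.1 then (if y.2 = y'.2 then 0 else b y.1 / D y.1) else 0
  have sW : Wᵀ = W := by
    ext ⟨i, e⟩ ⟨j, e'⟩
    by_cases c : i = j
    · simp [W, c, eq_comm]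
    · simp [W, c, Ne.symm c]
  have g := h.gd.bext (E := inc r) (R := R) (C := diagonal (fun y => a (o y) / D y.1) - W)
    (by
      ext ⟨i, e⟩ ⟨j, e'⟩
      by_cases c : i = j
      · cases e <;> cases e' <;> simp [R, c]
      · simp [R, c, Ne.symm c])
    (by rw [transpose_sub, diagonal_transpose, sW]) (by
      ext ⟨i, e⟩ ⟨j, e'⟩
      rw [Matrix.mul_apply, Fintype.sum_prod_type,
        sum_eq_single i (fun l _ hl => by simp [W, hl.symm]) (by simp)]
      have := (d0 j).ne'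
      by_cases c : i = j
      · subst c
        cases e <;> cases e' <;> simp [R, W, r, o] <;> field_simp <;> simp only [hD] <;> ring
      · simp [R, c])
    (psd_of_dom sW (fun x y => by
      have := h.bpos x.1
      have := d0 x.1
      simp only [W, of_apply]
      split_ifs <;> positivity) fun ⟨i, e⟩ => by
      rw [Fintype.sum_prod_type, sum_eq_single i (fun l _ hl => by simp [W, hl.symm]) (by simp)]
      have : b i / D i ≤ a (o (i, e)) / D i :=
        div_le_div_of_nonneg_right (by linarith [h.ble i, a1 (o (i, e))]) (d0 i).le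
      cases e <;> simpa [W] using this)
    (fun y => ⟨r y, by simp [inc]⟩) fun ⟨i, e⟩ ⟨j, e'⟩ hy h1 => by
      have c : i = j := by
        by_contra c
        simp [R, c] at h1
      subst c
      have c' : e ≠ e' := fun c' => hy (by rw [c'])
      simp [W, c', (h.bpos i).ne', (d0 i).ne']
  have e0 : ∀ v, cnt r v = cnt tl v + cnt hd v := fun v => by
    simp only [cnt, Fintype.sum_prod_type, Fintype.sum_bool, sum_add_distrib, add_comm]
    rfl
  have e1 : ∀ u v, ((inc r)ᵀ * R * inc r) u v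
      = eM tl hd b u v + if u = v then cnt r v * a v else 0 := fun u v => by
    have : (if u = v then cnt r v * a v else 0) = ∑ i, ((if tl i = u ∧ tl i = v then a (tl i)
        else 0) + if hd i = u ∧ hd i = v then a (hd i) else 0) := by
      split_ifs with c
      · subst c
        rw [e0]
        simp only [cnt, add_mul, sum_mul, sum_add_distrib, and_self]
        congr 1 <;> exact sum_congr rfl fun i _ => by split_ifs with c <;> simp [c]
      · refine (sum_eq_zero fun i _ => ?_).symm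
        rw [if_neg fun e => c (e.1.symm.trans e.2), if_neg fun e => c (e.1.symm.trans e.2),
          add_zero]
    rw [this, conj_inc, eM, ← sum_add_distrib, Fintype.sum_prod_type]
    refine sum_congr rfl fun i _ => ?_
    have h2 : ∀ e, ∑ y, (if r (i, e) = u ∧ r y = v then R (i, e) y else 0)
        = ∑ e', if r (i, e) = u ∧ r (i, e') = v then R (i, e) (i, e') else 0 := fun x => by
      rw [Fintype.sum_prod_type, sum_eq_single i (fun j _ hj => by simp [R, hj.symm]) (by simp)]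
    simp only [h2, Fintype.sum_bool, mul_add, mul_ite, mul_one, mul_zero]
    simp only [R, r, of_apply, cond_true, cond_false, if_true, reduceCtorEq, if_false]
    ring
  have e2 : ∀ v, bext M (inc r) R (diagonal (fun y => a (o y) / D y.1) - W) (.inl v) (.inl v)
      = M v v - cnt r v * a v := fun v => by
    have : eM tl hd b v v = 0 := sum_eq_zero fun i _ => by
      rw [if_neg fun e => h.ne i (e.1.trans e.2.symm), if_neg fun e => h.ne i (e.2.trans e.1.symm),
        add_zero, mul_zero]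
    rw [bext_ll, e1, this, if_pos rfl, zero_add]
  have e3 : ∀ v, ∑ u, fromBlocks (0 : Matrix V V ℝ) (inc r)ᵀ (inc r) 0 (.inl v) u = cnt r v :=
    fun v => by simp [Fintype.sum_sum_type, cnt, inc]
  have e4 : ∀ i e, -43 / 100 ≤ -(a (o (i, e)) / D i) ∧ -(a (o (i, e)) / D i) ≤ -3 / 8 ∧
      Ht (5 * B + 19) (-(a (o (i, e)) / D i)) := fun i e => by
    refine ⟨?_, ?_, ((a2 _).div (d2 i)).neg.mono (by omega)⟩
    · rw [le_neg, div_le_iff₀ (d0 i), hD]
      cases e <;> simp only [o, cond_true, cond_false] <;>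
        nlinarith [a1 (tl i), a1 (hd i), h.bpos i, h.ble i]
    · rw [neg_le, le_div_iff₀ (d0 i), hD]
      cases e <;> simp only [o, cond_true, cond_false] <;>
        nlinarith [a1 (tl i), a1 (hd i), h.bpos i, h.ble i]
  refine ⟨_, fromBlocks 0 (inc r)ᵀ (inc r) 0, Sum.elim (fun _ => true) fun _ => false,
    fun i => b i / D i, g, by simp, fun i j => by simp, fun i j => by simp, ?_, ?_, ?_, ?_,
    fun i => ?_, fun i => ?_, fun i => ?_⟩
  · rintro (u | ⟨i, e⟩) (v | ⟨j, e'⟩) huv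
    · have c : u ≠ v := fun e => huv (by rw [e])
      rw [bext_ll, e1, h.off u v c, if_neg c]
      simp [eM]
    · simp [bext_lr, eM]
    · simp [bext_rl, eM]
    · have c : (i, e) ≠ (j, e') := fun e => huv (by rw [e])
      rw [bext_rr, Matrix.sub_apply, diagonal_apply_ne _ c, eM,
        sum_eq_single i (fun l _ hl => by simp [hl]) (by simp)]
      by_cases c' : i = j
      · cases e <;> cases e' <;> simp [W, c']
      · simp [W, c']
  · rintro (u | y) (v | y')
    · simp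
    · by_cases c : r y' = u <;> simp [inc, c]
    · by_cases c : r y = v <;> simp [inc, c]
    · simp
  · rintro (v | ⟨i, e⟩) h1 h2
    · obtain ⟨n, b1, b2⟩ := ((a2 v).mono (B := 12 * (5 * B + 19)) (by omega)).oneA
        (by linarith [a1 v]) (by linarith [a1 v]) (by omega) le_rfl
      obtain ⟨d, hd⟩ : ∃ d : ℕ, cnt r v = d := ⟨(univ.filter fun y => r y = v).card, by simp [cnt]⟩
      have b3 : d ≤ 3 := by exact_mod_cast (by rw [← hd, e0]; exact h.deg v : (d : ℝ) ≤ 3)
      refine ⟨(3 - d) * n, 3 - d, ?_, le_trans (by gcongr; omega) hN, ?_⟩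
      · rw [e2, Sum.elim_inl]
        convert b1.nsmul (3 - d) using 1
        rw [hd, Nat.cast_sub b3, ha, lam]
        push_cast
        ring
      · rw [e3, hd, Nat.cast_sub b3]
        simp
    · cases e
      exacts [(h1 i rfl).elim, (h2 i rfl).elim]
  · obtain ⟨w, hw⟩ := h.pad
    rw [← e0] at hw
    refine ⟨.inl w, by simp, by simp, rfl, ?_, by rwa [e3]⟩
    rw [e2]
    nlinarith [a1 w, abs_le.1 (h.abs w), cnt_nonneg r w]
  · simp [Fintype.sum_sum_type, inc]
  · simp [Fintype.sum_sum_type, inc]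
  · have t : Ht (5 * B + 19) (b i / D i) := ((h.bht i).div (d2 i)).mono (by omega)
    have p0 := div_pos (h.bpos i) (d0 i)
    simp only [bext_rr, Matrix.sub_apply, diagonal_apply_eq, W, of_apply, if_true, sub_zero]
    refine ⟨by linarith [(e4 i false).1], (e4 i false).2.1, (e4 i true).1, (e4 i true).2.1,
      (e4 i false).2.2.mono (by omega), (e4 i true).2.2.mono (by omega), _, (one_mul _).symm, p0,
      ?_, ?_, t⟩
    · rw [div_le_iff₀ (d0 i)]
      linarith [h.ble i, d1 i]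
    · have q1 := t.one_le p0
      have q2 : (2 : ℝ) ^ (5 * B + 19) ≤ (9 / 8) ^ (6 * (5 * B + 19)) := by
        rw [pow_mul (9 / 8 : ℝ)]
        exact pow_le_pow_left₀ (by norm_num) (by norm_num) _
      nlinarith [mul_le_mul_of_nonneg_right q2 p0.le]

theorem Wt.adj {B n : ℕ} (h : Wt (k + 1) B M tl hd b) (hB : 19 ≤ B)
    (hn : Fintype.card V * (2 ^ 51 * B ^ 3) ≤ n) :
    ∃ (V' : Type) (_ : Fintype V') (M' : Matrix V' V' ℝ) (σ' : V' → Bool),
      Fintype.card V' = n ∧ Ad3 k M' σ' := by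
  have h1 : Fintype.card I ≤ Fintype.card V * 3 := by
    have a1 : ∑ v, cnt tl v = Fintype.card I := by
      simp only [cnt]
      rw [sum_comm]
      simp
    have a2 : ∑ v, cnt tl v ≤ Fintype.card V * 3 :=
      (sum_le_card_nsmul _ _ 3 fun v _ => by linarith [h.deg v, cnt_nonneg hd v]).trans (by simp)
    exact_mod_cast a1.ge.trans a2
  obtain ⟨M1, F1, σ1, b1, h2⟩ := h.mt (N := 2 ^ 18 * (12 * (43 * (5 * B + 19))) ^ 2) (by omega)
    (by nlinarith)
  obtain ⟨V', i1, i2, M', σ', h3, h4⟩ := Mt.un _ _ _ _ _ _ _ _ _ h2 (by omega)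
    (le_of_eq (by ring))
  refine h4.adj (le_trans ?_ hn)
  have h5 : Fintype.card V' ≤ Fintype.card V * (2 ^ 9 * B) := by
    rw [h3, Fintype.card_sum, Fintype.card_prod, Fintype.card_bool]
    calc _ ≤ Fintype.card V + Fintype.card V * 3 * 2
          + (4 * (6 * (5 * B + 19)) + 3) * (Fintype.card V * 3) := by gcongr
      _ = Fintype.card V * (360 * B + 1384) := by ring
      _ ≤ _ := by gcongr; omega
  calc _ ≤ Fintype.card V * (2 ^ 9 * B) * (B ^ 2 + 2 ^ 18 * (12 * (43 * (6 * B))) ^ 2) := by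
        gcongr
        · exact Nat.one_le_pow _ _ (by omega)
        · omega
    _ = Fintype.card V * (2 ^ 9 * (1 + 2 ^ 18 * 3096 ^ 2) * B ^ 3) := by ring
    _ ≤ _ := by gcongr; norm_num

end Pool.Agent.P.MP_1ec91f_co
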