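import Pool.Agent.P.MP_1ec91f_co.CubTree

/-!
Attaching the binary trees, padding, and the passage to a graph with second eigenvalue `√7`.
-/

open Finset Matrix Module

set_option linter.unusedSectionVars false

namespace Pool.Agent.P.MP_1ec91f_co

variable {k : ℕ}

/-- The rescaled matrix `A_G - √7` of a bipartite graph of maximum degree at most three. -/
structure Ad3 {V : Type} [Fintype V] (k : ℕ) (M : Matrix V V ℝ) (σ : V → Bool) : Prop where
  gd : Gd k M
  unit : ∀ u v, u ≠ v → M u v = 0 ∨ (M u v = 1 ∧ σ u ≠ σ v)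
  diag : ∀ v, M v v = -lam (σ v)
  deg : ∀ v, ∑ u, M v u - M v v ≤ 3

theorem attach3 (N : ℕ) : ∀ (V : Type) [Fintype V] [DecidableEq V] (M : Matrix V V ℝ)
    (σ : V → Bool) (n d : V → ℕ), ∑ v, n v = N → Gd k M →
    (∀ u v, u ≠ v → M u v = 0 ∨ (M u v = 1 ∧ σ u ≠ σ v)) →
    (∀ v, Tb (σ v) (lam (σ v) + M v v) (n v) (d v)) → (∀ v, ∑ u, M v u - M v v + d v ≤ 3) →
    ∃ (V' : Type) (_ : Fintype V') (M' : Matrix V' V' ℝ) (σ' : V' → Bool),
      Fintype.card V' = Fintype.card V + N ∧ Ad3 k M' σ' := by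
  induction N with
  | zero =>
    intro V _ _ M σ n d hn h1 h2 h3 h4
    refine ⟨V, inferInstance, M, σ, rfl, h1, h2, fun v => ?_, fun v => ?_⟩
    · have h5 : n v = 0 := sum_eq_zero_iff.1 hn v (mem_univ _)
      rcases (h3 v).inv with h6 | ⟨_, _, _, _, _, _, -, -, -, -, -, h6, -⟩
      · linarith [h6.1]
      · omega
    · have : (0 : ℝ) ≤ d v := Nat.cast_nonneg _
      linarith [h4 v]
  | succ N ih =>
    intro V _ _ M σ n d hn h1 h2 h3 h4
    obtain ⟨w, -, hw⟩ := exists_ne_zero_of_sum_ne_zero (by omega : ∑ v, n v ≠ 0)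
    obtain ⟨S₁, n₁, d₁, S', n', d', t1, t2, t3, t4, t5, t6, t7⟩ :=
      (h3 w).inv.resolve_left fun h => hw h.2.1
    obtain ⟨c, hc⟩ : ∃ c, c = lam (!σ w) - S' := ⟨_, rfl⟩
    rw [← hc] at t5
    let E : Matrix Unit V ℝ := Matrix.of fun _ u => if u = w then 1 else 0
    have g := h1.bext_diag (E := E) (c := fun _ => c) (fun _ => by linarith)
      fun _ => ⟨w, by simp [E]⟩
    set M' := bext M E (diagonal fun _ => c⁻¹) (diagonal fun _ => c) with hM'
    have e1 : ∀ u v, M' (.inl u) (.inl v)
        = M u v - if u = w ∧ v = w then c⁻¹ else 0 := fun u v => by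
      rw [hM', bext_ll, conj_diag]
      by_cases a : u = w <;> by_cases b : v = w <;> simp [E, a, b]
    have e2 : ∀ u y, M' (.inl u) (.inr y) = if u = w then 1 else 0 := fun u y => rfl
    have e3 : ∀ u y, M' (.inr y) (.inl u) = if u = w then 1 else 0 := fun u y => rfl
    have e4 : ∀ y y', M' (.inr y) (.inr y') = -c := fun y y' => by
      simp [hM', bext_rr]
    refine Exists.imp (fun V' => Exists.imp fun i => Exists.imp fun M'' => Exists.imp fun σ' =>
      And.imp_left fun c1 => ?_) (ih (V ⊕ Unit) M' (Sum.elim σ fun _ => !σ w)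
      (Sum.elim (Function.update n w n₁) fun _ => n')
      (Sum.elim (Function.update d w d₁) fun _ => d') ?_ g ?_ ?_ ?_)
    · rw [c1, Fintype.card_sum, Fintype.card_unit, add_assoc, add_comm 1]
    · rw [Fintype.sum_sum_type]
      simp only [Sum.elim_inl, Sum.elim_inr, sum_update_of_mem (mem_univ w), sum_const,
        card_univ, Fintype.card_unit, one_smul]
      rw [← add_sum_erase _ _ (mem_univ w), ← sdiff_singleton_eq_erase] at hn
      omega
    · rintro (u | y) (v | y') huv
      · have : ¬ (u = w ∧ v = w) := fun h => huv (by rw [h.1, h.2])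
        rw [e1, if_neg this, sub_zero]
        exact h2 u v fun e => huv (by rw [e])
      · rw [e2]
        split_ifs with a <;> simp [a]
      · rw [e3]
        split_ifs with a <;> simp [a]
      · exact (huv rfl).elim
    · rintro (u | y)
      · rw [e1]
        by_cases a : u = w
        · subst a
          simp only [and_self, if_true, Sum.elim_inl, Function.update_self]
          convert t1 using 1
          linarith
        · simpa [a] using h3 u
      · rw [e4, hc]
        simpa using t2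
    · rintro (u | y)
      · have := h4 u
        rw [Fintype.sum_sum_type]
        simp only [e1, e2, sum_sub_distrib]
        by_cases a : u = w
        · subst a
          rw [t7] at this
          simp at this ⊢
          linarith
        · simpa [a] using this
      · have : (d' : ℝ) ≤ 2 := by exact_mod_cast t3
        rw [Fintype.sum_sum_type]
        simp [e3, e4]
        linarith

variable {V : Type} [Fintype V] [DecidableEq V] {M : Matrix V V ℝ} {σ : V → Bool}

/-- Unit weights; the diagonal can be corrected by small pendant trees. -/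
structure Un3 (k N : ℕ) (M : Matrix V V ℝ) (σ : V → Bool) : Prop where
  gd : Gd k M
  unit : ∀ u v, u ≠ v → M u v = 0 ∨ (M u v = 1 ∧ σ u ≠ σ v)
  done : ∀ v, ∃ n d, Tb (σ v) (lam (σ v) + M v v) n d ∧ n ≤ N ∧ ∑ u, M v u - M v v + d ≤ 3
  pad : ∃ w, σ w = true ∧ -5 ≤ M w w ∧ ∑ u, M w u - M w w ≤ 2

theorem Un3.adj {N n : ℕ} (h : Un3 (k + 1) N M σ) (hn : Fintype.card V * (1 + N) ≤ n) :
    ∃ (V' : Type) (_ : Fintype V') (M' : Matrix V' V' ℝ) (σ' : V' → Bool),
      Fintype.card V' = n ∧ Ad3 k M' σ' := by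
  choose a d t1 t2 t3 using h.done
  obtain ⟨w, w1, w2, w3⟩ := h.pad
  have h1 : ∑ v, a v ≤ Fintype.card V * N := by
    simpa using sum_le_card_nsmul univ _ _ fun v _ => t2 v
  have h2 : ∑ v ∈ univ \ {w}, a v ≤ ∑ v, a v := sum_le_sum_of_subset sdiff_subset
  obtain ⟨x, d', p1, p2, p3, p4⟩ := Tb.path (n - Fintype.card V - ∑ v ∈ univ \ {w}, a v) true
  rw [if_pos rfl] at p2
  have g := h.gd.lower w (δ := 7 + M w w - x) (by linarith)
  have e1 : ∀ u v, u ≠ v → (M - diagonal (Pi.single w (7 + M w w - x))) u v = M u v :=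
    fun u v huv => by simp [diagonal_apply_ne _ huv]
  obtain ⟨V', i, M', σ', c1, c2⟩ := attach3 _ V _ σ
    (Function.update a w (n - Fintype.card V - ∑ v ∈ univ \ {w}, a v)) (Function.update d w d')
    rfl g (fun u v huv => by rw [e1 u v huv]; exact h.unit u v huv) (fun v => by
      by_cases e : v = w
      · subst e
        simp only [Function.update_self, Matrix.sub_apply, diagonal_apply_eq, Pi.single_eq_same,
          w1, lam]
        convert p4 using 1
        ring
      · simpa [e] using t1 v) (fun v => by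
      have h3 : ∑ u, M v u - M v v + (Function.update d w d' v : ℕ) ≤ 3 := by
        by_cases e : v = w
        · subst e
          have : (d' : ℝ) ≤ 1 := by exact_mod_cast p3
          rw [Function.update_self]
          linarith
        · simpa [e] using t3 v
      rw [← add_sum_erase _ _ (mem_univ v)] at h3 ⊢
      rw [sum_congr rfl fun u hu => e1 v u (ne_of_mem_erase hu).symm]
      linarith)
  refine ⟨V', i, M', σ', ?_, c2⟩
  rw [c1, sum_update_of_mem (mem_univ w)]
  rw [mul_add, mul_one] at hn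
  omega

theorem Gd.congr (h : Gd k M) {s : V → ℝ} (hs : ∀ v, s v ≠ 0) :
    Gd k (diagonal s * M * diagonal s) := by
  refine ⟨by rw [transpose_mul, transpose_mul, diagonal_transpose, h.symm, Matrix.mul_assoc],
    ?_, h.ker.trans ?_, fun u v => ?_⟩
  · obtain ⟨a, ha⟩ := h.npos
    refine ⟨diagonal s *ᵥ a, fun x hx => ?_⟩
    have e : ∀ y z : V → ℝ, y ⬝ᵥ diagonal s *ᵥ z = (diagonal s *ᵥ y) ⬝ᵥ z := fun y z => by
      rw [dotProduct_mulVec, ← mulVec_transpose, diagonal_transpose]
    rw [← mulVec_mulVec, ← mulVec_mulVec, e]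
    exact ha _ (by rw [e, hx])
  · have hd : diagonal s * diagonal (fun v => (s v)⁻¹) = 1 := by
      rw [diagonal_mul_diagonal, ← diagonal_one]
      congr 1
      ext v
      exact mul_inv_cancel₀ (hs v)
    have hmem : ∀ x : LinearMap.ker M.mulVecLin,
        ((diagonal fun v => (s v)⁻¹).mulVecLin ∘ₗ (LinearMap.ker M.mulVecLin).subtype) x
          ∈ LinearMap.ker (diagonal s * M * diagonal s).mulVecLin := by
      intro x
      have hx : M *ᵥ x.1 = 0 := x.2
      change _ *ᵥ (_ *ᵥ x.1) = 0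
      rw [mulVec_mulVec, Matrix.mul_assoc, hd, Matrix.mul_one, ← mulVec_mulVec, hx, mulVec_zero]
    refine LinearMap.finrank_le_finrank_of_injective (f := LinearMap.codRestrict _ _ hmem) ?_
    intro x x' hx
    ext u
    have h5 : (diagonal fun v => (s v)⁻¹) *ᵥ x.1 = (diagonal fun v => (s v)⁻¹) *ᵥ x'.1 :=
      congrArg Subtype.val hx
    simpa [mulVec_diagonal, hs u] using congrFun h5 u
  · induction h.conn u v with
    | refl => exact Relation.ReflTransGen.refl
    | tail _ hr ih => exact ih.tail ⟨hr.1, by simpa [hs] using hr.2⟩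

omit [DecidableEq V] in
theorem Gd.graph (h : Gd k M) {l : ℝ} {D n : ℕ} (hu : ∀ u v, u ≠ v → M u v = 0 ∨ M u v = 1)
    (hd : ∀ v, M v v = -l) (hD : ∀ v, ∑ u, M v u - M v v ≤ D) (hn : Fintype.card V = n)
    (hk : 2 ≤ k) :
    ∃ (G : SimpleGraph (Fin n)) (_ : DecidableRel G.Adj), G.Connected ∧ G.maxDegree ≤ D ∧
      ((G.adjMatrix ℝ).charpoly.roots.sort (· ≥ ·)).getD 1 0 = l ∧
      k ≤ (G.adjMatrix ℝ).charpoly.roots.count
        (((G.adjMatrix ℝ).charpoly.roots.sort (· ≥ ·)).getD 1 0) := by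
  classical
  let e : Fin n ≃ V := (Fintype.equivFinOfCardEq hn).symm
  let G : SimpleGraph (Fin n) :=
    { Adj := fun i j => i ≠ j ∧ M (e i) (e j) ≠ 0
      symm := ⟨fun i j hij => ⟨hij.1.symm, by rw [h.sym]; exact hij.2⟩⟩
      loopless := ⟨fun i hi => hi.1 rfl⟩ }
  have hA : ∀ i j, G.adjMatrix ℝ i j = M (e i) (e j) + if i = j then l else 0 := by
    intro i j
    by_cases hij : i = j
    · subst hij
      simp [hd]
    · rcases hu _ _ (e.injective.ne hij) with h1 | h1 <;>
        simp [hij, SimpleGraph.adjMatrix_apply, G, h1]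
  have hN : ∀ x : V → ℝ, (l • (1 : Matrix (Fin n) (Fin n) ℝ) - G.adjMatrix ℝ) *ᵥ (x ∘ e)
      = -((M *ᵥ x) ∘ e) := by
    intro x
    ext i
    simp only [mulVec, dotProduct, Matrix.sub_apply, Matrix.smul_apply, one_apply, hA,
      Pi.neg_apply, Function.comp_apply, ← e.sum_comp, ← sum_neg_distrib]
    exact sum_congr rfl fun j _ => by split_ifs <;> simp
  have hM : (G.adjMatrix ℝ).IsHermitian := G.isHermitian_adjMatrix ℝ
  have hrank : k ≤ finrank ℝ (LinearMap.ker
      (l • (1 : Matrix (Fin n) (Fin n) ℝ) - G.adjMatrix ℝ).mulVecLin) := by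
    refine h.ker.trans ?_
    have hmem : ∀ x : LinearMap.ker M.mulVecLin,
        (LinearMap.funLeft ℝ ℝ e ∘ₗ (LinearMap.ker M.mulVecLin).subtype) x ∈ LinearMap.ker
          (l • (1 : Matrix (Fin n) (Fin n) ℝ) - G.adjMatrix ℝ).mulVecLin := by
      intro x
      have hx : M *ᵥ x.1 = 0 := x.2
      change _ *ᵥ (x.1 ∘ e) = 0
      rw [hN, hx]
      simp
    refine LinearMap.finrank_le_finrank_of_injective (f := LinearMap.codRestrict _ _ hmem) ?_
    intro x x' hx
    ext u
    simpa using congrFun (congrArg Subtype.val hx) (e.symm u)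
  have hj : 1 < Fintype.card (Fin n) := by
    have := Submodule.finrank_le (LinearMap.ker
      (l • (1 : Matrix (Fin n) (Fin n) ℝ) - G.adjMatrix ℝ).mulVecLin)
    rw [finrank_fintype_fun_eq_card] at this
    omega
  obtain ⟨a, ha⟩ := h.npos
  have h3 := second_eq hM l ⟨1, hj⟩ rfl (a := a ∘ e) (fun x hx => by
    obtain ⟨x, rfl⟩ : ∃ x' : V → ℝ, x = x' ∘ e := ⟨x ∘ e.symm, by ext i; simp⟩
    rw [comp_equiv_dotProduct_comp_equiv] at hx
    rw [BF, hN, dotProduct_neg, comp_equiv_dotProduct_comp_equiv]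
    linarith [ha x hx]) (hk.trans hrank)
  refine ⟨G, inferInstance, ?_, ?_, ?_, ?_⟩
  · have : Nonempty (Fin n) := Fintype.card_pos_iff.1 (by omega)
    refine ⟨fun i j => ?_⟩
    have key : ∀ u v, Relation.ReflTransGen (Sup M) u v → G.Reachable (e.symm u) (e.symm v) := by
      intro u v huv
      induction huv with
      | refl => exact SimpleGraph.Reachable.refl _
      | tail _ hr ih =>
        exact ih.trans (SimpleGraph.Adj.reachable ⟨e.symm.injective.ne hr.1, by simpa using hr.2⟩)
    simpa using key _ _ (h.conn (e i) (e j))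
  · refine G.maxDegree_le_of_forall_degree_le D fun i => ?_
    have h4 := hD (e i)
    have h5 : (G.degree i : ℝ) = ∑ j, G.adjMatrix ℝ i j := by
      have := G.adjMatrix_mulVec_const_apply (α := ℝ) (a := 1) (v := i)
      simpa [mulVec, dotProduct] using this.symm
    rw [← e.sum_comp, hd] at h4
    simp only [hA, sum_add_distrib, sum_ite_eq, mem_univ, if_true] at h5
    exact_mod_cast (by linarith : (G.degree i : ℝ) ≤ D)
  · have h1 := hM.sort_roots_charpoly_eq_eigenvalues₀
    simp only [RCLike.re_to_real, Multiset.map_id'] at h1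
    rw [h1, List.getD_eq_getElem _ _ (by simpa using hj), List.getElem_ofFn]
    exact h3
  · rw [count_second hM ⟨1, hj⟩ rfl, h3, ← finrank_ker_shift hM]
    exact hrank

omit [DecidableEq V] in
theorem Ad3.graph (h : Ad3 k M σ) {n : ℕ} (hn : Fintype.card V = n) (hk : 2 ≤ k) :
    ∃ (G : SimpleGraph (Fin n)) (_ : DecidableRel G.Adj), G.Connected ∧ G.maxDegree ≤ 3 ∧
      ((G.adjMatrix ℝ).charpoly.roots.sort (· ≥ ·)).getD 1 0 = √7 ∧
      k ≤ (G.adjMatrix ℝ).charpoly.roots.count
        (((G.adjMatrix ℝ).charpoly.roots.sort (· ≥ ·)).getD 1 0) := by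
  classical
  obtain ⟨ρ, hρ⟩ : ∃ ρ : ℝ, ρ = √(√7) := ⟨_, rfl⟩
  have r0 : 0 < ρ := by rw [hρ]; positivity
  have r1 : ρ * ρ = √7 := by rw [hρ]; exact Real.mul_self_sqrt (by positivity)
  have r2 : √7 * √7 = (7 : ℝ) := Real.mul_self_sqrt (by norm_num)
  let s : V → ℝ := fun v => if σ v then ρ⁻¹ else ρ
  have e1 : ∀ u v, u ≠ v → (diagonal s * M * diagonal s) u v = M u v := fun u v huv => by
    rw [mul_diagonal, diagonal_mul]
    rcases h.unit u v huv with a | ⟨a, b⟩
    · simp [a]
    · rw [a]
      simp only [s]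
      cases c : σ u <;> cases d : σ v <;> simp_all
  refine (h.gd.congr (s := s) fun v => ?_).graph (fun u v huv => ?_) (fun v => ?_)
    (fun v => ?_) hn hk
  · simp only [s]
    split_ifs <;> positivity
  · rw [e1 u v huv]
    exact (h.unit u v huv).imp id And.left
  · rw [mul_diagonal, diagonal_mul, h.diag]
    simp only [s]
    cases σ v
    · simp [lam, r1]
    · simp only [lam, if_true]
      field_simp
      rw [pow_two, r1, r2]
  · have h3 := h.deg v
    rw [← add_sum_erase _ _ (mem_univ v)] at h3 ⊢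
    rw [sum_congr rfl fun u hu => e1 v u (ne_of_mem_erase hu).symm]
    push_cast
    linarith

end Pool.Agent.P.MP_1ec91f_co
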