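import Pool.Agent.P.MP_1ec91f_co.CubClique

/-!
The lower bound for adjacency matrices of graphs of maximum degree three.
-/

open Finset Matrix Module

set_option linter.unusedSectionVars false

namespace Pool.Agent.P.MP_1ec91f_co

theorem cub_graph {s m n : ℕ} (hm : 2 ^ 24 ≤ m) (hmq : m < 2 ^ s) (hn : (2 ^ s) ^ (m + 42) ≤ n) :
    ∃ (G : SimpleGraph (Fin n)) (_ : DecidableRel G.Adj), G.Connected ∧ G.maxDegree ≤ 3 ∧
      ((G.adjMatrix ℝ).charpoly.roots.sort (· ≥ ·)).getD 1 0 = √7 ∧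
      (2 ^ s).choose m ≤ 2 * (G.adjMatrix ℝ).charpoly.roots.count
        (((G.adjMatrix ℝ).charpoly.roots.sort (· ≥ ·)).getD 1 0) := by
  classical
  have hs : 24 < s := (Nat.pow_lt_pow_iff_right one_lt_two).1 (hm.trans_lt hmq)
  have a3 : (s + 40) ^ 3 ≤ 2 ^ s := by
    clear hmq hn
    induction s, hs using Nat.le_induction with
    | base => norm_num
    | succ s hs ih =>
      rw [pow_succ 2]
      nlinarith [Nat.mul_le_mul hs (Nat.mul_le_mul hs hs), Nat.mul_le_mul hs hs,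
        Nat.mul_le_mul hs (le_refl (s * s))]
  obtain ⟨j, rfl⟩ : ∃ j, s = j + 1 := ⟨s - 1, by omega⟩
  let F := GaloisField 2 (j + 1)
  let _ : Fintype F := Fintype.ofFinite F
  have hc : Fintype.card F = 2 ^ (j + 1) := by
    rw [← Nat.card_eq_fintype_card]
    exact GaloisField.card 2 (j + 1) (by omega)
  choose g hg using fun S : {S : Finset F // S.card = m} => mom_fun S.1 S.2
  have h1 := (flag_good (mom_spans (F := F) (m := m)) (by omega) g hg).gd
  rw [Fintype.card_finset_len, hc] at h1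
  have h2 : m + 1 ≤ (2 ^ (j + 1)).choose m := by
    have := Nat.choose_le_choose m (show m + 1 ≤ 2 ^ (j + 1) from hmq)
    rwa [Nat.choose_succ_self_right] at this
  obtain ⟨k, hk⟩ : ∃ k, (2 ^ (j + 1)).choose m = k + 1 :=
    ⟨_, (Nat.succ_pred_eq_of_pos (by omega)).symm⟩
  rw [hk, ← hc] at h1
  have h3 := flag_cl (Fintype.equivOfCardEq (α := Bool × Fin (2 ^ j))
    (by simp [hc, pow_succ, mul_comm])) hc (by omega) h1
  refine (Cl3.adj (n := n) j _ _ _ _ (j + 1 + 40) _ _ _ _ _ _ _ ⟨h3.gd, h3.ne, h3.inj, h3.off,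
    fun v => ?_, fun v => (h3.ht v).mono (by omega), h3.wpos, fun v => (h3.wht v).mono (by omega),
    h3.apos, fun v => (h3.aht v).mono (by omega), h3.bpos, fun v => (h3.bht v).mono (by omega)⟩
    (by simp) (by omega) (by omega) (le_trans ?_ hn)).elim fun V' h4 => ?_
  · have h4 := h3.deg v
    have h5 : cnt (Sum.inl : (Fin (m + 1) → F) × F → _) v + cnt Sum.inr v = 1 := by
      rcases v with p | p <;> simp [cnt]
    linarith
  · simp only [Fintype.card_sum, Fintype.card_prod, Fintype.card_fun, Fintype.card_fin, hc]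
    have a0 : 2 ^ 24 ≤ 2 ^ (j + 1) := by omega
    have a1 : 6 ^ j ≤ (2 ^ (j + 1)) ^ 3 := by
      rw [← pow_mul, mul_comm, pow_mul]
      exact (Nat.pow_le_pow_left (by norm_num) j).trans
        (Nat.pow_le_pow_right (by norm_num) (by omega))
    have a2 : 2048 ^ j ≤ (2 ^ (j + 1)) ^ 11 := by
      rw [← pow_mul, mul_comm, pow_mul]
      exact Nat.pow_le_pow_right (by norm_num) (by omega)
    generalize 2 ^ (j + 1) = q at a0 a1 a2 a3 ⊢
    calc _ = 6 ^ j * (2 * q ^ (m + 2))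
          * (2 ^ 51 * (531441 * (2048 ^ j) ^ 3 * (j + 1 + 40) ^ 3)) := by ring
      _ ≤ q ^ 3 * (2 * q ^ (m + 2)) * (2 ^ 51 * (1048576 * (q ^ 11) ^ 3 * q)) := by
          gcongr
          norm_num
      _ = (2 ^ 24) ^ 3 * q ^ (m + 39) := by ring
      _ ≤ q ^ 3 * q ^ (m + 39) := by gcongr
      _ = _ := by ring
  · obtain ⟨i, M', σ', h4, h5⟩ := h4
    obtain ⟨G, i', g1, g2, g3, g4⟩ := h5.graph h4 (by omega)
    exact ⟨G, i', g1, g2, g3, by omega⟩

theorem choose_pow3 {m n : ℕ} (hm : 1 ≤ m) (hn : (4 * m) ^ (m + 42) ≤ n) :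
    ∃ s : ℕ, m < 2 ^ s ∧ (2 ^ s) ^ (m + 42) ≤ n ∧
      2 * n ≤ 2 ^ 43 * (4 * m) ^ m * (2 ^ s) ^ 42 * (2 ^ s).choose m := by
  classical
  have hex : ∃ s, n < (2 ^ (s + 1)) ^ (m + 42) :=
    ⟨n, ((Nat.lt_two_pow_self (n := n)).trans_le (Nat.pow_le_pow_right two_pos (by omega))).trans_le
      (Nat.le_self_pow (by omega) _)⟩
  have h1 := Nat.find_spec hex
  set s := Nat.find hex with hs
  have h2 : 4 * m < 2 ^ (s + 1) := lt_of_pow_lt_pow_left₀ _ (by positivity) (hn.trans_lt h1)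
  rw [pow_succ] at h2
  have h3 : s ≠ 0 := fun h => by
    rw [h] at h2
    omega
  have h4 := Nat.find_min hex (m := s - 1) (by omega)
  rw [show s - 1 + 1 = s by omega, not_lt] at h4
  refine ⟨s, by omega, h4, ?_⟩
  rw [pow_succ 2 s] at h1
  generalize 2 ^ s = q at *
  have h6 : q ^ m ≤ (2 * m) ^ m * q.choose m := by
    have h7 := Nat.pow_sub_le_descFactorial q m
    rw [Nat.descFactorial_eq_factorial_mul_choose] at h7
    calc q ^ m ≤ (2 * (q + 1 - m)) ^ m := by gcongr; omega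
      _ = 2 ^ m * (q + 1 - m) ^ m := mul_pow _ _ _
      _ ≤ 2 ^ m * (m ^ m * q.choose m) := by
        gcongr
        exact h7.trans (Nat.mul_le_mul_right _ (Nat.factorial_le_pow m))
      _ = _ := by rw [mul_pow, mul_assoc]
  calc 2 * n ≤ 2 * (q * 2) ^ (m + 42) := by omega
    _ = 2 ^ (m + 43) * q ^ 42 * q ^ m := by ring
    _ ≤ 2 ^ (m + 43) * q ^ 42 * ((2 * m) ^ m * q.choose m) := by gcongr
    _ = _ := by
      rw [show 4 * m = 2 * (2 * m) by ring, mul_pow 2 (2 * m)]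
      ring

theorem choose_param3 : ∃ N : ℕ, ∀ n : ℕ, N ≤ n → ∃ m s : ℕ, 2 ^ 24 ≤ m ∧ m < 2 ^ s ∧
    (2 ^ s) ^ (m + 42) ≤ n ∧
    2 * (n * Real.exp (-11 * √(Real.log n * Real.log (Real.log n)))) ≤ (2 ^ s).choose m := by
  have e1 : ∀ᶠ L : ℝ in Filter.atTop, (1 ≤ L ∧ 350 ≤ Real.log L) ∧ 2 ^ 42 * Real.log L ≤ L := by
    refine ((Filter.eventually_ge_atTop 1).and
      (Real.tendsto_log_atTop.eventually_ge_atTop 350)).and ?_
    filter_upwards [Real.isLittleO_log_id_atTop.def (c := 1 / 2 ^ 42) (by norm_num),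
      Filter.eventually_ge_atTop 0] with L h1 h2
    have := le_abs_self (Real.log L)
    simp only [Real.norm_eq_abs, id, abs_of_nonneg h2] at h1
    linarith
  obtain ⟨N, hN⟩ := Filter.eventually_atTop.1
    (((Real.tendsto_log_atTop.comp tendsto_natCast_atTop_atTop).eventually e1).and
      (Filter.eventually_ge_atTop 1))
  refine ⟨N, fun n hn => ?_⟩
  obtain ⟨⟨⟨h1, hl⟩, h2⟩, h3⟩ := hN n hn
  simp only [Function.comp] at h1 h2 hl
  have hn0 : (0 : ℝ) < n := by exact_mod_cast h3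
  set L := Real.log n with hL
  set l := Real.log L with hl'
  set u := √(L / l) with hu
  have hu2 : u * u = L / l := Real.mul_self_sqrt (by positivity)
  have hu3 : u * u * l = L := by rw [hu2]; field_simp
  have hu8 : 2 ^ 21 ≤ u := by
    apply Real.le_sqrt_of_sq_le
    rw [le_div_iff₀ (by linarith)]
    linarith
  have hs : √(L * l) = u * l := by
    rw [Real.sqrt_eq_iff_mul_self_eq (by positivity) (by positivity), ← hu3]
    ring
  let m := ⌈8 * u⌉₊
  have m1 : 8 * u ≤ m := Nat.le_ceil _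
  have m2 : (m : ℝ) < 8 * u + 1 := Nat.ceil_lt_add_one (by linarith)
  have m3 : 2 ^ 24 ≤ m := by exact_mod_cast (show (2 ^ 24 : ℝ) ≤ m by linarith)
  have a1 : (4 * m : ℝ) ≤ Real.exp (3 / 5 * l) := by
    have b1 : u ≤ Real.exp (l / 2) := by
      refine (pow_le_pow_iff_left₀ (by linarith) (Real.exp_pos _).le two_ne_zero).1 ?_
      rw [← Real.exp_nat_mul, show (2 : ℕ) * (l / 2) = l by push_cast; ring, hl',
        Real.exp_log (by linarith), ← hu3]
      nlinarith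
    have b2 : 36 ≤ Real.exp (l / 10) := by linarith [Real.add_one_le_exp (l / 10)]
    rw [show 3 / 5 * l = l / 2 + l / 10 by ring, Real.exp_add]
    nlinarith
  have k0 : ∀ t : ℕ, ((4 * m) ^ t : ℝ) ≤ Real.exp (t * (3 / 5 * l)) := fun t => by
    rw [Real.exp_nat_mul]
    gcongr
  have k1 : ((4 * m) ^ m : ℝ) ≤ Real.exp (5 * (u * l)) :=
    (k0 m).trans (Real.exp_le_exp.2 (by nlinarith))
  have k2 : (4 * m) ^ (m + 42) ≤ n := by
    have : Real.exp ((m + 42 : ℕ) * (3 / 5 * l)) ≤ n := by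
      rw [← Real.exp_log hn0, ← hL, ← hu3]
      apply Real.exp_le_exp.2
      have : (m + 42) * (3 / 5) ≤ u * u := by nlinarith
      push_cast
      nlinarith
    exact_mod_cast (k0 _).trans this
  obtain ⟨s, q1, q2, q3⟩ := choose_pow3 (by omega) k2
  refine ⟨m, s, m3, q1, q2, ?_⟩
  generalize 2 ^ s = q at *
  have hq0 : (1 : ℝ) ≤ q := by exact_mod_cast (show 1 ≤ q by omega)
  have k3 : (q : ℝ) ^ 42 ≤ Real.exp (21 / 4 * (u * l)) := by
    rw [← Real.log_le_iff_le_exp (by positivity), Real.log_pow]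
    have a1 : ((q : ℝ)) ^ m ≤ n := by
      have : q ^ m ≤ q ^ (m + 42) := Nat.pow_le_pow_right (by omega) (by omega)
      exact_mod_cast (show q ^ m ≤ n by omega)
    have a2 := Real.log_le_log (by positivity) a1
    rw [Real.log_pow, ← hL, ← hu3] at a2
    have a3 := Real.log_nonneg hq0
    have a4 : u * (8 * Real.log q) ≤ u * (u * l) := by nlinarith
    have a5 := le_of_mul_le_mul_left a4 (by linarith)
    push_cast
    linarith
  have k6 : (2 : ℝ) ^ 43 ≤ Real.exp (3 / 4 * (u * l)) := by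
    calc (2 : ℝ) ^ 43 ≤ Real.exp 1 ^ 43 := by
          gcongr
          linarith [Real.add_one_le_exp 1]
      _ = Real.exp ((43 : ℕ) * 1) := by rw [Real.exp_nat_mul]
      _ ≤ _ := Real.exp_le_exp.2 (by push_cast; nlinarith)
  have k4 : (2 * n : ℝ) ≤ 2 ^ 43 * (4 * m) ^ m * q ^ 42 * q.choose m := by exact_mod_cast q3
  have k5 : (2 * n : ℝ) ≤ Real.exp (11 * (u * l)) * q.choose m := by
    refine k4.trans ?_
    rw [show 11 * (u * l) = 3 / 4 * (u * l) + 5 * (u * l) + 21 / 4 * (u * l) by ring, Real.exp_add,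
      Real.exp_add]
    gcongr
  rw [hs, neg_mul, Real.exp_neg, ← mul_assoc, ← div_eq_mul_inv, div_le_iff₀ (Real.exp_pos _),
    mul_comm _ (Real.exp _)]
  exact k5

theorem cub_lower : ∃ N : ℕ, ∀ n : ℕ, N ≤ n →
    ∃ (G : SimpleGraph (Fin n)) (_ : DecidableRel G.Adj), G.Connected ∧ G.maxDegree ≤ 3 ∧
      ((G.adjMatrix ℝ).charpoly.roots.sort (· ≥ ·)).getD 1 0 = √7 ∧
      n * Real.exp (-11 * √(Real.log n * Real.log (Real.log n)))
        ≤ ((G.adjMatrix ℝ).charpoly.roots.count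
          (((G.adjMatrix ℝ).charpoly.roots.sort (· ≥ ·)).getD 1 0) : ℕ) := by
  obtain ⟨N, hN⟩ := choose_param3
  refine ⟨N, fun n hn => ?_⟩
  obtain ⟨m, s, h1, h2, h3, h4⟩ := hN n hn
  obtain ⟨G, i, g1, g2, g3, g4⟩ := cub_graph h1 h2 h3
  refine ⟨G, i, g1, g2, g3, ?_⟩
  have g5 : (((2 ^ s).choose m : ℕ) : ℝ) ≤ 2 * ((G.adjMatrix ℝ).charpoly.roots.count
      (((G.adjMatrix ℝ).charpoly.roots.sort (· ≥ ·)).getD 1 0) : ℕ) := by exact_mod_cast g4
  linarith

end Pool.Agent.P.MP_1ec91f_co
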