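import Pool.Agent.P.MP_1ec91f_co.AdjLower

/-!
Binary pendant trees for the eigenvalue `√7` (diagonal entries `-7` and `-1` on the two sides).
-/

open Finset Matrix Module

set_option linter.unusedSectionVars false

namespace Pool.Agent.P.MP_1ec91f_co

/-- The required diagonal. -/
def lam : Bool → ℝ
  | true => 7
  | false => 1

/-- `Tb σ S n d`: `S` is the total response at a vertex of type `σ` of `d` binary pendant trees
with `n` vertices in total. -/
inductive Tb : Bool → ℝ → ℕ → ℕ → Prop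
  | nil (σ : Bool) : Tb σ 0 0 0
  | cons {σ : Bool} {S S' : ℝ} {n d n' d' : ℕ} : Tb σ S n d → Tb (!σ) S' n' d' → d' ≤ 2 →
      S' < lam (!σ) → Tb σ (S + (lam (!σ) - S')⁻¹) (n + n' + 1) (d + 1)

lemma Tb.inv {σ : Bool} {S : ℝ} {n d : ℕ} (h : Tb σ S n d) : (S = 0 ∧ n = 0 ∧ d = 0) ∨
    ∃ S₁ n₁ d₁ S' n' d', Tb σ S₁ n₁ d₁ ∧ Tb (!σ) S' n' d' ∧ d' ≤ 2 ∧ S' < lam (!σ) ∧
      S = S₁ + (lam (!σ) - S')⁻¹ ∧ n = n₁ + n' + 1 ∧ d = d₁ + 1 := by
  cases h with
  | nil => exact Or.inl ⟨rfl, rfl, rfl⟩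
  | cons h1 h2 h3 h4 => exact Or.inr ⟨_, _, _, _, _, _, h1, h2, h3, h4, rfl, rfl, rfl⟩

lemma Tb.add {σ : Bool} {S S' : ℝ} {n d n' d' : ℕ} (h : Tb σ S n d) (h' : Tb σ S' n' d') :
    Tb σ (S + S') (n + n') (d + d') := by
  induction h' with
  | nil => simpa using h
  | cons _ h2 h3 h4 ih _ =>
    convert (ih h).cons h2 h3 h4 using 1 <;> ring

lemma Tb.nodeA {S s : ℝ} {n d : ℕ} (h : Tb true S n d) (hd : d ≤ 2) (hs : 0 < s)
    (e : S = 7 - s⁻¹) : Tb false s (n + 1) 1 := by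
  have := inv_pos.2 hs
  convert (Tb.nil false).cons h hd (by simp only [Bool.not_false, lam]; linarith) using 1
  · simp [lam, e]
  · simp

lemma Tb.nodeB {S t : ℝ} {n d : ℕ} (h : Tb false S n d) (hd : d ≤ 2) (ht : 0 < t)
    (e : S = 1 - t⁻¹) : Tb true t (n + 1) 1 := by
  have := inv_pos.2 ht
  convert (Tb.nil true).cons h hd (by simp only [Bool.not_true, lam]; linarith) using 1
  · simp [lam, e]
  · simp

lemma tb1 : Tb true 1 1 1 := (Tb.nil false).nodeB (by norm_num) (by norm_num) (by norm_num)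

lemma ta5 : Tb false (1 / 5) 3 1 :=
  (tb1.add tb1).nodeA (by norm_num) (by norm_num) (by norm_num)

lemma tb32 : Tb true (3 / 2) 5 1 := by
  have s6 : Tb false (1 / 6) 2 1 := tb1.nodeA (by norm_num) (by norm_num) (by norm_num)
  exact (s6.add s6).nodeB (by norm_num) (by norm_num) (by norm_num)

lemma Tb.const {j : ℕ} (h1 : j ≠ 1) (h7 : j ≤ 7) :
    ∃ n d, Tb true (j / 2) n d ∧ n ≤ 134 ∧ d ≤ 1 := by
  have s4 : Tb false (1 / 4) 11 1 :=
    (tb32.add tb32).nodeA (by norm_num) (by norm_num) (by norm_num)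
  have t2 : Tb true 2 23 1 := (s4.add s4).nodeB (by norm_num) (by norm_num) (by norm_num)
  have s3 : Tb false (1 / 3) 47 1 := (t2.add t2).nodeA (by norm_num) (by norm_num) (by norm_num)
  have t3 : Tb true 3 95 1 := (s3.add s3).nodeB (by norm_num) (by norm_num) (by norm_num)
  have s25 : Tb false (2 / 5) 101 1 :=
    (tb32.add t3).nodeA (by norm_num) (by norm_num) (by norm_num)
  have t52 : Tb true (5 / 2) 105 1 :=
    (s25.add ta5).nodeB (by norm_num) (by norm_num) (by norm_num)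
  have s2 : Tb false (1 / 2) 119 1 := (t2.add t3).nodeA (by norm_num) (by norm_num) (by norm_num)
  have t43 : Tb true (4 / 3) 12 1 := s4.nodeB (by norm_num) (by norm_num) (by norm_num)
  have s314 : Tb false (3 / 14) 14 1 :=
    (tb1.add t43).nodeA (by norm_num) (by norm_num) (by norm_num)
  have t72 : Tb true (7 / 2) 134 1 :=
    (s2.add s314).nodeB (by norm_num) (by norm_num) (by norm_num)
  interval_cases j
  · exact ⟨0, 0, by simpa using Tb.nil true, by norm_num, by norm_num⟩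
  · exact (h1 rfl).elim
  · exact ⟨1, 1, by simpa using tb1, by norm_num, le_rfl⟩
  · exact ⟨5, 1, by simpa using tb32, by norm_num, le_rfl⟩
  · exact ⟨23, 1, by convert t2 using 1; norm_num, by norm_num, le_rfl⟩
  · exact ⟨105, 1, by simpa using t52, by norm_num, le_rfl⟩
  · exact ⟨95, 1, by convert t3 using 1; norm_num, by norm_num, le_rfl⟩
  · exact ⟨134, 1, by simpa using t72, by norm_num, le_rfl⟩

lemma Tb.path (l : ℕ) : ∀ σ : Bool, ∃ x d, 0 ≤ x ∧ x ≤ (if σ then 5 / 4 else 1 / 5) ∧ d ≤ 1 ∧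
    Tb σ x l d := by
  induction l with
  | zero => exact fun σ => ⟨0, 0, le_rfl, by split_ifs <;> norm_num, zero_le_one, Tb.nil σ⟩
  | succ l ih =>
    rintro (_ | _)
    · obtain ⟨x, d, h1, h2, h3, h4⟩ := ih true
      rw [if_pos rfl] at h2
      have h5 : 0 < (7 - x)⁻¹ := inv_pos.2 (by linarith)
      refine ⟨_, 1, h5.le, ?_, le_rfl, h4.nodeA (by omega) h5 (by simp)⟩
      rw [if_neg (by simp), inv_le_iff_one_le_mul₀ (by linarith)]
      linarith
    · obtain ⟨x, d, h1, h2, h3, h4⟩ := ih false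
      rw [if_neg (by simp)] at h2
      have h5 : 0 < (1 - x)⁻¹ := inv_pos.2 (by linarith)
      refine ⟨_, 1, h5.le, ?_, le_rfl, h4.nodeB (by omega) h5 (by simp)⟩
      rw [if_pos rfl, inv_le_iff_one_le_mul₀ (by linarith)]
      linarith

/-- Realisable with a spine of `t` double steps. -/
def Rb (S : ℝ) (t : ℕ) : Prop := ∃ n d, Tb true (S + 1) n d ∧ n ≤ 140 * t ∧ d ≤ 2

lemma Rb.mono {S : ℝ} {t t' : ℕ} (h : Rb S t) (ht : t ≤ t') : Rb S t' := by
  obtain ⟨n, d, h1, h2, h3⟩ := h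
  exact ⟨n, d, h1, by omega, h3⟩

lemma Rb.spine {q u : ℤ} {j t : ℕ} (hq : 0 < q) (hu : 0 < u) (h1 : j ≠ 1) (h7 : j ≤ 7)
    (h : Rb (((5 * u - q : ℤ) : ℝ) / u) t) : Rb (j / 2 + u / q) (t + 1) := by
  obtain ⟨n, d, a1, a2, a3⟩ := h
  obtain ⟨n', d', b1, b2, b3⟩ := Tb.const h1 h7
  have hq' : (0 : ℝ) < q := by exact_mod_cast hq
  have hu' : (0 : ℝ) < u := by exact_mod_cast hu
  have c1 := (a1.nodeA (s := u / (u + q)) a3 (by positivity) (by
    push_cast
    field_simp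
    ring)).nodeB (t := u / q + 1) (by norm_num) (by positivity) (by
    field_simp
    ring)
  exact ⟨_, _, by simpa only [add_assoc] using b1.add c1, by omega, by omega⟩

/-- One phase of the Euclidean algorithm. -/
lemma Rb.phase {Q : ℤ} {T : ℕ}
    (hT : ∀ p q : ℤ, 0 < q → 49 * q ≤ 48 * Q → (27 * q ≤ 38 * p → 38 * p < 46 * q →
      49 * p ≤ 48 * Q) → 4 * q ≤ 19 * p → 5 * p ≤ 21 * q → Rb (p / q) T) (i : ℕ) :
    ∀ (q e : ℤ) (j : ℕ), 0 < q → j ≠ 1 → j ≤ 7 → -11 * q ≤ 19 * e → 19 * e < 8 * q →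
      3 * q ≤ 3 * Q + max e 0 → 2 * Q < |e| * 4 ^ i →
      Rb (j / 2 + ((q + e : ℤ) : ℝ) / ((2 * q : ℤ) : ℝ)) (T + i + 2) := by
  induction i with
  | zero =>
    intro q e j hq hj hj' h1 h2 h3 h4
    exfalso
    rw [pow_zero, mul_one] at h4
    rcases le_total e 0 with h | h
    · rw [max_eq_right h] at h3
      rw [abs_of_nonpos h] at h4
      omega
    · rw [max_eq_left h] at h3
      rw [abs_of_nonneg h] at h4
      omega
  | succ i ih =>
    intro q e j hq hj hj' h1 h2 h3 h4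
    have hu : 0 < q + e := by omega
    have hu' : ((q + e : ℤ) : ℝ) ≠ 0 := by exact_mod_cast hu.ne'
    by_cases c1 : 49 * (q + e) ≤ 48 * Q
    · refine (Rb.spine (by omega) hu hj hj' (hT _ _ hu c1 (fun _ h => ?_) (by omega)
        (by omega))).mono (by omega)
      rw [max_eq_right (by omega)] at h3
      omega
    by_cases c2 : 19 * (4 * e) < 8 * (q + e)
    · have h5 : 3 * (q + e) ≤ 3 * Q + max (4 * e) 0 := by
        rcases le_total e 0 with h | h
        · rw [max_eq_right h] at h3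
          rw [max_eq_right (by omega)]
          omega
        · rw [max_eq_left h] at h3
          rw [max_eq_left (by omega)]
          omega
      have h6 : -11 * (q + e) ≤ 19 * (4 * e) := by
        by_contra h
        rw [max_eq_right (by omega)] at h3
        omega
      have h7 := ih (q + e) (4 * e) 5 hu (by norm_num) (by norm_num) h6 c2 h5 (by
        rw [abs_mul, pow_succ] at *
        norm_num
        linarith)
      refine Rb.spine (t := T + i + 2) (by omega) hu hj hj' ?_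
      convert h7 using 1
      push_cast at hu' ⊢
      field_simp
      ring
    · have he : 0 < 2 * e := by omega
      rw [max_eq_left (by omega)] at h3
      have h5 := Rb.spine (j := 6) hu he (by norm_num) (by norm_num)
        (hT _ _ he (by omega) (by omega) (by omega) (by omega))
      refine (Rb.spine (t := T + 1) (by omega) hu hj hj' ?_).mono (by omega)
      convert h5 using 1
      push_cast at hu' ⊢
      field_simp
      ring

lemma Rb.euclid (k : ℕ) : ∀ p q : ℤ, 0 < q → 48 ^ k * q ≤ 49 ^ k →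
    (27 * q ≤ 38 * p → 38 * p < 46 * q → 48 ^ k * p ≤ 49 ^ k) → 4 * q ≤ 19 * p →
    5 * p ≤ 21 * q → Rb (p / q) ((k + 3) ^ 2) := by
  have key : ∀ p q : ℤ, 0 < q → ¬ (27 * q ≤ 38 * p ∧ 38 * p < 46 * q) → 4 * q ≤ 19 * p →
      5 * p ≤ 21 * q → ∃ (j : ℕ) (e : ℤ), j ≠ 1 ∧ j ≤ 7 ∧ -11 * q ≤ 19 * e ∧ 19 * e < 8 * q ∧
      (p : ℝ) / q = j / 2 + ((q + e : ℤ) : ℝ) / ((2 * q : ℤ) : ℝ) ∧ (e = 0 → Rb (p / q) 1) := by
    intro p q hq h0 h1 h2
    have hq' : (q : ℝ) ≠ 0 := by exact_mod_cast hq.ne'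
    have h3 := Int.emod_nonneg (38 * p + 11 * q) (show 19 * q ≠ 0 by omega)
    have h4 := Int.emod_lt_of_pos (38 * p + 11 * q) (show 0 < 19 * q by omega)
    have h5 := Int.mul_ediv_add_emod (38 * p + 11 * q) (19 * q)
    set a := (38 * p + 11 * q) / (19 * q)
    have h6 : 1 ≤ a := by nlinarith
    have h7 : a ≤ 8 := by nlinarith
    have h9 : a ≠ 2 := fun h => by
      rw [h] at h5
      omega
    obtain ⟨j, hj⟩ : ∃ j : ℕ, a = j + 1 := ⟨(a - 1).toNat, by omega⟩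
    have h8 : (p : ℝ) / q = j / 2 + ((q + (2 * p - a * q) : ℤ) : ℝ) / ((2 * q : ℤ) : ℝ) := by
      rw [hj]
      push_cast
      field_simp
      ring
    refine ⟨j, 2 * p - a * q, by omega, by omega, by nlinarith, by nlinarith, h8, fun he => ?_⟩
    obtain ⟨n, d, b1, b2, b3⟩ := Tb.const (j := j) (by omega) (by omega)
    refine ⟨_, _, ?_, (by omega : n + 5 ≤ _), (by omega : d + 1 ≤ 2)⟩
    convert b1.add tb32 using 1
    rw [h8, he]
    push_cast
    field_simp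
    ring
  have bad : ∀ (t : ℕ) (P : ℤ → Prop), (∀ p q : ℤ, 0 < q → P q →
      ¬ (27 * q ≤ 38 * p ∧ 38 * p < 46 * q) → 4 * q ≤ 19 * p → 5 * p ≤ 21 * q → Rb (p / q) t) →
      ∀ p q : ℤ, 0 < q → P q → (27 * q ≤ 38 * p → 38 * p < 46 * q → P p) → 4 * q ≤ 19 * p →
      5 * p ≤ 21 * q → Rb (p / q) (t + 1) := by
    intro t P h p q hq h0 h1 h2 h3
    by_cases c : 27 * q ≤ 38 * p ∧ 38 * p < 46 * q
    · have hp : 0 < p := by omega
      simpa using Rb.spine (j := 0) hq hp (by norm_num) (by norm_num)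
        (h _ _ hp (h1 c.1 c.2) (by omega) (by omega) (by omega))
    · exact (h p q hq h0 c h2 h3).mono (by omega)
  induction k with
  | zero =>
    intro p q hq h0 h1 h2 h3
    refine (bad 1 (fun q => 48 ^ 0 * q ≤ 49 ^ 0) (fun p q hq h0 h1 h2 h3 => ?_)
      p q hq h0 h1 h2 h3).mono (by norm_num)
    obtain ⟨j, e, -, -, h4, h5, -, h6⟩ := key p q hq h1 h2 h3
    exact h6 (by omega)
  | succ k ih =>
    intro p q hq h0 h1 h2 h3
    refine (bad ((k + 3) ^ 2 + (k + 2) + 2) (fun q => 48 ^ (k + 1) * q ≤ 49 ^ (k + 1))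
      (fun p q hq h0 h1 h2 h3 => ?_) p q hq h0 h1 h2 h3).mono (by nlinarith)
    obtain ⟨j, e, a1, a2, a3, a4, a5, a6⟩ := key p q hq h1 h2 h3
    by_cases he : e = 0
    · exact (a6 he).mono (by omega)
    have h8 : (49 : ℤ) ^ (k + 1) ≤ 48 ^ (k + 1) * 4 ^ (k + 1) := by
      rw [← mul_pow]
      exact pow_le_pow_left₀ (by norm_num) (by norm_num) _
    have h9 : q ≤ 4 ^ (k + 1) := le_of_mul_le_mul_left (h0.trans h8) (by positivity)
    have h10 : ∀ x : ℤ, 49 * x ≤ 48 * q → 48 ^ k * x ≤ 49 ^ k := fun x hx => by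
      rw [pow_succ, pow_succ] at h0
      have : (0 : ℤ) < 48 ^ k := by positivity
      nlinarith
    rw [a5]
    exact Rb.phase (Q := q) (fun p' q' b1 b2 b3 b4 b5 => ih p' q' b1 (h10 _ b2)
      (fun c1 c2 => h10 _ (b3 c1 c2)) b4 b5) (k + 2) q e j hq a1 a2 a3 a4 (by simp) (by
      have a1 : 1 ≤ |e| := Int.one_le_abs he
      have a2 : (0 : ℤ) < 4 ^ (k + 1) := by positivity
      rw [pow_succ]
      nlinarith)

lemma Ht.rb {W : ℕ} {S : ℝ} (h : Ht W S) (h1 : 4 / 19 ≤ S) (h2 : S ≤ 21 / 5) :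
    Rb S ((34 * W + 3) ^ 2) := by
  obtain ⟨p, q, e1, e2, e3, rfl⟩ := h
  have e5 : (0 : ℝ) < q := by exact_mod_cast e1
  rw [div_le_div_iff₀ (by norm_num) e5] at h1
  rw [div_le_div_iff₀ e5 (by norm_num)] at h2
  have e6 : ∀ x : ℤ, x ≤ 2 ^ W → 48 ^ (34 * W) * x ≤ 49 ^ (34 * W) := fun x hx =>
    calc (48 : ℤ) ^ (34 * W) * x ≤ 48 ^ (34 * W) * 2 ^ W := by gcongr
      _ = (48 ^ 34 * 2) ^ W := by rw [mul_pow, pow_mul]
      _ ≤ (49 ^ 34) ^ W := pow_le_pow_left₀ (by norm_num) (by norm_num) _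
      _ = _ := by rw [pow_mul]
  refine Rb.euclid _ p q e1 (e6 _ e2) (fun _ _ => e6 _ ((le_abs_self p).trans e3)) ?_ ?_
  · exact_mod_cast (by linarith : (4 * q : ℝ) ≤ 19 * p)
  · exact_mod_cast (by linarith : (5 * p : ℝ) ≤ 21 * q)

/-- Realisable by at most one tree with at most `N` vertices. -/
def One (σ : Bool) (N : ℕ) (S : ℝ) : Prop := ∃ n d, Tb σ S n d ∧ n ≤ N ∧ d ≤ 1

lemma One.zero (σ : Bool) (N : ℕ) : One σ N 0 := ⟨0, 0, Tb.nil σ, Nat.zero_le _, zero_le_one⟩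

lemma Ht.treeA {W : ℕ} {s : ℝ} (h : Ht W s) (h1 : 7 / 40 ≤ s) (h2 : s ≤ 1 / 2) :
    ∃ n, Tb false s n 1 ∧ n ≤ 140 * (34 * W + 139) ^ 2 + 1 := by
  have h0 : 0 < s := by linarith
  have h3 : s⁻¹ ≤ 40 / 7 := by
    rw [inv_le_iff_one_le_mul₀ h0]
    linarith
  have h4 : 2 ≤ s⁻¹ := by
    rw [le_inv_comm₀ (by norm_num) h0]
    linarith
  have t6 : Ht 3 6 := by simpa using Ht.nat (n := 6) (B := 3) (by norm_num)
  obtain ⟨n, d, a1, a2, a3⟩ := (t6.sub h.inv).rb (by linarith) (by linarith)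
  exact ⟨_, a1.nodeA a3 h0 (by ring), Nat.succ_le_succ (a2.trans (le_of_eq (by ring)))⟩

lemma Ht.oneB {W N : ℕ} {s : ℝ} (h : Ht W s) (h1 : 7 / 40 ≤ s) (h2 : s ≤ 1 / 2) (hW : 100 ≤ W)
    (hN : 2 ^ 18 * W ^ 2 ≤ N) : One false N s := by
  obtain ⟨n, a1, a2⟩ := h.treeA h1 h2
  exact ⟨n, 1, a1, by nlinarith, le_rfl⟩

lemma Ht.oneA {W N : ℕ} {t : ℝ} (h : Ht W t) (h1 : 5 / 4 ≤ t) (h2 : t ≤ 5 / 2) (hW : 100 ≤ W)
    (hN : 2 ^ 18 * W ^ 2 ≤ N) : ∃ n, Tb true t n 1 ∧ n ≤ N := by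
  have h0 : 0 < t := by linarith
  have h3 : t⁻¹ ≤ 4 / 5 := by
    rw [inv_le_iff_one_le_mul₀ h0]
    linarith
  have h4 : 2 / 5 ≤ t⁻¹ := by
    rw [le_inv_comm₀ (by norm_num) h0]
    linarith
  by_cases c : 1 / 2 ≤ t⁻¹
  · have t1 : Ht 3 1 := by simpa using Ht.nat (n := 1) (B := 3) (by norm_num)
    obtain ⟨n, a1, a2⟩ := (t1.sub h.inv).treeA (by linarith) (by linarith)
    exact ⟨_, a1.nodeB (by norm_num) h0 rfl, by nlinarith⟩
  · have t1 : Ht 3 (4 / 5) := ⟨4, 5, by norm_num, by norm_num, by norm_num, by norm_num⟩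
    obtain ⟨n, a1, a2⟩ := (t1.sub h.inv).treeA (by linarith) (by linarith)
    exact ⟨_, (a1.add ta5).nodeB (by norm_num) h0 (by ring), by nlinarith⟩

end Pool.Agent.P.MP_1ec91f_co
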