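import Pool.Agent.P.MP_1ec91f_co.Rand

/-!
Delocalisation of kernel vectors and the bound on the dimension of the kernel.
-/

open Finset Matrix Module

namespace Pool.Agent.P.MP_1ec91f_co

variable {V : Type*} [Fintype V] [DecidableEq V]

omit [DecidableEq V] in
/-- A space of delocalised vectors has small dimension. -/
lemma finrank_le_of_deloc (W : Submodule ℝ (V → ℝ)) (ω : V → ℝ) (hω : ∀ v, 0 < ω v) {a : ℝ}
    (ha : 0 ≤ a) (h : ∀ f ∈ W, ∀ v, ω v * f v ^ 2 ≤ a * ∑ z, ω z * f z ^ 2) :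
    (finrank ℝ W : ℝ) ≤ a * Fintype.card V := by
  classical
  let T : (V → ℝ) →ₗ[ℝ] EuclideanSpace ℝ V :=
    { toFun := fun f => WithLp.toLp 2 fun v => √(ω v) * f v
      map_add' := fun f g => by ext v; simp [mul_add]
      map_smul' := fun c f => by ext v; simp; ring }
  have hT : Function.Injective T := by
    intro f g hfg
    ext v
    have := congrArg (fun x : EuclideanSpace ℝ V => x v) hfg
    simp only [T, LinearMap.coe_mk, AddHom.coe_mk] at this
    exact mul_left_cancel₀ (Real.sqrt_pos.2 (hω v)).ne' this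
  rw [(Submodule.equivMapOfInjective T hT W).finrank_eq]
  set W' := W.map T
  have hW' : ∀ g ∈ W', ∀ v, g v ^ 2 ≤ a * ‖g‖ ^ 2 := by
    rintro _ ⟨f, hf, rfl⟩ v
    have := h f hf v
    rw [EuclideanSpace.real_norm_sq_eq]
    simpa [T, mul_pow, Real.sq_sqrt (hω _).le] using this
  let b := stdOrthonormalBasis ℝ W'
  have hv : ∀ v, ∑ i, (b i : EuclideanSpace ℝ V) v ^ 2 ≤ a := by
    intro v
    let g : W' := ∑ i, (b i : EuclideanSpace ℝ V) v • b i
    have h1 : (g : EuclideanSpace ℝ V) v = ∑ i, (b i : EuclideanSpace ℝ V) v ^ 2 := by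
      simp [g, sq]
    have h2 : ‖(g : EuclideanSpace ℝ V)‖ ^ 2 = ∑ i, (b i : EuclideanSpace ℝ V) v ^ 2 := by
      rw [← Submodule.coe_norm, ← b.sum_sq_inner_right g]
      refine sum_congr rfl fun i _ => ?_
      simp only [g]
      rw [b.orthonormal.inner_right_fintype]
    have h3 := hW' g g.2 v
    rw [h1, h2] at h3
    have h4 : 0 ≤ ∑ i, (b i : EuclideanSpace ℝ V) v ^ 2 := sum_nonneg fun _ _ => sq_nonneg _
    rcases h4.eq_or_lt with h5 | h5
    · rw [← h5]; exact ha
    · rw [sq] at h3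
      exact le_of_mul_le_mul_right h3 h5
  have h5 : ∑ v, ∑ i, (b i : EuclideanSpace ℝ V) v ^ 2 = finrank ℝ W' := by
    rw [sum_comm, sum_congr rfl (g := fun _ => (1 : ℝ))]
    · simp
    · intro i _
      rw [← EuclideanSpace.real_norm_sq_eq, ← Submodule.coe_norm, b.orthonormal.1 i, one_pow]
  rw [← h5]
  refine (sum_le_sum fun v _ => hv v).trans (le_of_eq ?_)
  simp [mul_comm]

omit [DecidableEq V] in
/-- Imposing zeros on a set costs at most its size in dimension. -/
lemma finrank_le_add (K : Submodule ℝ (V → ℝ)) (S : Finset V) :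
    ∃ W : Submodule ℝ (V → ℝ), (∀ f ∈ W, f ∈ K ∧ ∀ t ∈ S, f t = 0) ∧
      finrank ℝ K ≤ finrank ℝ W + S.card := by
  let π : (V → ℝ) →ₗ[ℝ] (S → ℝ) := LinearMap.funLeft ℝ ℝ Subtype.val
  refine ⟨(LinearMap.ker (π.domRestrict K)).map K.subtype, ?_, ?_⟩
  · rintro _ ⟨f, hf, rfl⟩
    exact ⟨f.2, fun t ht => congrFun (LinearMap.mem_ker.1 hf) ⟨t, ht⟩⟩
  · rw [← (Submodule.equivMapOfInjective _ K.subtype_injective _).finrank_eq,
      ← (π.domRestrict K).finrank_range_add_finrank_ker, add_comm]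
    have := Submodule.finrank_le (LinearMap.range (π.domRestrict K))
    simp only [finrank_fintype_fun_eq_card, Fintype.card_coe] at this
    omega

variable {G : SimpleGraph V} {P : Matrix V V ℝ}

/-- One sphere carries enough mass of a kernel vector. -/
lemma deloc_sphere (hG : G.Connected) (hP : ZM P)
    (hloc : ∀ s t, P s t ≠ 0 → s = t ∨ G.Adj s t) {v : V} {ρ R r : ℕ} (hr1 : 1 ≤ r) (hr : r ≤ R)
    (hΩ : PD P (insert v (pb G v (ρ + R)))) (c : V → Bool) {f : V → ℝ} (hf : P *ᵥ f = 0)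
    (hfc : ∀ t, c t = true → f t = 0) :
    cap P (del (pb G v (ρ + R)) c) v * f v ^ 2
      ≤ ∑ z ∈ univ.filter fun z => G.dist v z = r, cap P (del (pb G z ρ) c) z * f z ^ 2 := by
  set S := univ.filter fun z => G.dist v z = r with hS
  have hmemΩ : ∀ t, G.dist v t ≤ ρ + R → t ∈ insert v (pb G v (ρ + R)) := by
    intro t ht
    by_cases htv : t = v
    · rw [htv]; exact mem_insert_self _ _
    · exact mem_insert_of_mem (mem_pb.2 ⟨htv, ht⟩)
  have hz : ∀ z ∈ S, PD P (del (pb G z ρ) c) := by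
    intro z hz
    refine hΩ.mono fun t ht => hmemΩ t ?_
    have h1 := (mem_pb.1 (del_subset _ _ ht)).2
    have h2 := (mem_filter.1 hz).2
    have h3 := hG.dist_triangle (u := v) (v := z) (w := t)
    omega
  have hzv : ∀ z, z ∉ del (pb G z ρ) c := fun z h => notMem_pb z ρ (del_subset _ _ h)
  let a : V → V → ℝ := fun z t => f z * harm P (del (pb G z ρ) c) z t
  let x : V → ℝ := fun t => √(∑ z ∈ S, a z t ^ 2)
  have hx0 : ∀ t, (c t = true ∨ ρ + R < G.dist v t) → x t = 0 := by
    intro t ht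
    simp only [x]
    rw [sum_eq_zero, Real.sqrt_zero]
    intro z hzS
    by_cases htz : t = z
    · subst htz
      have h2 := (mem_filter.1 hzS).2
      rcases ht with ht | ht
      · simp [a, hfc t ht]
      · omega
    · have : harm P (del (pb G z ρ) c) z t = 0 := by
        refine (harm_spec (hz z hzS) (hzv z)).2.1 t (fun h => ?_) htz
        rw [mem_del, mem_pb] at h
        rcases ht with ht | ht
        · rw [ht] at h; simp at h
        · have h2 := (mem_filter.1 hzS).2
          have h3 := hG.dist_triangle (u := v) (v := z) (w := t)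
          omega
      simp [a, this]
  have hxS : ∀ t ∈ S, |f t| ≤ x t := by
    intro t ht
    refine Real.le_sqrt_of_sq_le ?_
    have := single_le_sum (f := fun z => a z t ^ 2) (fun z _ => sq_nonneg _) ht
    simpa [a, (harm_spec (hz t ht) (hzv t)).1] using this
  let B := univ.filter fun t => G.dist v t < r
  have hB : PD P B := hΩ.mono fun t ht => hmemΩ t (by have := (mem_filter.1 ht).2; omega)
  have h1 := BF_raise hP hB (g := fun t => |f t|) (x := x) (fun s _ => abs_sub hP hf s)
    (fun t ht ⟨s, hs, hst⟩ => hxS t (mem_filter.2 ⟨mem_univ _, by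
      have h1 := (mem_filter.1 hs).2
      have h2 : ¬ G.dist v t < r := fun h => ht (mem_filter.2 ⟨mem_univ _, h⟩)
      have h3 := dist_le_succ hG v (hloc s t hst)
      omega⟩))
  have h2 := BF_sqrt_le hP S a
  have h3 : ∑ z ∈ S, BF P (a z) (a z) = ∑ z ∈ S, cap P (del (pb G z ρ) c) z * f z ^ 2 := by
    refine sum_congr rfl fun z hzS => ?_
    have : a z = f z • harm P (del (pb G z ρ) c) z := rfl
    rw [this, BF_smul_left, BF_smul_right, BF_harm_self (hz z hzS) (hzv z)]
    ring
  have hvU : v ∉ del (pb G v (ρ + R)) c := fun h => notMem_pb v _ (del_subset _ _ h)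
  have hU : PD P (insert v (del (pb G v (ρ + R)) c)) :=
    hΩ.mono (insert_subset_insert _ (del_subset _ _))
  have h4 := cap_le hP (hU.mono (subset_insert _ _)) hvU
    (y := fun t => if t ∈ B then max (x t) |f t| else x t) (fun t ht htv => by
      rw [mem_del, mem_pb] at ht
      by_cases hc : c t = true
      · simp [hx0 t (Or.inl hc), hfc t hc]
      · have hd : ρ + R < G.dist v t := by
          by_contra hd
          exact ht ⟨⟨htv, not_lt.1 hd⟩, by simpa using hc⟩
        have : t ∉ B := fun h => by have := (mem_filter.1 h).2; omega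
        simp [this, hx0 t (Or.inr hd)])
  have hvB : v ∈ B := mem_filter.2 ⟨mem_univ _, by simp; omega⟩
  simp only [hvB, if_true] at h4
  have h5 : f v ^ 2 ≤ max (x v) |f v| ^ 2 := by
    rw [← sq_abs (f v)]
    exact pow_le_pow_left₀ (abs_nonneg _) (le_max_right _ _) 2
  have h6 := mul_le_mul_of_nonneg_left h5 (cap_pos hU hvU).le
  linarith

/-- The bound for a fixed deleted set. -/
lemma finrank_ker_le (hG : G.Connected) (hP : ZM P)
    (hloc : ∀ s t, P s t ≠ 0 → s = t ∨ G.Adj s t) (ρ : ℕ) {R : ℕ} (hR : 1 ≤ R) (c : V → Bool)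
    (N : Finset V) (hN : ∀ v, v ∉ N → PD P (insert v (pb G v (ρ + R)))) :
    (finrank ℝ (LinearMap.ker P.mulVecLin) : ℝ) ≤ 2 / R * Fintype.card V
      + (univ.filter fun t => c t = true).card + N.card
      + ∑ v ∈ univ \ N, 2 / cap P (pb G v ρ) v *
        (cap P (del (pb G v ρ) c) v - cap P (del (pb G v (ρ + R)) c) v) := by
  classical
  let bad := (univ \ N).filter fun v =>
    2 * cap P (del (pb G v (ρ + R)) c) v < cap P (del (pb G v ρ) c) v
  have hpos : ∀ v, v ∉ N → ∀ U ⊆ pb G v (ρ + R), 0 < cap P U v := fun v hv U hU =>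
    cap_pos ((hN v hv).mono (insert_subset_insert _ hU)) fun h => notMem_pb v _ (hU h)
  have hbad : (bad.card : ℝ) ≤ ∑ v ∈ univ \ N, 2 / cap P (pb G v ρ) v *
      (cap P (del (pb G v ρ) c) v - cap P (del (pb G v (ρ + R)) c) v) := by
    rw [card_filter]
    push_cast
    refine sum_le_sum fun v hv => ?_
    have hv' := (mem_sdiff.1 hv).2
    have hΩ := (hN v hv').mono (subset_insert _ _)
    have h1 := hpos v hv' _ (pb_mono v (Nat.le_add_right ρ R))
    have h2 : cap P (pb G v ρ) v ≤ cap P (del (pb G v ρ) c) v :=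
      cap_anti hP (hΩ.mono (pb_mono v (Nat.le_add_right ρ R))) (del_subset _ _) (notMem_pb v ρ)
    have h3 : cap P (del (pb G v (ρ + R)) c) v ≤ cap P (del (pb G v ρ) c) v :=
      cap_anti hP (hΩ.mono (del_subset _ _))
        (filter_subset_filter _ (pb_mono v (Nat.le_add_right ρ R)))
        fun h => notMem_pb v _ (del_subset _ _ h)
    split_ifs with h
    · rw [div_mul_eq_mul_div, le_div_iff₀ h1]
      linarith
    · exact mul_nonneg (by positivity) (by linarith)
  obtain ⟨W, hW, hdim⟩ := finrank_le_add (LinearMap.ker P.mulVecLin)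
    ((univ.filter fun t => c t = true) ∪ N ∪ bad)
  let ω : V → ℝ := fun z => if z ∈ N then 1 else cap P (del (pb G z ρ) c) z
  have hω : ∀ z, 0 < ω z := fun z => by
    simp only [ω]
    split_ifs with h
    · exact one_pos
    · exact hpos z h _ ((del_subset _ _).trans (pb_mono z (Nat.le_add_right ρ R)))
  have hRpos : (0 : ℝ) < R := by exact_mod_cast hR
  have hW' := finrank_le_of_deloc W ω hω (a := 2 / R) (by positivity) fun f hf v => by
    obtain ⟨hf1, hf2⟩ := hW f hf
    have hnn : ∀ z, 0 ≤ ω z * f z ^ 2 := fun z => mul_nonneg (hω z).le (sq_nonneg _)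
    by_cases hv : f v = 0
    · rw [hv]
      simpa using mul_nonneg (by positivity) (sum_nonneg fun z _ => hnn z)
    have hvN : v ∉ N := fun h => hv (hf2 v (by simp [h]))
    have hvb : ¬ 2 * cap P (del (pb G v (ρ + R)) c) v < cap P (del (pb G v ρ) c) v := fun h =>
      hv (hf2 v (mem_union_right _ (mem_filter.2 ⟨by simp [hvN], h⟩)))
    have hω' : ∀ z, cap P (del (pb G z ρ) c) z * f z ^ 2 = ω z * f z ^ 2 := by
      intro z
      by_cases hz : z ∈ N
      · simp [hf2 z (by simp [hz])]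
      · simp [ω, hz]
    have h1 : ∀ r ∈ Icc 1 R, ω v * f v ^ 2
        ≤ 2 * ∑ z ∈ univ.filter fun z => G.dist v z = r, ω z * f z ^ 2 := by
      intro r hr
      have h2 := deloc_sphere hG hP hloc (mem_Icc.1 hr).1 (mem_Icc.1 hr).2 (hN v hvN) c
        (f := f) (LinearMap.mem_ker.1 hf1) fun t ht => hf2 t (by simp [ht])
      simp only [hω'] at h2
      rw [← hω' v]
      nlinarith [mul_le_mul_of_nonneg_right (not_lt.1 hvb) (sq_nonneg (f v))]
    have h2 := sum_le_sum h1
    rw [sum_const, Nat.card_Icc, nsmul_eq_mul, ← mul_sum, sum_fiberwise_eq_sum_filter] at h2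
    have h3 : ∑ z ∈ univ.filter fun z => G.dist v z ∈ Icc 1 R, ω z * f z ^ 2
        ≤ ∑ z, ω z * f z ^ 2 :=
      sum_le_sum_of_subset_of_nonneg (filter_subset _ _) fun z _ _ => hnn z
    rw [div_mul_eq_mul_div, le_div_iff₀ hRpos]
    simp only [add_tsub_cancel_right] at h2
    linarith
  have h1 := (card_union_le ((univ.filter fun t => c t = true) ∪ N) bad).trans
    (Nat.add_le_add_right (card_union_le _ _) _)
  have h2 : (finrank ℝ (LinearMap.ker P.mulVecLin) : ℝ) ≤ finrank ℝ W
      + ((univ.filter fun t => c t = true).card + N.card + bad.card) := by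
    exact_mod_cast hdim.trans (Nat.add_le_add_left h1 _)
  linarith

/-- The bound after averaging over the deleted set. -/
lemma finrank_ker_le' (hG : G.Connected) (hP : ZM P)
    (hloc : ∀ s t, P s t ≠ 0 → s = t ∨ G.Adj s t) (ρ : ℕ) {R : ℕ} (hR : 1 ≤ R) {ε : ℝ}
    (h0 : 0 ≤ ε) (h1 : ε ≤ 1)
    (N : Finset V) (hN : ∀ v, v ∉ N → PD P (insert v (pb G v (ρ + R)))) :
    (finrank ℝ (LinearMap.ker P.mulVecLin) : ℝ)
      ≤ (2 / R + ε + 2 * (1 - ε) ^ ρ) * Fintype.card V + N.card := by
  have h2 := Ex_mono h0 h1 fun c => finrank_ker_le hG hP hloc ρ hR c N hN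
  rw [Ex_const, Ex_add, Ex_add, Ex_add, Ex_const, Ex_const, Ex_card, Ex_sum] at h2
  have h3 : ∑ v ∈ univ \ N, Ex ε (fun c => 2 / cap P (pb G v ρ) v *
      (cap P (del (pb G v ρ) c) v - cap P (del (pb G v (ρ + R)) c) v))
      ≤ ∑ _v : V, 2 * (1 - ε) ^ ρ := by
    refine le_trans (sum_le_sum fun v hv => ?_) (sum_le_sum_of_subset_of_nonneg (subset_univ _)
      fun _ _ _ => mul_nonneg zero_le_two (pow_nonneg (sub_nonneg.2 h1) _))
    have hv' := (mem_sdiff.1 hv).2
    have h4 := Ex_cap_sub_le h0 h1 hG hP hloc (Nat.le_add_right ρ R) (hN v hv')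
    have h5 : 0 < cap P (pb G v ρ) v := cap_pos ((hN v hv').mono
      (insert_subset_insert _ (pb_mono v (Nat.le_add_right ρ R)))) (notMem_pb v ρ)
    rw [Ex_mul, div_mul_eq_mul_div, div_le_iff₀ h5]
    linarith
  simp only [sum_const, card_univ, nsmul_eq_mul] at h3
  linarith

end Pool.Agent.P.MP_1ec91f_co
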