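import Pool.Agent.P.MP_1ec91f_co.Proj

/-!
The initial network on flags (point, direction), two copies joined by a perfect matching.
-/

open Finset Matrix

namespace Pool.Agent.P.MP_1ec91f_co

section Transport

variable {α α' ι κ : Type} [DecidableEq α] [DecidableEq α'] [DecidableEq ι]
  {V : Finset α} {M : α → α → ℝ} {r : ι → α} {A : Finset (ι × ι)} {b : ι → ℕ}

omit [DecidableEq α] [DecidableEq α'] [DecidableEq ι] in
lemma State.map (h : State κ V M r A b) (f : α ↪ α') (g : α' → α) (hg : ∀ x, g (f x) = x) :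
    State κ (V.map f) (fun u v => M (g u) (g v)) (fun i => f (r i)) A b := by
  classical
  have hact : ∀ u v, Act r A u v → Act (fun i => f (r i)) A (f u) (f v) := by
    rintro _ _ ⟨i, j, hij, rfl, rfl⟩
    exact ⟨i, j, hij, rfl, rfl⟩
  refine ⟨⟨fun u v => h.good.symm _ _, ?_, ?_, ?_⟩, f.injective.comp h.inj,
    fun i => mem_map_of_mem f (h.mem i), h.symm, h.irr, fun i j hij => ?_, ?_, ?_⟩
  · obtain ⟨a, ha⟩ := h.good.npos
    refine ⟨fun u => a (g u), fun x hx => ?_⟩
    have := ha (fun u => x (f u)) (by simpa only [sum_map, hg] using hx)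
    simpa only [QF, sum_map, hg] using this
  · obtain ⟨L, l1, l2⟩ := h.good.ker
    refine ⟨(LinearMap.funLeft ℝ ℝ g) ∘ₗ L, fun c hc => l1 c fun v hv => ?_, fun c v hv => ?_⟩
    · simpa [hg] using hc (f v) (mem_map_of_mem f hv)
    · obtain ⟨v, hv', rfl⟩ := mem_map.1 hv
      rw [sum_map, ← l2 c v hv']
      simp [hg]
  · intro u hu v hv
    obtain ⟨u, hu', rfl⟩ := mem_map.1 hu
    obtain ⟨v, hv', rfl⟩ := mem_map.1 hv
    have h3 := h.good.conn u hu' v hv'
    clear hu hv hu' hv'
    induction h3 with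
    | refl => exact Relation.ReflTransGen.refl
    | tail _ hr ih =>
      exact ih.tail ⟨mem_map_of_mem f hr.1, mem_map_of_mem f hr.2.1, f.injective.ne hr.2.2.1,
        by simpa only [hg] using hr.2.2.2⟩
  · simpa only [hg] using h.pos i j hij
  · intro u hu v hv huv
    obtain ⟨u, hu', rfl⟩ := mem_map.1 hu
    obtain ⟨v, hv', rfl⟩ := mem_map.1 hv
    simp only [hg]
    exact (h.unit u hu' v hv' fun e => huv (e ▸ rfl)).imp (hact u v) id
  · obtain ⟨F, f1, f2, f3⟩ := h.deg
    refine ⟨fun u => (F (g u)).map f, fun u hu v hv huv => ?_, fun u => by simpa using f2 _,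
      fun i => by simpa [hg] using f3 i⟩
    obtain ⟨u, hu', rfl⟩ := mem_map.1 hu
    obtain ⟨v, hv', rfl⟩ := mem_map.1 hv
    simp only [hg]
    exact (f1 u hu' v hv' fun e => huv (e ▸ rfl)).imp (hact u v)
      (Or.imp id fun h1 => mem_map_of_mem f h1)

end Transport

variable {F X : Type} [Field F] [Fintype F] [DecidableEq F] [AddCommGroup X] [Module F X]
  [Fintype X] [DecidableEq X]

/-- The matrix on two copies of the flags. -/
noncomputable def flagM (d : F → X) (β : ℝ) : (X × F) ⊕ (X × F) → (X × F) ⊕ (X × F) → ℝ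
  | .inl p, .inl p' => (if p.1 = p'.1 then β else 0) - if p = p' then 3 / 2 else 0
  | .inl p, .inr p' => if p = p' then 1 else 0
  | .inr p, .inl p' => if p = p' then 1 else 0
  | .inr p, .inr p' => (if p.2 = p'.2 then Av F (d p.2) p.1 p'.1 else 0) - if p = p' then 2 else 0

/-- The clique relation on two copies of the flags. -/
def flagC (d : F → X) : (X × F) ⊕ (X × F) → (X × F) ⊕ (X × F) → Prop
  | .inl p, .inl p' => p.1 = p'.1
  | .inl _, .inr _ => False
  | .inr _, .inl _ => False
  | .inr p, .inr p' => p.2 = p'.2 ∧ ∃ s : F, p'.1 = p.1 + s • d p.2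

variable {d : F → X} {β : ℝ} {m : ℕ}

lemma row_inl (v : (X × F) ⊕ (X × F) → ℝ) (x : X) (t : F) :
    ∑ j, flagM d β (.inl (x, t)) j * v j
      = β * ∑ s, v (.inl (x, s)) - 3 / 2 * v (.inl (x, t)) + v (.inr (x, t)) := by
  rw [Fintype.sum_sum_type]
  simp only [flagM, sub_mul, sum_sub_distrib, ite_mul, zero_mul, one_mul, sum_ite_eq, mem_univ,
    if_true]
  rw [Fintype.sum_prod_type, sum_comm]
  simp [mul_sum]

lemma row_inr (v : (X × F) ⊕ (X × F) → ℝ) (x : X) (t : F) :
    ∑ j, flagM d β (.inr (x, t)) j * v j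
      = v (.inl (x, t)) + (Av F (d t) *ᵥ fun y => v (.inr (y, t))) x - 2 * v (.inr (x, t)) := by
  rw [Fintype.sum_sum_type]
  simp only [flagM, sub_mul, sum_sub_distrib, ite_mul, zero_mul, one_mul, sum_ite_eq, mem_univ,
    if_true]
  rw [Fintype.sum_prod_type]
  simp only [sum_ite_eq, mem_univ, if_true, mulVec, dotProduct]
  ring

lemma flag_npos (hd : Spans d m) (v : (X × F) ⊕ (X × F) → ℝ)
    (hv : ∑ x, ∑ t, v (.inl (x, t)) = 0) :
    QF univ (flagM d ((Fintype.card F + m : ℝ)⁻¹)) v ≤ 0 := by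
  set β : ℝ := (Fintype.card F + m : ℝ)⁻¹ with hβ
  have hq : (0 : ℝ) < Fintype.card F + m := by
    have : (0 : ℝ) < Fintype.card F := by exact_mod_cast Fintype.card_pos
    positivity
  let w : F → X → ℝ := fun t x => v (.inl (x, t))
  let z : F → X → ℝ := fun t x => v (.inr (x, t))
  let U : X → ℝ := ∑ t, w t
  have hU : ∀ x, U x = ∑ t, v (.inl (x, t)) := fun x => by simp [U, w]
  have h1 : QF univ (flagM d β) v = β * (U ⬝ᵥ U) + ∑ t, (-(3 / 2) * (w t ⬝ᵥ w t)
      + 2 * (w t ⬝ᵥ z t) + z t ⬝ᵥ (Av F (d t) *ᵥ z t) - 2 * (z t ⬝ᵥ z t)) := by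
    have e1 : β * (U ⬝ᵥ U) = ∑ t, ∑ x, w t x * (β * U x) := by
      rw [sum_comm]
      simp only [dotProduct, mul_sum, ← sum_mul, w, ← hU]
      exact sum_congr rfl fun x _ => by ring
    rw [QF, Fintype.sum_sum_type, Fintype.sum_prod_type_right, Fintype.sum_prod_type_right, e1,
      ← sum_add_distrib, ← sum_add_distrib]
    refine sum_congr rfl fun t _ => ?_
    simp only [row_inl, row_inr, ← hU]
    simp only [dotProduct, mul_sum, ← sum_add_distrib, ← sum_sub_distrib]
    exact sum_congr rfl fun x _ => by simp only [w, z]; ring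
  have h2 := sum_le_sum fun t (_ : t ∈ univ) => sos_ineq (P := fun t => Av F (d t))
    (fun t => Av_adj _) (fun t => Av_idem _) t (w t) (z t) (β • U)
  have h3 := sum_Av_le hd (φ := β • U) (by
    simp only [Pi.smul_apply, smul_eq_mul, ← mul_sum, hU, hv, mul_zero])
  have h4 : ∑ t, w t ⬝ᵥ (β • U) = β * (U ⬝ᵥ U) := by
    rw [← sum_dotProduct, dotProduct_smul, smul_eq_mul]
  have h5 : (Fintype.card F + m : ℝ) * ((β • U) ⬝ᵥ (β • U)) = β * (U ⬝ᵥ U) := by
    rw [dotProduct_smul, smul_dotProduct, smul_eq_mul, smul_eq_mul, hβ]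
    field_simp
  simp only [sum_add_distrib, ← mul_sum, h4, sum_const, card_univ, nsmul_eq_mul] at h2
  rw [h1]
  simp only [sum_add_distrib, sum_sub_distrib, ← mul_sum] at h2 ⊢
  linarith

/-- The kernel vector attached to a hyperplane. -/
noncomputable def flagK (d : F → X) (g : X →ₗ[F] F) : (X × F) ⊕ (X × F) → ℝ
  | .inl p => hyp g p.1 * if g (d p.2) = 0 then 2 else 1
  | .inr p => hyp g p.1 * if g (d p.2) = 0 then 2 else 1 / 2

omit [Fintype X] [DecidableEq X] in
lemma flagK_sum {g : X →ₗ[F] F} {S : Finset F} (hg : ∀ t, g (d t) = 0 ↔ t ∈ S) (x : X) :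
    ∑ t, flagK d g (.inl (x, t)) = hyp g x * (Fintype.card F + S.card) := by
  simp only [flagK, hg, ← mul_sum]
  congr 1
  rw [sum_congr rfl (g := fun t => 1 + if t ∈ S then (1 : ℝ) else 0) fun t _ => by
    split_ifs <;> norm_num]
  simp [sum_add_distrib]

lemma flagK_ker {g : X →ₗ[F] F} {S : Finset F} (hg : ∀ t, g (d t) = 0 ↔ t ∈ S) (i) :
    ∑ j, flagM d ((Fintype.card F + S.card : ℝ)⁻¹) i j * flagK d g j = 0 := by
  have hq : (0 : ℝ) < Fintype.card F + S.card := by
    have : (0 : ℝ) < Fintype.card F := by exact_mod_cast Fintype.card_pos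
    positivity
  rcases i with ⟨x, t⟩ | ⟨x, t⟩
  · rw [row_inl, flagK_sum hg]
    simp only [flagK]
    field_simp
    split_ifs <;> ring
  · rw [row_inr]
    have : (fun y => flagK d g (.inr (y, t))) = (if g (d t) = 0 then 2 else 1 / 2 : ℝ) • hyp g := by
      ext y
      simp [flagK, mul_comm]
    rw [this, mulVec_smul, Av_hyp]
    simp only [flagK]
    split_ifs <;> simp <;> ring

theorem flag_good (hd : Spans d m) (hm : m < Fintype.card F)
    (g : {S : Finset F // S.card = m} → X →ₗ[F] F) (hg : ∀ S t, g S (d t) = 0 ↔ t ∈ S.1) :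
    Good {S : Finset F // S.card = m} univ (flagM d ((Fintype.card F + m : ℝ)⁻¹)) := by
  have hq0 : (1 : ℝ) < Fintype.card F := by exact_mod_cast Fintype.one_lt_card
  have hq : (0 : ℝ) < Fintype.card F + m := by positivity
  refine ⟨?_, ⟨Sum.elim (fun _ => 1) (fun _ => 0), fun v hv => flag_npos hd v ?_⟩, ?_, ?_⟩
  · rintro (p | p) (p' | p') <;> simp only [flagM, eq_comm (a := p), eq_comm (a := p.1)]
    by_cases h : p.2 = p'.2
    · simp [h, Av_symm (d p'.2) p.1]
    · simp [h, Ne.symm h]
  · simpa [Fintype.sum_sum_type, Fintype.sum_prod_type] using hv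
  · refine ⟨Fintype.linearCombination ℝ fun S => flagK d (g S), fun c hc => ?_, fun c i _ => ?_⟩
    · have h1 : ∑ S, c S • hyp (g S) = 0 := by
        ext x
        have h2 : ∑ t, Fintype.linearCombination ℝ (fun S => flagK d (g S)) c (.inl (x, t)) = 0 :=
          sum_eq_zero fun t _ => hc _ (mem_univ _)
        simp only [Fintype.linearCombination_apply, Finset.sum_apply, Pi.smul_apply,
          smul_eq_mul] at h2 ⊢
        rw [sum_comm] at h2
        simp only [← mul_sum] at h2
        rw [sum_congr rfl fun S _ => by rw [flagK_sum (hg S), S.2, ← mul_assoc], ← sum_mul] at h2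
        exact (mul_eq_zero.1 h2).resolve_right hq.ne'
      ext S
      have h2 : hyp (g S) ⬝ᵥ ∑ S, c S • hyp (g S) = c S * (hyp (g S) ⬝ᵥ hyp (g S)) := by
        rw [dotProduct_sum, sum_eq_single S]
        · simp
        · intro S' _ hS
          obtain ⟨t, h3, h4⟩ : ∃ t ∈ S.1, t ∉ S'.1 := by
            by_contra h
            push Not at h
            exact hS (Subtype.ext (eq_of_subset_of_card_le h (by rw [S.2, S'.2])).symm)
          have h5 := Av_adj (F := F) (d t) (hyp (g S)) (hyp (g S'))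
          rw [Av_hyp, Av_hyp, if_neg (mt (hg S' t).1 h4), if_pos ((hg S t).2 h3)] at h5
          simp [← h5]
        · simp
      rw [h1, dotProduct_zero, eq_comm, mul_eq_zero, dotProduct_self_eq_zero] at h2
      refine h2.resolve_right fun h3 => ?_
      have := congrFun h3 0
      simp only [hyp, map_zero, if_true, Pi.zero_apply] at this
      linarith
    · simp only [Fintype.linearCombination_apply, Finset.sum_apply, Pi.smul_apply, smul_eq_mul,
        mul_sum]
      rw [sum_comm]
      refine sum_eq_zero fun S _ => ?_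
      have := flagK_ker (hg S) i
      rw [S.2] at this
      rw [sum_congr rfl fun j _ => mul_left_comm _ _ _, ← mul_sum, this, mul_zero]
  · have h0 : ∀ i j, (i ≠ j → flagM d ((Fintype.card F + m : ℝ)⁻¹) i j ≠ 0) →
        Relation.ReflTransGen (Rel univ (flagM d ((Fintype.card F + m : ℝ)⁻¹))) i j := by
      intro i j h
      by_cases e : i = j
      · rw [e]
      · exact Relation.ReflTransGen.single ⟨mem_univ _, mem_univ _, e, h e⟩
    have h1 : ∀ x t s, Relation.ReflTransGen (Rel univ (flagM d ((Fintype.card F + m : ℝ)⁻¹)))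
        (.inl (x, t)) (.inl (x, s)) := fun x t s => h0 _ _ fun e => by
      have : t ≠ s := fun e' => e (e' ▸ rfl)
      simp [flagM, this, hq.ne']
    have h2 : ∀ p, Relation.ReflTransGen (Rel univ (flagM d ((Fintype.card F + m : ℝ)⁻¹)))
        (.inl p) (.inr p) := fun p => h0 _ _ fun _ => by simp [flagM]
    have h3 : ∀ p, Relation.ReflTransGen (Rel univ (flagM d ((Fintype.card F + m : ℝ)⁻¹)))
        (.inr p) (.inl p) := fun p => h0 _ _ fun _ => by simp [flagM]
    have h4 : ∀ x t (s : F), Relation.ReflTransGen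
        (Rel univ (flagM d ((Fintype.card F + m : ℝ)⁻¹)))
        (.inr (x, t)) (.inr (x + s • d t, t)) := fun x t s => h0 _ _ fun e => by
      have : (x, t) ≠ (x + s • d t, t) := fun e' => e (e' ▸ rfl)
      simp only [flagM, this, if_true, if_false, sub_zero]
      exact (Av_pos ⟨s, rfl⟩).ne'
    have h5 : ∀ (T : Finset F) (c : F → F) x t s, Relation.ReflTransGen
        (Rel univ (flagM d ((Fintype.card F + m : ℝ)⁻¹)))
        (.inl (x, t)) (.inl (x + ∑ t ∈ T, c t • d t, s)) := by
      intro T c x t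
      induction T using Finset.induction_on with
      | empty => simpa using h1 x t
      | insert u T hu ih =>
        intro s
        rw [sum_insert hu, add_comm (c u • d u), ← add_assoc]
        exact ((((ih u).trans (h2 _)).trans (h4 _ u (c u))).trans (h3 _)).trans (h1 _ u s)
    obtain ⟨S, -, hS⟩ := exists_subset_card_eq (s := (univ : Finset F)) (n := m + 1)
      (by rw [card_univ]; omega)
    have h6 : ∀ p p', Relation.ReflTransGen (Rel univ (flagM d ((Fintype.card F + m : ℝ)⁻¹)))
        (.inl p) (.inl p') := by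
      rintro ⟨x, t⟩ ⟨y, s⟩
      obtain ⟨c, hc⟩ := hd S hS (y - x)
      simpa [← hc] using h5 S c x t s
    rintro (p | p) - (p' | p') -
    · exact h6 p p'
    · exact (h6 p p').trans (h2 p')
    · exact (h3 p).trans (h6 p p')
    · exact ((h3 p).trans (h6 p p')).trans (h2 p')

open Classical in
/-- The active pairs. -/
noncomputable def flagA (d : F → X) : Finset (((X × F) ⊕ (X × F)) × ((X × F) ⊕ (X × F))) :=
  univ.filter fun p => p.1 ≠ p.2 ∧ flagC d p.1 p.2

lemma mem_flagA {i j} : (i, j) ∈ flagA d ↔ i ≠ j ∧ flagC d i j := by simp [flagA]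

omit [Fintype X] [Fintype F] [DecidableEq X] [DecidableEq F] in
lemma flagC_eucl {i j l} (h1 : flagC d i j) (h2 : flagC d i l) : flagC d j l := by
  rcases i with p | p <;> rcases j with p' | p' <;> rcases l with p'' | p'' <;>
    simp only [flagC] at h1 h2 ⊢
  · rw [← h1, h2]
  · obtain ⟨h1, s, h3⟩ := h1
    obtain ⟨h2, s', h4⟩ := h2
    refine ⟨by rw [← h1, h2], s' - s, ?_⟩
    rw [h3, h4, ← h1, sub_smul]
    abel

omit [Fintype X] [Fintype F] [DecidableEq X] [DecidableEq F] in
lemma flagC_refl (i) : flagC d i i := by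
  rcases i with p | p <;> simp only [flagC]
  exact ⟨trivial, 0, by simp⟩

lemma flagA_inv (i₀) : Inv (flagA d) i₀ := fun _ _ _ h1 h2 h3 _ _ =>
  mem_flagA.2 ⟨h3, flagC_eucl (mem_flagA.1 h1).2 (mem_flagA.1 h2).2⟩

lemma flagA_card :
    (flagA d).card ≤ 2 * (Fintype.card X * Fintype.card F) * Fintype.card F := by
  let f : ((X × F) ⊕ (X × F)) × F → ((X × F) ⊕ (X × F)) × ((X × F) ⊕ (X × F)) := fun p =>
    (p.1, Sum.map (fun a => (a.1, p.2)) (fun a => (a.1 + p.2 • d a.2, a.2)) p.1)
  have h : flagA d ⊆ univ.image f := by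
    rintro ⟨p | p, p' | p'⟩ h <;> have h1 := (mem_flagA.1 h).2 <;> simp only [flagC] at h1
    · exact mem_image.2 ⟨(.inl p, p'.2), mem_univ _, by simp [f, h1]⟩
    · obtain ⟨h1, s, h2⟩ := h1
      exact mem_image.2 ⟨(.inr p, s), mem_univ _, by simp [f, Prod.ext_iff, h2, h1]⟩
  refine (card_le_card h).trans (card_image_le.trans (le_of_eq ?_))
  simp [two_mul]

theorem flag_state {κ : Type} (hβ : 0 < β) (h : Good κ univ (flagM d β)) :
    State κ univ (flagM d β) id (flagA d) (fun _ => 1) := by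
  have key : ∀ u v, u ≠ v → Act id (flagA d) u v ∨ flagM d β u v = 0 ∨
      (flagM d β u v = 1 ∧ v = u.swap) := by
    intro u v huv
    by_cases h1 : flagC d u v
    · exact Or.inl ⟨u, v, mem_flagA.2 ⟨huv, h1⟩, rfl, rfl⟩
    right
    rcases u with p | p <;> rcases v with p' | p' <;> simp only [flagC] at h1
    · simp [flagM, h1, show p ≠ p' from fun e => huv (e ▸ rfl)]
    · by_cases e : p = p' <;> simp [flagM, e]
    · by_cases e : p = p' <;> simp [flagM, e]
    · left
      simp only [flagM, show p ≠ p' from fun e => huv (e ▸ rfl), if_false, sub_zero]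
      split_ifs with h2
      · exact Av_zero fun h3 => h1 ⟨h2, h3⟩
      · rfl
  refine ⟨h, Function.injective_id, fun _ => mem_univ _, fun i j hij => ?_,
    fun i hi => (mem_flagA.1 hi).1 rfl, fun i j hij => ?_,
    fun u _ v _ huv => (key u v huv).imp id (Or.imp id And.left), fun u => {u.swap},
    fun u _ v _ huv => (key u v huv).imp id (Or.imp id fun h1 => mem_singleton.2 h1.2),
    by simp, by simp⟩
  · rw [mem_flagA] at hij ⊢
    exact ⟨hij.1.symm, flagC_eucl hij.2 (flagC_refl i)⟩
  · obtain ⟨h1, h2⟩ := mem_flagA.1 hij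
    rcases i with p | p <;> rcases j with p' | p' <;> simp only [flagC] at h2
    · simpa [flagM, h2, show p ≠ p' from fun e => h1 (e ▸ rfl)] using hβ
    · simp only [id, flagM, show p ≠ p' from fun e => h1 (e ▸ rfl), if_false, sub_zero,
        if_pos h2.1]
      exact Av_pos h2.2

/-- The network of maximum degree three. -/
theorem flag_final (hd : Spans d m) (hm : m < Fintype.card F)
    (g : {S : Finset F // S.card = m} → X →ₗ[F] F) (hg : ∀ S t, g S (d t) = 0 ↔ t ∈ S.1) :
    ∃ (V : Finset (((X × F) ⊕ (X × F)) ⊕ ℕ)) (M : _ → _ → ℝ),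
      Final {S : Finset F // S.card = m} V M ∧ 2 ≤ V.card ∧
      V.card ≤ 8 * Fintype.card X * Fintype.card F ^ 2 := by
  have hq0 : 1 < Fintype.card F := Fintype.one_lt_card
  have hq : (0 : ℝ) < Fintype.card F + m := by positivity
  have hX : 0 < Fintype.card X := Fintype.card_pos
  have h1 := (flag_state (inv_pos.2 hq) (flag_good hd hm g hg)).map
    (Function.Embedding.inl (β := ℕ)) (Sum.elim id fun _ => .inl (0, 0)) fun _ => rfl
  obtain ⟨V, M, h2, h3, h4⟩ := reduce _ _ _ _ _ (.inl (0, 0)) flagA_card (flagA_inv _) h1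
  simp only [card_map, card_univ, Fintype.card_sum, Fintype.card_prod] at h3 h4
  refine ⟨V, M, h2, by nlinarith, h4.trans ?_⟩
  nlinarith [Nat.mul_le_mul_left (Fintype.card X * Fintype.card F) hq0.le]

end Pool.Agent.P.MP_1ec91f_co
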