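import Mathlib

/-!
Potential theory for symmetric matrices with nonpositive off-diagonal entries: maximum principle,
harmonic functions, capacities.
-/

open Finset Matrix

namespace Pool.Agent.P.MP_1ec91f_co

variable {V : Type*} [Fintype V] [DecidableEq V]

/-- Symmetric with nonpositive off-diagonal entries. -/
structure ZM (P : Matrix V V ℝ) : Prop where
  symm : ∀ s t, P s t = P t s
  off : ∀ s t, s ≠ t → P s t ≤ 0

/-- The bilinear form of `P`. -/
def BF (P : Matrix V V ℝ) (x y : V → ℝ) : ℝ := x ⬝ᵥ (P *ᵥ y)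

/-- Positive definiteness on vectors supported in `U`. -/
def PD (P : Matrix V V ℝ) (U : Finset V) : Prop :=
  ∀ x : V → ℝ, (∀ t, t ∉ U → x t = 0) → x ≠ 0 → 0 < BF P x x

variable {P : Matrix V V ℝ}

omit [DecidableEq V] in
lemma BF_eq (x y : V → ℝ) : BF P x y = ∑ s, x s * (P *ᵥ y) s := rfl

omit [DecidableEq V] in
lemma mulVec_eq (y : V → ℝ) (s : V) : (P *ᵥ y) s = ∑ t, P s t * y t := rfl

omit [DecidableEq V] in
lemma BF_comm (hP : ZM P) (x y : V → ℝ) : BF P x y = BF P y x := by
  simp only [BF_eq, mulVec_eq, mul_sum]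
  rw [sum_comm]
  refine sum_congr rfl fun s _ => sum_congr rfl fun t _ => ?_
  rw [hP.symm t s]
  ring

omit [DecidableEq V] in
lemma BF_add_left (x y z : V → ℝ) : BF P (x + y) z = BF P x z + BF P y z := by
  simp [BF]

omit [DecidableEq V] in
lemma BF_add_right (x y z : V → ℝ) : BF P x (y + z) = BF P x y + BF P x z := by
  simp [BF, mulVec_add]

omit [DecidableEq V] in
lemma BF_smul_left (c : ℝ) (x y : V → ℝ) : BF P (c • x) y = c * BF P x y := by
  simp [BF]

omit [DecidableEq V] in
lemma BF_smul_right (c : ℝ) (x y : V → ℝ) : BF P x (c • y) = c * BF P x y := by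
  simp [BF, mulVec_smul]

omit [DecidableEq V] in
lemma PD.mono {U U' : Finset V} (h : PD P U') (hU : U ⊆ U') : PD P U :=
  fun x hx => h x fun t ht => hx t fun h' => ht (hU h')

omit [DecidableEq V] in
lemma PD.nonneg {U : Finset V} (h : PD P U) {x : V → ℝ} (hx : ∀ t, t ∉ U → x t = 0) :
    0 ≤ BF P x x := by
  by_cases h0 : x = 0
  · simp [h0, BF]
  · exact (h x hx h0).le

/-- Maximum principle. -/
lemma maxp (hP : ZM P) {U : Finset V} (hU : PD P U) {φ : V → ℝ}
    (h1 : ∀ t ∈ U, (P *ᵥ φ) t ≤ 0) (h2 : ∀ t, t ∉ U → (∃ s ∈ U, P s t ≠ 0) → φ t ≤ 0) :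
    ∀ t ∈ U, φ t ≤ 0 := by
  let ψ : V → ℝ := fun t => if t ∈ U then max (φ t) 0 else 0
  have hψ : ψ = 0 := by
    by_contra hne
    have hpos := hU ψ (fun t ht => if_neg ht) hne
    refine absurd hpos (not_lt.2 ?_)
    rw [BF_eq]
    refine sum_nonpos fun s _ => ?_
    by_cases hs : s ∈ U ∧ 0 < φ s
    · have e : ψ s = φ s := by simp [ψ, hs.1, hs.2.le]
      rw [e]
      refine mul_nonpos_of_nonneg_of_nonpos hs.2.le (le_trans ?_ (h1 s hs.1))
      rw [mulVec_eq, mulVec_eq]
      refine sum_le_sum fun t _ => ?_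
      by_cases hst : s = t
      · subst hst; rw [e]
      · by_cases h0 : P s t = 0
        · simp [h0]
        · refine mul_le_mul_of_nonpos_left ?_ (hP.off s t hst)
          by_cases ht : t ∈ U
          · simp [ψ, ht]
          · simpa [ψ, ht] using h2 t ht ⟨s, hs.1, h0⟩
    · have e : ψ s = 0 := by
        by_cases h : s ∈ U
        · have : φ s ≤ 0 := not_lt.1 fun h' => hs ⟨h, h'⟩
          simp [ψ, h, this]
        · simp [ψ, h]
      simp [e]
  intro t ht
  have := congrFun hψ t
  simp only [ψ, ht, if_true, Pi.zero_apply] at this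
  exact (le_max_left _ _).trans this.le

/-- `h` is the harmonic function on `U` with value one at `v` and zero elsewhere. -/
def IsHarm (P : Matrix V V ℝ) (U : Finset V) (v : V) (h : V → ℝ) : Prop :=
  h v = 1 ∧ (∀ t, t ∉ U → t ≠ v → h t = 0) ∧ ∀ t ∈ U, (P *ᵥ h) t = 0

lemma exists_harm {U : Finset V} (hU : PD P U) {v : V} (hv : v ∉ U) : ∃ h, IsHarm P U v h := by
  let L : (V → ℝ) →ₗ[ℝ] (V → ℝ) :=
    { toFun := fun x t => if t ∈ U then (P *ᵥ x) t else x t
      map_add' := fun x y => by
        ext t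
        by_cases ht : t ∈ U <;> simp [ht, mulVec_add]
      map_smul' := fun c x => by
        ext t
        by_cases ht : t ∈ U <;> simp [ht, mulVec_smul] }
  have hinj : Function.Injective L := by
    rw [injective_iff_map_eq_zero]
    intro x hx
    by_contra hne
    have h1 : ∀ t, t ∉ U → x t = 0 := fun t ht => by simpa [L, ht] using congrFun hx t
    have h2 : ∀ t ∈ U, (P *ᵥ x) t = 0 := fun t ht => by simpa [L, ht] using congrFun hx t
    have := hU x h1 hne
    rw [BF_eq, sum_eq_zero] at this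
    · exact lt_irrefl _ this
    · intro s _
      by_cases hs : s ∈ U
      · rw [h2 s hs, mul_zero]
      · rw [h1 s hs, zero_mul]
  obtain ⟨h, hh⟩ := LinearMap.injective_iff_surjective.1 hinj (Pi.single v 1)
  refine ⟨h, ?_, fun t ht htv => ?_, fun t ht => ?_⟩
  · simpa [L, hv] using congrFun hh v
  · simpa [L, ht, htv] using congrFun hh t
  · have : t ≠ v := fun e => hv (e ▸ ht)
    simpa [L, ht, this] using congrFun hh t

/-- A chosen harmonic function. -/
noncomputable def harm (P : Matrix V V ℝ) (U : Finset V) (v : V) : V → ℝ :=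
  Classical.epsilon (IsHarm P U v)

/-- The capacity of `v` relative to `U`. -/
noncomputable def cap (P : Matrix V V ℝ) (U : Finset V) (v : V) : ℝ := (P *ᵥ harm P U v) v

lemma harm_spec {U : Finset V} (hU : PD P U) {v : V} (hv : v ∉ U) :
    IsHarm P U v (harm P U v) :=
  Classical.epsilon_spec (exists_harm hU hv)

lemma harm_nonneg (hP : ZM P) {U : Finset V} (hU : PD P U) {v : V} (hv : v ∉ U) (t : V) :
    0 ≤ harm P U v t := by
  obtain ⟨h1, h2, h3⟩ := harm_spec hU hv
  have hout : ∀ t, t ∉ U → 0 ≤ harm P U v t := by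
    intro t ht
    by_cases htv : t = v
    · rw [htv, h1]; exact zero_le_one
    · rw [h2 t ht htv]
  by_cases ht : t ∈ U
  · have := maxp hP hU (φ := -harm P U v) (fun s hs => by simp [mulVec_neg, h3 s hs])
      (fun s hs _ => by simpa using hout s hs) t ht
    simpa using this
  · exact hout t ht

lemma harm_mono (hP : ZM P) {U U' : Finset V} (hU' : PD P U') (hUU : U ⊆ U') {v : V}
    (hv : v ∉ U') (t : V) : harm P U v t ≤ harm P U' v t := by
  have hU := hU'.mono hUU
  have hv' : v ∉ U := fun h => hv (hUU h)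
  obtain ⟨h1, h2, h3⟩ := harm_spec hU hv'
  obtain ⟨h1', h2', h3'⟩ := harm_spec hU' hv
  have hout : ∀ t, t ∉ U → harm P U v t ≤ harm P U' v t := by
    intro t ht
    by_cases htv : t = v
    · rw [htv, h1, h1']
    · rw [h2 t ht htv]
      exact harm_nonneg hP hU' hv t
  by_cases ht : t ∈ U
  · have := maxp hP hU (φ := harm P U v - harm P U' v)
      (fun s hs => by simp [mulVec_sub, h3 s hs, h3' s (hUU hs)])
      (fun s hs _ => by simpa using hout s hs) t ht
    simpa using this
  · exact hout t ht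

/-- Pairing a vector supported in `U` and `v` with the harmonic function. -/
lemma BF_harm {U : Finset V} (hU : PD P U) {v : V} (hv : v ∉ U) {y : V → ℝ}
    (hy : ∀ t, t ∉ U → t ≠ v → y t = 0) : BF P y (harm P U v) = y v * cap P U v := by
  obtain ⟨-, -, h3⟩ := harm_spec hU hv
  rw [BF_eq, sum_eq_single v]
  · rfl
  · intro s _ hs
    by_cases hsU : s ∈ U
    · rw [h3 s hsU, mul_zero]
    · rw [hy s hsU hs, zero_mul]
  · simp

lemma BF_harm_self {U : Finset V} (hU : PD P U) {v : V} (hv : v ∉ U) :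
    BF P (harm P U v) (harm P U v) = cap P U v := by
  rw [BF_harm hU hv (harm_spec hU hv).2.1, (harm_spec hU hv).1, one_mul]

/-- Dirichlet principle. -/
lemma cap_le (hP : ZM P) {U : Finset V} (hU : PD P U) {v : V} (hv : v ∉ U) {y : V → ℝ}
    (hy : ∀ t, t ∉ U → t ≠ v → y t = 0) : cap P U v * y v ^ 2 ≤ BF P y y := by
  obtain ⟨h1, h2, -⟩ := harm_spec hU hv
  have hz : ∀ t, t ∉ U → (y + (-y v) • harm P U v) t = 0 := by
    intro t ht
    by_cases htv : t = v
    · simp [htv, h1]
    · simp [hy t ht htv, h2 t ht htv]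
  have := hU.nonneg hz
  rw [BF_add_left, BF_add_right, BF_add_right, BF_smul_left, BF_smul_right, BF_smul_left,
    BF_smul_right, BF_comm hP (harm P U v) y, BF_harm hU hv hy, BF_harm_self hU hv] at this
  nlinarith

lemma cap_pos {U : Finset V} {v : V} (hU : PD P (insert v U)) (hv : v ∉ U) : 0 < cap P U v := by
  have hU' := hU.mono (subset_insert v U)
  obtain ⟨h1, h2, -⟩ := harm_spec hU' hv
  rw [← BF_harm_self hU' hv]
  refine hU _ (fun t ht => ?_) fun h => ?_
  · rw [mem_insert, not_or] at ht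
    exact h2 t ht.2 ht.1
  · have := congrFun h v
    rw [h1] at this
    simp at this

lemma cap_anti (hP : ZM P) {U U' : Finset V} (hU' : PD P U') (hUU : U ⊆ U') {v : V}
    (hv : v ∉ U') : cap P U' v ≤ cap P U v := by
  have hU := hU'.mono hUU
  have hv' : v ∉ U := fun h => hv (hUU h)
  obtain ⟨h1, h2, -⟩ := harm_spec hU hv'
  have := cap_le hP hU' hv (y := harm P U v) fun t ht htv => h2 t (fun h => ht (hUU h)) htv
  rwa [h1, BF_harm_self hU hv', one_pow, mul_one] at this

/-- The difference of two capacities. -/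
lemma cap_sub (hP : ZM P) {U U' : Finset V} (hU' : PD P U') (hUU : U ⊆ U') {v : V}
    (hv : v ∉ U') :
    cap P U v - cap P U' v = ∑ t ∈ U' \ U, harm P U' v t * ∑ s, -P t s * harm P U v s := by
  have hU := hU'.mono hUU
  have hv' : v ∉ U := fun h => hv (hUU h)
  obtain ⟨h1, h2, h3⟩ := harm_spec hU hv'
  obtain ⟨h1', h2', -⟩ := harm_spec hU' hv
  have e1 := BF_harm hU' hv (y := harm P U v) fun t ht htv => h2 t (fun h => ht (hUU h)) htv
  rw [h1, one_mul, BF_comm hP, BF_eq,
    ← sum_subset (s₁ := insert v (U' \ U)) (subset_univ _), sum_insert (by simp [hv]), h1',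
    one_mul] at e1
  · rw [← e1]
    simp only [neg_mul, sum_neg_distrib, mul_neg, cap, mulVec_eq]
    ring
  · intro t _ ht
    simp only [mem_insert, mem_sdiff, not_or, not_and, not_not] at ht
    by_cases htU' : t ∈ U'
    · rw [h3 t (ht.2 htU'), mul_zero]
    · rw [h2' t htU' ht.1, zero_mul]

omit [DecidableEq V] in
/-- The quadratic form of an `l²` combination. -/
lemma BF_sqrt_le (hP : ZM P) {ι : Type*} (S : Finset ι) (a : ι → V → ℝ) :
    BF P (fun t => √(∑ i ∈ S, a i t ^ 2)) (fun t => √(∑ i ∈ S, a i t ^ 2))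
      ≤ ∑ i ∈ S, BF P (a i) (a i) := by
  simp only [BF_eq, mulVec_eq, mul_sum]
  rw [sum_comm (s := S)]
  refine sum_le_sum fun s _ => ?_
  rw [sum_comm (s := S)]
  refine sum_le_sum fun t _ => ?_
  have e : ∑ i ∈ S, a i s * (P s t * a i t) = P s t * ∑ i ∈ S, a i s * a i t := by
    rw [mul_sum]
    exact sum_congr rfl fun i _ => by ring
  rw [e, mul_left_comm]
  by_cases hst : s = t
  · subst hst
    rw [Real.mul_self_sqrt (sum_nonneg fun i _ => sq_nonneg _)]
    simp only [sq, le_refl]
  · exact mul_le_mul_of_nonpos_left (Real.sum_mul_le_sqrt_mul_sqrt S _ _) (hP.off s t hst)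

omit [DecidableEq V] in
/-- The absolute value of a kernel vector is a subsolution. -/
lemma abs_sub (hP : ZM P) {f : V → ℝ} (hf : P *ᵥ f = 0) (s : V) :
    (P *ᵥ fun t => |f t|) s ≤ 0 := by
  classical
  have h0 := congrFun hf s
  rw [mulVec_eq, ← add_sum_erase _ _ (mem_univ s), Pi.zero_apply] at h0
  rw [mulVec_eq, ← add_sum_erase _ _ (mem_univ s)]
  have h1 : P s s * |f s| ≤ |∑ t ∈ univ.erase s, P s t * f t| := by
    have : ∑ t ∈ univ.erase s, P s t * f t = -(P s s * f s) := by linarith
    rw [this, abs_neg, abs_mul]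
    exact mul_le_mul_of_nonneg_right (le_abs_self _) (abs_nonneg _)
  have h2 : |∑ t ∈ univ.erase s, P s t * f t| ≤ -∑ t ∈ univ.erase s, P s t * |f t| := by
    refine (abs_sum_le_sum_abs _ _).trans (le_of_eq ?_)
    rw [← sum_neg_distrib]
    refine sum_congr rfl fun t ht => ?_
    rw [abs_mul, abs_of_nonpos (hP.off s t (ne_of_mem_erase ht).symm), neg_mul]
  linarith

/-- Raising a test function above a subsolution on `B` does not increase the energy. -/
lemma BF_raise (hP : ZM P) {B : Finset V} (hB : PD P B) {g x : V → ℝ}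
    (hg : ∀ s ∈ B, (P *ᵥ g) s ≤ 0) (hx : ∀ t, t ∉ B → (∃ s ∈ B, P s t ≠ 0) → g t ≤ x t) :
    BF P (fun t => if t ∈ B then max (x t) (g t) else x t)
      (fun t => if t ∈ B then max (x t) (g t) else x t) ≤ BF P x x := by
  let ψ : V → ℝ := fun t => if t ∈ B then max (g t - x t) 0 else 0
  have hψ0 : ∀ t, 0 ≤ ψ t := fun t => by
    simp only [ψ]
    split_ifs <;> simp
  have e : (fun t => if t ∈ B then max (x t) (g t) else x t) = x + ψ := by
    ext t
    by_cases ht : t ∈ B
    · simp only [ht, if_true, Pi.add_apply, ψ]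
      rcases le_total (x t) (g t) with h | h
      · rw [max_eq_right h, max_eq_left (sub_nonneg.2 h)]; ring
      · rw [max_eq_left h, max_eq_right (sub_nonpos.2 h)]; ring
    · simp [ht, ψ]
  have h1 : 0 ≤ BF P ψ ψ := hB.nonneg fun t ht => if_neg ht
  have h2 : BF P ψ (x + ψ) ≤ 0 := by
    rw [BF_eq]
    refine sum_nonpos fun s _ => ?_
    by_cases hs : s ∈ B ∧ x s < g s
    · refine mul_nonpos_of_nonneg_of_nonpos (hψ0 s) (le_trans ?_ (hg s hs.1))
      rw [mulVec_eq, mulVec_eq]
      refine sum_le_sum fun t _ => ?_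
      by_cases hst : s = t
      · subst hst
        have : (x + ψ) s = g s := by
          simp [ψ, hs.1, max_eq_left (sub_nonneg.2 hs.2.le)]
        rw [this]
      · by_cases h0 : P s t = 0
        · simp [h0]
        · refine mul_le_mul_of_nonpos_left ?_ (hP.off s t hst)
          rw [← e]
          by_cases ht : t ∈ B
          · simp [ht]
          · simpa [ht] using hx t ht ⟨s, hs.1, h0⟩
    · have : ψ s = 0 := by
        by_cases h : s ∈ B
        · have : g s - x s ≤ 0 := sub_nonpos.2 (not_lt.1 fun h' => hs ⟨h, h'⟩)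
          simp [ψ, h, this]
        · simp [ψ, h]
      simp [this]
  rw [e, BF_add_left, BF_add_right, BF_comm hP x ψ]
  rw [BF_add_right] at h2
  rw [BF_add_right]
  linarith

end Pool.Agent.P.MP_1ec91f_co
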