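import Pool.Agent.P.MP_1ec91f_co.Flag

/-!
The lower bound: directions on the moment curve and the choice of parameters.
-/

open Finset Matrix

namespace Pool.Agent.P.MP_1ec91f_co

section Moment

variable {F : Type} [Field F] [DecidableEq F] {m : ℕ}

/-- The moment curve. -/
def mom (m : ℕ) (t : F) : Fin (m + 1) → F := fun i => t ^ (i : ℕ)

lemma mom_spans [Fintype F] : Spans (mom (F := F) m) m := by
  intro S hS v
  let e : Fin (m + 1) ≃ S := (equivFinOfCardEq hS).symm
  have he : Function.Injective fun i => (e i : F) := Subtype.val_injective.comp e.injective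
  have hdet := Matrix.det_vandermonde_ne_zero_iff.2 he
  have hu : IsUnit (vandermonde fun i => (e i : F)) :=
    (isUnit_iff_isUnit_det _).2 (isUnit_iff_ne_zero.2 hdet)
  obtain ⟨c, hc⟩ := vecMul_surjective_iff_isUnit.2 hu v
  refine ⟨fun t => if h : t ∈ S then c (e.symm ⟨t, h⟩) else 0, ?_⟩
  rw [← sum_coe_sort, ← Equiv.sum_comp e, ← hc]
  ext j
  simp [vecMul, dotProduct, mom, vandermonde_apply]

lemma mom_fun (S : Finset F) (hS : S.card = m) :
    ∃ g : (Fin (m + 1) → F) →ₗ[F] F, ∀ t, g (mom m t) = 0 ↔ t ∈ S := by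
  let p : Polynomial F := ∏ s ∈ S, (Polynomial.X - Polynomial.C s)
  have hp : p.natDegree < m + 1 := by
    rw [Polynomial.natDegree_finsetProd_X_sub_C_eq_card, hS]
    omega
  refine ⟨∑ i : Fin (m + 1), p.coeff i • LinearMap.proj i, fun t => ?_⟩
  have h1 : (∑ i : Fin (m + 1), p.coeff i • LinearMap.proj i : (Fin (m + 1) → F) →ₗ[F] F)
      (mom m t) = p.eval t := by
    rw [Polynomial.eval_eq_sum_range' hp, sum_range]
    simp [mom]
  rw [h1]
  simp [p, Polynomial.eval_prod, prod_eq_zero_iff, sub_eq_zero]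

end Moment

theorem graph_prime {q m n : ℕ} (hq : q.Prime) (hm : 1 ≤ m) (hmq : m < q)
    (hn : 8 * q ^ (m + 3) ≤ n) :
    ∃ (G : SimpleGraph (Fin n)) (_ : DecidableRel G.Adj) (D : Fin n → ℝ), G.Connected ∧
      G.maxDegree ≤ 3 ∧ q.choose m ≤ (diagonal D + G.adjMatrix ℝ).charpoly.roots.count
        (((diagonal D + G.adjMatrix ℝ).charpoly.roots.sort (· ≥ ·)).getD 1 0) := by
  haveI : Fact q.Prime := ⟨hq⟩
  have hc : Fintype.card (ZMod q) = q := ZMod.card q
  choose g hg using fun S : {S : Finset (ZMod q) // S.card = m} => mom_fun S.1 S.2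
  obtain ⟨V, M, h1, h2, h3⟩ := flag_final (mom_spans (F := ZMod q) (m := m)) (by omega) g hg
  rw [Fintype.card_fun, hc, Fintype.card_fin, mul_assoc, ← pow_add] at h3
  obtain ⟨V', M', h4, h5⟩ := h1.pad_to h2 (h3.trans hn)
  have h6 : Fintype.card {S : Finset (ZMod q) // S.card = m} = q.choose m := by
    rw [Fintype.card_finset_len, hc]
  have h7 : 2 ≤ q.choose m := by
    have := Nat.choose_le_choose m (show m + 1 ≤ q from hmq)
    rw [Nat.choose_succ_self_right] at this
    omega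
  rw [← h6] at h7 ⊢
  exact h4.graph h5 (h2.trans (h3.trans hn)) h7

theorem choose_prime {m n : ℕ} (hm : 1 ≤ m) (hn : 8 * (4 * m) ^ (m + 3) ≤ n) :
    ∃ q : ℕ, q.Prime ∧ m < q ∧ 8 * q ^ (m + 3) ≤ n ∧
      n ≤ 8 * (4 * m) ^ (m + 3) * q ^ 3 * q.choose m := by
  classical
  have hb : ∀ a : ℕ, 8 * a ^ (m + 3) ≤ n → a ≤ n := fun a ha => by
    have := Nat.le_self_pow (show m + 3 ≠ 0 by omega) a
    omega
  let a := Nat.findGreatest (fun a => 8 * a ^ (m + 3) ≤ n) n
  have h1 : 8 * a ^ (m + 3) ≤ n :=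
    Nat.findGreatest_spec (P := fun a => 8 * a ^ (m + 3) ≤ n) (hb _ hn) hn
  have h2 : 4 * m ≤ a := Nat.le_findGreatest (hb _ hn) hn
  obtain ⟨q, hq, h3, h4⟩ := Nat.exists_prime_lt_and_le_two_mul (a / 2) (by omega)
  have h5 : n < 8 * (2 * q) ^ (m + 3) := by
    by_contra h
    push Not at h
    have : 2 * q ≤ a := Nat.le_findGreatest (hb _ h) h
    omega
  refine ⟨q, hq, by omega, le_trans (by gcongr; omega) h1, h5.le.trans ?_⟩
  have h6 : q ^ m ≤ (2 * m) ^ m * q.choose m := by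
    have h7 := Nat.pow_sub_le_descFactorial q m
    rw [Nat.descFactorial_eq_factorial_mul_choose] at h7
    calc q ^ m ≤ (2 * (q + 1 - m)) ^ m := by gcongr; omega
      _ = 2 ^ m * (q + 1 - m) ^ m := mul_pow _ _ _
      _ ≤ 2 ^ m * (m ^ m * q.choose m) := by
        gcongr
        exact h7.trans (Nat.mul_le_mul_right _ (Nat.factorial_le_pow m))
      _ = _ := by rw [mul_pow, mul_assoc]
  calc 8 * (2 * q) ^ (m + 3) = 8 * 2 ^ (m + 3) * q ^ 3 * q ^ m := by ring
    _ ≤ 8 * 2 ^ (m + 3) * q ^ 3 * ((2 * m) ^ (m + 3) * q.choose m) := by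
      gcongr
      exact h6.trans (by gcongr <;> omega)
    _ = _ := by
      rw [show 4 * m = 2 * (2 * m) by ring, mul_pow 2 (2 * m)]
      ring

theorem choose_param : ∃ N : ℕ, ∀ n : ℕ, N ≤ n → ∃ m q : ℕ, q.Prime ∧ 1 ≤ m ∧ m < q ∧
    8 * q ^ (m + 3) ≤ n ∧
    n * Real.exp (-11 * √(Real.log n * Real.log (Real.log n))) ≤ q.choose m := by
  have e1 : ∀ᶠ L : ℝ in Filter.atTop, 64 ≤ L ∧ 64 * Real.log L ≤ L := by
    refine (Filter.eventually_ge_atTop 64).and ?_
    filter_upwards [Real.isLittleO_log_id_atTop.def (c := 1 / 64) (by norm_num),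
      Filter.eventually_ge_atTop 0] with L h1 h2
    have := le_abs_self (Real.log L)
    simp only [Real.norm_eq_abs, id, abs_of_nonneg h2] at h1
    linarith
  obtain ⟨N, hN⟩ := Filter.eventually_atTop.1
    (((Real.tendsto_log_atTop.comp tendsto_natCast_atTop_atTop).eventually e1).and
      (Filter.eventually_ge_atTop 1))
  refine ⟨N, fun n hn => ?_⟩
  obtain ⟨⟨h1, h2⟩, h3⟩ := hN n hn
  simp only [Function.comp] at h1 h2
  have hn0 : (0 : ℝ) < n := by exact_mod_cast h3
  set L := Real.log n with hL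
  have hl : 1 ≤ Real.log L := by
    rw [Real.le_log_iff_exp_le (by linarith)]
    linarith [Real.exp_one_lt_d9]
  set l := Real.log L with hl'
  set u := √(L / l) with hu
  have hu2 : u * u = L / l := Real.mul_self_sqrt (by positivity)
  have hu3 : u * u * l = L := by rw [hu2]; field_simp
  have hu8 : 8 ≤ u := by
    apply Real.le_sqrt_of_sq_le
    rw [le_div_iff₀ (by linarith)]
    linarith
  have hs : √(L * l) = u * l := by
    rw [Real.sqrt_eq_iff_mul_self_eq (by positivity) (by positivity), ← hu3]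
    ring
  let m := ⌈u⌉₊
  have m1 : u ≤ m := Nat.le_ceil u
  have m2 : (m : ℝ) < u + 1 := Nat.ceil_lt_add_one (by linarith)
  have m3 : 1 ≤ m := by exact_mod_cast (show (1 : ℝ) ≤ m by linarith)
  have k1 : (8 * (4 * m) ^ (m + 3) : ℝ) ≤ Real.exp (8 * (u * l)) := by
    have a1 : (4 * m : ℝ) ≤ Real.exp l := by
      rw [hl', Real.exp_log (by linarith)]
      nlinarith
    have a2 : (8 : ℝ) ≤ Real.exp (u * l) := by
      have := Real.add_one_le_exp (u * l)
      nlinarith
    calc (8 * (4 * m) ^ (m + 3) : ℝ) ≤ Real.exp (u * l) * Real.exp l ^ (m + 3) := by gcongr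
      _ = Real.exp (u * l + (m + 3 : ℕ) * l) := by rw [Real.exp_add, Real.exp_nat_mul]
      _ ≤ _ := by
        apply Real.exp_le_exp.2
        push_cast
        nlinarith
  have k2 : 8 * (4 * m) ^ (m + 3) ≤ n := by
    have : Real.exp (8 * (u * l)) ≤ n := by
      rw [← Real.exp_log hn0, ← hL, ← hu3]
      apply Real.exp_le_exp.2
      nlinarith [mul_nonneg (sub_nonneg.2 hu8) (show 0 ≤ u * l by positivity)]
    exact_mod_cast k1.trans this
  obtain ⟨q, hq, q1, q2, q3⟩ := choose_prime m3 k2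
  refine ⟨m, q, hq, m3, q1, q2, ?_⟩
  have hq0 : (1 : ℝ) ≤ q := by exact_mod_cast hq.one_le
  have k3 : (q : ℝ) ≤ Real.exp (u * l) := by
    rw [← Real.log_le_iff_le_exp (by linarith)]
    have a1 : ((q : ℝ)) ^ m ≤ n := by
      have : q ^ m ≤ q ^ (m + 3) := Nat.pow_le_pow_right hq.pos (by omega)
      exact_mod_cast (show q ^ m ≤ n by omega)
    have a2 := Real.log_le_log (by positivity) a1
    rw [Real.log_pow, ← hL, ← hu3] at a2
    have a3 := Real.log_nonneg hq0
    have a4 : u * Real.log q ≤ u * (u * l) := by nlinarith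
    exact le_of_mul_le_mul_left a4 (by linarith)
  have k4 : (n : ℝ) ≤ 8 * (4 * m) ^ (m + 3) * q ^ 3 * q.choose m := by exact_mod_cast q3
  have k5 : (n : ℝ) ≤ Real.exp (11 * (u * l)) * q.choose m := by
    refine k4.trans ?_
    rw [show 11 * (u * l) = 8 * (u * l) + (3 : ℕ) * (u * l) by push_cast; ring, Real.exp_add,
      Real.exp_nat_mul]
    gcongr
  rw [hs, neg_mul, Real.exp_neg, ← div_eq_mul_inv, div_le_iff₀ (Real.exp_pos _), mul_comm]
  exact k5

theorem lower : ∃ N : ℕ, ∀ n : ℕ, N ≤ n →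
    ∃ (G : SimpleGraph (Fin n)) (_ : DecidableRel G.Adj) (D : Fin n → ℝ), G.Connected ∧
      G.maxDegree ≤ 3 ∧ n * Real.exp (-11 * √(Real.log n * Real.log (Real.log n)))
        ≤ ((diagonal D + G.adjMatrix ℝ).charpoly.roots.count
          (((diagonal D + G.adjMatrix ℝ).charpoly.roots.sort (· ≥ ·)).getD 1 0) : ℕ) := by
  obtain ⟨N, hN⟩ := choose_param
  refine ⟨N, fun n hn => ?_⟩
  obtain ⟨m, q, hq, h1, h2, h3, h4⟩ := hN n hn
  obtain ⟨G, i, D, g1, g2, g3⟩ := graph_prime hq h1 h2 h3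
  exact ⟨G, i, D, g1, g2, h4.trans (by exact_mod_cast g3)⟩

end Pool.Agent.P.MP_1ec91f_co
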