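import Pool.Agent.P.MP_1ec91f_co.Split

/-!
Commuting projections, and averaging along lines in a finite vector space.
-/

open Finset Matrix

namespace Pool.Agent.P.MP_1ec91f_co

section Abstract

variable {X T : Type} [Fintype X] [DecidableEq T] {P : T → Matrix X X ℝ}

theorem sum_proj_le (hs : ∀ t f g, f ⬝ᵥ (P t *ᵥ g) = (P t *ᵥ f) ⬝ᵥ g)
    (hi : ∀ t f, P t *ᵥ (P t *ᵥ f) = P t *ᵥ f)
    (hc : ∀ s t f, P s *ᵥ (P t *ᵥ f) = P t *ᵥ (P s *ᵥ f)) (I : Finset T) :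
    ∀ (j : ℕ) (φ : X → ℝ), (∀ S ⊆ I, S.card = j → ∀ ψ : X → ℝ, (∀ t ∈ S, P t *ᵥ ψ = ψ) →
      ψ ⬝ᵥ φ = 0) → ∑ t ∈ I, φ ⬝ᵥ (P t *ᵥ φ) + φ ⬝ᵥ φ ≤ j * (φ ⬝ᵥ φ) := by
  have hz : ∀ (I : Finset T) (φ : X → ℝ), (∀ S ⊆ I, S.card = 0 → ∀ ψ : X → ℝ,
      (∀ t ∈ S, P t *ᵥ ψ = ψ) → ψ ⬝ᵥ φ = 0) →
      ∑ t ∈ I, φ ⬝ᵥ (P t *ᵥ φ) + φ ⬝ᵥ φ ≤ (0 : ℕ) * (φ ⬝ᵥ φ) := by
    intro I φ h
    have h0 : φ = 0 := dotProduct_self_eq_zero.1 (h ∅ (empty_subset _) rfl φ (by simp))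
    simp [h0]
  induction I using Finset.induction_on with
  | empty =>
    intro j φ h
    rcases j with _ | j
    · exact hz ∅ φ h
    · have : 0 ≤ φ ⬝ᵥ φ := sum_nonneg fun x _ => mul_self_nonneg _
      have h2 : (0 : ℝ) ≤ j := Nat.cast_nonneg j
      rw [sum_empty]
      push_cast
      nlinarith [mul_nonneg h2 this]
  | insert s I hsI ih =>
    intro j φ h
    rcases j with _ | j
    · exact hz _ φ h
    have h1 := ih j (P s *ᵥ φ) fun S hS hj ψ hψ => by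
      rw [hs]
      refine h (insert s S) (insert_subset_insert _ hS)
        (by rw [card_insert_of_notMem fun h => hsI (hS h), hj]) _ fun t ht => ?_
      rcases mem_insert.1 ht with rfl | ht'
      · exact hi _ _
      · rw [hc, hψ t ht']
    have h2 := ih (j + 1) (φ - P s *ᵥ φ) fun S hS hj ψ hψ => by
      have hS' : S ⊆ insert s I := hS.trans (subset_insert _ _)
      rw [dotProduct_sub, hs, h S hS' hj ψ hψ,
        h S hS' hj _ fun t ht => by rw [hc, hψ t ht], sub_zero]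
    have h3 : ∀ t, φ ⬝ᵥ (P t *ᵥ φ) = (P s *ᵥ φ) ⬝ᵥ (P t *ᵥ (P s *ᵥ φ))
        + (φ - P s *ᵥ φ) ⬝ᵥ (P t *ᵥ (φ - P s *ᵥ φ)) := by
      intro t
      have e1 : (P s *ᵥ φ) ⬝ᵥ (P t *ᵥ (P s *ᵥ φ)) = φ ⬝ᵥ (P t *ᵥ (P s *ᵥ φ)) := by
        rw [← hs, hc, hi]
      have e2 : (P s *ᵥ φ) ⬝ᵥ (P t *ᵥ φ) = φ ⬝ᵥ (P t *ᵥ (P s *ᵥ φ)) := by
        rw [← hs, hc]
      rw [mulVec_sub, sub_dotProduct, dotProduct_sub, dotProduct_sub, e1, e2]
      ring
    have h4 : (P s *ᵥ φ) ⬝ᵥ (P s *ᵥ φ) = φ ⬝ᵥ (P s *ᵥ φ) := by rw [← hs, hi]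
    have h5 : φ ⬝ᵥ φ = (P s *ᵥ φ) ⬝ᵥ (P s *ᵥ φ) + (φ - P s *ᵥ φ) ⬝ᵥ (φ - P s *ᵥ φ) := by
      rw [sub_dotProduct, dotProduct_sub, dotProduct_sub, h4, dotProduct_comm (P s *ᵥ φ) φ]
      ring
    rw [sum_insert hsI, sum_congr rfl fun t _ => h3 t, sum_add_distrib, ← h4]
    push_cast at h2 ⊢
    rw [h5]
    linarith

omit [DecidableEq T] in
theorem sos_ineq (hs : ∀ t f g, f ⬝ᵥ (P t *ᵥ g) = (P t *ᵥ f) ⬝ᵥ g)
    (hi : ∀ t f, P t *ᵥ (P t *ᵥ f) = P t *ᵥ f) (t : T) (w z l : X → ℝ) :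
    -(3 / 2) * (w ⬝ᵥ w) + 2 * (w ⬝ᵥ z) + z ⬝ᵥ (P t *ᵥ z) - 2 * (z ⬝ᵥ z)
      ≤ -2 * (w ⬝ᵥ l) + l ⬝ᵥ l + l ⬝ᵥ (P t *ᵥ l) := by
  have p0 : ∀ f : X → ℝ, 0 ≤ f ⬝ᵥ f := fun f => sum_nonneg fun x _ => mul_self_nonneg _
  have p1 : ∀ f : X → ℝ, 0 ≤ f ⬝ᵥ (P t *ᵥ f) := fun f => by
    rw [← hi, hs]
    exact p0 _
  have p2 : ∀ f : X → ℝ, f ⬝ᵥ (P t *ᵥ f) ≤ f ⬝ᵥ f := fun f => by
    have := p0 (f - P t *ᵥ f)
    rw [sub_dotProduct, dotProduct_sub, dotProduct_sub, ← hs, ← hs, hi] at this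
    linarith
  have c1 : ∀ f g : X → ℝ, f ⬝ᵥ (P t *ᵥ g) = g ⬝ᵥ (P t *ᵥ f) := fun f g => by
    rw [hs, dotProduct_comm]
  have a1 := p1 (w - z)
  have a2 := p1 (w - (2 : ℝ) • l)
  have a3 := p2 (w - (2 : ℝ) • z)
  have a4 := p2 (w - l)
  simp only [mulVec_sub, mulVec_smul, sub_dotProduct, dotProduct_sub, smul_dotProduct,
    dotProduct_smul, smul_eq_mul, c1 z w, c1 l w, dotProduct_comm z w, dotProduct_comm l w]
    at a1 a2 a3 a4
  linarith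

end Abstract

variable {F X : Type} [Field F] [Fintype F] [AddCommGroup X] [Module F X] [Fintype X]
  [DecidableEq X]

variable (F) in
/-- Averaging along the direction `v`. -/
noncomputable def Av (v : X) : Matrix X X ℝ :=
  fun x y => (∑ s : F, if y = x + s • v then 1 else 0) / Fintype.card F

lemma Av_mulVec (v : X) (f : X → ℝ) (x : X) :
    (Av F v *ᵥ f) x = (∑ s : F, f (x + s • v)) / Fintype.card F := by
  simp only [mulVec, dotProduct, Av, div_mul_eq_mul_div, ← sum_div, sum_mul]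
  rw [sum_comm]
  simp

omit [Fintype X] in
lemma Av_symm (v x y : X) : Av F v x y = Av F v y x := by
  unfold Av
  rw [← Equiv.sum_comp (Equiv.neg F)]
  congr 1
  refine sum_congr rfl fun s _ => if_congr ?_ rfl rfl
  simp only [Equiv.neg_apply, neg_smul]
  constructor <;> rintro rfl <;> simp

omit [Fintype X] in
lemma Av_pos {v x y : X} (h : ∃ s : F, y = x + s • v) : 0 < Av F v x y := by
  obtain ⟨s, hs⟩ := h
  refine div_pos (sum_pos' (fun s _ => by positivity) ⟨s, mem_univ _, by simp [hs]⟩) ?_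
  exact_mod_cast Fintype.card_pos

omit [Fintype X] in
lemma Av_zero {v x y : X} (h : ¬ ∃ s : F, y = x + s • v) : Av F v x y = 0 := by
  push Not at h
  simp [Av, h]

lemma Av_adj (v : X) (f g : X → ℝ) : f ⬝ᵥ (Av F v *ᵥ g) = (Av F v *ᵥ f) ⬝ᵥ g := by
  rw [dotProduct_mulVec, ← mulVec_transpose]
  congr 2
  ext x y
  exact Av_symm _ _ _

lemma Av_inv (v : X) (f : X → ℝ) (x : X) (s : F) :
    (Av F v *ᵥ f) (x + s • v) = (Av F v *ᵥ f) x := by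
  rw [Av_mulVec, Av_mulVec, ← Equiv.sum_comp (Equiv.addLeft s) (fun s' => f (x + s' • v))]
  simp [add_smul, add_assoc]

lemma Av_fix {v : X} {f : X → ℝ} (h : ∀ x (s : F), f (x + s • v) = f x) : Av F v *ᵥ f = f := by
  ext x
  have : (Fintype.card F : ℝ) ≠ 0 := by exact_mod_cast Fintype.card_ne_zero
  simp [Av_mulVec, h, this]

lemma Av_idem (v : X) (f : X → ℝ) : Av F v *ᵥ (Av F v *ᵥ f) = Av F v *ᵥ f :=
  Av_fix (Av_inv v f)

lemma Av_comm (u v : X) (f : X → ℝ) : Av F u *ᵥ (Av F v *ᵥ f) = Av F v *ᵥ (Av F u *ᵥ f) := by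
  ext x
  simp only [Av_mulVec, ← sum_div]
  rw [sum_comm]
  simp only [add_right_comm]

/-- Any `m + 1` of the directions span the space. -/
def Spans (d : F → X) (m : ℕ) : Prop :=
  ∀ S : Finset F, S.card = m + 1 → ∀ v : X, ∃ c : F → F, v = ∑ t ∈ S, c t • d t

theorem sum_Av_le [DecidableEq F] {d : F → X} {m : ℕ} (hd : Spans d m) {φ : X → ℝ}
    (h : ∑ x, φ x = 0) : ∑ t, φ ⬝ᵥ (Av F (d t) *ᵥ φ) ≤ m * (φ ⬝ᵥ φ) := by
  have := sum_proj_le (P := fun t => Av F (d t)) (fun t => Av_adj _) (fun t => Av_idem _)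
    (fun s t => Av_comm _ _) univ (m + 1) φ fun S _ hS ψ hψ => by
      have h1 : ∀ T ⊆ S, ∀ c : F → F, ψ (∑ t ∈ T, c t • d t) = ψ 0 := by
        intro T hT c
        induction T using Finset.induction_on with
        | empty => simp
        | insert t T ht ih =>
          rw [sum_insert ht, add_comm, ← hψ t (hT (mem_insert_self _ _)), Av_inv,
            hψ t (hT (mem_insert_self _ _)), ih ((subset_insert _ _).trans hT)]
      have h2 : ∀ x, ψ x = ψ 0 := fun x => by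
        obtain ⟨c, rfl⟩ := hd S hS x
        exact h1 S subset_rfl c
      simp only [dotProduct]
      rw [sum_congr rfl fun x _ => by rw [h2 x], ← mul_sum, h, mul_zero]
  push_cast at this
  linarith

/-- The centred indicator of a hyperplane. -/
noncomputable def hyp [DecidableEq F] (g : X →ₗ[F] F) (x : X) : ℝ :=
  (if g x = 0 then (Fintype.card F : ℝ) else 0) - 1

lemma Av_hyp [DecidableEq F] (g : X →ₗ[F] F) (v : X) :
    Av F v *ᵥ hyp g = if g v = 0 then hyp g else 0 := by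
  split_ifs with h
  · exact Av_fix fun x s => by simp [hyp, h]
  · ext x
    have h1 : ∀ s : F, g (x + s • v) = 0 ↔ s = -g x / g v := fun s => by
      rw [map_add, map_smul, smul_eq_mul, eq_div_iff h]
      constructor <;> intro h2 <;> linear_combination h2
    simp only [Av_mulVec, hyp, h1]
    simp

end Pool.Agent.P.MP_1ec91f_co
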