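import Pool.Agent.P.MP_1ec91f_co.Harm

/-!
Random deletion of vertices: excursions that leave a ball rarely survive.
-/

open Finset Matrix

namespace Pool.Agent.P.MP_1ec91f_co

variable {V : Type*} [Fintype V] [DecidableEq V]

/-- The product weight of a configuration. -/
noncomputable def wt (ε : ℝ) (c : V → Bool) : ℝ := ∏ t, if c t = true then ε else 1 - ε

/-- Expectation under the product weight. -/
noncomputable def Ex (ε : ℝ) (F : (V → Bool) → ℝ) : ℝ := ∑ c, wt ε c * F c

variable {ε : ℝ}

omit [DecidableEq V] in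
lemma wt_nonneg (h0 : 0 ≤ ε) (h1 : ε ≤ 1) (c : V → Bool) : 0 ≤ wt ε c :=
  prod_nonneg fun t _ => by split_ifs <;> linarith

lemma sum_wt : ∑ c : V → Bool, wt ε c = 1 := by
  have := Finset.prod_univ_sum (fun _ : V => (univ : Finset Bool))
    (fun _ b => if b = true then ε else 1 - ε)
  simp only [Fintype.piFinset_univ] at this
  unfold wt
  rw [← this]
  simp

lemma Ex_const (a : ℝ) : Ex ε (fun _ : V → Bool => a) = a := by
  unfold Ex
  rw [← sum_mul, sum_wt, one_mul]

lemma Ex_mono (h0 : 0 ≤ ε) (h1 : ε ≤ 1) {F F' : (V → Bool) → ℝ} (h : ∀ c, F c ≤ F' c) :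
    Ex ε F ≤ Ex ε F' :=
  sum_le_sum fun c _ => mul_le_mul_of_nonneg_left (h c) (wt_nonneg h0 h1 c)

lemma Ex_add (F F' : (V → Bool) → ℝ) : Ex ε (fun c => F c + F' c) = Ex ε F + Ex ε F' := by
  simp [Ex, mul_add, sum_add_distrib]

lemma Ex_mul (a : ℝ) (F : (V → Bool) → ℝ) : Ex ε (fun c => a * F c) = a * Ex ε F := by
  simp only [Ex, mul_sum]
  exact sum_congr rfl fun c _ => by ring

lemma Ex_sum {ι : Type*} (S : Finset ι) (F : ι → (V → Bool) → ℝ) :
    Ex ε (fun c => ∑ i ∈ S, F i c) = ∑ i ∈ S, Ex ε (F i) := by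
  simp only [Ex, mul_sum]
  rw [sum_comm]

/-- Independence of one coordinate from a function that ignores it. -/
lemma Ex_indep (t : V) {F : (V → Bool) → ℝ} (hF : ∀ c b, F (Function.update c t b) = F c) :
    Ex ε (fun c => if c t = true then 0 else F c) = (1 - ε) * Ex ε F := by
  let flip : (V → Bool) → (V → Bool) := fun c => Function.update c t (!c t)
  have hinv : Function.Involutive flip := by
    intro c
    ext s
    by_cases hs : s = t
    · subst hs; simp [flip]
    · simp [flip, Function.update_of_ne hs]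
  have hw : ∀ c : V → Bool, wt ε c = (if c t = true then ε else 1 - ε) *
      ∏ s ∈ univ.erase t, if c s = true then ε else 1 - ε := fun c =>
    (mul_prod_erase _ (fun s => if c s = true then ε else 1 - ε) (mem_univ t)).symm
  have hA : (1 - ε) * ∑ c, wt ε c * (if c t = true then F c else 0)
      = ε * ∑ c, wt ε c * (if c t = true then 0 else F c) := by
    rw [← Equiv.sum_comp hinv.toPerm, mul_sum, mul_sum]
    refine sum_congr rfl fun c _ => ?_
    have e1 : ∏ s ∈ univ.erase t, (if flip c s = true then ε else 1 - ε)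
        = ∏ s ∈ univ.erase t, if c s = true then ε else 1 - ε :=
      prod_congr rfl fun s hs => by simp [flip, Function.update_of_ne (ne_of_mem_erase hs)]
    have e2 : flip c t = !c t := by simp [flip]
    have e3 : F (flip c) = F c := hF c _
    simp only [Function.Involutive.coe_toPerm]
    rw [hw (flip c), hw c, e1, e2, e3]
    cases c t <;> simp
    ring
  have hB : Ex ε F = ∑ c, wt ε c * (if c t = true then F c else 0)
      + ∑ c, wt ε c * (if c t = true then 0 else F c) := by
    rw [← sum_add_distrib]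
    refine sum_congr rfl fun c _ => ?_
    split_ifs <;> simp
  rw [hB, mul_add, hA]
  unfold Ex
  ring

lemma Ex_card : Ex ε (fun c : V → Bool => ((univ.filter fun t => c t = true).card : ℝ))
    = ε * Fintype.card V := by
  have h1 : ∀ t : V, Ex ε (fun c : V → Bool => if c t = true then (1 : ℝ) else 0) = ε := by
    intro t
    have h2 := Ex_indep (ε := ε) t (F := fun _ => 1) fun _ _ => rfl
    have h3 := Ex_add (ε := ε) (fun c : V → Bool => if c t = true then (1 : ℝ) else 0)
      (fun c => if c t = true then 0 else 1)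
    have h4 : (fun c : V → Bool => (if c t = true then (1 : ℝ) else 0)
        + if c t = true then 0 else 1) = fun _ => 1 := by
      ext c; split_ifs <;> simp
    rw [h4, h2, Ex_const] at h3
    linarith
  simp only [card_filter, Nat.cast_sum, Nat.cast_ite, Nat.cast_one, Nat.cast_zero]
  rw [Ex_sum]
  simp [h1, mul_comm]

variable {G : SimpleGraph V} {P : Matrix V V ℝ}

variable (G) in
/-- The punctured ball. -/
noncomputable def pb (v : V) (r : ℕ) : Finset V := univ.filter fun t => t ≠ v ∧ G.dist v t ≤ r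

/-- The vertices of `U` that are not deleted. -/
def del (U : Finset V) (c : V → Bool) : Finset V := U.filter fun t => c t = false

lemma mem_pb {v t : V} {r : ℕ} : t ∈ pb G v r ↔ t ≠ v ∧ G.dist v t ≤ r := by simp [pb]

omit [Fintype V] [DecidableEq V] in
lemma mem_del {U : Finset V} {c : V → Bool} {t : V} : t ∈ del U c ↔ t ∈ U ∧ c t = false := by
  simp [del]

omit [Fintype V] [DecidableEq V] in
lemma del_subset (U : Finset V) (c : V → Bool) : del U c ⊆ U := filter_subset _ _

lemma notMem_pb (v : V) (r : ℕ) : v ∉ pb G v r := by simp [mem_pb]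

lemma pb_mono (v : V) {r r' : ℕ} (h : r ≤ r') : pb G v r ⊆ pb G v r' := fun _ ht =>
  mem_pb.2 ⟨(mem_pb.1 ht).1, (mem_pb.1 ht).2.trans h⟩

omit [Fintype V] [DecidableEq V] in
lemma dist_le_succ (hG : G.Connected) (v : V) {s t : V} (h : s = t ∨ G.Adj s t) :
    G.dist v t ≤ G.dist v s + 1 := by
  rcases h with rfl | h
  · omega
  · have := hG.dist_triangle (u := v) (v := s) (w := t)
    rwa [SimpleGraph.dist_eq_one_iff_adj.2 h] at this

/-- The survival probability of a walk to the centre decays geometrically. -/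
lemma Ex_harm_le (h0 : 0 ≤ ε) (h1 : ε ≤ 1) (hG : G.Connected) (hP : ZM P)
    (hloc : ∀ s t, P s t ≠ 0 → s = t ∨ G.Adj s t) {v : V} {B : Finset V} (hB : PD P B)
    (hv : v ∉ B) (i : ℕ) : ∀ s, i ≤ G.dist v s →
      Ex ε (fun c => harm P (B.filter fun t => c t = false ∨ i < G.dist v t) v s)
        ≤ (1 - ε) ^ i * harm P B v s := by
  have hsub : ∀ (c : V → Bool) (i : ℕ), (B.filter fun t => c t = false ∨ i < G.dist v t) ⊆ B :=
    fun _ _ => filter_subset _ _
  induction i with
  | zero =>
    intro s _
    have : ∀ c : V → Bool, (B.filter fun t => c t = false ∨ 0 < G.dist v t) = B := by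
      intro c
      refine filter_true_of_mem fun t ht => Or.inr (hG.pos_dist_of_ne ?_)
      rintro rfl
      exact hv ht
    simp [this, Ex_const]
  | succ i ih =>
    let U := B.filter fun t => i + 1 < G.dist v t
    have hU : PD P U := hB.mono (filter_subset _ _)
    let φ : V → ℝ := fun s =>
      Ex ε (fun c => harm P (B.filter fun t => c t = false ∨ i + 1 < G.dist v t) v s)
        - (1 - ε) ^ (i + 1) * harm P B v s
    have hout : ∀ t, t ∉ U → i + 1 ≤ G.dist v t → φ t ≤ 0 := by
      intro t ht hd
      have htv : t ≠ v := by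
        rintro rfl
        simp at hd
      by_cases htB : t ∈ B
      · have hd' : G.dist v t = i + 1 := by
          have : ¬ i + 1 < G.dist v t := fun h => ht (mem_filter.2 ⟨htB, h⟩)
          omega
        have h2 : Ex ε (fun c => harm P (B.filter fun t => c t = false ∨ i + 1 < G.dist v t) v t)
            ≤ Ex ε (fun c => if c t = true then 0 else
              harm P (B.filter fun t => c t = false ∨ i < G.dist v t) v t) := by
          refine Ex_mono h0 h1 fun c => ?_
          split_ifs with hc
          · refine le_of_eq ((harm_spec (hB.mono (hsub c _)) fun h => hv (hsub c _ h)).2.1 t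
              ?_ htv)
            simp [hc, hd']
          · refine harm_mono hP (hB.mono (hsub c _)) (fun s hs => ?_) (fun h => hv (hsub c _ h)) t
            rw [mem_filter] at hs ⊢
            exact ⟨hs.1, hs.2.imp id fun h => by omega⟩
        rw [Ex_indep t] at h2
        · have h3 := mul_le_mul_of_nonneg_left (ih t (by omega)) (sub_nonneg.2 h1)
          simp only [φ]
          rw [pow_succ]
          linarith
        · intro c b
          congr 1
          refine filter_congr fun s _ => ?_
          by_cases hs : s = t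
          · subst hs
            simp [hd']
          · rw [Function.update_of_ne hs]
      · have h2 : ∀ c : V → Bool,
            harm P (B.filter fun t => c t = false ∨ i + 1 < G.dist v t) v t = 0 := fun c =>
          (harm_spec (hB.mono (hsub c _)) fun h => hv (hsub c _ h)).2.1 t
            (fun h => htB (hsub c _ h)) htv
        simp only [φ, h2, Ex_const, (harm_spec hB hv).2.1 t htB htv]
        simp
    have hin := maxp hP hU (φ := φ) (fun t ht => ?_) (fun t ht ⟨s, hs, hst⟩ => hout t ht ?_)
    · intro s hs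
      by_cases hsU : s ∈ U
      · exact sub_nonpos.1 (hin s hsU)
      · exact sub_nonpos.1 (hout s hsU hs)
    · have h2 : (P *ᵥ φ) t = Ex ε (fun c =>
          (P *ᵥ harm P (B.filter fun t => c t = false ∨ i + 1 < G.dist v t) v) t)
          - (1 - ε) ^ (i + 1) * (P *ᵥ harm P B v) t := by
        simp only [mulVec_eq, φ, mul_sub, sum_sub_distrib]
        rw [Ex_sum, mul_sum]
        congr 1
        · exact sum_congr rfl fun s _ => (Ex_mul _ _).symm
        · exact sum_congr rfl fun s _ => by ring
      have h3 : ∀ c : V → Bool,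
          (P *ᵥ harm P (B.filter fun t => c t = false ∨ i + 1 < G.dist v t) v) t = 0 := fun c =>
        (harm_spec (hB.mono (hsub c _)) fun h => hv (hsub c _ h)).2.2 t
          (mem_filter.2 ⟨(mem_filter.1 ht).1, Or.inr (mem_filter.1 ht).2⟩)
      rw [h2]
      simp only [h3, Ex_const, (harm_spec hB hv).2.2 t (mem_filter.1 ht).1]
      simp
    · have h2 := (mem_filter.1 hs).2
      have h3 := dist_le_succ hG v (s := t) (t := s) ((hloc s t hst).imp Eq.symm fun h => h.symm)
      omega

/-- The expected drop of capacity between two radii after random deletion. -/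
lemma Ex_cap_sub_le (h0 : 0 ≤ ε) (h1 : ε ≤ 1) (hG : G.Connected) (hP : ZM P)
    (hloc : ∀ s t, P s t ≠ 0 → s = t ∨ G.Adj s t) {v : V} {ρ L : ℕ} (hρ : ρ ≤ L)
    (hΩ : PD P (insert v (pb G v L))) :
    Ex ε (fun c => cap P (del (pb G v ρ) c) v - cap P (del (pb G v L) c) v)
      ≤ (1 - ε) ^ ρ * cap P (pb G v ρ) v := by
  have hΩ' : PD P (pb G v L) := hΩ.mono (subset_insert _ _)
  have hsub : pb G v ρ ⊆ pb G v L := pb_mono v hρ
  have hB : PD P (pb G v ρ) := hΩ'.mono hsub
  have hterm : ∀ {U : Finset V}, U ⊆ pb G v ρ → ∀ t ∈ pb G v L \ pb G v ρ, ∀ s,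
      0 ≤ -P t s * harm P U v s := by
    intro U hU t ht s
    have hv : v ∉ U := fun h => notMem_pb v ρ (hU h)
    by_cases hst : t = s
    · subst hst
      rw [(harm_spec (hB.mono hU) hv).2.1 t (fun h => (mem_sdiff.1 ht).2 (hU h))
        (mem_pb.1 (mem_sdiff.1 ht).1).1, mul_zero]
    · exact mul_nonneg (neg_nonneg.2 (hP.off t s hst)) (harm_nonneg hP (hB.mono hU) hv s)
  have h2 : ∀ c, cap P (del (pb G v ρ) c) v - cap P (del (pb G v L) c) v
      ≤ ∑ t ∈ pb G v L \ pb G v ρ, harm P (pb G v L) v t *
        ∑ s, -P t s * harm P (del (pb G v ρ) c) v s := by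
    intro c
    have hv : v ∉ del (pb G v L) c := fun h => notMem_pb v L (del_subset _ _ h)
    have hss : del (pb G v L) c \ del (pb G v ρ) c ⊆ pb G v L \ pb G v ρ := by
      intro t ht
      rw [mem_sdiff, mem_del, mem_del] at ht
      exact mem_sdiff.2 ⟨ht.1.1, fun h => ht.2 ⟨h, ht.1.2⟩⟩
    have hdd : del (pb G v ρ) c ⊆ del (pb G v L) c := filter_subset_filter _ hsub
    rw [cap_sub hP (hΩ'.mono (del_subset _ _)) hdd hv]
    refine le_trans (sum_le_sum fun t ht => ?_) (sum_le_sum_of_subset_of_nonneg hss fun t ht _ =>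
      mul_nonneg (harm_nonneg hP hΩ' (notMem_pb v L) t)
        (sum_nonneg fun s _ => hterm (del_subset _ _) t ht s))
    exact mul_le_mul_of_nonneg_right (harm_mono hP hΩ' (del_subset _ _) (notMem_pb v L) t)
      (sum_nonneg fun s _ => hterm (del_subset _ _) t (hss ht) s)
  refine (Ex_mono h0 h1 h2).trans ?_
  have h3 := cap_sub hP hΩ' hsub (notMem_pb v L)
  have h4 := cap_pos hΩ (notMem_pb v L)
  have h5 : (1 - ε) ^ ρ * (cap P (pb G v ρ) v - cap P (pb G v L) v)
      ≤ (1 - ε) ^ ρ * cap P (pb G v ρ) v :=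
    mul_le_mul_of_nonneg_left (by linarith) (pow_nonneg (sub_nonneg.2 h1) _)
  refine le_trans ?_ h5
  rw [h3, Ex_sum, mul_sum]
  refine sum_le_sum fun t ht => ?_
  rw [Ex_mul, mul_left_comm]
  refine mul_le_mul_of_nonneg_left ?_ (harm_nonneg hP hΩ' (notMem_pb v L) t)
  rw [Ex_sum, mul_sum]
  refine sum_le_sum fun s _ => ?_
  rw [Ex_mul, mul_left_comm]
  by_cases hts : P t s = 0
  · simp [hts]
  have hd : ρ < G.dist v t := by
    have := mem_sdiff.1 ht
    rw [mem_pb, mem_pb] at this
    exact not_le.1 fun h => this.2 ⟨this.1.1, h⟩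
  have hds := dist_le_succ hG v (s := s) (t := t) ((hloc t s hts).imp Eq.symm fun h => h.symm)
  have h6 := Ex_harm_le h0 h1 hG hP hloc hB (notMem_pb v ρ) ρ s (by omega)
  have h7 : ∀ c : V → Bool, ((pb G v ρ).filter fun t => c t = false ∨ ρ < G.dist v t)
      = del (pb G v ρ) c := fun c => filter_congr fun s hs => by
    have := (mem_pb.1 hs).2
    exact ⟨fun h => h.resolve_right (by omega), Or.inl⟩
  simp only [h7] at h6
  by_cases hst : t = s
  · subst hst
    have htv := (mem_pb.1 (mem_sdiff.1 ht).1).1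
    have e1 : ∀ c, harm P (del (pb G v ρ) c) v t = 0 := fun c =>
      (harm_spec (hB.mono (del_subset _ _)) fun h => notMem_pb v ρ (del_subset _ _ h)).2.1 t
        (fun h => (mem_sdiff.1 ht).2 (del_subset _ _ h)) htv
    have e2 := (harm_spec hB (notMem_pb v ρ)).2.1 t (mem_sdiff.1 ht).2 htv
    simp [e1, e2, Ex_const]
  · exact mul_le_mul_of_nonneg_left h6 (neg_nonneg.2 (hP.off t s hst))

end Pool.Agent.P.MP_1ec91f_co
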