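import Pool.Agent.P.MP_1ec91f_co.Harm

/-!
The second eigenvalue of a real symmetric matrix, its multiplicity and the inertia.
-/

open Finset Matrix Module

namespace Pool.Agent.P.MP_1ec91f_co

variable {V : Type*} [Fintype V] [DecidableEq V] {M : Matrix V V ℝ} (hM : M.IsHermitian)

lemma exists_diag : ∃ U : Matrix V V ℝ, Uᵀ * U = 1 ∧ U * Uᵀ = 1 ∧
    M = U * diagonal hM.eigenvalues * Uᵀ := by
  refine ⟨(hM.eigenvectorUnitary : Matrix V V ℝ), ?_, ?_, ?_⟩
  · simpa [star_eq_conjTranspose] using Unitary.coe_star_mul_self hM.eigenvectorUnitary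
  · simpa [star_eq_conjTranspose] using Unitary.coe_mul_star_self hM.eigenvectorUnitary
  · have := hM.spectral_theorem
    rw [Unitary.conjStarAlgAut_apply] at this
    simpa [star_eq_conjTranspose] using this

lemma shift_eq {U : Matrix V V ℝ} (h2 : U * Uᵀ = 1) {μ : V → ℝ} (h3 : M = U * diagonal μ * Uᵀ)
    (l : ℝ) : l • (1 : Matrix V V ℝ) - M = U * diagonal (fun i => l - μ i) * Uᵀ := by
  have : diagonal (fun i => l - μ i) = l • (1 : Matrix V V ℝ) - diagonal μ := by
    ext i j
    by_cases h : i = j <;> simp [h]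
  rw [this, Matrix.mul_sub, Matrix.sub_mul, ← h3]
  simp [h2]

lemma BF_diag (U : Matrix V V ℝ) (ν : V → ℝ) (x : V → ℝ) :
    BF (U * diagonal ν * Uᵀ) x x = ∑ i, ν i * (Uᵀ *ᵥ x) i ^ 2 := by
  unfold BF
  rw [← mulVec_mulVec, ← mulVec_mulVec, dotProduct_mulVec, ← mulVec_transpose]
  simp only [dotProduct, mulVec_diagonal]
  exact sum_congr rfl fun i _ => by ring

lemma card_eig (l : ℝ) : (univ.filter fun i => hM.eigenvalues₀ i = l).card
    = (univ.filter fun i => hM.eigenvalues i = l).card := by
  symm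
  refine card_bijective _ (Fintype.equivOfCardEq (Fintype.card_fin _) :
    Fin (Fintype.card V) ≃ V).symm.bijective fun i => ?_
  simp [Matrix.IsHermitian.eigenvalues]

lemma finrank_ker_shift (l : ℝ) :
    finrank ℝ (LinearMap.ker (l • (1 : Matrix V V ℝ) - M).mulVecLin)
      = (univ.filter fun i => hM.eigenvalues₀ i = l).card := by
  classical
  obtain ⟨U, h1, h2, h3⟩ := exists_diag hM
  have hU : IsUnit U.det := isUnit_det_of_right_inverse h2
  have hU' : IsUnit Uᵀ.det := isUnit_det_of_right_inverse h1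
  have hr : (l • (1 : Matrix V V ℝ) - M).rank
      = (univ.filter fun i => ¬ hM.eigenvalues i = l).card := by
    rw [shift_eq h2 h3, rank_mul_eq_left_of_isUnit_det _ _ hU',
      rank_mul_eq_right_of_isUnit_det _ _ hU, rank_diagonal, Fintype.card_subtype]
    congr 1
    exact filter_congr fun i _ => by rw [ne_eq, sub_eq_zero, eq_comm]
  have h4 := (l • (1 : Matrix V V ℝ) - M).mulVecLin.finrank_range_add_finrank_ker
  have h5 := card_filter_add_card_filter_not (s := univ) fun i => hM.eigenvalues i = l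
  rw [card_eig]
  unfold Matrix.rank at hr
  simp only [finrank_fintype_fun_eq_card, card_univ] at h4 h5
  omega

/-- Above the second eigenvalue there is at most one eigenvalue. -/
lemma exists_hyperplane (j : Fin (Fintype.card V)) (hj : (j : ℕ) = 1) :
    ∃ a : V → ℝ, ∀ x, a ⬝ᵥ x = 0 → 0 ≤ BF (hM.eigenvalues₀ j • (1 : Matrix V V ℝ) - M) x x := by
  obtain ⟨U, h1, h2, h3⟩ := exists_diag hM
  let e : Fin (Fintype.card V) ≃ V := Fintype.equivOfCardEq (Fintype.card_fin _)
  let i₀ : V := e ⟨0, by have := j.2; omega⟩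
  refine ⟨Uᵀ i₀, fun x hx => ?_⟩
  rw [shift_eq h2 h3, BF_diag]
  refine sum_nonneg fun i _ => ?_
  by_cases hi : i = i₀
  · have : (Uᵀ *ᵥ x) i = 0 := by rw [hi]; exact hx
    simp [this]
  · refine mul_nonneg (sub_nonneg.2 (hM.eigenvalues₀_antitone ?_)) (sq_nonneg _)
    have : e.symm i ≠ ⟨0, by have := j.2; omega⟩ := fun h => hi (by simp [i₀, ← h])
    rw [Fin.le_def, hj]
    exact Nat.one_le_iff_ne_zero.2 fun h => this (Fin.ext h)

omit [DecidableEq V] in
/-- Two orthogonal negative directions contradict the existence of the hyperplane. -/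
lemma two_neg {P : Matrix V V ℝ} (hs : ∀ x y, BF P x y = BF P y x) {a : V → ℝ}
    (ha : ∀ x, a ⬝ᵥ x = 0 → 0 ≤ BF P x x) {x y : V → ℝ} (hx : BF P x x < 0) (hy : BF P y y < 0)
    (hxy : BF P x y = 0) : False := by
  by_cases h : a ⬝ᵥ x = 0
  · exact absurd (ha x h) (not_le.2 hx)
  have := ha ((a ⬝ᵥ y) • x + (-(a ⬝ᵥ x)) • y) (by simp [mul_comm])
  rw [BF_add_left, BF_add_right, BF_add_right, BF_smul_left, BF_smul_right, BF_smul_left,
    BF_smul_right, BF_smul_left, BF_smul_right, BF_smul_left, BF_smul_right, hs y x, hxy] at this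
  have h1 : 0 < (a ⬝ᵥ x) ^ 2 := by positivity
  nlinarith [sq_nonneg (a ⬝ᵥ y)]

/-- A matrix with at most one positive eigenvalue and a kernel of dimension at least two has
second eigenvalue zero. -/
lemma second_eq_zero (j : Fin (Fintype.card V)) (hj : (j : ℕ) = 1) {a : V → ℝ}
    (ha : ∀ x, a ⬝ᵥ x = 0 → BF M x x ≤ 0) (h2 : 2 ≤ finrank ℝ (LinearMap.ker M.mulVecLin)) :
    hM.eigenvalues₀ j = 0 ∧ finrank ℝ (LinearMap.ker M.mulVecLin)
      = (univ.filter fun i => hM.eigenvalues₀ i = 0).card := by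
  have h0 := finrank_ker_shift hM 0
  have e0 : LinearMap.ker ((0 : ℝ) • (1 : Matrix V V ℝ) - M).mulVecLin
      = LinearMap.ker M.mulVecLin := by
    ext x
    simp
  rw [e0] at h0
  refine ⟨le_antisymm ?_ ?_, h0⟩
  · by_contra hc
    push Not at hc
    obtain ⟨U, h1, h2, h3⟩ := exists_diag hM
    let e : Fin (Fintype.card V) ≃ V := Fintype.equivOfCardEq (Fintype.card_fin _)
    let j₀ : Fin (Fintype.card V) := ⟨0, by have := j.2; omega⟩
    have hne : e j₀ ≠ e j := fun h => by
      have := congrArg Fin.val (e.injective h)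
      simp [j₀, hj] at this
    have hP : (0 : ℝ) • (1 : Matrix V V ℝ) - M = -M := by simp
    have hform := shift_eq h2 h3 0
    have hcol : ∀ i, Uᵀ *ᵥ (U *ᵥ Pi.single i 1) = Pi.single i 1 := fun i => by
      rw [mulVec_mulVec, h1, one_mulVec]
    have hneg : ∀ i : Fin (Fintype.card V), i ≤ j →
        BF (-M) (U *ᵥ Pi.single (e i) 1) (U *ᵥ Pi.single (e i) 1) < 0 := by
      intro i hi
      rw [← hP, hform, BF_diag, hcol, sum_eq_single (e i) (fun b _ hb => by simp [hb]) (by simp)]
      have : hM.eigenvalues (e i) = hM.eigenvalues₀ i := by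
        simp [Matrix.IsHermitian.eigenvalues, e]
      have h4 := hM.eigenvalues₀_antitone hi
      simp only [Pi.single_eq_same, this]
      linarith
    refine two_neg (P := -M) (a := a) (fun x y => ?_) (fun x hx => ?_)
      (hneg j₀ (Fin.le_def.2 (Nat.zero_le _))) (hneg j le_rfl) ?_
    · unfold BF
      rw [dotProduct_mulVec, ← mulVec_transpose, dotProduct_comm, transpose_neg]
      have : M.IsSymm := by simpa using hM
      rw [this.eq]
    · have := ha x hx
      unfold BF at this ⊢
      simpa [neg_mulVec] using this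
    · rw [← hP, hform]
      unfold BF
      rw [← mulVec_mulVec, ← mulVec_mulVec, dotProduct_mulVec, ← mulVec_transpose, hcol, hcol]
      simp [hne]
  · by_contra hc
    push Not at hc
    rw [h0] at h2
    obtain ⟨i, hi, i', hi', hne⟩ := one_lt_card.1 (by omega :
      1 < (univ.filter fun i => hM.eigenvalues₀ i = 0).card)
    have key : ∀ i, hM.eigenvalues₀ i = 0 → (i : ℕ) = 0 := by
      intro i hi
      by_contra h
      have := hM.eigenvalues₀_antitone (show j ≤ i from Fin.le_def.2 (by omega))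
      linarith
    exact hne (Fin.ext (by rw [key i (mem_filter.1 hi).2, key i' (mem_filter.1 hi').2]))

/-- The multiplicity of the second eigenvalue, read off the characteristic polynomial. -/
lemma count_second (j : Fin (Fintype.card V)) (hj : (j : ℕ) = 1) :
    M.charpoly.roots.count ((M.charpoly.roots.sort (· ≥ ·)).getD 1 0)
      = (univ.filter fun i => hM.eigenvalues₀ i = hM.eigenvalues₀ j).card := by
  have h1 := hM.sort_roots_charpoly_eq_eigenvalues₀
  have h2 := hM.roots_charpoly_eq_eigenvalues₀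
  simp only [RCLike.re_to_real, Multiset.map_id'] at h1
  have h3 : (M.charpoly.roots.sort (· ≥ ·)).getD 1 0 = hM.eigenvalues₀ j := by
    rw [h1, List.getD_eq_getElem _ _ (by simp [← hj]), List.getElem_ofFn]
    congr 1
    exact Fin.ext hj.symm
  rw [h3, h2, Multiset.count_map]
  simp only [Function.comp_apply, RCLike.ofReal_real_eq_id, id_eq]
  rw [← Finset.filter_val, Finset.card_val]
  congr 1
  exact filter_congr fun i _ => eq_comm

end Pool.Agent.P.MP_1ec91f_co
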