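import Pool.Agent.P.MP_1ec91f_co.Spec

/-!
Vertex splitting: adding a vertex while keeping the inertia, and the reduction of cliques to
networks of maximum degree three with unit weights.
-/

open Finset Matrix

namespace Pool.Agent.P.MP_1ec91f_co

variable {α : Type} [DecidableEq α] {κ : Type} [Fintype κ]

/-- The quadratic form of `M` on the vertex set `V`. -/
def QF (V : Finset α) (M : α → α → ℝ) (x : α → ℝ) : ℝ := ∑ u ∈ V, x u * ∑ v ∈ V, M u v * x v

/-- The support relation. -/
def Rel (V : Finset α) (M : α → α → ℝ) (s t : α) : Prop := s ∈ V ∧ t ∈ V ∧ s ≠ t ∧ M s t ≠ 0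

variable (κ) in
/-- At most one positive eigenvalue, large kernel, connected support. -/
structure Good (V : Finset α) (M : α → α → ℝ) : Prop where
  symm : ∀ u v, M u v = M v u
  npos : ∃ a : α → ℝ, ∀ x, ∑ u ∈ V, a u * x u = 0 → QF V M x ≤ 0
  ker : ∃ L : (κ → ℝ) →ₗ[ℝ] (α → ℝ), (∀ c, (∀ v ∈ V, L c v = 0) → c = 0) ∧
    ∀ c, ∀ v ∈ V, ∑ u ∈ V, M v u * L c u = 0
  conn : ∀ u ∈ V, ∀ v ∈ V, Relation.ReflTransGen (Rel V M) u v

/-- The matrix with one more vertex. -/
def extM (M : α → α → ℝ) (y : α) (c : ℝ) (β : α → ℝ) (u v : α) : ℝ :=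
  if u = y then (if v = y then -c else c * β v)
  else if v = y then c * β u else M u v - c * β u * β v

variable {V : Finset α} {M : α → α → ℝ} {y : α} {c : ℝ} {β : α → ℝ}

lemma extM_row (hy : y ∉ V) (x : α → ℝ) {u : α} (hu : u ∈ V) :
    ∑ v ∈ insert y V, extM M y c β u v * x v
      = ∑ v ∈ V, M u v * x v + c * β u * (x y - ∑ v ∈ V, β v * x v) := by
  have huy : u ≠ y := ne_of_mem_of_not_mem hu hy
  rw [sum_insert hy, sum_congr rfl (g := fun v => M u v * x v - c * β u * (β v * x v))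
    fun v hv => by simp only [extM, huy, ne_of_mem_of_not_mem hv hy, if_false]; ring,
    sum_sub_distrib, ← mul_sum]
  simp only [extM, huy, if_false, if_true]
  ring

lemma extM_row_new (hy : y ∉ V) (x : α → ℝ) :
    ∑ v ∈ insert y V, extM M y c β y v * x v = -c * (x y - ∑ v ∈ V, β v * x v) := by
  rw [sum_insert hy, sum_congr rfl (g := fun v => c * (β v * x v))
    fun v hv => by simp only [extM, ne_of_mem_of_not_mem hv hy, if_false, if_true]; ring,
    ← mul_sum]
  simp only [extM, if_true]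
  ring

lemma QF_ext (hy : y ∉ V) (x : α → ℝ) :
    QF (insert y V) (extM M y c β) x = QF V M x - c * (x y - ∑ v ∈ V, β v * x v) ^ 2 := by
  unfold QF
  have h : ∑ u ∈ V, x u * ∑ v ∈ insert y V, extM M y c β u v * x v
      = ∑ u ∈ V, (x u * ∑ v ∈ V, M u v * x v
        + c * (x y - ∑ v ∈ V, β v * x v) * (β u * x u)) :=
    sum_congr rfl fun u hu => by rw [extM_row hy x hu]; ring
  rw [sum_insert hy, extM_row_new hy, h, sum_add_distrib, ← mul_sum]
  ring

omit [Fintype κ] in
lemma Good.ext (h : Good κ V M) (hy : y ∉ V) (hc : 0 < c) {a : α} (ha : a ∈ V) (hβ : β a ≠ 0) :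
    Good κ (insert y V) (extM M y c β) := by
  refine ⟨fun u v => ?_, ?_, ?_, ?_⟩
  · unfold extM
    split_ifs <;> first | rfl | (rw [h.symm u v]; ring)
  · obtain ⟨p, hp⟩ := h.npos
    refine ⟨Function.update p y 0, fun x hx => ?_⟩
    rw [sum_insert hy, Function.update_self, zero_mul, zero_add,
      sum_congr rfl (g := fun u => p u * x u) fun u hu => by
        rw [Function.update_of_ne (ne_of_mem_of_not_mem hu hy)]] at hx
    rw [QF_ext hy]
    nlinarith [hp x hx, mul_nonneg hc.le (sq_nonneg (x y - ∑ v ∈ V, β v * x v))]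
  · obtain ⟨L, h1, h2⟩ := h.ker
    let L' : (κ → ℝ) →ₗ[ℝ] (α → ℝ) :=
      { toFun := fun e v => if v = y then ∑ u ∈ V, β u * L e u else L e v
        map_add' := fun e e' => by
          ext v
          by_cases hv : v = y <;> simp [hv, mul_add, sum_add_distrib]
        map_smul' := fun t e => by
          ext v
          by_cases hv : v = y
          · simp only [hv, if_true, map_smul, Pi.smul_apply, smul_eq_mul, RingHom.id_apply, mul_sum]
            exact sum_congr rfl fun u _ => by ring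
          · simp [hv] }
    have hL : ∀ e, ∀ v ∈ V, L' e v = L e v := fun e v hv => by
      simp [L', ne_of_mem_of_not_mem hv hy]
    have hS : ∀ e, L' e y - ∑ v ∈ V, β v * L' e v = 0 := fun e => by
      rw [sum_congr rfl (g := fun v => β v * L e v) fun v hv => by rw [hL e v hv]]
      simp [L']
    refine ⟨L', fun e he => h1 e fun v hv => by rw [← hL e v hv, he v (mem_insert_of_mem hv)],
      fun e v hv => ?_⟩
    rcases mem_insert.1 hv with rfl | hv
    · rw [extM_row_new hy, hS, mul_zero]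
    · rw [extM_row hy _ hv, hS, mul_zero, add_zero, ← h2 e v hv]
      exact sum_congr rfl fun u hu => by rw [hL e u hu]
  · have h1 : ∀ u ∈ V, β u ≠ 0 → Rel (insert y V) (extM M y c β) u y ∧
        Rel (insert y V) (extM M y c β) y u := by
      intro u hu hb
      have huy := ne_of_mem_of_not_mem hu hy
      exact ⟨⟨mem_insert_of_mem hu, mem_insert_self _ _, huy, by simp [extM, huy, hc.ne', hb]⟩,
        ⟨mem_insert_self _ _, mem_insert_of_mem hu, huy.symm, by simp [extM, huy, hc.ne', hb]⟩⟩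
    have h2 : ∀ u ∈ V, ∀ v ∈ V, Relation.ReflTransGen (Rel (insert y V) (extM M y c β)) u v := by
      intro u hu v hv
      have key : ∀ s t, Rel V M s t →
          Relation.ReflTransGen (Rel (insert y V) (extM M y c β)) s t := by
        rintro s t ⟨hs, ht, hst, hM⟩
        by_cases hb : β s ≠ 0 ∧ β t ≠ 0
        · exact (Relation.ReflTransGen.single (h1 s hs hb.1).1).tail (h1 t ht hb.2).2
        · refine Relation.ReflTransGen.single
            ⟨mem_insert_of_mem hs, mem_insert_of_mem ht, hst, ?_⟩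
          have : β s * β t = 0 := by
            rw [mul_eq_zero]; tauto
          simp only [extM, ne_of_mem_of_not_mem hs hy, ne_of_mem_of_not_mem ht hy, if_false,
            mul_assoc, this]
          simpa using hM
      have h3 := h.conn u hu v hv
      clear hu hv
      induction h3 with
      | refl => exact Relation.ReflTransGen.refl
      | tail _ hr ih => exact ih.trans (key _ _ hr)
    intro u hu v hv
    rw [mem_insert] at hu hv
    rcases hu with rfl | hu <;> rcases hv with rfl | hv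
    · exact Relation.ReflTransGen.refl
    · exact Relation.ReflTransGen.head (h1 a ha hβ).2 (h2 a ha v hv)
    · exact (h2 u hu a ha).tail (h1 a ha hβ).1
    · exact h2 u hu v hv

omit [Fintype κ] in
/-- Moving the edges from `a` to `A` to a new vertex `y`. -/
lemma Good.cut (h : Good κ V M) (hy : y ∉ V) (hc : 0 < c) {a : α} (ha : a ∈ V) {A : Finset α}
    (hA : A ⊆ V) (haA : a ∉ A) : ∃ M', Good κ (insert y V) M' ∧ M' y a = 1 ∧
      (∀ b ∈ A, M' y b = c * M a b) ∧ (∀ v ∈ V, v ≠ a → v ∉ A → M' y v = 0) ∧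
      (∀ b ∈ A, M' a b = 0) ∧ (∀ b ∈ A, ∀ b' ∈ A, M' b b' = M b b' - c * M a b * M a b') ∧
      (∀ u ∈ V, ∀ v ∈ V, v ≠ a → v ∉ A → M' u v = M u v) := by
  let β : α → ℝ := fun v => if v = a then c⁻¹ else if v ∈ A then M a v else 0
  have hay := ne_of_mem_of_not_mem ha hy
  have hAy : ∀ b ∈ A, b ≠ y := fun b hb => ne_of_mem_of_not_mem (hA hb) hy
  have hAa : ∀ b ∈ A, b ≠ a := fun b hb => ne_of_mem_of_not_mem hb haA
  refine ⟨extM M y c β, h.ext hy hc ha (by simp [β, hc.ne']), ?_, fun b hb => ?_,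
    fun v hv h1 h2 => ?_, fun b hb => ?_, fun b hb b' hb' => ?_, fun u hu v hv h1 h2 => ?_⟩
  · simp [extM, β, hay, hc.ne']
  · simp [extM, β, hAy b hb, hAa b hb, hb]
  · simp [extM, β, ne_of_mem_of_not_mem hv hy, h1, h2]
  · simp [extM, β, hay, hAy b hb, hAa b hb, hb, hc.ne']
  · simp [extM, β, hAy b hb, hAa b hb, hb, hAy b' hb', hAa b' hb', hb']
  · simp [extM, β, ne_of_mem_of_not_mem hu hy, ne_of_mem_of_not_mem hv hy, h1, h2]

variable {ι : Type} [DecidableEq ι]

/-- Active pairs of vertices. -/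
def Act (r : ι → α) (A : Finset (ι × ι)) (u v : α) : Prop := ∃ i j, (i, j) ∈ A ∧ r i = u ∧ r j = v

variable (κ) in
/-- A state of the reduction. -/
structure State (V : Finset α) (M : α → α → ℝ) (r : ι → α) (A : Finset (ι × ι)) (b : ι → ℕ) :
    Prop where
  good : Good κ V M
  inj : Function.Injective r
  mem : ∀ i, r i ∈ V
  symm : ∀ i j, (i, j) ∈ A → (j, i) ∈ A
  irr : ∀ i, (i, i) ∉ A
  pos : ∀ i j, (i, j) ∈ A → 0 < M (r i) (r j)
  unit : ∀ u ∈ V, ∀ v ∈ V, u ≠ v → Act r A u v ∨ M u v = 0 ∨ M u v = 1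
  deg : ∃ F : α → Finset α, (∀ u ∈ V, ∀ v ∈ V, u ≠ v → Act r A u v ∨ M u v = 0 ∨ v ∈ F u) ∧
    (∀ u, (F u).card ≤ 3) ∧ ∀ i, (F (r i)).card ≤ b i

variable {r : ι → α} {A : Finset (ι × ι)} {b : ι → ℕ}

omit [Fintype κ] [DecidableEq ι] [DecidableEq α] in
lemma State.mono (h : State κ V M r A b) {b' : ι → ℕ} (hb : ∀ i, b i ≤ b' i) :
    State κ V M r A b' := by
  obtain ⟨F, h1, h2, h3⟩ := h.deg
  exact ⟨h.good, h.inj, h.mem, h.symm, h.irr, h.pos, h.unit, F, h1, h2,
    fun i => (h3 i).trans (hb i)⟩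

omit [Fintype κ] in
/-- Subdividing an active edge. -/
lemma State.freeze (h : State κ V M r A (fun _ => 1)) (hy : y ∉ V) {i j : ι} (hij : (i, j) ∈ A) :
    ∃ M', State κ (insert y V) M' r ((A.erase (i, j)).erase (j, i))
      (fun l => if l = i ∨ l = j then 2 else 1) := by
  have hne : i ≠ j := fun e => h.irr i (by simpa [← e] using hij)
  have hne' : r i ≠ r j := h.inj.ne hne
  have hp := h.pos i j hij
  obtain ⟨M', g, m1, m2, m3, m4, -, m6⟩ := h.good.cut hy (inv_pos.2 hp) (h.mem i)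
    (A := {r j}) (by simpa using h.mem j) (by simpa using hne')
  simp only [mem_singleton, forall_eq] at m2 m3 m4 m6
  rw [inv_mul_cancel₀ hp.ne'] at m2
  have hold : ∀ u ∈ V, ∀ v ∈ V, u ≠ v → M' u v = 0 ∨
      (M' u v = M u v ∧ ¬ (u = r i ∧ v = r j) ∧ ¬ (u = r j ∧ v = r i)) := by
    intro u hu v hv huv
    by_cases h1 : v ≠ r i ∧ v ≠ r j
    · exact Or.inr ⟨m6 u hu v hv h1.1 h1.2, by tauto, by tauto⟩
    by_cases h2 : u ≠ r i ∧ u ≠ r j
    · exact Or.inr ⟨by rw [g.symm, m6 v hv u hu h2.1 h2.2, h.good.symm], by tauto, by tauto⟩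
    left
    have h3 : (u = r i ∧ v = r j) ∨ (u = r j ∧ v = r i) := by grind
    rcases h3 with ⟨rfl, rfl⟩ | ⟨rfl, rfl⟩
    · exact m4
    · rw [g.symm, m4]
  have hact : ∀ u v, Act r A u v → ¬ (u = r i ∧ v = r j) → ¬ (u = r j ∧ v = r i) →
      Act r ((A.erase (i, j)).erase (j, i)) u v := by
    rintro _ _ ⟨k, l, hkl, rfl, rfl⟩ h1 h2
    refine ⟨k, l, mem_erase.2 ⟨fun e => h2 ?_, mem_erase.2 ⟨fun e => h1 ?_, hkl⟩⟩, rfl, rfl⟩ <;>
    · obtain ⟨rfl, rfl⟩ := Prod.mk.inj e
      exact ⟨rfl, rfl⟩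
  have hnew : ∀ v ∈ V, M' y v = 0 ∨ (M' y v = 1 ∧ (v = r i ∨ v = r j)) := by
    intro v hv
    by_cases h1 : v = r i
    · exact Or.inr ⟨h1 ▸ m1, Or.inl h1⟩
    by_cases h2 : v = r j
    · exact Or.inr ⟨h2 ▸ m2, Or.inr h2⟩
    exact Or.inl (m3 v hv h1 h2)
  obtain ⟨F, f1, f2, f3⟩ := h.deg
  refine ⟨M', g, h.inj, fun l => mem_insert_of_mem (h.mem l), fun k l hkl => ?_,
    fun k hk => h.irr k (mem_of_mem_erase (mem_of_mem_erase hk)), fun k l hkl => ?_,
    fun u hu v hv huv => ?_,
    fun u => if u = y then {r i, r j} else if u = r i ∨ u = r j then insert y (F u) else F u,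
    fun u hu v hv huv => ?_, fun u => ?_, fun l => ?_⟩
  · simp only [mem_erase, ne_eq, Prod.mk.injEq] at hkl ⊢
    exact ⟨by tauto, by tauto, h.symm k l hkl.2.2⟩
  · simp only [mem_erase, ne_eq, Prod.mk.injEq] at hkl
    have h1 := h.pos k l hkl.2.2
    have hkl' : k ≠ l := fun e => h.irr k (by simpa [← e] using hkl.2.2)
    by_cases h2 : l ≠ i ∧ l ≠ j
    · rwa [m6 _ (h.mem k) _ (h.mem l) (h.inj.ne h2.1) (h.inj.ne h2.2)]
    · have h3 : k ≠ i ∧ k ≠ j := by grind
      rwa [g.symm, m6 _ (h.mem l) _ (h.mem k) (h.inj.ne h3.1) (h.inj.ne h3.2), h.good.symm]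
  · rw [mem_insert] at hu hv
    rcases hu with rfl | hu <;> rcases hv with rfl | hv
    · exact (huv rfl).elim
    · exact Or.inr ((hnew v hv).imp id And.left)
    · rw [g.symm]
      exact Or.inr ((hnew u hu).imp id And.left)
    · rcases hold u hu v hv huv with h1 | ⟨h1, h2, h3⟩
      · exact Or.inr (Or.inl h1)
      · rw [h1]
        exact (h.unit u hu v hv huv).imp (fun h4 => hact u v h4 h2 h3) id
  · rw [mem_insert] at hu hv
    rcases hu with rfl | hu <;> rcases hv with rfl | hv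
    · exact (huv rfl).elim
    · exact Or.inr ((hnew v hv).imp id fun h1 => by simpa using h1.2)
    · rw [g.symm]
      exact Or.inr ((hnew u hu).imp id fun h1 => by simp [huv, h1.2])
    · rcases hold u hu v hv huv with h1 | ⟨h1, h2, h3⟩
      · exact Or.inr (Or.inl h1)
      · rw [h1]
        refine (f1 u hu v hv huv).imp (fun h4 => hact u v h4 h2 h3) (Or.imp id fun h4 => ?_)
        simp only [ne_of_mem_of_not_mem hu hy, if_false]
        split_ifs
        · exact mem_insert_of_mem h4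
        · exact h4
  · beta_reduce
    split_ifs with h1 h2
    · exact card_le_two.trans (by norm_num)
    · refine (card_insert_le _ _).trans ?_
      rcases h2 with rfl | rfl
      · have := f3 i; omega
      · have := f3 j; omega
    · exact f2 u
  · simp only [ne_of_mem_of_not_mem (h.mem l) hy, if_false, h.inj.eq_iff]
    have := f3 l
    split_ifs
    · exact (card_insert_le _ _).trans (by omega)
    · exact this

omit [Fintype κ] in
/-- Moving the active edges of an index to a new representative. -/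
lemma State.split (h : State κ V M r A b) (hy : y ∉ V) {i : ι} (hb : b i ≤ 2)
    (hclq : ∀ j l, (i, j) ∈ A → (i, l) ∈ A → j ≠ l → (j, l) ∈ A) :
    ∃ M', State κ (insert y V) M' (Function.update r i y) A (Function.update b i 1) := by
  obtain ⟨c, hc0, hc⟩ : ∃ c : ℝ, 0 < c ∧ ∀ p ∈ A,
      c * (M (r i) (r p.1) * M (r i) (r p.2)) < M (r p.1) (r p.2) := by
    have h1 : ∀ᶠ c : ℝ in nhdsWithin 0 (Set.Ioi 0), ∀ p ∈ A,
        c * (M (r i) (r p.1) * M (r i) (r p.2)) < M (r p.1) (r p.2) := by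
      rw [Filter.eventually_all_finset]
      intro p hp
      refine Filter.Eventually.filter_mono nhdsWithin_le_nhds ?_
      have h2 : Continuous fun c : ℝ => c * (M (r i) (r p.1) * M (r i) (r p.2)) := by fun_prop
      exact h2.continuousAt.eventually_lt continuousAt_const (by simpa using h.pos _ _ hp)
    obtain ⟨c, h2, h3⟩ := (h1.and self_mem_nhdsWithin).exists
    exact ⟨c, h3, h2⟩
  let N : Finset α := (A.filter fun p => p.1 = i).image fun p => r p.2
  have hN : ∀ v, v ∈ N ↔ ∃ j, (i, j) ∈ A ∧ r j = v := by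
    intro v
    simp only [N, mem_image, mem_filter, Prod.exists]
    exact ⟨fun ⟨k, j, ⟨h1, h2⟩, h3⟩ => ⟨j, h2 ▸ h1, h3⟩, fun ⟨j, h1, h2⟩ => ⟨i, j, ⟨h1, rfl⟩, h2⟩⟩
  have hN' : ∀ j, r j ∈ N ↔ (i, j) ∈ A := fun j => by
    rw [hN]
    exact ⟨fun ⟨l, h1, h2⟩ => h.inj h2 ▸ h1, fun h1 => ⟨j, h1, rfl⟩⟩
  obtain ⟨M', g, m1, m2, m3, m4, m5, m6⟩ := h.good.cut hy hc0 (h.mem i) (A := N)
    (fun v hv => by obtain ⟨j, -, rfl⟩ := (hN v).1 hv; exact h.mem j)
    (fun hv => h.irr i ((hN' i).1 hv))
  have hry : ∀ j, r j ≠ y := fun j => ne_of_mem_of_not_mem (h.mem j) hy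
  have hA1 : ∀ j, (i, j) ∈ A → j ≠ i := fun j hj e => h.irr i (e ▸ hj)
  have hact : ∀ k l, (k, l) ∈ A → k ≠ i → l ≠ i → Act (Function.update r i y) A (r k) (r l) :=
    fun k l hkl h1 h2 => ⟨k, l, hkl, Function.update_of_ne h1 _ _, Function.update_of_ne h2 _ _⟩
  have hold : ∀ u ∈ V, ∀ v ∈ V, u ≠ v → Act (Function.update r i y) A u v ∨ M' u v = 0 ∨
      (M' u v = M u v ∧ ¬ Act r A u v) := by
    intro u hu v hv huv
    by_cases h0 : Act r A u v
    · obtain ⟨k, l, hkl, rfl, rfl⟩ := h0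
      by_cases hk : k = i
      · subst hk
        exact Or.inr (Or.inl (m4 _ ((hN' l).2 hkl)))
      by_cases hl : l = i
      · subst hl
        exact Or.inr (Or.inl (by rw [g.symm]; exact m4 _ ((hN' k).2 (h.symm _ _ hkl))))
      exact Or.inl (hact k l hkl hk hl)
    refine Or.inr (Or.inr ⟨?_, h0⟩)
    by_cases h1 : v ≠ r i ∧ v ∉ N
    · exact m6 u hu v hv h1.1 h1.2
    by_cases h2 : u ≠ r i ∧ u ∉ N
    · rw [g.symm, m6 v hv u hu h2.1 h2.2, h.good.symm]
    exfalso
    apply h0
    have h3 : v = r i ∨ v ∈ N := by tauto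
    have h4 : u = r i ∨ u ∈ N := by tauto
    rcases h3 with rfl | h3 <;> rcases h4 with rfl | h4
    · exact (huv rfl).elim
    · obtain ⟨j, hj, rfl⟩ := (hN u).1 h4
      exact ⟨j, i, h.symm _ _ hj, rfl, rfl⟩
    · obtain ⟨j, hj, rfl⟩ := (hN v).1 h3
      exact ⟨i, j, hj, rfl, rfl⟩
    · obtain ⟨j, hj, rfl⟩ := (hN u).1 h4
      obtain ⟨l, hl, rfl⟩ := (hN v).1 h3
      exact ⟨j, l, hclq j l hj hl fun e => huv (e ▸ rfl), rfl, rfl⟩
  have hnew : ∀ v ∈ V, (Act (Function.update r i y) A y v ∧ Act (Function.update r i y) A v y) ∨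
      M' y v = 0 ∨ (M' y v = 1 ∧ v = r i) := by
    intro v hv
    by_cases h1 : v = r i
    · exact Or.inr (Or.inr ⟨h1 ▸ m1, h1⟩)
    by_cases h2 : v ∈ N
    · obtain ⟨j, hj, rfl⟩ := (hN v).1 h2
      exact Or.inl ⟨⟨i, j, hj, by simp, Function.update_of_ne (hA1 j hj) _ _⟩,
        ⟨j, i, h.symm _ _ hj, Function.update_of_ne (hA1 j hj) _ _, by simp⟩⟩
    exact Or.inr (Or.inl (m3 v hv h1 h2))
  obtain ⟨F, f1, f2, f3⟩ := h.deg
  refine ⟨M', g, fun k l hkl => ?_, fun l => ?_, h.symm, h.irr, fun k l hkl => ?_,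
    fun u hu v hv huv => ?_,
    fun u => if u = y then {r i} else if u = r i then insert y (F u) else F u,
    fun u hu v hv huv => ?_, fun u => ?_, fun l => ?_⟩
  · by_cases hk : k = i <;> by_cases hl : l = i
    · rw [hk, hl]
    · rw [hk, Function.update_self, Function.update_of_ne hl] at hkl
      exact (hry l hkl.symm).elim
    · rw [hl, Function.update_self, Function.update_of_ne hk] at hkl
      exact (hry k hkl).elim
    · rw [Function.update_of_ne hk, Function.update_of_ne hl] at hkl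
      exact h.inj hkl
  · by_cases hl : l = i
    · simp [hl]
    · rw [Function.update_of_ne hl]
      exact mem_insert_of_mem (h.mem l)
  · by_cases hk : k = i
    · subst hk
      rw [Function.update_self, Function.update_of_ne (hA1 l hkl), m2 _ ((hN' l).2 hkl)]
      exact mul_pos hc0 (h.pos _ _ hkl)
    by_cases hl : l = i
    · subst hl
      have := h.symm _ _ hkl
      rw [Function.update_self, Function.update_of_ne hk, g.symm, m2 _ ((hN' k).2 this)]
      exact mul_pos hc0 (h.pos _ _ this)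
    rw [Function.update_of_ne hk, Function.update_of_ne hl]
    by_cases h1 : r l ∈ N
    · by_cases h2 : r k ∈ N
      · rw [m5 _ h2 _ h1, mul_assoc]
        exact sub_pos.2 (hc (k, l) hkl)
      · rw [g.symm, m6 _ (h.mem l) _ (h.mem k) (h.inj.ne hk) h2, h.good.symm]
        exact h.pos _ _ hkl
    · rw [m6 _ (h.mem k) _ (h.mem l) (h.inj.ne hl) h1]
      exact h.pos _ _ hkl
  · rw [mem_insert] at hu hv
    rcases hu with rfl | hu <;> rcases hv with rfl | hv
    · exact (huv rfl).elim
    · exact (hnew v hv).imp And.left (Or.imp id And.left)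
    · rw [g.symm]
      exact (hnew u hu).imp And.right (Or.imp id And.left)
    · rcases hold u hu v hv huv with h1 | h1 | ⟨h1, h2⟩
      · exact Or.inl h1
      · exact Or.inr (Or.inl h1)
      · rw [h1]
        exact Or.inr ((h.unit u hu v hv huv).resolve_left h2)
  · rw [mem_insert] at hu hv
    rcases hu with rfl | hu <;> rcases hv with rfl | hv
    · exact (huv rfl).elim
    · exact (hnew v hv).imp And.left (Or.imp id fun h1 => by simpa using h1.2)
    · rw [g.symm]
      exact (hnew u hu).imp And.right (Or.imp id fun h1 => by simp [h1.2, hry i])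
    · rcases hold u hu v hv huv with h1 | h1 | ⟨h1, h2⟩
      · exact Or.inl h1
      · exact Or.inr (Or.inl h1)
      · rw [h1]
        refine Or.inr (((f1 u hu v hv huv).resolve_left h2).imp id fun h4 => ?_)
        simp only [ne_of_mem_of_not_mem hu hy, if_false]
        split_ifs
        · exact mem_insert_of_mem h4
        · exact h4
  · beta_reduce
    split_ifs with h1 h2
    · simp
    · refine (card_insert_le _ _).trans ?_
      have := f3 i
      rw [h2]
      omega
    · exact f2 u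
  · by_cases hl : l = i
    · simp [hl]
    · rw [Function.update_of_ne hl, Function.update_of_ne hl]
      simpa [hry l, h.inj.ne hl] using f3 l

variable (κ) in
/-- A connected graph of maximum degree three with unit weights. -/
structure Final (V : Finset α) (M : α → α → ℝ) : Prop where
  good : Good κ V M
  unit : ∀ u ∈ V, ∀ v ∈ V, u ≠ v → M u v = 0 ∨ M u v = 1
  deg : ∃ F : α → Finset α, (∀ u ∈ V, ∀ v ∈ V, u ≠ v → M u v = 0 ∨ v ∈ F u) ∧
    ∀ u, (F u).card ≤ 3

/-- Disjoint cliques together with one vertex joined to part of a clique. -/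
def Inv (A : Finset (ι × ι)) (i₀ : ι) : Prop :=
  ∀ i j l, (i, j) ∈ A → (i, l) ∈ A → j ≠ l → j ≠ i₀ → l ≠ i₀ → (j, l) ∈ A

omit [Fintype κ] in
theorem reduce [Infinite α] (n : ℕ) : ∀ (V : Finset α) (M : α → α → ℝ) (r : ι → α)
    (A : Finset (ι × ι)) (i₀ : ι), A.card ≤ n → Inv A i₀ → State κ V M r A (fun _ => 1) →
    ∃ (V' : Finset α) (M' : α → α → ℝ), Final κ V' M' ∧ V.card ≤ V'.card ∧
      V'.card ≤ V.card + 3 * n := by
  induction n with
  | zero =>
    intro V M r A i₀ hA _ h
    have hA0 : A = ∅ := card_eq_zero.1 (by omega)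
    subst hA0
    have hno : ∀ u v, ¬ Act r ∅ u v := fun u v ⟨_, _, h1, _⟩ => by simp at h1
    obtain ⟨F, f1, f2, -⟩ := h.deg
    exact ⟨V, M, ⟨h.good, fun u hu v hv huv => (h.unit u hu v hv huv).resolve_left (hno u v),
      F, fun u hu v hv huv => (f1 u hu v hv huv).resolve_left (hno u v), f2⟩, le_rfl, le_rfl⟩
  | succ n ih =>
    intro V M r A i₀ hA hI h
    rcases A.eq_empty_or_nonempty with rfl | ⟨⟨i₁, j₁⟩, h₁⟩
    · obtain ⟨V', M', h1, h2, h3⟩ := ih V M r ∅ i₀ (by simp) hI h
      exact ⟨V', M', h1, h2, by omega⟩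
    obtain ⟨i, j, hij, hI'⟩ : ∃ i j, (i, j) ∈ A ∧ Inv A i := by
      by_cases h0 : ∃ j, (i₀, j) ∈ A
      · obtain ⟨j, hj⟩ := h0
        exact ⟨i₀, j, hj, hI⟩
      · push Not at h0
        refine ⟨i₁, j₁, h₁, fun i j l h1 h2 h3 _ _ => hI i j l h1 h2 h3 ?_ ?_⟩
        · rintro rfl
          exact h0 _ (h.symm _ _ h1)
        · rintro rfl
          exact h0 _ (h.symm _ _ h2)
    have hI'' : Inv ((A.erase (i, j)).erase (j, i)) i := by
      intro k l s h1 h2 h3 h4 h5
      simp only [mem_erase, ne_eq, Prod.mk.injEq]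
      exact ⟨by tauto, by tauto, hI' k l s (mem_of_mem_erase (mem_of_mem_erase h1))
        (mem_of_mem_erase (mem_of_mem_erase h2)) h3 h4 h5⟩
    obtain ⟨y₁, hy₁⟩ := Infinite.exists_notMem_finset V
    obtain ⟨M₁, s₁⟩ := h.freeze hy₁ hij
    obtain ⟨y₂, hy₂⟩ := Infinite.exists_notMem_finset (insert y₁ V)
    obtain ⟨M₂, s₂⟩ := s₁.split hy₂ (i := i) (by simp) fun k l h1 h2 h3 =>
      hI'' i k l h1 h2 h3 (fun e => s₁.irr i (e ▸ h1)) (fun e => s₁.irr i (e ▸ h2))
    obtain ⟨y₃, hy₃⟩ := Infinite.exists_notMem_finset (insert y₂ (insert y₁ V))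
    obtain ⟨M₃, s₃⟩ := s₂.split hy₃ (i := j)
      (by by_cases e : j = i <;> simp [e]) fun k l h1 h2 h3 =>
      hI'' j k l h1 h2 h3 (fun e => notMem_erase _ _ (e ▸ h1)) (fun e => notMem_erase _ _ (e ▸ h2))
    have hc : ((A.erase (i, j)).erase (j, i)).card ≤ n := by
      have h1 := card_erase_of_mem hij
      have h2 := card_erase_le (s := A.erase (i, j)) (a := (j, i))
      omega
    obtain ⟨V', M', h1, h2, h3⟩ := ih _ M₃ _ _ i hc hI'' (s₃.mono fun l => by
      by_cases h1 : l = j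
      · simp [h1]
      · by_cases h2 : l = i
        · subst h2
          simp [Function.update_of_ne h1]
        · simp [h1, h2])
    rw [card_insert_of_notMem hy₃, card_insert_of_notMem hy₂, card_insert_of_notMem hy₁] at h2 h3
    exact ⟨V', M', h1, by omega, by omega⟩

omit [Fintype κ] in
/-- Subdividing an edge. -/
lemma Final.pad [Infinite α] (h : Final κ V M) (h2 : 2 ≤ V.card) :
    ∃ (V' : Finset α) (M' : α → α → ℝ), Final κ V' M' ∧ V'.card = V.card + 1 := by
  obtain ⟨a, ha, w, hw, haw⟩ := one_lt_card.1 (by omega : 1 < V.card)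
  obtain ⟨b, ⟨-, hb, hab, hM⟩, -⟩ := (h.good.conn a ha w hw).cases_head.resolve_left haw
  have hM1 := (h.unit a ha b hb hab).resolve_left hM
  obtain ⟨y, hy⟩ := Infinite.exists_notMem_finset V
  obtain ⟨M', g, m1, m2, m3, m4, -, m6⟩ := h.good.cut hy one_pos ha
    (A := {b}) (by simpa using hb) (by simpa using hab)
  simp only [mem_singleton, forall_eq] at m2 m3 m4 m6
  rw [hM1, mul_one] at m2
  have hold : ∀ u ∈ V, ∀ v ∈ V, u ≠ v → M' u v = 0 ∨
      (M' u v = M u v ∧ ¬ (u = a ∧ v = b) ∧ ¬ (u = b ∧ v = a)) := by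
    intro u hu v hv huv
    by_cases h1 : v ≠ a ∧ v ≠ b
    · exact Or.inr ⟨m6 u hu v hv h1.1 h1.2, by tauto, by tauto⟩
    by_cases h2 : u ≠ a ∧ u ≠ b
    · exact Or.inr ⟨by rw [g.symm, m6 v hv u hu h2.1 h2.2, h.good.symm], by tauto, by tauto⟩
    left
    have h3 : (u = a ∧ v = b) ∨ (u = b ∧ v = a) := by grind
    rcases h3 with ⟨rfl, rfl⟩ | ⟨rfl, rfl⟩
    · exact m4
    · rw [g.symm, m4]
  have hnew : ∀ v ∈ V, M' y v = 0 ∨ (M' y v = 1 ∧ (v = a ∨ v = b)) := by
    intro v hv
    by_cases h1 : v = a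
    · exact Or.inr ⟨h1 ▸ m1, Or.inl h1⟩
    by_cases h2 : v = b
    · exact Or.inr ⟨h2 ▸ m2, Or.inr h2⟩
    exact Or.inl (m3 v hv h1 h2)
  obtain ⟨F, f1, f2⟩ := h.deg
  have hbF : b ∈ F a := (f1 a ha b hb hab).resolve_left hM
  have haF : a ∈ F b := (f1 b hb a ha hab.symm).resolve_left (by rwa [h.good.symm])
  refine ⟨insert y V, M', ⟨g, fun u hu v hv huv => ?_,
    fun u => if u = y then {a, b} else if u = a then insert y ((F u).erase b)
      else if u = b then insert y ((F u).erase a) else F u,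
    fun u hu v hv huv => ?_, fun u => ?_⟩, card_insert_of_notMem hy⟩
  · rw [mem_insert] at hu hv
    rcases hu with rfl | hu <;> rcases hv with rfl | hv
    · exact (huv rfl).elim
    · exact (hnew v hv).imp id And.left
    · rw [g.symm]
      exact (hnew u hu).imp id And.left
    · rcases hold u hu v hv huv with h1 | ⟨h1, -, -⟩
      · exact Or.inl h1
      · rw [h1]
        exact h.unit u hu v hv huv
  · rw [mem_insert] at hu hv
    rcases hu with rfl | hu <;> rcases hv with rfl | hv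
    · exact (huv rfl).elim
    · exact (hnew v hv).imp id fun h1 => by simpa using h1.2
    · rw [g.symm]
      refine (hnew u hu).imp id fun h1 => ?_
      simp only [huv, if_false]
      split_ifs <;> simp_all
    · rcases hold u hu v hv huv with h1 | ⟨h1, h3, h4⟩
      · exact Or.inl h1
      · rw [h1]
        refine (f1 u hu v hv huv).imp id fun h5 => ?_
        simp only [ne_of_mem_of_not_mem hu hy, if_false]
        split_ifs with h6 h7
        · exact mem_insert_of_mem (mem_erase.2 ⟨fun e => h3 ⟨h6, e⟩, h5⟩)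
        · exact mem_insert_of_mem (mem_erase.2 ⟨fun e => h4 ⟨h7, e⟩, h5⟩)
        · exact h5
  · have h3 := f2 u
    beta_reduce
    split_ifs with h4 h5 h6
    · exact card_le_two.trans (by norm_num)
    · subst h5
      have := card_erase_add_one hbF
      exact (card_insert_le _ _).trans (by omega)
    · subst h6
      have := card_erase_add_one haF
      exact (card_insert_le _ _).trans (by omega)
    · exact h3

omit [Fintype κ] in
lemma Final.pad_to [Infinite α] (h : Final κ V M) (h2 : 2 ≤ V.card) {n : ℕ} (hn : V.card ≤ n) :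
    ∃ (V' : Finset α) (M' : α → α → ℝ), Final κ V' M' ∧ V'.card = n := by
  induction n, hn using Nat.le_induction with
  | base => exact ⟨V, M, h, rfl⟩
  | succ n hn ih =>
    obtain ⟨V', M', h3, h4⟩ := ih
    obtain ⟨V'', M'', h5, h6⟩ := h3.pad (by omega)
    exact ⟨V'', M'', h5, by omega⟩

omit [DecidableEq α] in
/-- From a final state to a graph with a potential. -/
theorem Final.graph (h : Final κ V M) {n : ℕ} (hn : V.card = n) (h2 : 2 ≤ n)
    (hk : 2 ≤ Fintype.card κ) :
    ∃ (G : SimpleGraph (Fin n)) (_ : DecidableRel G.Adj) (D : Fin n → ℝ), G.Connected ∧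
      G.maxDegree ≤ 3 ∧ Fintype.card κ ≤ (diagonal D + G.adjMatrix ℝ).charpoly.roots.count
        (((diagonal D + G.adjMatrix ℝ).charpoly.roots.sort (· ≥ ·)).getD 1 0) := by
  classical
  let e : Fin n ≃ V := (equivFinOfCardEq hn).symm
  have he : Function.Injective fun i => (e i : α) := Subtype.val_injective.comp e.injective
  let G : SimpleGraph (Fin n) :=
    { Adj := fun i j => i ≠ j ∧ M (e i) (e j) ≠ 0
      symm := ⟨fun i j hij => ⟨hij.1.symm, by rw [h.good.symm]; exact hij.2⟩⟩
      loopless := ⟨fun i hi => hi.1 rfl⟩ }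
  let D : Fin n → ℝ := fun i => M (e i) (e i)
  have hN : ∀ i j, (diagonal D + G.adjMatrix ℝ) i j = M (e i) (e j) := by
    intro i j
    by_cases hij : i = j
    · subst hij
      simp [D]
    · rcases h.unit _ (e i).2 _ (e j).2 (he.ne hij) with h1 | h1 <;>
        simp [hij, SimpleGraph.adjMatrix_apply, G, h1]
  have hsum : ∀ φ : α → ℝ, ∑ i, φ (e i) = ∑ u ∈ V, φ u := fun φ => by
    rw [e.sum_comp fun u : V => φ u, sum_coe_sort]
  have hM : (diagonal D + G.adjMatrix ℝ).IsHermitian :=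
    (isHermitian_diagonal D).add (G.isHermitian_adjMatrix ℝ)
  have hj : 1 < Fintype.card (Fin n) := by rw [Fintype.card_fin]; omega
  refine ⟨G, inferInstance, D, ?_, ?_, ?_⟩
  · have : Nonempty (Fin n) := ⟨⟨0, by omega⟩⟩
    refine ⟨fun i j => ?_⟩
    have key : ∀ u v, Relation.ReflTransGen (Rel V M) u v → ∀ (hu : u ∈ V) (hv : v ∈ V),
        G.Reachable (e.symm ⟨u, hu⟩) (e.symm ⟨v, hv⟩) := by
      intro u v huv hu
      induction huv with
      | refl => exact fun _ => SimpleGraph.Reachable.refl _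
      | tail _ hr ih =>
        intro hv
        refine (ih hr.1).trans (SimpleGraph.Adj.reachable ⟨fun e' => hr.2.2.1 ?_, ?_⟩)
        · exact congrArg Subtype.val (e.symm.injective e')
        · simpa using hr.2.2.2
    simpa using key _ _ (h.good.conn _ (e i).2 _ (e j).2) (e i).2 (e j).2
  · obtain ⟨F, f1, f2⟩ := h.deg
    refine G.maxDegree_le_of_forall_degree_le 3 fun i => le_trans ?_ (f2 (e i))
    rw [← G.card_neighborFinset_eq_degree]
    refine card_le_card_of_injOn (fun j => (e j : α)) (fun j hj => ?_) he.injOn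
    have hj' : G.Adj i j := by simpa using hj
    exact (f1 _ (e i).2 _ (e j).2 (he.ne hj'.1)).resolve_left hj'.2
  · obtain ⟨a, ha⟩ := h.good.npos
    obtain ⟨L, l1, l2⟩ := h.good.ker
    have hrank : Fintype.card κ
        ≤ Module.finrank ℝ (LinearMap.ker (diagonal D + G.adjMatrix ℝ).mulVecLin) := by
      let L' : (κ → ℝ) →ₗ[ℝ] (Fin n → ℝ) := (LinearMap.funLeft ℝ ℝ fun i => (e i : α)) ∘ₗ L
      have hmem : ∀ c, L' c ∈ LinearMap.ker (diagonal D + G.adjMatrix ℝ).mulVecLin := by
        intro c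
        ext i
        have := l2 c _ (e i).2
        rw [← hsum] at this
        simp only [mulVecLin_apply, mulVec, dotProduct, hN]
        exact this
      have hinj : Function.Injective (L'.codRestrict _ hmem) := by
        rw [injective_iff_map_eq_zero]
        intro c hc
        refine l1 c fun v hv => ?_
        have := congrFun (congrArg Subtype.val hc) (e.symm ⟨v, hv⟩)
        simpa [L'] using this
      simpa using LinearMap.finrank_le_finrank_of_injective hinj
    obtain ⟨h3, h4⟩ := second_eq_zero hM ⟨1, hj⟩ rfl (a := fun i => a (e i)) (fun x hx => by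
      let x' : α → ℝ := fun u => if hu : u ∈ V then x (e.symm ⟨u, hu⟩) else 0
      have hx' : ∀ i, x' (e i) = x i := fun i => by simp [x']
      have h5 := ha x' (by
        rw [← hsum]
        simpa [hx', dotProduct] using hx)
      unfold QF at h5
      rw [← hsum] at h5
      simp only [← hsum, hx'] at h5
      simp only [BF, dotProduct, mulVec, hN]
      exact h5) (hk.trans hrank)
    rw [count_second hM ⟨1, hj⟩ rfl, h3, ← h4]
    exact hrank

end Pool.Agent.P.MP_1ec91f_co
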