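import Pool.Agent.P.MP_1ec91f_co.Deloc
import Pool.Agent.P.MP_1ec91f_co.Spec

/-!
The upper bound on the multiplicity of the second eigenvalue.
-/

open Finset Matrix Module

namespace Pool.Agent.P.MP_1ec91f_co

variable {V : Type*} [Fintype V] [DecidableEq V] {G : SimpleGraph V} {P : Matrix V V ℝ}

lemma card_ball_le [DecidableRel G.Adj] (hG : G.Connected) {Δ : ℕ} (hΔ : G.maxDegree ≤ Δ) (v : V)
    (r : ℕ) : (univ.filter fun t => G.dist v t ≤ r).card ≤ (Δ + 1) ^ r := by
  induction r with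
  | zero =>
    rw [pow_zero, card_le_one]
    intro a ha b hb
    have h1 := hG.dist_eq_zero_iff.1 (Nat.le_zero.1 (mem_filter.1 ha).2)
    have h2 := hG.dist_eq_zero_iff.1 (Nat.le_zero.1 (mem_filter.1 hb).2)
    rw [← h1, ← h2]
  | succ r ih =>
    have hsub : (univ.filter fun t => G.dist v t ≤ r + 1) ⊆
        (univ.filter fun t => G.dist v t ≤ r).biUnion fun s => insert s (G.neighborFinset s) := by
      intro t ht
      rw [mem_biUnion]
      by_cases h : G.dist v t ≤ r
      · exact ⟨t, mem_filter.2 ⟨mem_univ _, h⟩, mem_insert_self _ _⟩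
      · obtain ⟨p, hp⟩ := hG.exists_walk_length_eq_dist t v
        have h1 := (mem_filter.1 ht).2
        rw [SimpleGraph.dist_comm] at hp
        cases p with
        | nil => simp at h
        | @cons _ s _ hs q =>
          refine ⟨s, mem_filter.2 ⟨mem_univ _, ?_⟩, mem_insert_of_mem (by simpa using hs.symm)⟩
          have h2 := SimpleGraph.dist_le q
          rw [SimpleGraph.dist_comm] at h2
          simp only [SimpleGraph.Walk.length_cons] at hp
          omega
    refine (card_le_card hsub).trans ((card_biUnion_le_card_mul _ _ (Δ + 1) fun s _ => ?_).trans ?_)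
    · refine (card_insert_le _ _).trans ?_
      have := G.degree_le_maxDegree s
      rw [G.card_neighborFinset_eq_degree]
      omega
    · rw [pow_succ]
      exact Nat.mul_le_mul_right _ ih

/-- If the form is not positive definite on a proper subset, it is negative somewhere nearby. -/
lemma exists_neg (hG : G.Connected) (hP : ZM P) (hadj : ∀ s t, G.Adj s t → P s t < 0)
    {U : Finset V} (hU : ¬ PD P U) {w : V} (hw : w ∉ U) :
    ∃ x : V → ℝ, BF P x x < 0 ∧ ∀ t, x t ≠ 0 → t ∈ U ∨ ∃ s ∈ U, G.Adj s t := by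
  unfold PD at hU
  push Not at hU
  obtain ⟨x, hx1, hx2, hx3⟩ := hU
  have h1 := BF_sqrt_le hP ({()} : Finset Unit) fun _ => x
  simp only [sum_singleton, Real.sqrt_sq_eq_abs] at h1
  obtain ⟨s₀, hs₀⟩ := Function.ne_iff.1 hx2
  have hcross : ∃ s t, x s ≠ 0 ∧ x t = 0 ∧ G.Adj s t := by
    obtain ⟨p⟩ := hG.preconnected s₀ w
    have hw0 := hx1 w hw
    clear hw
    induction p with
    | nil => exact (hs₀ hw0).elim
    | @cons a b _ h p ih =>
      by_cases hb : x b = 0
      · exact ⟨a, b, hs₀, hb, h⟩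
      · exact ih hb hw0
  obtain ⟨s, t, hs, ht, hst⟩ := hcross
  let y : V → ℝ := fun t => |x t|
  have hb : (P *ᵥ y) t < 0 := by
    rw [mulVec_eq, ← add_sum_erase _ _ (mem_univ s)]
    have h2 : P t s * y s < 0 := mul_neg_of_neg_of_pos (hadj t s hst.symm) (abs_pos.2 hs)
    have h3 : ∑ u ∈ univ.erase s, P t u * y u ≤ 0 := by
      refine sum_nonpos fun u _ => ?_
      by_cases hu : t = u
      · subst hu; simp [y, ht]
      · exact mul_nonpos_of_nonpos_of_nonneg (hP.off t u hu) (abs_nonneg _)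
    linarith
  have he1 : BF P (Pi.single t 1) y = (P *ᵥ y) t := by simp [BF]
  have he2 : BF P (Pi.single t 1) (Pi.single t 1) = P t t := by simp [BF]
  obtain ⟨τ, hτ0, hτ⟩ : ∃ τ : ℝ, 0 < τ ∧ τ * P t t < -(P *ᵥ y) t := by
    refine ⟨-(P *ᵥ y) t / (|P t t| + 1), div_pos (neg_pos.2 hb) (by positivity), ?_⟩
    rw [div_mul_eq_mul_div, div_lt_iff₀ (by positivity)]
    exact mul_lt_mul_of_pos_left (by linarith [le_abs_self (P t t)]) (neg_pos.2 hb)
  refine ⟨y + τ • Pi.single t 1, ?_, fun u hu => ?_⟩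
  · rw [BF_add_left, BF_add_right, BF_add_right, BF_smul_left, BF_smul_right, BF_smul_left,
      BF_smul_right, BF_comm hP y (Pi.single t 1), he1, he2]
    have h4 : BF P y y ≤ 0 := h1.trans hx3
    nlinarith
  · have hsU : s ∈ U := by
      by_contra h
      exact hs (hx1 s h)
    by_cases hut : u = t
    · exact Or.inr ⟨s, hsU, hut ▸ hst⟩
    · left
      by_contra h
      exact hu (by simp [y, hx1 u h, hut])

/-- The vertices whose ball is not positive definite lie in one ball. -/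
lemma card_bad_le [DecidableRel G.Adj] (hG : G.Connected) {Δ : ℕ} (hΔ : G.maxDegree ≤ Δ)
    (hP : ZM P) (hloc : ∀ s t, P s t ≠ 0 → s = t ∨ G.Adj s t)
    (hadj : ∀ s t, G.Adj s t → P s t < 0) {a : V → ℝ} (ha : ∀ x, a ⬝ᵥ x = 0 → 0 ≤ BF P x x)
    (L : ℕ) : ∃ N : Finset V, N.card ≤ (Δ + 1) ^ (2 * L + 3) ∧
      ∀ v, v ∉ N → PD P (insert v (pb G v L)) := by
  classical
  refine ⟨univ.filter fun v => ¬ PD P (insert v (pb G v L)), ?_, fun v hv => by simpa using hv⟩
  rcases (univ.filter fun v => ¬ PD P (insert v (pb G v L))).eq_empty_or_nonempty with h | ⟨v, hv⟩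
  · simp [h]
  refine le_trans (card_le_card fun w hw => mem_filter.2 ⟨mem_univ _, ?_⟩)
    (card_ball_le hG hΔ v (2 * L + 3))
  by_contra hd
  have hmem : ∀ u t, t ∈ insert u (pb G u L) → G.dist u t ≤ L := by
    intro u t ht
    rcases mem_insert.1 ht with rfl | ht
    · simp
    · exact (mem_pb.1 ht).2
  have hnear : ∀ u t, (t ∈ insert u (pb G u L) ∨ ∃ s ∈ insert u (pb G u L), G.Adj s t) →
      G.dist u t ≤ L + 1 := by
    rintro u t (ht | ⟨s, hs, hst⟩)
    · exact (hmem u t ht).trans (Nat.le_succ _)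
    · have := dist_le_succ hG u (Or.inr hst)
      have := hmem u s hs
      omega
  obtain ⟨x, hx1, hx2⟩ := exists_neg hG hP hadj (mem_filter.1 hv).2 (w := w) fun h => by
    have := hmem v w h; omega
  obtain ⟨y, hy1, hy2⟩ := exists_neg hG hP hadj (mem_filter.1 hw).2 (w := v) fun h => by
    have := hmem w v h
    rw [SimpleGraph.dist_comm] at this
    omega
  refine two_neg (BF_comm hP) ha hx1 hy1 ?_
  rw [BF_eq]
  refine sum_eq_zero fun s _ => ?_
  rw [mulVec_eq, mul_sum]
  refine sum_eq_zero fun t _ => ?_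
  by_contra hne
  simp only [mul_eq_zero, not_or] at hne
  have h1 := hnear v s (hx2 s hne.1)
  have h2 := hnear w t (hy2 t hne.2.2)
  have h3 := dist_le_succ hG v (hloc s t hne.2.1)
  have h4 := hG.dist_triangle (u := v) (v := t) (w := w)
  rw [SimpleGraph.dist_comm] at h2
  omega

omit [Fintype V] in
lemma isHermitian_schr [DecidableRel G.Adj] (D : V → ℝ) :
    (diagonal D + G.adjMatrix ℝ).IsHermitian :=
  (isHermitian_diagonal D).add (G.isHermitian_adjMatrix ℝ)

/-- The explicit upper bound. -/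
theorem mult_le [DecidableRel G.Adj] (hG : G.Connected) {Δ : ℕ} (hΔ : G.maxDegree ≤ Δ)
    (D : V → ℝ) (hM : (diagonal D + G.adjMatrix ℝ).IsHermitian) (j : Fin (Fintype.card V))
    (hj : (j : ℕ) = 1) (ρ : ℕ) {R : ℕ} (hR : 1 ≤ R) {ε : ℝ} (h0 : 0 ≤ ε) (h1 : ε ≤ 1) :
    ((univ.filter fun i => hM.eigenvalues₀ i = hM.eigenvalues₀ j).card : ℝ)
      ≤ (2 / R + ε + 2 * (1 - ε) ^ ρ) * Fintype.card V + (Δ + 1) ^ (2 * (ρ + R) + 3) := by
  rw [← finrank_ker_shift]
  obtain ⟨a, ha⟩ := exists_hyperplane hM j hj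
  set P := hM.eigenvalues₀ j • (1 : Matrix V V ℝ) - (diagonal D + G.adjMatrix ℝ) with hPdef
  have hent : ∀ s t, s ≠ t → P s t = -(if G.Adj s t then 1 else 0) := fun s t hst => by
    simp [hPdef, hst, SimpleGraph.adjMatrix_apply]
  have hP : ZM P := by
    refine ⟨fun s t => ?_, fun s t hst => ?_⟩
    · by_cases hst : s = t
      · rw [hst]
      · rw [hent s t hst, hent t s (Ne.symm hst)]
        simp only [G.adj_comm]
    · rw [hent s t hst]
      split_ifs <;> norm_num
  have hloc : ∀ s t, P s t ≠ 0 → s = t ∨ G.Adj s t := by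
    intro s t h
    by_contra hc
    push Not at hc
    exact h (by simp [hent s t hc.1, hc.2])
  have hadj : ∀ s t, G.Adj s t → P s t < 0 := fun s t h => by simp [hent s t h.ne, h]
  obtain ⟨N, hN1, hN2⟩ := card_bad_le hG hΔ hP hloc hadj ha (ρ + R)
  have h2 := finrank_ker_le' hG hP hloc ρ hR h0 h1 N hN2
  have h3 : (N.card : ℝ) ≤ (Δ + 1) ^ (2 * (ρ + R) + 3) := by exact_mod_cast hN1
  linarith

/-- The choice of parameters. -/
lemma asymp (Δ : ℕ) : ∃ C : ℝ, ∃ N : ℕ, ∀ n : ℕ, N ≤ n → ∃ r : ℕ, ∃ ε : ℝ, 1 ≤ r ∧ 0 ≤ ε ∧ ε ≤ 1 ∧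
    (2 / r + ε + 2 * (1 - ε) ^ r) * n + (Δ + 1) ^ (2 * (r + r) + 3)
      ≤ C * (n * Real.log (Real.log n) / Real.log n) := by
  set b : ℝ := Δ + 2 with hb
  have hb2 : 2 ≤ b := by rw [hb]; linarith [Nat.cast_nonneg (α := ℝ) Δ]
  have hlb : 1 / 2 ≤ Real.log b := by
    have := Real.log_le_log (by norm_num) hb2
    linarith [Real.log_two_gt_d9]
  have hev : ∀ᶠ n : ℕ in Filter.atTop, 16 * Real.log b ≤ Real.log n ∧
      1 ≤ Real.log (Real.log n) := by
    have h1 : Filter.Tendsto (fun n : ℕ => Real.log n) Filter.atTop Filter.atTop :=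
      Real.tendsto_log_atTop.comp tendsto_natCast_atTop_atTop
    exact (h1.eventually_ge_atTop _).and
      ((Real.tendsto_log_atTop.comp h1).eventually_ge_atTop _)
  obtain ⟨N, hN⟩ := Filter.eventually_atTop.1 hev
  refine ⟨80 * Real.log b + 2 * b ^ 3, N, fun n hn => ?_⟩
  obtain ⟨h1, h2⟩ := hN n hn
  set L := Real.log n with hL
  have hLpos : 0 < L := by linarith
  have hn1 : (1 : ℝ) < n := by
    by_contra h
    have := Real.log_nonpos (Nat.cast_nonneg n) (not_lt.1 h)
    linarith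
  set r := ⌊L / (8 * Real.log b)⌋₊ with hr
  have hq : 2 ≤ L / (8 * Real.log b) := by
    rw [le_div_iff₀ (by linarith)]; linarith
  have hr1 : (r : ℝ) ≤ L / (8 * Real.log b) := Nat.floor_le (by linarith)
  have hr2 : L / (8 * Real.log b) < r + 1 := Nat.lt_floor_add_one _
  have hr3 : (1 : ℝ) ≤ r := by linarith
  have hrpos : (0 : ℝ) < r := by linarith
  have hlr0 : 0 ≤ Real.log r := Real.log_nonneg hr3
  have hlr1 : Real.log r ≤ r := (Real.log_le_sub_one_of_pos hrpos).trans (by linarith)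
  refine ⟨r, Real.log r / r, by exact_mod_cast hr3, div_nonneg hlr0 hrpos.le,
    (div_le_one hrpos).2 hlr1, ?_⟩
  have e1 : (1 - Real.log r / r) ^ r ≤ 1 / r := by
    have := Real.one_sub_div_pow_le_exp_neg (n := r) (t := Real.log r) hlr1
    rwa [Real.exp_neg, Real.exp_log hrpos, ← one_div] at this
  have e2 : 1 / (r : ℝ) ≤ 16 * Real.log b / L := by
    rw [div_le_div_iff₀ hrpos hLpos]
    rw [div_lt_iff₀ (by linarith)] at hr2
    nlinarith
  have e3 : Real.log r ≤ Real.log L := by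
    refine Real.log_le_log hrpos (hr1.trans ?_)
    rw [div_le_iff₀ (by linarith)]
    nlinarith
  have e4 : 2 / r + Real.log r / r + 2 * (1 - Real.log r / r) ^ r
      ≤ 80 * Real.log b * (Real.log L / L) := by
    have : 2 / r + Real.log r / r + 2 * (1 / r) = (4 + Real.log r) * (1 / r) := by ring
    have h3 : (4 + Real.log r) * (1 / r) ≤ (5 * Real.log L) * (16 * Real.log b / L) :=
      mul_le_mul (by linarith) e2 (by positivity) (by linarith)
    have h4 : (5 * Real.log L) * (16 * Real.log b / L) = 80 * Real.log b * (Real.log L / L) := by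
      ring
    linarith
  have e5 : ((Δ : ℝ) + 1) ^ (2 * (r + r) + 3) ≤ b ^ 3 * √n := by
    have h3 : ((Δ : ℝ) + 1) ^ (2 * (r + r) + 3) ≤ b ^ (2 * (r + r) + 3) :=
      pow_le_pow_left₀ (by positivity) (by linarith) _
    refine h3.trans ?_
    rw [pow_add, mul_comm]
    refine mul_le_mul_of_nonneg_left ?_ (by positivity)
    refine Real.le_sqrt_of_sq_le ?_
    rw [← pow_mul, ← Real.exp_log (show 0 < b by linarith), ← Real.exp_nat_mul,
      ← Real.exp_log (show (0 : ℝ) < n by linarith)]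
    refine Real.exp_le_exp.2 ?_
    rw [le_div_iff₀ (by linarith)] at hr1
    push_cast
    linarith
  have e6 : √(n : ℝ) ≤ 2 * (n * Real.log L / L) := by
    have hs : 0 < √(n : ℝ) := Real.sqrt_pos.2 (by linarith)
    have h3 : L ≤ 2 * √n := by
      have h4 := Real.log_le_sub_one_of_pos hs
      rw [Real.log_sqrt (by linarith)] at h4
      linarith
    have h4 : √(n : ℝ) * √n = n := Real.mul_self_sqrt (by linarith)
    rw [← mul_div_assoc, le_div_iff₀ hLpos]
    nlinarith
  have e7 := mul_le_mul_of_nonneg_right e4 (show (0 : ℝ) ≤ n by linarith)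
  have e8 := mul_le_mul_of_nonneg_left e6 (show 0 ≤ b ^ 3 by positivity)
  have e9 : (80 * Real.log b + 2 * b ^ 3) * (n * Real.log L / L)
      = 80 * Real.log b * (Real.log L / L) * n + b ^ 3 * (2 * (n * Real.log L / L)) := by ring
  linarith

theorem upper (Δ : ℕ) : ∃ C : ℝ, ∃ N : ℕ, ∀ n : ℕ, N ≤ n →
    ∀ (G : SimpleGraph (Fin n)) [DecidableRel G.Adj], G.Connected → G.maxDegree ≤ Δ →
    ∀ (D : Fin n → ℝ) (hM : (diagonal D + G.adjMatrix ℝ).IsHermitian)
      (j : Fin (Fintype.card (Fin n))), (j : ℕ) = 1 →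
      ((univ.filter fun i => hM.eigenvalues₀ i = hM.eigenvalues₀ j).card : ℝ)
        ≤ C * (n * Real.log (Real.log n) / Real.log n) := by
  obtain ⟨C, N, h⟩ := asymp Δ
  refine ⟨C, N, fun n hn G _ hG hΔ D hM j hj => ?_⟩
  obtain ⟨r, ε, h1, h2, h3, h4⟩ := h n hn
  have := mult_le hG hΔ D hM j hj r h1 h2 h3
  have e : (Fintype.card (Fin n) : ℝ) = n := by simp
  rw [e] at this
  exact this.trans h4

end Pool.Agent.P.MP_1ec91f_co
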